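import Mathlib
import Pool.Agent.Lib.MP_663568_nul.SepDil
import Pool.Agent.Lib.MP_663568_nul.Step

/-!
# Bump functions on the torus, the logarithmic transfer with explicit constant, long windows
-/

set_option autoImplicit false
open Finset MeasureTheory

namespace Pool.Agent.Lib.MP_663568_nt.H6

open Katai Nul

section Bump

variable {σ : Type} [Fintype σ]

/-- A bump function for the inner `1 / R`-parallel body of `𝒜` modulo `1`. -/
lemma bump (𝒜 : Set (σ → ℝ)) (R : ℝ) (hR : 1 ≤ R) : ∃ φ : (σ → ℝ) → ℝ, Continuous φ ∧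
    (∀ x, 0 ≤ φ x) ∧ (∀ x, φ x ≤ 1) ∧ (∀ x y, φ y ≤ φ x + R * ∑ s, nd (x s - y s)) ∧
    (∀ x, φ x ≠ 0 → ∃ z : σ → ℤ, (fun s => x s + z s) ∈ 𝒜) ∧
    (volume {x : σ → ℝ | x ∈ Set.Icc (0 : σ → ℝ) 1 ∧ ∀ y : σ → ℝ, (∀ s, |y s - x s| ≤ 1 / R) →
      ∃ z : σ → ℤ, (fun s => y s + z s) ∈ 𝒜}).toReal ≤ ∫ x in Set.Icc (0 : σ → ℝ) 1, φ x := by
  classical
  have hR0 : 0 < R := by linarith
  set V : Set (σ → ℝ) := {x | ∀ y : σ → ℝ, (∀ s, |y s - x s| ≤ 1 / R) →
      ∃ z : σ → ℤ, (fun s => y s + z s) ∈ 𝒜} with hV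
  rcases V.eq_empty_or_nonempty with hVe | hVn
  · refine ⟨fun _ => 0, continuous_const, fun _ => le_rfl, fun _ => zero_le_one, fun x y => ?_,
      fun x h => absurd rfl h, ?_⟩
    · have : 0 ≤ ∑ s, nd (x s - y s) := sum_nonneg fun s _ => nd_nonneg _
      positivity
    · have h1 : {x : σ → ℝ | x ∈ Set.Icc (0 : σ → ℝ) 1 ∧ ∀ y : σ → ℝ,
          (∀ s, |y s - x s| ≤ 1 / R) → ∃ z : σ → ℤ, (fun s => y s + z s) ∈ 𝒜} = ∅ := by
        ext x
        simp only [Set.mem_ofPred_eq, Set.mem_empty_iff_false, iff_false]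
        intro h
        have : x ∈ V := h.2
        rw [hVe] at this
        exact this
      rw [h1]
      simp
  have hper : ∀ x ∈ V, ∀ m : σ → ℤ, (fun s => x s + m s) ∈ V := by
    intro x hx m y hy
    obtain ⟨z, hz⟩ := hx (fun s => y s - m s) (fun s => by
      have := hy s
      have e : y s - m s - x s = y s - (x s + m s) := by ring
      rw [e]; exact this)
    refine ⟨fun s => z s - m s, ?_⟩
    have e : (fun s => y s + ((z s - m s : ℤ) : ℝ)) = fun s => y s - m s + z s := by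
      funext s; push_cast; ring
    rw [e]
    exact hz
  have hLip : ∀ x y : σ → ℝ, Metric.infDist x V ≤ Metric.infDist y V + ∑ s, nd (x s - y s) := by
    intro x y
    rw [← sub_le_iff_le_add, Metric.le_infDist hVn]
    intro v hv
    choose m hm using fun s => nd_exists (x s - y s)
    have h1 := Metric.infDist_le_dist_of_mem (x := x) (hper v hv m)
    have h2 : dist x (fun s => v s + m s) ≤ dist y v + ∑ s, nd (x s - y s) := by
      have h0 : 0 ≤ ∑ s, nd (x s - y s) := sum_nonneg fun s _ => nd_nonneg _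
      rw [dist_pi_le_iff (by positivity)]
      intro s
      have h3 : dist (y s) (v s) ≤ dist y v := dist_le_pi_dist y v s
      have h4 : nd (x s - y s) ≤ ∑ s, nd (x s - y s) :=
        single_le_sum (f := fun s => nd (x s - y s)) (fun s _ => nd_nonneg _) (mem_univ s)
      rw [hm s] at h4
      rw [Real.dist_eq] at h3 ⊢
      have e : x s - (v s + m s) = (x s - y s - m s) + (y s - v s) := by ring
      rw [e]
      have h5 := abs_add_le (x s - y s - m s) (y s - v s)
      linarith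
    linarith
  refine ⟨fun x => max 0 (1 - R * Metric.infDist x V), ?_, fun x => le_max_left _ _, ?_, ?_, ?_, ?_⟩
  · have := Metric.continuous_infDist_pt V
    fun_prop
  · intro x
    have : 0 ≤ Metric.infDist x V := Metric.infDist_nonneg
    apply max_le zero_le_one
    nlinarith
  · intro x y
    have h0 : 0 ≤ ∑ s, nd (x s - y s) := sum_nonneg fun s _ => nd_nonneg _
    have h1 := hLip x y
    have h2 : 1 - R * Metric.infDist x V ≤ max 0 (1 - R * Metric.infDist x V) := le_max_right _ _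
    have h3 : 0 ≤ max 0 (1 - R * Metric.infDist x V) := le_max_left _ _
    beta_reduce
    apply max_le
    · positivity
    · nlinarith
  · intro x hx
    have h1 : Metric.infDist x V < 1 / R := by
      by_contra hcon
      push Not at hcon
      apply hx
      rw [div_le_iff₀ hR0] at hcon
      apply max_eq_left
      linarith
    obtain ⟨v, hv, hxv⟩ := (Metric.infDist_lt_iff hVn).mp h1
    refine hv x fun s => ?_
    have h3 : dist (x s) (v s) ≤ dist x v := dist_le_pi_dist x v s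
    rw [Real.dist_eq] at h3
    linarith
  · set φ : (σ → ℝ) → ℝ := fun x => max 0 (1 - R * Metric.infDist x V) with hφ
    have hφc : Continuous φ := by
      have := Metric.continuous_infDist_pt V
      fun_prop
    have hint : Integrable φ (volume.restrict (Set.Icc (0 : σ → ℝ) 1)) :=
      hφc.continuousOn.integrableOn_compact isCompact_Icc
    have h1 := mul_meas_ge_le_integral_of_nonneg
      (μ := volume.restrict (Set.Icc (0 : σ → ℝ) 1)) (f := φ)
      (Filter.Eventually.of_forall fun x => le_max_left _ _) hint 1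
    rw [one_mul] at h1
    refine le_trans ?_ h1
    rw [Measure.real]
    apply ENNReal.toReal_mono
    · refine ((measure_mono (Set.subset_univ _)).trans_lt ?_).ne
      rw [Measure.restrict_apply_univ]
      exact isCompact_Icc.measure_lt_top
    · rw [Measure.restrict_apply' measurableSet_Icc]
      apply measure_mono
      intro x hx
      refine ⟨?_, hx.1⟩
      have hxV : x ∈ V := hx.2
      have h2 : Metric.infDist x V = 0 := Metric.infDist_zero_of_mem hxV
      simp only [Set.mem_ofPred_eq, hφ, h2, mul_zero, sub_zero]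
      exact le_max_right _ _

end Bump

/-- Logarithmic averages are nearly invariant under dilations: upper bound. -/
theorem log_upper (d : ℕ) (hd : 0 < d) (g : ℕ → ℝ) (M : ℝ) (h0 : ∀ n, 0 ≤ g n)
    (hM : ∀ n, g n ≤ M) (N : ℕ) : ∑ n ∈ Icc 1 N, (1 / (n : ℝ)) * g (n / d) ≤
      ∑ m ∈ Icc 1 N, (1 / (m : ℝ)) * g m + (1 + Real.log d) * M := by
  have hM0 : 0 ≤ M := (h0 0).trans (hM 0)
  have hdr : (0 : ℝ) < d := by exact_mod_cast hd
  have hh0 : ∀ n : ℕ, 0 ≤ (1 / (n : ℝ)) * g (n / d) := fun n => mul_nonneg (by positivity) (h0 _)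
  have hg0 : ∀ n : ℕ, 0 ≤ (1 / (n : ℝ)) * g n := fun n => mul_nonneg (by positivity) (h0 _)
  have hdiv : ∀ m r : ℕ, r ∈ range d → (d * m + r) / d = m := by
    intro m r hr
    rw [mem_range] at hr
    rw [Nat.mul_add_div hd, Nat.div_eq_of_lt hr, add_zero]
  have hNd : N < d * (N / d + 1) := by
    have := Nat.lt_div_mul_add hd (a := N)
    linarith [mul_comm d (N / d)]
  have hsub : Icc 1 N ⊆ Icc 1 d ∪ Ico d (d * (N / d + 1)) := by
    intro n hn
    rw [mem_Icc] at hn
    rw [mem_union, mem_Icc, mem_Ico]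
    omega
  have h1 : ∑ n ∈ Icc 1 N, (1 / (n : ℝ)) * g (n / d) ≤
      ∑ n ∈ Icc 1 d, (1 / (n : ℝ)) * g (n / d) +
      ∑ n ∈ Ico d (d * (N / d + 1)), (1 / (n : ℝ)) * g (n / d) := by
    refine (sum_le_sum_of_subset_of_nonneg hsub fun n _ _ => hh0 n).trans ?_
    have k1 := sum_union_inter (s₁ := Icc 1 d) (s₂ := Ico d (d * (N / d + 1)))
      (f := fun n : ℕ => (1 / (n : ℝ)) * g (n / d))
    have k2 : 0 ≤ ∑ n ∈ Icc 1 d ∩ Ico d (d * (N / d + 1)), (1 / (n : ℝ)) * g (n / d) :=
      sum_nonneg fun n _ => hh0 n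
    linarith
  have h2 : ∑ n ∈ Icc 1 d, (1 / (n : ℝ)) * g (n / d) ≤ (1 + Real.log d) * M := by
    calc _ ≤ ∑ n ∈ Icc 1 d, (1 / (n : ℝ)) * M :=
          sum_le_sum fun n _ => mul_le_mul_of_nonneg_left (hM _) (by positivity)
      _ = (∑ n ∈ Icc 1 d, (1 / (n : ℝ))) * M := by rw [sum_mul]
      _ ≤ _ := mul_le_mul_of_nonneg_right (sum_inv_le_log d) hM0
  have h3 : ∑ n ∈ Ico d (d * (N / d + 1)), (1 / (n : ℝ)) * g (n / d) ≤
      ∑ m ∈ Icc 1 N, (1 / (m : ℝ)) * g m := by
    rw [blocks (fun n => (1 / (n : ℝ)) * g (n / d)) d (N / d)]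
    calc _ ≤ ∑ m ∈ Ico 1 (N / d + 1), (1 / (m : ℝ)) * g m := by
          refine sum_le_sum fun m hm => ?_
          rw [mem_Ico] at hm
          have hmr : (0 : ℝ) < m := by exact_mod_cast hm.1
          calc ∑ r ∈ range d, (1 / ((d * m + r : ℕ) : ℝ)) * g ((d * m + r) / d)
              ≤ ∑ r ∈ range d, (1 / ((d : ℝ) * m)) * g m := by
                refine sum_le_sum fun r hr => ?_
                rw [hdiv m r hr]
                refine mul_le_mul_of_nonneg_right ?_ (h0 m)
                apply one_div_le_one_div_of_le (by positivity)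
                push_cast
                linarith [Nat.cast_nonneg (α := ℝ) r]
            _ = (1 / (m : ℝ)) * g m := by
                rw [sum_const, card_range, nsmul_eq_mul]
                field_simp
      _ ≤ _ := by
          apply sum_le_sum_of_subset_of_nonneg
          · intro m hm
            rw [mem_Ico] at hm
            rw [mem_Icc]
            have := Nat.div_le_self N d
            omega
          · intro m _ _; exact hg0 m
  linarith

/-- long windows, with explicit constants -/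
lemma longH_of (P P' : Finset ℕ) (hP : ∀ p ∈ P, p.Prime) (hP' : ∀ p ∈ P', p.Prime) (Z : ℝ)
    (hZ1 : 1 ≤ Z) (hZ : ∀ p ∈ P, (p : ℝ) ≤ Z) (hZ' : ∀ p ∈ P', (p : ℝ) ≤ Z) (η : ℝ) (hη : 0 < η)
    (hη1 : η ≤ 1) (H : ℕ) (hH : 13 * Z ^ 3 / η ≤ H) : LongH P P' η H := by
  have hcard : ∀ Q : Finset ℕ, (∀ p ∈ Q, p.Prime) → (∀ p ∈ Q, (p : ℝ) ≤ Z) → (Q.card : ℝ) ≤ Z := by
    intro Q hQ hQZ
    have h1 : Q ⊆ Icc 1 ⌊Z⌋₊ := by
      intro p hp
      rw [mem_Icc]
      exact ⟨(hQ p hp).one_le, Nat.le_floor (hQZ p hp)⟩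
    have h2 := card_le_card h1
    rw [Nat.card_Icc, Nat.add_sub_cancel] at h2
    calc (Q.card : ℝ) ≤ (⌊Z⌋₊ : ℝ) := by exact_mod_cast h2
      _ ≤ Z := Nat.floor_le (by linarith)
  have hc := hcard P hP hZ
  have hc' := hcard P' hP' hZ'
  have hZ2 : Z ≤ Z ^ 2 := by nlinarith
  have hZ3 : Z ^ 2 ≤ Z ^ 3 := by nlinarith [mul_le_mul_of_nonneg_left hZ1 (sq_nonneg Z)]
  have h13 : 13 * Z ^ 3 ≤ 13 * Z ^ 3 / η := by
    rw [le_div_iff₀ hη]
    have : 0 ≤ 13 * Z ^ 3 := by positivity
    nlinarith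
  have hH3 : 13 * Z ^ 3 ≤ (H : ℝ) := h13.trans hH
  have hHr : (1 : ℝ) ≤ H := by nlinarith
  have hdiv : ∀ p ∈ P, 12 * Z ^ 2 / η ≤ ((H / p : ℕ) : ℝ) := by
    intro p hp
    have hp0 : (0 : ℝ) < p := by exact_mod_cast (hP p hp).pos
    have h1 : (H : ℝ) / p - 1 ≤ ((H / p : ℕ) : ℝ) := div_ge_real H p (hP p hp).pos
    have h2 : 13 * Z ^ 2 / η ≤ (H : ℝ) / p := by
      rw [le_div_iff₀ hp0]
      calc 13 * Z ^ 2 / η * p ≤ 13 * Z ^ 2 / η * Z :=
            mul_le_mul_of_nonneg_left (hZ p hp) (by positivity)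
        _ = 13 * Z ^ 3 / η := by ring
        _ ≤ H := hH
    have h3 : 1 ≤ Z ^ 2 / η := by
      rw [le_div_iff₀ hη]; nlinarith
    have h4 : 13 * Z ^ 2 / η = 12 * Z ^ 2 / η + Z ^ 2 / η := by ring
    linarith
  have hZη : ∀ c : ℝ, 0 ≤ c → c * Z ^ 2 ≤ c * Z ^ 2 / η := by
    intro c hc
    rw [le_div_iff₀ hη]
    have : 0 ≤ c * Z ^ 2 := by positivity
    nlinarith
  have h12 := hZη 12 (by norm_num)
  refine ⟨by exact_mod_cast (show (0 : ℝ) < H by linarith), fun p hp => ?_, Z, hZ, hZ', ?_, ?_,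
    fun p hp => ⟨?_, ?_⟩⟩
  · have h1 := hdiv p hp
    have h2 : (0 : ℝ) < ((H / p : ℕ) : ℝ) := by nlinarith
    exact_mod_cast h2
  · nlinarith
  · refine le_trans ?_ hH
    gcongr
    · norm_num
    · nlinarith
  · have h1 := hdiv p hp
    nlinarith
  · refine le_trans ?_ (hdiv p hp)
    gcongr

end Pool.Agent.Lib.MP_663568_nt.H6
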