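import Mathlib
import Pool.Agent.Lib.MP_663568_nul.Base

/-!
# Averages of Lipschitz functions along well distributed points, by the Fejer kernel
-/

set_option autoImplicit false
open Finset MeasureTheory

namespace Pool.Agent.Lib.MP_663568_nt.H6

open Katai Nul

/-- the Fejer kernel -/
noncomputable def FK (K : ℕ) (y : ℝ) : ℝ := ‖∑ j ∈ range K, ee ((j : ℝ) * y)‖ ^ 2 / K

lemma FK_nonneg (K : ℕ) (y : ℝ) : 0 ≤ FK K y := by unfold FK; positivity

lemma sq_expand (K : ℕ) (y : ℝ) : ((‖∑ j ∈ range K, ee ((j : ℝ) * y)‖ ^ 2 : ℝ) : ℂ) =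
    ∑ j ∈ range K, ∑ l ∈ range K, ee (((j : ℝ) - l) * y) := by
  push_cast
  rw [← Complex.mul_conj', map_sum, sum_mul_sum]
  refine sum_congr rfl fun j _ => sum_congr rfl fun l _ => ?_
  rw [sub_mul, ee_sub]

lemma ee_zero' : ee 0 = 1 := by simpa using ee_int 0

lemma conj_sum_ee {ι : Type} (S : Finset ι) (w : ι → ℝ) (x : ι → ℝ) (c : ℝ) :
    ‖∑ z ∈ S, (w z : ℂ) * ee ((-c) * x z)‖ = ‖∑ z ∈ S, (w z : ℂ) * ee (c * x z)‖ := by
  rw [← Complex.norm_conj, map_sum]
  congr 1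
  refine sum_congr rfl fun z _ => ?_
  rw [map_mul, Complex.conj_ofReal, conj_ee]
  congr 2
  ring

lemma fejer_lower {ι : Type} (S : Finset ι) (w : ι → ℝ) (x : ι → ℝ) (K : ℕ)
    (hK : 1 ≤ K) (η : ℝ) (hW : 0 ≤ ∑ z ∈ S, w z) (hη : 0 ≤ η)
    (h : ∀ k ∈ Icc 1 K, ‖∑ z ∈ S, (w z : ℂ) * ee ((k : ℝ) * x z)‖ ≤ η * ∑ z ∈ S, w z) (y : ℝ) :
    (1 - K * η) * ∑ z ∈ S, w z ≤ ∑ z ∈ S, w z * FK K (x z - y) := by
  set W : ℝ := ∑ z ∈ S, w z with hWd
  have hKr : (0 : ℝ) < K := by exact_mod_cast hK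
  have e1 : ((∑ z ∈ S, w z * ‖∑ j ∈ range K, ee ((j : ℝ) * (x z - y))‖ ^ 2 : ℝ) : ℂ) =
      ∑ j ∈ range K, ∑ l ∈ range K, ∑ z ∈ S, (w z : ℂ) * ee (((j : ℝ) - l) * (x z - y)) := by
    push_cast
    have : ∀ z ∈ S, (w z : ℂ) * ((‖∑ j ∈ range K, ee ((j : ℝ) * (x z - y))‖ : ℝ) : ℂ) ^ 2 =
        ∑ j ∈ range K, ∑ l ∈ range K, (w z : ℂ) * ee (((j : ℝ) - l) * (x z - y)) := by
      intro z _
      have := sq_expand K (x z - y)
      push_cast at this
      rw [this, mul_sum]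
      exact sum_congr rfl fun j _ => mul_sum _ _ _
    rw [sum_congr rfl this, sum_comm]
    refine sum_congr rfl fun j _ => ?_
    rw [sum_comm]
  have h2 : ∀ j ∈ range K, ∀ l ∈ range K, (if j = l then W else - (η * W)) ≤
      (∑ z ∈ S, (w z : ℂ) * ee (((j : ℝ) - l) * (x z - y))).re := by
    intro j hj l hl
    rw [mem_range] at hj hl
    by_cases hjl : j = l
    · rw [if_pos hjl, hjl, sub_self]
      simp only [zero_mul, ee_zero', mul_one]
      rw [← Complex.ofReal_sum, Complex.ofReal_re]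
    · rw [if_neg hjl]
      have h3 : ‖∑ z ∈ S, (w z : ℂ) * ee (((j : ℝ) - l) * (x z - y))‖ =
          ‖∑ z ∈ S, (w z : ℂ) * ee (((j : ℝ) - l) * x z)‖ := by
        have : ∑ z ∈ S, (w z : ℂ) * ee (((j : ℝ) - l) * (x z - y)) =
            (∑ z ∈ S, (w z : ℂ) * ee (((j : ℝ) - l) * x z)) * ee (-(((j : ℝ) - l) * y)) := by
          rw [sum_mul]
          refine sum_congr rfl fun z _ => ?_
          rw [mul_assoc, ← ee_add]
          congr 2; ring
        rw [this, norm_mul, norm_ee, mul_one]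
      have h4 : ‖∑ z ∈ S, (w z : ℂ) * ee (((j : ℝ) - l) * x z)‖ ≤ η * W := by
        rcases lt_or_gt_of_ne hjl with hlt | hgt
        · have h5 := h (l - j) (by rw [mem_Icc]; omega)
          have h6 : ((l - j : ℕ) : ℝ) = -((j : ℝ) - l) := by
            rw [Nat.cast_sub hlt.le]; ring
          rw [h6, conj_sum_ee] at h5
          exact h5
        · have h5 := h (j - l) (by rw [mem_Icc]; omega)
          have h6 : ((j - l : ℕ) : ℝ) = (j : ℝ) - l := by
            rw [Nat.cast_sub hgt.le]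
          rw [h6] at h5
          exact h5
      have h5 := Complex.abs_re_le_norm (∑ z ∈ S, (w z : ℂ) * ee (((j : ℝ) - l) * (x z - y)))
      rw [h3] at h5
      have h6 := (abs_le.mp (h5.trans h4)).1
      exact h6
  have h3 : ∑ j ∈ range K, ∑ l ∈ range K, (if j = l then W else - (η * W)) ≤
      ∑ z ∈ S, w z * ‖∑ j ∈ range K, ee ((j : ℝ) * (x z - y))‖ ^ 2 := by
    have h4 : (∑ z ∈ S, w z * ‖∑ j ∈ range K, ee ((j : ℝ) * (x z - y))‖ ^ 2) =
        (∑ j ∈ range K, ∑ l ∈ range K, ∑ z ∈ S, (w z : ℂ) *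
          ee (((j : ℝ) - l) * (x z - y))).re := by
      rw [← e1, Complex.ofReal_re]
    rw [h4, Complex.re_sum]
    refine sum_le_sum fun j hj => ?_
    rw [Complex.re_sum]
    exact sum_le_sum fun l hl => h2 j hj l hl
  have h4 : (K : ℝ) * ((1 - K * η) * W) ≤ ∑ j ∈ range K, ∑ l ∈ range K,
      (if j = l then W else - (η * W)) := by
    have h5 : ∀ j ∈ range K, (1 - K * η) * W ≤ ∑ l ∈ range K, (if j = l then W else - (η * W)) := by
      intro j hj
      have h6 : ∀ l ∈ range K, (if j = l then W else 0) - η * W ≤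
          (if j = l then W else - (η * W)) := by
        intro l _
        have : 0 ≤ η * W := mul_nonneg hη hW
        split_ifs <;> linarith
      refine le_trans (le_of_eq ?_) (sum_le_sum h6)
      rw [sum_sub_distrib, sum_ite_eq, if_pos hj, sum_const, card_range, nsmul_eq_mul]
      ring
    calc (K : ℝ) * ((1 - K * η) * W) = ∑ j ∈ range K, (1 - K * η) * W := by
          rw [sum_const, card_range, nsmul_eq_mul]
      _ ≤ _ := sum_le_sum h5
  have h5 : ∑ z ∈ S, w z * FK K (x z - y) =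
      (∑ z ∈ S, w z * ‖∑ j ∈ range K, ee ((j : ℝ) * (x z - y))‖ ^ 2) / K := by
    rw [sum_div]
    exact sum_congr rfl fun z _ => by rw [FK, mul_div_assoc]
  rw [h5, le_div_iff₀ hKr]
  linarith

lemma norm_geom_le (K : ℕ) (y : ℝ) : ‖∑ j ∈ range K, ee ((j : ℝ) * y)‖ * (4 * nd y) ≤ 2 := by
  have h1 : (∑ j ∈ range K, ee ((j : ℝ) * y)) * (1 - ee y) = 1 - ee ((K : ℝ) * y) := by
    induction K with
    | zero => simp [ee_zero']
    | succ K ih =>
      rw [sum_range_succ, add_mul, ih]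
      have : ee (((K + 1 : ℕ) : ℝ) * y) = ee ((K : ℝ) * y) * ee y := by
        rw [← ee_add]; congr 1; push_cast; ring
      rw [this]; ring
  have h2 := nd_le_norm_one_sub_ee y
  calc ‖∑ j ∈ range K, ee ((j : ℝ) * y)‖ * (4 * nd y)
      ≤ ‖∑ j ∈ range K, ee ((j : ℝ) * y)‖ * ‖1 - ee y‖ :=
        mul_le_mul_of_nonneg_left h2 (norm_nonneg _)
    _ = ‖1 - ee ((K : ℝ) * y)‖ := by rw [← norm_mul, h1]
    _ ≤ ‖(1 : ℂ)‖ + ‖ee ((K : ℝ) * y)‖ := norm_sub_le _ _
    _ = 2 := by rw [norm_one, norm_ee]; norm_num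

lemma nd_mul_FK (K : ℕ) (hK : 1 ≤ K) (y τ : ℝ) (hτ : 0 < τ) :
    nd y * FK K y ≤ τ * FK K y + 1 / (4 * K * τ) := by
  have hKr : (0 : ℝ) < K := by exact_mod_cast hK
  have hF := FK_nonneg K y
  rcases le_or_gt (nd y) τ with h | h
  · have : nd y * FK K y ≤ τ * FK K y := mul_le_mul_of_nonneg_right h hF
    have : 0 ≤ 1 / (4 * K * τ) := by positivity
    linarith
  · have h0 : 0 < nd y := hτ.trans h
    have h1 := norm_geom_le K y
    set s := ‖∑ j ∈ range K, ee ((j : ℝ) * y)‖ with hs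
    have hs0 : 0 ≤ s := norm_nonneg _
    have h2 : s * (2 * nd y) ≤ 1 := by linarith
    have h3 : nd y * FK K y ≤ 1 / (4 * K * τ) := by
      have e : FK K y = s ^ 2 / K := rfl
      rw [e, ← mul_div_assoc, div_le_div_iff₀ hKr (by positivity), one_mul]
      have h4 : (s * (2 * nd y)) ^ 2 ≤ 1 := by
        have : 0 ≤ s * (2 * nd y) := by positivity
        nlinarith
      have h5 : nd y * s ^ 2 * (4 * τ) ≤ 1 := by
        calc nd y * s ^ 2 * (4 * τ) ≤ nd y * s ^ 2 * (4 * nd y) := by gcongr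
          _ = (s * (2 * nd y)) ^ 2 := by ring
          _ ≤ 1 := h4
      calc nd y * s ^ 2 * (4 * (K : ℝ) * τ) = (nd y * s ^ 2 * (4 * τ)) * (K : ℝ) := by ring
        _ ≤ 1 * (K : ℝ) := mul_le_mul_of_nonneg_right h5 hKr.le
        _ = (K : ℝ) := one_mul _
    have : 0 ≤ τ * FK K y := mul_nonneg hτ.le hF
    linarith

lemma continuous_FK (K : ℕ) : Continuous (FK K) := by
  unfold FK
  have := continuous_ee
  fun_prop

lemma integral_ee_shift (m : ℤ) (hm : m ≠ 0) (x : ℝ) :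
    ∫ y in (0 : ℝ)..1, ee ((m : ℝ) * (x - y)) = 0 := by
  have h1 : ∀ y : ℝ, ee ((m : ℝ) * (x - y)) = ee ((m : ℝ) * x) * ee (((-m : ℤ) : ℝ) * y) := by
    intro y
    rw [← ee_add]; congr 1; push_cast; ring
  simp only [h1]
  rw [intervalIntegral.integral_const_mul]
  have h2 : ∫ y in (0 : ℝ)..1, ee (((-m : ℤ) : ℝ) * y) = 0 := by
    have hc : (2 * Real.pi * Complex.I * (-m : ℤ) : ℂ) ≠ 0 := by
      have : (((-m : ℤ)) : ℂ) ≠ 0 := by exact_mod_cast neg_ne_zero.mpr hm
      have h2 : (2 * Real.pi * Complex.I : ℂ) ≠ 0 := by simp [Real.pi_ne_zero]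
      exact mul_ne_zero h2 this
    have h1 : ∀ x : ℝ, ee (((-m : ℤ) : ℝ) * x) =
        Complex.exp ((2 * Real.pi * Complex.I * (-m : ℤ) : ℂ) * x) := by
      intro x; rw [ee]; congr 1; push_cast; ring
    simp only [h1]
    rw [integral_exp_mul_complex hc]
    have h2 := ee_int (-m)
    have h3 : Complex.exp ((2 * Real.pi * Complex.I * (-m : ℤ) : ℂ) * ((1 : ℝ) : ℂ)) = 1 := by
      rw [← h2, ee]; congr 1; push_cast; ring
    rw [h3]
    simp
  rw [h2, mul_zero]

lemma integral_FK (K : ℕ) (hK : 1 ≤ K) (x : ℝ) : ∫ y in (0 : ℝ)..1, FK K (x - y) = 1 := by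
  have hKr : (0 : ℝ) < K := by exact_mod_cast hK
  have hcont := continuous_ee
  have h1 : (∫ y in (0 : ℝ)..1,
      ((‖∑ j ∈ range K, ee ((j : ℝ) * (x - y))‖ ^ 2 : ℝ) : ℂ)) = (K : ℂ) := by
    simp only [sq_expand]
    rw [intervalIntegral.integral_finsetSum]
    · have h2 : ∀ j ∈ range K, (∫ y in (0 : ℝ)..1, ∑ l ∈ range K,
          ee (((j : ℝ) - l) * (x - y))) = 1 := by
        intro j hj
        rw [intervalIntegral.integral_finsetSum]
        · rw [sum_eq_single j]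
          · rw [sub_self]
            simp [ee_zero']
          · intro l _ hlj
            have := integral_ee_shift ((j : ℤ) - l) (by
              intro h
              apply hlj
              omega) x
            push_cast at this
            exact this
          · intro h; exact absurd hj h
        · intro l _
          exact (by fun_prop : Continuous fun y : ℝ =>
            ee (((j : ℝ) - l) * (x - y))).intervalIntegrable _ _
      rw [sum_congr rfl h2]
      simp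
    · intro j _
      exact (by fun_prop : Continuous fun y : ℝ => ∑ l ∈ range K,
            ee (((j : ℝ) - l) * (x - y))).intervalIntegrable _ _
  have h2 : (∫ y in (0 : ℝ)..1, ‖∑ j ∈ range K, ee ((j : ℝ) * (x - y))‖ ^ 2) = (K : ℝ) := by
    have h3 := intervalIntegral.integral_ofReal (μ := volume) (a := (0 : ℝ)) (b := 1)
      (f := fun y : ℝ => ‖∑ j ∈ range K, ee ((j : ℝ) * (x - y))‖ ^ 2)
    have h4 : (((∫ y in (0 : ℝ)..1, ‖∑ j ∈ range K, ee ((j : ℝ) * (x - y))‖ ^ 2 : ℝ)) : ℂ) =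
        ((K : ℝ) : ℂ) := by
      rw [← h3]
      simpa using h1
    exact_mod_cast h4
  unfold FK
  rw [intervalIntegral.integral_div, h2]
  field_simp

/-- Averages of Lipschitz functions. -/
lemma fejer_avg {ι : Type} (S : Finset ι) (w : ι → ℝ) (hw : ∀ z ∈ S, 0 ≤ w z) (x : ι → ℝ) (K : ℕ)
    (hK : 1 ≤ K) (η : ℝ) (hη : 0 ≤ η)
    (h : ∀ k ∈ Icc 1 K, ‖∑ z ∈ S, (w z : ℂ) * ee ((k : ℝ) * x z)‖ ≤ η * ∑ z ∈ S, w z)
    (φ : ℝ → ℝ) (hφc : Continuous φ) (hφ0 : ∀ x, 0 ≤ φ x) (R : ℝ) (hR : 0 ≤ R)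
    (hL : ∀ x y, φ y ≤ φ x + R * nd (x - y)) (τ : ℝ) (hτ : 0 < τ) :
    (1 - K * η) * (∑ z ∈ S, w z) * (∫ y in (0 : ℝ)..1, φ y) -
      R * (τ + 1 / (4 * K * τ)) * ∑ z ∈ S, w z ≤ ∑ z ∈ S, w z * φ (x z) := by
  have hW : 0 ≤ ∑ z ∈ S, w z := sum_nonneg hw
  have hFc := continuous_FK K
  have hKr : (0 : ℝ) < K := by exact_mod_cast hK
  have h1 : (1 - K * η) * (∑ z ∈ S, w z) * (∫ y in (0 : ℝ)..1, φ y) ≤
      ∫ y in (0 : ℝ)..1, φ y * ∑ z ∈ S, w z * FK K (x z - y) := by
    rw [← intervalIntegral.integral_const_mul]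
    apply intervalIntegral.integral_mono_on (by norm_num)
    · exact (by fun_prop : Continuous fun y => (1 - K * η) * (∑ z ∈ S, w z) *
        φ y).intervalIntegrable _ _
    · exact (by fun_prop : Continuous fun y => φ y * ∑ z ∈ S, w z *
        FK K (x z - y)).intervalIntegrable _ _
    · intro y _
      have := fejer_lower S w x K hK η hW hη h y
      calc (1 - K * η) * (∑ z ∈ S, w z) * φ y = φ y * ((1 - K * η) * ∑ z ∈ S, w z) := by ring
        _ ≤ _ := mul_le_mul_of_nonneg_left this (hφ0 y)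
  have h2 : (∫ y in (0 : ℝ)..1, φ y * ∑ z ∈ S, w z * FK K (x z - y)) =
      ∑ z ∈ S, w z * ∫ y in (0 : ℝ)..1, φ y * FK K (x z - y) := by
    have e : ∀ y : ℝ, φ y * ∑ z ∈ S, w z * FK K (x z - y) =
        ∑ z ∈ S, w z * (φ y * FK K (x z - y)) := by
      intro y
      rw [mul_sum]
      exact sum_congr rfl fun z _ => by ring
    simp only [e]
    rw [intervalIntegral.integral_finsetSum]
    · exact sum_congr rfl fun z _ => by rw [intervalIntegral.integral_const_mul]
    · intro z _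
      exact (by fun_prop : Continuous fun y => w z * (φ y *
        FK K (x z - y))).intervalIntegrable _ _
  have h3 : ∀ z ∈ S, (∫ y in (0 : ℝ)..1, φ y * FK K (x z - y)) ≤
      φ (x z) + R * (τ + 1 / (4 * K * τ)) := by
    intro z _
    have h4 : (∫ y in (0 : ℝ)..1, φ y * FK K (x z - y)) ≤ ∫ y in (0 : ℝ)..1,
        ((φ (x z) + R * τ) * FK K (x z - y) + R * (1 / (4 * K * τ))) := by
      apply intervalIntegral.integral_mono_on (by norm_num)
      · exact (by fun_prop : Continuous fun y => φ y * FK K (x z - y)).intervalIntegrable _ _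
      · exact (by fun_prop : Continuous fun y => (φ (x z) + R * τ) * FK K (x z - y) +
          R * (1 / (4 * K * τ))).intervalIntegrable _ _
      · intro y _
        have h5 := nd_mul_FK K hK (x z - y) τ hτ
        have h6 := FK_nonneg K (x z - y)
        calc φ y * FK K (x z - y) ≤ (φ (x z) + R * nd (x z - y)) * FK K (x z - y) :=
              mul_le_mul_of_nonneg_right (hL _ _) h6
          _ = φ (x z) * FK K (x z - y) + R * (nd (x z - y) * FK K (x z - y)) := by ring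
          _ ≤ φ (x z) * FK K (x z - y) + R * (τ * FK K (x z - y) + 1 / (4 * K * τ)) := by
              gcongr
          _ = _ := by ring
    refine h4.trans (le_of_eq ?_)
    rw [intervalIntegral.integral_add, intervalIntegral.integral_const_mul, integral_FK K hK]
    · simp
      ring
    · exact (by fun_prop : Continuous fun y => (φ (x z) + R * τ) *
        FK K (x z - y)).intervalIntegrable _ _
    · simp
  have h4 : ∑ z ∈ S, w z * ∫ y in (0 : ℝ)..1, φ y * FK K (x z - y) ≤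
      ∑ z ∈ S, w z * (φ (x z) + R * (τ + 1 / (4 * K * τ))) :=
    sum_le_sum fun z hz => mul_le_mul_of_nonneg_left (h3 z hz) (hw z hz)
  have h5 : ∑ z ∈ S, w z * (φ (x z) + R * (τ + 1 / (4 * K * τ))) =
      ∑ z ∈ S, w z * φ (x z) + R * (τ + 1 / (4 * K * τ)) * ∑ z ∈ S, w z := by
    rw [mul_sum, ← sum_add_distrib]
    exact sum_congr rfl fun z _ => by ring
  linarith

end Pool.Agent.Lib.MP_663568_nt.H6
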