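import Mathlib
import Pool.Agent.Lib.MP_663568_h6.Fejer

/-!
# Averages of Lipschitz functions on a torus along well distributed points
-/

set_option autoImplicit false
open Finset MeasureTheory

namespace Pool.Agent.Lib.MP_663568_nt.H6

open Katai Nul

lemma ee_sum {α : Type} (S : Finset α) (f : α → ℝ) : ee (∑ s ∈ S, f s) = ∏ s ∈ S, ee (f s) := by
  classical
  induction S using Finset.induction_on with
  | empty => simp [ee_zero']
  | insert a S ha ih => rw [sum_insert ha, prod_insert ha, ee_add, ih]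

variable {σ : Type} [Fintype σ] [DecidableEq σ]

lemma prod_FK_eq (K : ℕ) (u : σ → ℝ) : ∏ s, FK K (u s) =
    ‖∑ j ∈ Fintype.piFinset (fun _ : σ => range K), ee (∑ s, (j s : ℝ) * u s)‖ ^ 2 /
      (K : ℝ) ^ Fintype.card σ := by
  have h1 : ∏ s, ∑ j ∈ range K, ee ((j : ℝ) * u s) =
      ∑ j ∈ Fintype.piFinset (fun _ : σ => range K), ee (∑ s, (j s : ℝ) * u s) := by
    rw [prod_univ_sum]
    exact sum_congr rfl fun j _ => (ee_sum _ _).symm
  rw [← h1, norm_prod, ← prod_pow]
  unfold FK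
  rw [prod_div_distrib, prod_const, card_univ]

lemma sq_expandM (J : Finset (σ → ℕ)) (u : σ → ℝ) :
    ((‖∑ j ∈ J, ee (∑ s, (j s : ℝ) * u s)‖ ^ 2 : ℝ) : ℂ) =
    ∑ j ∈ J, ∑ l ∈ J, ee (∑ s, (((j s : ℤ) - (l s : ℤ) : ℤ) : ℝ) * u s) := by
  push_cast
  rw [← Complex.mul_conj', map_sum, sum_mul_sum]
  refine sum_congr rfl fun j _ => sum_congr rfl fun l _ => ?_
  have : ∑ s, ((j s : ℝ) - (l s : ℝ)) * u s = ∑ s, (j s : ℝ) * u s - ∑ s, (l s : ℝ) * u s := by
    rw [← sum_sub_distrib]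
    exact sum_congr rfl fun s _ => by ring
  rw [this, ee_sub]

lemma fejer_lowerM {ι : Type} (S : Finset ι) (w : ι → ℝ) (x : ι → σ → ℝ) (K : ℕ)
    (hK : 1 ≤ K) (η : ℝ) (hW : 0 ≤ ∑ z ∈ S, w z) (hη : 0 ≤ η)
    (h : ∀ k : σ → ℤ, k ≠ 0 → (∀ s, |k s| < K) →
      ‖∑ z ∈ S, (w z : ℂ) * ee (∑ s, (k s : ℝ) * x z s)‖ ≤ η * ∑ z ∈ S, w z) (y : σ → ℝ) :
    (1 - (K : ℝ) ^ Fintype.card σ * η) * ∑ z ∈ S, w z ≤
      ∑ z ∈ S, w z * ∏ s, FK K (x z s - y s) := by
  set W : ℝ := ∑ z ∈ S, w z with hWd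
  have hKr : (0 : ℝ) < K := by exact_mod_cast hK
  set J : Finset (σ → ℕ) := Fintype.piFinset (fun _ : σ => range K) with hJ
  set V : ℝ := (K : ℝ) ^ Fintype.card σ with hV
  have hV0 : 0 < V := by positivity
  have hJc : (J.card : ℝ) = V := by
    rw [hJ, Fintype.card_piFinset, prod_const, card_range, card_univ, hV]
    push_cast; rfl
  have e1 : ((∑ z ∈ S, w z * ‖∑ j ∈ J, ee (∑ s, (j s : ℝ) * (x z s - y s))‖ ^ 2 : ℝ) : ℂ) =
      ∑ j ∈ J, ∑ l ∈ J, ∑ z ∈ S, (w z : ℂ) *
        ee (∑ s, (((j s : ℤ) - (l s : ℤ) : ℤ) : ℝ) * (x z s - y s)) := by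
    push_cast
    have : ∀ z ∈ S, (w z : ℂ) * ((‖∑ j ∈ J, ee (∑ s, (j s : ℝ) * (x z s - y s))‖ : ℝ) : ℂ) ^ 2 =
        ∑ j ∈ J, ∑ l ∈ J, (w z : ℂ) * ee (∑ s, ((j s : ℝ) - (l s : ℝ)) * (x z s - y s)) := by
      intro z _
      have := sq_expandM J (fun s => x z s - y s)
      push_cast at this
      rw [this, mul_sum]
      exact sum_congr rfl fun j _ => mul_sum _ _ _
    rw [sum_congr rfl this, sum_comm]
    refine sum_congr rfl fun j _ => ?_
    rw [sum_comm]
  have h2 : ∀ j ∈ J, ∀ l ∈ J, (if j = l then W else - (η * W)) ≤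
      (∑ z ∈ S, (w z : ℂ) *
        ee (∑ s, (((j s : ℤ) - (l s : ℤ) : ℤ) : ℝ) * (x z s - y s))).re := by
    intro j hj l hl
    rw [hJ, Fintype.mem_piFinset] at hj hl
    by_cases hjl : j = l
    · rw [if_pos hjl, hjl]
      simp only [sub_self, Int.cast_zero, zero_mul, sum_const_zero, ee_zero', mul_one]
      rw [← Complex.ofReal_sum, Complex.ofReal_re]
    · rw [if_neg hjl]
      have h3 : ‖∑ z ∈ S, (w z : ℂ) *
            ee (∑ s, (((j s : ℤ) - (l s : ℤ) : ℤ) : ℝ) * (x z s - y s))‖ =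
          ‖∑ z ∈ S, (w z : ℂ) * ee (∑ s, (((j s : ℤ) - (l s : ℤ) : ℤ) : ℝ) * x z s)‖ := by
        have : ∑ z ∈ S, (w z : ℂ) *
              ee (∑ s, (((j s : ℤ) - (l s : ℤ) : ℤ) : ℝ) * (x z s - y s)) =
            (∑ z ∈ S, (w z : ℂ) * ee (∑ s, (((j s : ℤ) - (l s : ℤ) : ℤ) : ℝ) * x z s)) *
              ee (-(∑ s, (((j s : ℤ) - (l s : ℤ) : ℤ) : ℝ) * y s)) := by
          rw [sum_mul]
          refine sum_congr rfl fun z _ => ?_
          rw [mul_assoc, ← ee_add]
          congr 2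
          rw [← sub_eq_add_neg, ← sum_sub_distrib]
          exact sum_congr rfl fun s _ => by ring
        rw [this, norm_mul, norm_ee, mul_one]
      have h4 := h (fun s => (j s : ℤ) - (l s : ℤ)) (by
        intro h0
        apply hjl
        funext s
        have := congrFun h0 s
        simp only [Pi.zero_apply] at this
        omega) (by
        intro s
        have h5 := hj s
        have h6 := hl s
        rw [mem_range] at h5 h6
        rw [abs_lt]
        constructor <;> omega)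
      have h5 := Complex.abs_re_le_norm (∑ z ∈ S, (w z : ℂ) *
        ee (∑ s, (((j s : ℤ) - (l s : ℤ) : ℤ) : ℝ) * (x z s - y s)))
      rw [h3] at h5
      exact (abs_le.mp (h5.trans h4)).1
  have h3 : ∑ j ∈ J, ∑ l ∈ J, (if j = l then W else - (η * W)) ≤
      ∑ z ∈ S, w z * ‖∑ j ∈ J, ee (∑ s, (j s : ℝ) * (x z s - y s))‖ ^ 2 := by
    have h4 : (∑ z ∈ S, w z * ‖∑ j ∈ J, ee (∑ s, (j s : ℝ) * (x z s - y s))‖ ^ 2) =
        (∑ j ∈ J, ∑ l ∈ J, ∑ z ∈ S, (w z : ℂ) *
          ee (∑ s, (((j s : ℤ) - (l s : ℤ) : ℤ) : ℝ) * (x z s - y s))).re := by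
      rw [← e1, Complex.ofReal_re]
    rw [h4, Complex.re_sum]
    refine sum_le_sum fun j hj => ?_
    rw [Complex.re_sum]
    exact sum_le_sum fun l hl => h2 j hj l hl
  have h4 : V * ((1 - V * η) * W) ≤ ∑ j ∈ J, ∑ l ∈ J, (if j = l then W else - (η * W)) := by
    have h5 : ∀ j ∈ J, (1 - V * η) * W ≤ ∑ l ∈ J, (if j = l then W else - (η * W)) := by
      intro j hj
      have h6 : ∀ l ∈ J, (if j = l then W else 0) - η * W ≤
          (if j = l then W else - (η * W)) := by
        intro l _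
        have : 0 ≤ η * W := mul_nonneg hη hW
        split_ifs <;> linarith
      refine le_trans (le_of_eq ?_) (sum_le_sum h6)
      rw [sum_sub_distrib, sum_ite_eq, if_pos hj, sum_const, nsmul_eq_mul, hJc]
      ring
    calc V * ((1 - V * η) * W) = ∑ j ∈ J, (1 - V * η) * W := by
          rw [sum_const, nsmul_eq_mul, hJc]
      _ ≤ _ := sum_le_sum h5
  have h5 : ∑ z ∈ S, w z * ∏ s, FK K (x z s - y s) =
      (∑ z ∈ S, w z * ‖∑ j ∈ J, ee (∑ s, (j s : ℝ) * (x z s - y s))‖ ^ 2) / V := by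
    rw [sum_div]
    refine sum_congr rfl fun z _ => ?_
    rw [prod_FK_eq K (fun s => x z s - y s), mul_div_assoc]
  rw [h5, le_div_iff₀ hV0]
  linarith

lemma restrict_cube : (volume : Measure (σ → ℝ)).restrict (Set.Icc 0 1) =
    Measure.pi fun _ : σ => (volume : Measure ℝ).restrict (Set.Icc 0 1) := by
  rw [← Set.pi_univ_Icc, volume_pi, Measure.restrict_pi_pi]
  rfl

lemma integral_cube_prod (f : σ → ℝ → ℝ) :
    ∫ y in Set.Icc (0 : σ → ℝ) 1, ∏ s, f s (y s) = ∏ s, ∫ y in (0 : ℝ)..1, f s y := by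
  rw [restrict_cube, integral_fintype_prod_eq_prod]
  refine prod_congr rfl fun s _ => ?_
  rw [intervalIntegral.integral_of_le zero_le_one, integral_Icc_eq_integral_Ioc]

lemma integrableOn_cube {g : (σ → ℝ) → ℝ} (hg : Continuous g) :
    IntegrableOn g (Set.Icc (0 : σ → ℝ) 1) :=
  hg.continuousOn.integrableOn_compact isCompact_Icc

/-- Averages of Lipschitz functions on a torus. -/
lemma fejer_avgM {ι : Type} (S : Finset ι) (w : ι → ℝ) (hw : ∀ z ∈ S, 0 ≤ w z) (x : ι → σ → ℝ)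
    (K : ℕ) (hK : 1 ≤ K) (η : ℝ) (hη : 0 ≤ η)
    (h : ∀ k : σ → ℤ, k ≠ 0 → (∀ s, |k s| < K) →
      ‖∑ z ∈ S, (w z : ℂ) * ee (∑ s, (k s : ℝ) * x z s)‖ ≤ η * ∑ z ∈ S, w z)
    (φ : (σ → ℝ) → ℝ) (hφc : Continuous φ) (hφ0 : ∀ x, 0 ≤ φ x) (R : ℝ) (hR : 0 ≤ R)
    (hL : ∀ x y, φ y ≤ φ x + R * ∑ s, nd (x s - y s)) (τ : ℝ) (hτ : 0 < τ) :
    (1 - (K : ℝ) ^ Fintype.card σ * η) * (∑ z ∈ S, w z) * (∫ y in Set.Icc (0 : σ → ℝ) 1, φ y) -
      R * (Fintype.card σ * (τ + 1 / (4 * K * τ))) * ∑ z ∈ S, w z ≤ ∑ z ∈ S, w z * φ (x z) := by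
  have hW : 0 ≤ ∑ z ∈ S, w z := sum_nonneg hw
  have hFc := continuous_FK K
  have hndc := continuous_nd
  have hKr : (0 : ℝ) < K := by exact_mod_cast hK
  have hms : MeasurableSet (Set.Icc (0 : σ → ℝ) 1) := measurableSet_Icc
  have h1 : (1 - (K : ℝ) ^ Fintype.card σ * η) * (∑ z ∈ S, w z) *
      (∫ y in Set.Icc (0 : σ → ℝ) 1, φ y) ≤
      ∫ y in Set.Icc (0 : σ → ℝ) 1, φ y * ∑ z ∈ S, w z * ∏ s, FK K (x z s - y s) := by
    rw [← integral_const_mul]
    apply setIntegral_mono_on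
    · exact integrableOn_cube (by fun_prop)
    · exact integrableOn_cube (by fun_prop)
    · exact hms
    · intro y _
      have := fejer_lowerM S w x K hK η hW hη h y
      calc (1 - (K : ℝ) ^ Fintype.card σ * η) * (∑ z ∈ S, w z) * φ y =
            φ y * ((1 - (K : ℝ) ^ Fintype.card σ * η) * ∑ z ∈ S, w z) := by ring
        _ ≤ _ := mul_le_mul_of_nonneg_left this (hφ0 y)
  have h2 : (∫ y in Set.Icc (0 : σ → ℝ) 1, φ y * ∑ z ∈ S, w z * ∏ s, FK K (x z s - y s)) =
      ∑ z ∈ S, w z * ∫ y in Set.Icc (0 : σ → ℝ) 1, φ y * ∏ s, FK K (x z s - y s) := by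
    have e : ∀ y : σ → ℝ, φ y * ∑ z ∈ S, w z * ∏ s, FK K (x z s - y s) =
        ∑ z ∈ S, w z * (φ y * ∏ s, FK K (x z s - y s)) := by
      intro y
      rw [mul_sum]
      exact sum_congr rfl fun z _ => by ring
    simp only [e]
    rw [integral_finsetSum]
    · exact sum_congr rfl fun z _ => by rw [integral_const_mul]
    · intro z _
      exact integrableOn_cube (by fun_prop)
  have h3 : ∀ z ∈ S, (∫ y in Set.Icc (0 : σ → ℝ) 1, φ y * ∏ s, FK K (x z s - y s)) ≤
      φ (x z) + R * (Fintype.card σ * (τ + 1 / (4 * K * τ))) := by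
    intro z _
    -- `G s` bounds `nd * kernel`
    have hI : ∫ y in Set.Icc (0 : σ → ℝ) 1, ∏ s, FK K (x z s - y s) = 1 := by
      rw [integral_cube_prod (fun s v => FK K (x z s - v))]
      exact prod_eq_one fun s _ => integral_FK K hK (x z s)
    have hJ : ∀ s₀ : σ, ∫ y in Set.Icc (0 : σ → ℝ) 1,
        nd (x z s₀ - y s₀) * ∏ s, FK K (x z s - y s) ≤ τ + 1 / (4 * K * τ) := by
      intro s₀
      have h4 : ∫ y in Set.Icc (0 : σ → ℝ) 1, nd (x z s₀ - y s₀) * ∏ s, FK K (x z s - y s) ≤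
          ∫ y in Set.Icc (0 : σ → ℝ) 1, ∏ s, (if s = s₀ then
            (fun v => τ * FK K (x z s - v) + 1 / (4 * K * τ)) else
            (fun v => FK K (x z s - v))) (y s) := by
        apply setIntegral_mono_on
        · exact integrableOn_cube (by fun_prop)
        · apply integrableOn_cube
          apply continuous_finsetProd
          intro s _
          by_cases hs : s = s₀
          · simp only [if_pos hs]; fun_prop
          · simp only [if_neg hs]; fun_prop
        · exact hms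
        · intro y _
          have e1 : ∏ s, FK K (x z s - y s) = FK K (x z s₀ - y s₀) *
              ∏ s ∈ univ.erase s₀, FK K (x z s - y s) :=
            (mul_prod_erase univ _ (mem_univ s₀)).symm
          have e2 : ∏ s, (if s = s₀ then
            (fun v => τ * FK K (x z s - v) + 1 / (4 * K * τ)) else
            (fun v => FK K (x z s - v))) (y s) =
              (τ * FK K (x z s₀ - y s₀) + 1 / (4 * K * τ)) *
              ∏ s ∈ univ.erase s₀, FK K (x z s - y s) := by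
            rw [← mul_prod_erase univ _ (mem_univ s₀), if_pos rfl]
            congr 1
            refine prod_congr rfl fun s hs => ?_
            rw [if_neg (ne_of_mem_erase hs)]
          rw [e1, e2, ← mul_assoc]
          refine mul_le_mul_of_nonneg_right (nd_mul_FK K hK _ τ hτ) ?_
          exact prod_nonneg fun s _ => FK_nonneg _ _
      refine h4.trans (le_of_eq ?_)
      rw [integral_cube_prod (fun s => if s = s₀ then
            (fun v => τ * FK K (x z s - v) + 1 / (4 * K * τ)) else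
            (fun v => FK K (x z s - v)))]
      have e3 : ∀ s, (∫ v in (0 : ℝ)..1, (if s = s₀ then
            (fun v => τ * FK K (x z s - v) + 1 / (4 * K * τ)) else
            (fun v => FK K (x z s - v))) v) = if s = s₀ then τ + 1 / (4 * K * τ) else 1 := by
        intro s
        by_cases hs : s = s₀
        · simp only [if_pos hs]
          rw [intervalIntegral.integral_add, intervalIntegral.integral_const_mul,
            integral_FK K hK]
          · simp
          · exact (by fun_prop : Continuous fun v => τ * FK K (x z s - v)).intervalIntegrable _ _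
          · simp
        · simp only [if_neg hs]
          exact integral_FK K hK _
      simp only [e3]
      rw [prod_ite_eq']
      simp
    have h4 : (∫ y in Set.Icc (0 : σ → ℝ) 1, φ y * ∏ s, FK K (x z s - y s)) ≤
        ∫ y in Set.Icc (0 : σ → ℝ) 1, (φ (x z) * ∏ s, FK K (x z s - y s) +
          R * ∑ s₀, nd (x z s₀ - y s₀) * ∏ s, FK K (x z s - y s)) := by
      apply setIntegral_mono_on
      · exact integrableOn_cube (by fun_prop)
      · exact integrableOn_cube (by fun_prop)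
      · exact hms
      · intro y _
        have h6 : 0 ≤ ∏ s, FK K (x z s - y s) := prod_nonneg fun s _ => FK_nonneg _ _
        calc φ y * ∏ s, FK K (x z s - y s) ≤
              (φ (x z) + R * ∑ s, nd (x z s - y s)) * ∏ s, FK K (x z s - y s) :=
              mul_le_mul_of_nonneg_right (hL _ _) h6
          _ = _ := by rw [← sum_mul]; ring
    refine h4.trans ?_
    rw [integral_add, integral_const_mul, integral_const_mul, hI, mul_one, integral_finsetSum]
    · have h5 : ∑ s₀ : σ, ∫ y in Set.Icc (0 : σ → ℝ) 1,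
          nd (x z s₀ - y s₀) * ∏ s, FK K (x z s - y s) ≤
          Fintype.card σ * (τ + 1 / (4 * K * τ)) := by
        calc _ ≤ ∑ s₀ : σ, (τ + 1 / (4 * K * τ)) := sum_le_sum fun s _ => hJ s
          _ = _ := by rw [sum_const, card_univ, nsmul_eq_mul]
      gcongr
    · intro s _
      exact integrableOn_cube (by fun_prop)
    · exact integrableOn_cube (by fun_prop)
    · exact integrableOn_cube (by fun_prop)
  have h4 : ∑ z ∈ S, w z * ∫ y in Set.Icc (0 : σ → ℝ) 1, φ y * ∏ s, FK K (x z s - y s) ≤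
      ∑ z ∈ S, w z * (φ (x z) + R * (Fintype.card σ * (τ + 1 / (4 * K * τ)))) :=
    sum_le_sum fun z hz => mul_le_mul_of_nonneg_left (h3 z hz) (hw z hz)
  have h5 : ∑ z ∈ S, w z * (φ (x z) + R * (Fintype.card σ * (τ + 1 / (4 * K * τ)))) =
      ∑ z ∈ S, w z * φ (x z) + R * (Fintype.card σ * (τ + 1 / (4 * K * τ))) * ∑ z ∈ S, w z := by
    rw [mul_sum, ← sum_add_distrib]
    exact sum_congr rfl fun z _ => by ring
  linarith

end Pool.Agent.Lib.MP_663568_nt.H6
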