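import Mathlib
import Pool.Agent.Lib.MP_663568_nul.Units

/-!
# Powers of reduced residues: bounds with polynomial dependence
-/

set_option autoImplicit false
open Finset Polynomial

namespace Pool.Agent.Lib.MP_663568_nt.H6

open Katai Nul U56

/-- the complete sums over reduced residues are small -/
theorem char_boundq (t : ℕ) (ht : 1 ≤ t) :
    ∃ A : ℕ, 1 ≤ A ∧ ∀ K : ℕ, 1 ≤ K → ∀ q : ℕ, A * K ^ A ≤ q → ∀ a : ℤ, IsCoprime a (q : ℤ) →
      ∀ k : ℤ, k ≠ 0 → |(k : ℝ)| ≤ K →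
      ‖∑ b ∈ (range q).filter (fun b => Nat.Coprime b q), ee ((k : ℝ) * ((a : ℝ) * (b : ℝ) ^ t / q))‖
        ≤ 1 / K * Nat.totient q := by
  obtain ⟨C, hC1, hW⟩ := weyl_inverse t ht
  obtain ⟨r, hr⟩ : ∃ r, r = C + t := ⟨_, rfl⟩
  have hr1 : 1 ≤ r := by omega
  obtain ⟨C', hC'0, hdiv⟩ :=
    Pool.Agent.Lib.MP_927447_nt.card_divisors_pow_le (8 * r) (by omega)
  obtain ⟨B, hB⟩ := exists_nat_gt ((C' : ℝ) * 2 ^ (2 * r))
  refine ⟨(B + 2) ^ (2 * r) + 3 + 8 * r * r, by omega, fun K hK q hq a ha k hk hkK => ?_⟩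
  have hKr : (1 : ℝ) ≤ K := by exact_mod_cast hK
  obtain ⟨ε, hεK⟩ : ∃ ε : ℝ, ε = 1 / K := ⟨_, rfl⟩
  have hε : 0 < ε := by rw [hεK]; positivity
  rw [← hεK]
  obtain ⟨D₀, hD₀e⟩ : ∃ D₀ : ℕ, D₀ = B * K ^ (4 * r) := ⟨_, rfl⟩
  have hD₀ : (C' : ℝ) * 2 ^ (2 * r) / ε ^ (4 * r) < D₀ := by
    have h1 : (C' : ℝ) * 2 ^ (2 * r) / ε ^ (4 * r) = (C' : ℝ) * 2 ^ (2 * r) * (K : ℝ) ^ (4 * r) := by
      rw [hεK, one_div, inv_pow, div_inv_eq_mul]
    rw [h1, hD₀e]; push_cast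
    exact mul_lt_mul_of_pos_right hB (by positivity)
  have hq : (D₀ + 2) ^ (2 * r) + K ^ 2 + 2 ≤ q := by
    refine le_trans ?_ hq
    have hK4 : 1 ≤ K ^ (4 * r) := Nat.one_le_pow _ _ hK
    have hK8 : 1 ≤ K ^ (8 * r * r) := Nat.one_le_pow _ _ hK
    have h1 : D₀ + 2 ≤ (B + 2) * K ^ (4 * r) := by rw [hD₀e]; nlinarith
    have h2 : (D₀ + 2) ^ (2 * r) ≤ (B + 2) ^ (2 * r) * K ^ (8 * r * r) := by
      calc (D₀ + 2) ^ (2 * r) ≤ ((B + 2) * K ^ (4 * r)) ^ (2 * r) := Nat.pow_le_pow_left h1 _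
        _ = (B + 2) ^ (2 * r) * K ^ (8 * r * r) := by
            rw [mul_pow, ← pow_mul]; congr 2; ring
    have h3 : K ^ 2 ≤ K ^ (8 * r * r) := Nat.pow_le_pow_right hK (by nlinarith)
    have h4 : K ^ (8 * r * r) ≤ K ^ ((B + 2) ^ (2 * r) + 3 + 8 * r * r) :=
      Nat.pow_le_pow_right hK (by omega)
    calc (D₀ + 2) ^ (2 * r) + K ^ 2 + 2 ≤ (B + 2) ^ (2 * r) * K ^ (8 * r * r) +
          K ^ (8 * r * r) + 2 * K ^ (8 * r * r) := by omega
      _ = ((B + 2) ^ (2 * r) + 3) * K ^ (8 * r * r) := by ring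
      _ ≤ ((B + 2) ^ (2 * r) + 3 + 8 * r * r) * K ^ ((B + 2) ^ (2 * r) + 3 + 8 * r * r) :=
          Nat.mul_le_mul (by omega) h4
  have hpow : 1 ≤ (D₀ + 2) ^ (2 * r) := Nat.one_le_pow _ _ (by omega)
  have hq2 : 2 ≤ q := by omega
  have hq0 : (0 : ℝ) < q := by positivity
  obtain ⟨D, hD1, hDq, hqD⟩ := exists_root (2 * r) q (by omega) (by omega)
  have hDD : D₀ + 2 ≤ D := by
    by_contra h
    have h1 : (D + 1) ^ (2 * r) ≤ (D₀ + 2) ^ (2 * r) := Nat.pow_le_pow_left (by omega) _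
    omega
  have hD0 : (0 : ℝ) < D := by exact_mod_cast hD1
  have hD2 : (2 : ℝ) ≤ D := by exact_mod_cast (by omega : 2 ≤ D)
  -- the inner sums
  have hin : ∀ d ∈ q.divisors,
      ‖∑ m ∈ Icc 1 (q / d), ee ((k : ℝ) * ((a : ℝ) * ((d * m : ℕ) : ℝ) ^ t / q))‖ ≤ (q : ℝ) / D := by
    intro d hd
    obtain ⟨hd1, _⟩ := Nat.mem_divisors.1 hd
    have hdpos : 0 < d := Nat.pos_of_dvd_of_pos hd1 (by omega)
    have hdpos' : (1 : ℝ) ≤ d := by exact_mod_cast hdpos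
    have hdiv' : ((q / d : ℕ) : ℝ) ≤ (q : ℝ) / d := Nat.cast_div_le
    by_cases hdD : d ≤ D
    · have hρ : (0 : ℝ) < 1 / D := by positivity
      have hρ2 : (1 : ℝ) / D ≤ 1 / 2 := by
        exact one_div_le_one_div_of_le two_pos hD2
      have hcond : (1 / (1 / (D : ℝ))) ^ C * |(k : ℝ)| * (d : ℝ) ^ t < q := by
        rw [one_div_one_div]
        have h1 : (d : ℝ) ^ t ≤ (D : ℝ) ^ t := by
          have : (d : ℝ) ≤ D := by exact_mod_cast hdD
          gcongr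
        have h2 : (D : ℝ) ^ C * |(k : ℝ)| * (d : ℝ) ^ t ≤ K * (D : ℝ) ^ r := by
          calc (D : ℝ) ^ C * |(k : ℝ)| * (d : ℝ) ^ t ≤ (D : ℝ) ^ C * K * (D : ℝ) ^ t := by gcongr
            _ = K * (D : ℝ) ^ r := by rw [hr, pow_add]; ring
        refine lt_of_le_of_lt h2 ?_
        by_contra hcon
        push Not at hcon
        have h3 : (q : ℝ) ^ 2 ≤ (K : ℝ) ^ 2 * q := by
          calc (q : ℝ) ^ 2 ≤ (K * (D : ℝ) ^ r) ^ 2 := by gcongr
            _ = (K : ℝ) ^ 2 * (D : ℝ) ^ (2 * r) := by rw [mul_pow, ← pow_mul, mul_comm r 2]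
            _ ≤ (K : ℝ) ^ 2 * q := by
                have : ((D ^ (2 * r) : ℕ) : ℝ) ≤ q := by exact_mod_cast hDq
                push_cast at this
                gcongr
        have h4 : (K : ℝ) ^ 2 < q := by
          have : K ^ 2 < q := by omega
          exact_mod_cast this
        nlinarith
      have h5 := inner_bound t ht C hW q d (by omega) hd1 a k ha hk (1 / D) hρ hρ2 hcond
      have h6 : ∀ m ∈ Icc 1 (q / d), ee (((k * a : ℤ) : ℝ) * ((d : ℝ) * (m : ℝ)) ^ t / q)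
          = ee ((k : ℝ) * ((a : ℝ) * ((d * m : ℕ) : ℝ) ^ t / q)) := by
        intro m _
        congr 1
        push_cast
        ring
      rw [sum_congr rfl h6] at h5
      refine h5.trans ?_
      rw [one_div, div_eq_inv_mul]
      have h7 : ((q / d : ℕ) : ℝ) ≤ q := hdiv'.trans (div_le_self hq0.le hdpos')
      gcongr
    · push Not at hdD
      refine (norm_sum_ee_le _ _).trans ?_
      rw [Nat.card_Icc, Nat.add_sub_cancel]
      refine hdiv'.trans ?_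
      have : (D : ℝ) ≤ d := by exact_mod_cast hdD.le
      gcongr
  have hS := norm_sum_coprime_le (fun b => ee ((k : ℝ) * ((a : ℝ) * (b : ℝ) ^ t / q))) q hq2
  refine hS.trans ((sum_le_sum hin).trans ?_)
  rw [sum_const, nsmul_eq_mul]
  set τ := q.divisors.card with hτ
  have h1 : (q : ℝ) ≤ τ * Nat.totient q := by
    have := le_card_mul_totient q (by omega)
    exact_mod_cast this
  -- the divisor bound
  have h2 : (τ : ℝ) ^ 2 ≤ ε * D := by
    by_contra hcon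
    push Not at hcon
    have h3 : (ε * D) ^ (4 * r) ≤ ((τ : ℝ) ^ 2) ^ (4 * r) := by gcongr
    have h4 : ((τ : ℝ) ^ 2) ^ (4 * r) ≤ C' * q := by
      rw [← pow_mul, show 2 * (4 * r) = 8 * r by ring]
      have := hdiv q (by omega)
      exact_mod_cast this
    have h5 : (q : ℝ) ≤ 2 ^ (2 * r) * (D : ℝ) ^ (2 * r) := by
      have h6 : ((q : ℕ) : ℝ) ≤ (((D + 1) ^ (2 * r) : ℕ) : ℝ) := by exact_mod_cast hqD.le
      push_cast at h6
      refine h6.trans ?_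
      rw [← mul_pow]
      have : (D : ℝ) + 1 ≤ 2 * D := by linarith
      gcongr
    have h6 : (ε ^ (4 * r) * (D : ℝ) ^ (2 * r)) * (D : ℝ) ^ (2 * r)
        ≤ (C' * 2 ^ (2 * r)) * (D : ℝ) ^ (2 * r) := by
      calc (ε ^ (4 * r) * (D : ℝ) ^ (2 * r)) * (D : ℝ) ^ (2 * r) = (ε * D) ^ (4 * r) := by
            rw [mul_pow, mul_assoc, ← pow_add]; congr 2; ring
        _ ≤ C' * q := h3.trans h4
        _ ≤ C' * (2 ^ (2 * r) * (D : ℝ) ^ (2 * r)) := by gcongr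
        _ = _ := by ring
    have h7 := le_of_mul_le_mul_right h6 (by positivity)
    have h8 : (D : ℝ) ≤ (D : ℝ) ^ (2 * r) := le_self_pow₀ (by linarith) (by omega)
    have h9 : (C' : ℝ) * 2 ^ (2 * r) < ε ^ (4 * r) * D := by
      rw [div_lt_iff₀ (by positivity)] at hD₀
      have : (D₀ : ℝ) ≤ D := by exact_mod_cast (by omega : D₀ ≤ D)
      calc (C' : ℝ) * 2 ^ (2 * r) < D₀ * ε ^ (4 * r) := hD₀
        _ ≤ D * ε ^ (4 * r) := by gcongr
        _ = _ := mul_comm _ _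
    have h10 : ε ^ (4 * r) * D ≤ ε ^ (4 * r) * (D : ℝ) ^ (2 * r) := by gcongr
    linarith
  calc (τ : ℝ) * ((q : ℝ) / D) ≤ τ * (τ * Nat.totient q / D) := by gcongr
    _ = (τ : ℝ) ^ 2 / D * Nat.totient q := by ring
    _ ≤ ε * Nat.totient q := by
        have : (τ : ℝ) ^ 2 / D ≤ ε := by rwa [div_le_iff₀ hD0]
        gcongr

/-- Distribution of `a b ^ t / q`, `b` running through the reduced residues modulo `q`. -/
theorem units_equiq (t : ℕ) (ht : 1 ≤ t) : ∃ A : ℕ, 1 ≤ A ∧ ∀ u : ℝ, 0 < u → u ≤ 1 →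
    ∀ q : ℕ, (A : ℝ) * (1 / u) ^ A ≤ q → ∀ a : ℤ, IsCoprime a (q : ℤ) → ∀ θ : ℝ,
      (((range q).filter fun b : ℕ =>
        Nat.Coprime b q ∧ nd ((a : ℝ) * (b : ℝ) ^ t / q - θ) ≤ u).card : ℝ)
        ≤ 256 * u * Nat.totient q := by
  obtain ⟨A₀, hA₀1, hA₀⟩ := char_boundq t ht
  refine ⟨A₀, hA₀1, fun u hu hu1 => ?_⟩
  have hAcard : ∀ q : ℕ, ((range q).filter fun b => Nat.Coprime b q).card = Nat.totient q := by
    intro q
    rw [Nat.totient_eq_card_coprime]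
    congr 1
    ext b
    simp only [mem_filter, Nat.coprime_comm]
  by_cases hu16 : 1 / 16 < u
  · intro q _ a _ θ
    have h1 : ((range q).filter fun b : ℕ =>
        Nat.Coprime b q ∧ nd ((a : ℝ) * (b : ℝ) ^ t / q - θ) ≤ u).card ≤ Nat.totient q := by
      rw [← hAcard q]
      refine card_le_card fun b hb => ?_
      rw [mem_filter] at hb ⊢
      exact ⟨hb.1, hb.2.1⟩
    have h2 : (((range q).filter fun b : ℕ =>
        Nat.Coprime b q ∧ nd ((a : ℝ) * (b : ℝ) ^ t / q - θ) ≤ u).card : ℝ)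
          ≤ Nat.totient q := by exact_mod_cast h1
    have h3 : (0 : ℝ) ≤ Nat.totient q := by positivity
    nlinarith
  · push Not at hu16
    obtain ⟨K, hKdef⟩ : ∃ K : ℕ, K = ⌊1 / (16 * u)⌋₊ := ⟨_, rfl⟩
    have h16 : 1 ≤ 1 / (16 * u) := by
      rw [le_div_iff₀ (by positivity)]
      linarith
    have hK1 : 1 ≤ K := by
      rw [hKdef]
      exact (Nat.one_le_floor_iff _).2 h16
    have hKle : (K : ℝ) ≤ 1 / (16 * u) := by
      rw [hKdef]
      exact Nat.floor_le (by positivity)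
    have hKge : 1 / (16 * u) < K + 1 := by
      rw [hKdef]
      exact Nat.lt_floor_add_one _
    have hK0 : (0 : ℝ) < K := by exact_mod_cast hK1
    have hK1' : (1 : ℝ) ≤ K := by exact_mod_cast hK1
    have hKu : (K : ℝ) * u ≤ 1 / 16 := by
      rw [le_div_iff₀ (by positivity)] at hKle
      linarith
    have hKu2 : 1 ≤ 32 * u * K := by
      rw [div_lt_iff₀ (by positivity)] at hKge
      nlinarith
    intro q hq a ha θ
    have hqq : A₀ * K ^ A₀ ≤ q := by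
      have h1 : (K : ℝ) ≤ 1 / u := by
        refine hKle.trans ?_
        apply one_div_le_one_div_of_le hu
        linarith
      have h2 : (A₀ : ℝ) * (K : ℝ) ^ A₀ ≤ q := by
        refine le_trans ?_ hq
        gcongr
      exact_mod_cast h2
    obtain ⟨A, hA⟩ : ∃ A, A = (range q).filter fun b => Nat.Coprime b q := ⟨_, rfl⟩
    have hAc : (A.card : ℝ) = Nat.totient q := by rw [hA, hAcard]
    have h1 : ∀ k : ℤ, k ≠ 0 → |(k : ℝ)| ≤ K →
        ‖∑ b ∈ A, ee ((k : ℝ) * ((a : ℝ) * (b : ℝ) ^ t / q - θ))‖ ≤ 1 / K * Nat.totient q := by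
      intro k hk hkK
      have h2 := hA₀ K hK1 q hqq a ha k hk hkK
      rw [← hA] at h2
      have h3 : ∑ b ∈ A, ee ((k : ℝ) * ((a : ℝ) * (b : ℝ) ^ t / q - θ))
          = (∑ b ∈ A, ee ((k : ℝ) * ((a : ℝ) * (b : ℝ) ^ t / q))) * ee (-(k * θ)) := by
        rw [sum_mul]
        refine sum_congr rfl fun b _ => ?_
        rw [← ee_add]
        congr 1
        ring
      rw [h3, norm_mul, norm_ee, mul_one]
      exact h2
    have h2 := kernel_sum A (fun b => (a : ℝ) * (b : ℝ) ^ t / q - θ) K (1 / K * Nat.totient q)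
      (by positivity) h1
    obtain ⟨B, hB⟩ : ∃ B, B = (range q).filter fun b : ℕ =>
        Nat.Coprime b q ∧ nd ((a : ℝ) * (b : ℝ) ^ t / q - θ) ≤ u := ⟨_, rfl⟩
    rw [← hB]
    have hBA : B ⊆ A := by
      intro b hb
      rw [hB, mem_filter] at hb
      rw [hA, mem_filter]
      exact ⟨hb.1, hb.2.1⟩
    have h3 : (B.card : ℝ) * ((K : ℝ) / 2) ^ 2
        ≤ ∑ b ∈ A, ‖∑ j ∈ range K, ee ((j : ℝ) * ((a : ℝ) * (b : ℝ) ^ t / q - θ))‖ ^ 2 := by
      calc (B.card : ℝ) * ((K : ℝ) / 2) ^ 2 = ∑ _b ∈ B, ((K : ℝ) / 2) ^ 2 := by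
            rw [sum_const, nsmul_eq_mul]
        _ ≤ ∑ b ∈ B, ‖∑ j ∈ range K, ee ((j : ℝ) * ((a : ℝ) * (b : ℝ) ^ t / q - θ))‖ ^ 2 := by
            refine sum_le_sum fun b hb => ?_
            rw [hB, mem_filter] at hb
            have := kernel_ge u K hK1 hKu _ hb.2.2
            gcongr
        _ ≤ _ := sum_le_sum_of_subset_of_nonneg hBA fun _ _ _ => by positivity
    have h4 : (B.card : ℝ) * ((K : ℝ) / 2) ^ 2 ≤ 2 * K * Nat.totient q := by
      refine h3.trans (h2.trans (le_of_eq ?_))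
      rw [hAc]
      field_simp
      ring
    have h5 : (B.card : ℝ) * K ≤ 8 * Nat.totient q := by
      have h6 : (K : ℝ) * ((B.card : ℝ) * K) ≤ K * (8 * Nat.totient q) := by nlinarith
      exact le_of_mul_le_mul_left h6 hK0
    have h7 : (0 : ℝ) ≤ B.card := by positivity
    calc (B.card : ℝ) = B.card * 1 := (mul_one _).symm
      _ ≤ B.card * (32 * u * K) := by gcongr
      _ = 32 * u * (B.card * K) := by ring
      _ ≤ 32 * u * (8 * Nat.totient q) := by gcongr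
      _ = 256 * u * Nat.totient q := by ring

end Pool.Agent.Lib.MP_663568_nt.H6
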