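import Mathlib
import Pool.Agent.Lib.MP_663568_nul.Frost
import Pool.Agent.Lib.MP_663568_h6.UnitsQ

/-!
# Powers of primes in an interval modulo one: polynomial dependence on the parameters
-/

set_option autoImplicit false
open Finset Polynomial

namespace Pool.Agent.Lib.MP_663568_nt.H6

open Katai Nul FrostAux

/-- Primes `p` in `(Y, 4Y]` with `p ^ t * β` in an interval modulo one: upper bound of the right
order, uniformly for `β` in a compact set of irrational numbers. -/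
theorem frostq (t : ℕ) (ht : 1 ≤ t) : ∃ C : ℝ, 0 < C ∧ ∃ A : ℕ, 1 ≤ A ∧
    ∀ u : ℝ, 0 < u → u ≤ 1 → ∀ δ : ℝ, 0 < δ → δ ≤ 1 →
    ∀ β : ℝ, (∀ q : ℕ, 1 ≤ q → (q : ℝ) ≤ A * (1 / u) ^ A → δ ≤ nd ((q : ℝ) * β)) →
    ∀ Y : ℕ, (A : ℝ) * (1 / (u * δ)) ^ A ≤ Y → ∀ θ : ℝ,
      (((Ioc Y (4 * Y)).filter fun p : ℕ => p.Prime ∧ nd ((p : ℝ) ^ t * β - θ) ≤ u).card : ℝ)
        ≤ C * u * Y / Real.log Y := by
  obtain ⟨Cw, hCw1, hW⟩ := weyl_inverse t ht
  obtain ⟨CS, hCS, hSW⟩ := selberg_weights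
  obtain ⟨CB, hCB, hBT⟩ := brun_titchmarsh
  obtain ⟨AU, hAU, hU⟩ := units_equiq t ht
  obtain ⟨CU, hCUe⟩ : ∃ CU : ℝ, CU = 256 := ⟨_, rfl⟩
  have hCU : 0 < CU := by rw [hCUe]; norm_num
  obtain ⟨n, hn⟩ : ∃ n : ℕ, n = 5 * Cw + 5 * t + 3 := ⟨_, rfl⟩
  have hn1 : 1 ≤ n := by omega
  obtain ⟨S, hS⟩ : ∃ S : ℕ, S = 19 + t * 4 ^ t + 32 * n := ⟨_, rfl⟩
  obtain ⟨A, hA⟩ : ∃ A : ℕ, A = S ^ (8 * n) + 8 * n + AU := ⟨_, rfl⟩
  refine ⟨24 * CB + (3072 * n * CS + 65) + 16 * CU * CB, by positivity, A, by omega,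
    fun u hu0 hu1 δ hδ hδ1 β hδB Y hYA θ => ?_⟩
  have huδ : 0 < u * δ := mul_pos hu0 hδ
  have huδ1 : u * δ ≤ 1 := by nlinarith
  have hiu : 1 ≤ 1 / (u * δ) := by rw [le_div_iff₀ huδ]; linarith
  have hiu1 : 1 ≤ 1 / u := by rw [le_div_iff₀ hu0]; linarith
  have hY2 : 2 ≤ Y := by
    have h1 : (1 : ℝ) ≤ (1 / (u * δ)) ^ A := one_le_pow₀ hiu
    have h2 : (2 : ℝ) ≤ A := by
      have : 2 ≤ A := by rw [hA]; omega
      exact_mod_cast this
    have : (2 : ℝ) ≤ Y := by nlinarith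
    exact_mod_cast this
  have hfin : ∀ (A : ℝ) (Y : ℕ), 2 ≤ Y → ∀ N : ℝ, N ≤ A * (u * Y / Real.log Y) →
      A ≤ 24 * CB + (3072 * n * CS + 65) + 16 * CU * CB →
      N ≤ (24 * CB + (3072 * n * CS + 65) + 16 * CU * CB) * u * Y / Real.log Y := by
    intro A Y hY N h1 h2
    have hYr : (2 : ℝ) ≤ Y := by exact_mod_cast hY
    have hlog : 0 < Real.log Y := Real.log_pos (by linarith)
    calc N ≤ A * (u * Y / Real.log Y) := h1
      _ ≤ (24 * CB + (3072 * n * CS + 65) + 16 * CU * CB) * (u * Y / Real.log Y) := by gcongr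
      _ = _ := by ring
  have hpos1 : 0 < 24 * CB := by positivity
  have hpos2 : 0 < 3072 * n * CS + 65 := by positivity
  have hpos3 : 0 < 16 * CU * CB := by positivity
  by_cases hu8 : 1 / 8 < u
  · exact hfin _ Y hY2 _ (case_zero t Y CB u β θ hCB hY2 hu8 hBT) (by linarith)
  push Not at hu8
  obtain ⟨q₀, hq₀A, hq₀B⟩ : ∃ q₀ : ℕ, (AU : ℝ) * (1 / (2 * u)) ^ AU ≤ q₀ ∧
      (q₀ : ℝ) < (AU : ℝ) * (1 / (2 * u)) ^ AU + 1 :=
    ⟨_, Nat.le_ceil _, Nat.ceil_lt_add_one (by positivity)⟩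
  have hq₀ : ∀ q : ℕ, q₀ ≤ q → ∀ a : ℤ, IsCoprime a (q : ℤ) → ∀ θ : ℝ,
      (((range q).filter fun b : ℕ =>
        Nat.Coprime b q ∧ nd ((a : ℝ) * (b : ℝ) ^ t / q - θ) ≤ 2 * u).card : ℝ)
        ≤ CU * (2 * u) * Nat.totient q := by
    intro q hq a ha θ
    rw [hCUe]
    refine hU (2 * u) (by positivity) (by linarith) q (hq₀A.trans ?_) a ha θ
    exact_mod_cast hq
  have hδB' : ∀ q : ℕ, 1 ≤ q → q < q₀ → δ ≤ nd ((q : ℝ) * β) := by
    intro q h1 h2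
    refine hδB q h1 ?_
    have h3 : (q : ℝ) + 1 ≤ q₀ := by exact_mod_cast h2
    have h4 : (1 / (2 * u)) ^ AU ≤ (1 / u) ^ A := by
      calc (1 / (2 * u)) ^ AU ≤ (1 / u) ^ AU := by
            gcongr
            linarith
        _ ≤ (1 / u) ^ A := pow_le_pow_right₀ hiu1 (by omega)
    have h5 : (AU : ℝ) ≤ A := by
      have : AU ≤ A := by omega
      exact_mod_cast this
    have h6 : (AU : ℝ) * (1 / (2 * u)) ^ AU ≤ A * (1 / u) ^ A := by gcongr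
    linarith
  obtain ⟨Z, hZ⟩ : ∃ Z : ℝ, Z = 16 + 1 / u + t * 4 ^ t / u + 2 / δ + 32 * n / u := ⟨_, rfl⟩
  have a1 : 0 < 1 / u := by positivity
  have a2 : 0 ≤ t * 4 ^ t / u := by positivity
  have a3 : 0 < 2 / δ := by positivity
  have a4 : 0 ≤ 32 * n / u := by positivity
  have hYZ : Z ^ (8 * n) ≤ Y := by
    have b1 : 1 / u ≤ 1 / (u * δ) := one_div_le_one_div_of_le huδ (by nlinarith)
    have b2 : 1 / δ ≤ 1 / (u * δ) := one_div_le_one_div_of_le huδ (by nlinarith)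
    have b3 : Z ≤ S * (1 / (u * δ)) := by
      have e1 : t * 4 ^ t / u = (t * 4 ^ t : ℝ) * (1 / u) := by ring
      have e2 : 2 / δ = 2 * (1 / δ) := by ring
      have e3 : 32 * (n : ℝ) / u = 32 * n * (1 / u) := by ring
      rw [hZ, e1, e2, e3, hS]
      push_cast
      have b4 : (t * 4 ^ t : ℝ) * (1 / u) ≤ (t * 4 ^ t : ℝ) * (1 / (u * δ)) := by gcongr
      have b5 : 32 * (n : ℝ) * (1 / u) ≤ 32 * n * (1 / (u * δ)) := by gcongr
      nlinarith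
    have hZ0 : 0 ≤ Z := by rw [hZ]; positivity
    refine le_trans ?_ hYA
    calc Z ^ (8 * n) ≤ (S * (1 / (u * δ))) ^ (8 * n) := by gcongr
      _ = (S : ℝ) ^ (8 * n) * (1 / (u * δ)) ^ (8 * n) := mul_pow _ _ _
      _ ≤ A * (1 / (u * δ)) ^ A := by
          have b6 : ((S : ℝ) ^ (8 * n)) ≤ A := by
            have : S ^ (8 * n) ≤ A := by omega
            exact_mod_cast this
          have b7 : (1 / (u * δ)) ^ (8 * n) ≤ (1 / (u * δ)) ^ A :=
            pow_le_pow_right₀ hiu (by omega)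
          gcongr
  have hn8 : 8 * n ≠ 0 := by omega
  obtain ⟨z, hz0', hzY⟩ : ∃ z : ℝ, 0 ≤ z ∧ (Y : ℝ) = z ^ (8 * n) :=
    ⟨(Y : ℝ) ^ (((8 * n : ℕ) : ℝ)⁻¹), by positivity,
      (Real.rpow_inv_natCast_pow (by positivity) hn8).symm⟩
  have hZz : Z ≤ z := by
    rw [hzY] at hYZ
    exact le_of_pow_le_pow_left₀ hn8 hz0' hYZ
  have hz16 : 16 ≤ z := by linarith
  have hz1 : (1 : ℝ) ≤ z := by linarith
  have hz0 : 0 < z := by linarith
  have hzu : 1 / u ≤ z := by linarith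
  have hzt : t * 4 ^ t / u ≤ z := by linarith
  have hzδ : 2 / δ ≤ z := by linarith
  have hzn : 32 * n / u ≤ z := by linarith
  have hzYle : z ≤ Y := by
    rw [hzY]; exact le_self_pow₀ hz1 hn8
  have hlz : 0 < Real.log z := Real.log_pos (by linarith)
  have hlogY : Real.log Y = 8 * n * Real.log z := by rw [hzY, Real.log_pow]; push_cast; ring
  have hnr : (1 : ℝ) ≤ n := by exact_mod_cast hn1
  -- comparison of `log Y` and `z`
  have hlogz : Real.log z ≤ z := (Real.log_le_sub_one_of_pos hz0).trans (by linarith)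
  have hcmp : Real.log Y ≤ u * z ^ 2 / 4 := by
    rw [hlogY]
    have h1 : 32 * n ≤ z * u := by rwa [div_le_iff₀ hu0] at hzn
    nlinarith
  -- the parameters
  obtain ⟨K, hKle, hKlt⟩ : ∃ K : ℕ, (K : ℝ) ≤ 1 / (8 * u) ∧ 1 / (8 * u) < K + 1 :=
    ⟨⌊1 / (8 * u)⌋₊, Nat.floor_le (by positivity), Nat.lt_floor_add_one _⟩
  have h8 : 1 ≤ 1 / (8 * u) := by
    rw [le_div_iff₀ (by positivity)]; linarith
  have hK1 : 1 ≤ K := by
    have : (0 : ℝ) < K := by linarith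
    exact_mod_cast this
  have hK1r : (1 : ℝ) ≤ K := by exact_mod_cast hK1
  have hKu : 8 * u * K ≤ 1 := by
    rw [le_div_iff₀ (by positivity)] at hKle
    linarith
  have hKi : 1 / (K : ℝ) ≤ 16 * u := by
    rw [div_lt_iff₀ (by positivity)] at hKlt
    rw [div_le_iff₀ (by positivity)]
    nlinarith
  have hKz : (K : ℝ) ≤ z := by
    refine (hKle.trans ?_).trans hzu
    apply div_le_div_of_nonneg_left (by norm_num) hu0
    linarith
  obtain ⟨R, hRz, hRlt⟩ : ∃ R : ℕ, (R : ℝ) ≤ z ∧ z < R + 1 :=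
    ⟨⌊z⌋₊, Nat.floor_le hz0', Nat.lt_floor_add_one _⟩
  have hR2 : 2 ≤ R := by
    have : (1 : ℝ) < R := by linarith
    exact_mod_cast this
  have hRY : R ≤ Y := by
    have : (R : ℝ) ≤ Y := hRz.trans hzYle
    exact_mod_cast this
  have hlR : Real.log z ≤ 2 * Real.log R := by
    have h1 : z ≤ (R : ℝ) ^ 2 := by nlinarith
    have h2 := Real.log_le_log hz0 h1
    rw [Real.log_pow] at h2
    push_cast at h2; linarith
  obtain ⟨lam, hl1, hl2, -, hl4⟩ := hSW 1 R le_rfl hR2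
  by_cases hall : ∀ k : ℤ, k ≠ 0 → |k| < K → ∀ e, 1 ≤ e → e ≤ R ^ 2 →
      ‖∑ m ∈ (Ioc Y (4 * Y)).filter (fun m => e ∣ m), ee (k * ((m : ℝ) ^ t * β))‖ ≤ Y / z ^ 4
  · -- no large frequency
    have h1 := case_one t K R Y (by omega) (by omega) hRY lam hl1 hl2 _ (Y / z ^ 4) u β θ hKu
      (le_refl _) (by positivity) hall
    exact hfin _ Y hY2 _ (h1.trans (case_one_num n Y K R CS u z hn1 hCS hz16 hu0 hu1 hzY hlogY hcmp
      hKi hRz hlR _ hl4)) (by linarith)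
  · -- a large frequency: `β` is close to a rational number
    push Not at hall
    obtain ⟨k, hk0, hk, e, he, heR, hbig⟩ := hall
    obtain ⟨q', hq'1, hq'2, hq'3⟩ := bad_freq t ht Cw hCw1 hW n hn z hz16 Y hzY K R hKz hRz β k hk0
      hk e he heR hbig
    obtain ⟨q, a, hq1, hqz, hcop, hβa, hqβ⟩ := reduce β q' hq'1 _ _ hq'2 hq'3
    exact hfin _ Y hY2 _ (case_two t n Y q q₀ a CB CU u z δ β θ ht hn1 hCB hCU hz16 hu0 hBT hq₀ hδ
      hzt hzδ (fun q h1 h2 => hδB' q h1 h2) hzY hlogY hq1 hqz hcop hβa hqβ) (by linarith)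

end Pool.Agent.Lib.MP_663568_nt.H6
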