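import Mathlib
import Pool.Agent.Lib.MP_663568_nul.Equi
import Pool.Agent.Lib.MP_663568_h6.FrostQ
import Pool.Agent.Lib.MP_663568_nt.Poly

/-!
# Exponential sums over pairs of primes: polynomial dependence on the parameters
-/

set_option autoImplicit false
open Finset Polynomial

namespace Pool.Agent.Lib.MP_663568_nt.H6

open Katai Nul EqA

/-- separation of the multiples `q β`, `q ≤ Q`, from the integers, with a real bound `Q` -/
def Sq (Q δ β : ℝ) : Prop := ∀ q : ℕ, 1 ≤ q → (q : ℝ) ≤ Q → δ ≤ nd ((q : ℝ) * β)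

lemma Sq.mono {Q Q' δ δ' β : ℝ} (h : Sq Q δ β) (hQ : Q' ≤ Q) (hδ : δ' ≤ δ) : Sq Q' δ' β :=
  fun q h1 h2 => hδ.trans (h q h1 (h2.trans hQ))

lemma Sq.mul {Q Q' δ β : ℝ} (h : Sq Q δ β) (k : ℕ) (hk : 1 ≤ k) (hQ : Q' * k ≤ Q) :
    Sq Q' δ ((k : ℝ) * β) := by
  intro q h1 h2
  have h3 := h (q * k) (Nat.mul_pos h1 hk) (by
    push_cast
    exact (mul_le_mul_of_nonneg_right h2 (Nat.cast_nonneg _)).trans hQ)
  push_cast at h3
  rw [← mul_assoc]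
  exact h3

/-- bad primes -/
lemma badq (t : ℕ) (ht : 1 ≤ t) : ∃ C : ℝ, 0 < C ∧ ∃ A : ℕ, 1 ≤ A ∧
    ∀ u : ℝ, 0 < u → u ≤ 1 → ∀ δ : ℝ, 0 < δ → δ ≤ 1 → ∀ β : ℝ, Sq (A * (1 / u) ^ A) δ β →
    ∀ a b : ℕ, 7 ≤ a → (A : ℝ) * (1 / (u * δ)) ^ A ≤ (4 : ℝ) ^ a → a ≤ b → ∀ θ : ℝ,
      ∑ p ∈ (blk a b).filter (fun p : ℕ => nd ((p : ℝ) ^ t * β - θ) ≤ u), (1 : ℝ) / p
        ≤ C * u * WW (blk a b) := by
  obtain ⟨C, hC, A, hA1, hfr⟩ := frostq t ht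
  refine ⟨16 * C, by positivity, A, hA1, fun u hu hu1 δ hδ hδ1 β hβ a b ha haA hab θ => ?_⟩
  have h3 : WW (blk a b) = ∑ j ∈ Ico a b, WW (blk j (j + 1)) := sum_blk (fun p => 1 / (p : ℝ)) hab
  rw [sum_filter, sum_blk _ hab, h3, mul_sum]
  apply sum_le_sum
  intro j hj
  rw [mem_Ico] at hj
  have h4 := cheb j (by omega)
  have h5 := hfr u hu hu1 δ hδ hδ1 β hβ (4 ^ j) (by
    refine haA.trans ?_
    push_cast
    exact pow_le_pow_right₀ (by norm_num) hj.1) θ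
  have hl2 : 0 < Real.log 2 := Real.log_pos (by norm_num)
  have hl4 : 1 ≤ Real.log 4 := by
    rw [show (4 : ℝ) = 2 ^ 2 by norm_num, Real.log_pow]
    have := Real.log_two_gt_d9
    norm_num; linarith
  have hj0 : (7 : ℝ) ≤ j := by
    have : 7 ≤ j := by omega
    exact_mod_cast this
  have h6 : Real.log ((4 ^ j : ℕ) : ℝ) = j * Real.log 4 := by
    push_cast; rw [Real.log_pow]
  rw [h6] at h5
  rw [← sum_filter]
  have h7 : ∑ p ∈ (blk j (j + 1)).filter (fun p : ℕ => nd ((p : ℝ) ^ t * β - θ) ≤ u), (1 : ℝ) / p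
      ≤ (((Ioc (4 ^ j) (4 * 4 ^ j)).filter fun p : ℕ =>
        p.Prime ∧ nd ((p : ℝ) ^ t * β - θ) ≤ u).card : ℝ) * (1 / 4 ^ j) := by
    have e : (blk j (j + 1)).filter (fun p : ℕ => nd ((p : ℝ) ^ t * β - θ) ≤ u)
        = (Ioc (4 ^ j) (4 * 4 ^ j)).filter fun p : ℕ =>
          p.Prime ∧ nd ((p : ℝ) ^ t * β - θ) ≤ u := by
      rw [blk, filter_filter, pow_succ, mul_comm 4]
    rw [e, ← nsmul_eq_mul]
    apply sum_le_card_nsmul
    intro p hp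
    rw [mem_filter, mem_Ioc] at hp
    apply one_div_le_one_div_of_le (by positivity)
    exact_mod_cast hp.1.1.le
  calc _ ≤ _ := h7
    _ ≤ (C * u * ((4 ^ j : ℕ) : ℝ) / (j * Real.log 4)) * (1 / 4 ^ j) := by gcongr
    _ = C * u / (j * Real.log 4) := by push_cast; field_simp
    _ ≤ C * u / (j * 1) := by gcongr
    _ ≤ 16 * C * u * (1 / (8 * ((j : ℝ) + 1))) := by
        rw [mul_one, mul_one_div, div_le_div_iff₀ (by positivity) (by positivity)]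
        have : 0 < C * u := by positivity
        nlinarith
    _ ≤ _ := by gcongr

/-- one dyadic scale, for polynomial phases of degree `t` -/
lemma scaleq (t : ℕ) (ht : 1 ≤ t) : ∃ (D : ℕ) (C : ℝ) (A : ℕ), 1 ≤ D ∧ 0 < C ∧ 1 ≤ A ∧
    ∀ i : ℕ, D ≤ i → ∀ δ : ℝ, 0 < δ → δ ≤ 1 → ∀ S : ℝ[X], S.natDegree ≤ t →
    Sq (A * ((2 : ℝ) ^ i) ^ A) δ (S.coeff t) → ∀ a b : ℕ, 7 ≤ a →
    (A : ℝ) * ((2 : ℝ) ^ i / δ) ^ A ≤ (4 : ℝ) ^ a → a ≤ b →
      ∑ m ∈ Ico (2 ^ i : ℕ) (2 ^ (i + 1)),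
        ‖∑ p ∈ blk a b, ((1 / (p : ℝ) : ℝ) : ℂ) * ee (S.eval ((m : ℝ) * p))‖ ^ 2
      ≤ C * 2 ^ i * (1 / 2) ^ (i / D) * WW (blk a b) ^ 2 := by
  obtain ⟨C₀, hC₀, hinv⟩ := weyl_inverse t ht
  obtain ⟨C, hC, A₀, hA₀, hbad⟩ := badq t ht
  obtain ⟨A, hA⟩ : ∃ A : ℕ, A = t * A₀ + A₀ + 1 := ⟨_, rfl⟩
  refine ⟨4 * C₀, 1 + C, A, by omega, by positivity, by omega,
    fun i hi δ hδ hδ1 S hSd hβ a b ha haA hab => ?_⟩
  obtain ⟨β, hβe⟩ : ∃ β : ℝ, β = S.coeff t := ⟨_, rfl⟩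
  rw [← hβe] at hβ
  set r := i / (4 * C₀) with hr
  have hr1 : 1 ≤ r := (Nat.one_le_div_iff (by omega)).mpr hi
  have hrle : r * (4 * C₀) ≤ i := Nat.div_mul_le_self _ _
  set X := 2 ^ i with hX
  set Q := 2 ^ (r * C₀) with hQ
  have hQX : Q ≤ X := Nat.pow_le_pow_right (by norm_num) (by nlinarith)
  have hX0 : (0 : ℝ) < X := by rw [hX]; positivity
  have hQ0 : (0 : ℝ) < Q := by rw [hQ]; positivity
  have hQ1 : (1 : ℝ) ≤ Q := by exact_mod_cast Nat.one_le_two_pow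
  set u : ℝ := (Q : ℝ) / (X : ℝ) ^ t with hu
  have hu0 : 0 < u := by positivity
  have hX1 : (1 : ℝ) ≤ X := by exact_mod_cast Nat.one_le_two_pow
  have hXt : (X : ℝ) ≤ (X : ℝ) ^ t := le_self_pow₀ hX1 (by omega)
  have hu1 : u ≤ 1 := by
    rw [hu, div_le_one (by positivity)]
    calc (Q : ℝ) ≤ X := by exact_mod_cast hQX
      _ ≤ _ := hXt
  have huX : u ≤ Q / X := by rw [hu]; gcongr
  have hiu : 1 / u ≤ (X : ℝ) ^ t := by
    rw [hu, one_div_div]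
    exact div_le_self (by positivity) hQ1
  have hXc : (X : ℝ) = 2 ^ i := by rw [hX]; push_cast; rfl
  have hid : 1 ≤ 1 / δ := by rw [le_div_iff₀ hδ]; linarith
  -- separation of the multiples
  have hsep : ∀ q ∈ Icc 1 Q, Sq (A₀ * (1 / u) ^ A₀) δ ((q : ℝ) * β) := by
    intro q hq
    rw [mem_Icc] at hq
    refine hβ.mul q hq.1 (Q' := A₀ * (1 / u) ^ A₀) ?_
    have hqX : (q : ℝ) ≤ X := by exact_mod_cast hq.2.trans hQX
    have hA0A : (A₀ : ℝ) ≤ A := by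
      have : A₀ ≤ A := by omega
      exact_mod_cast this
    calc (A₀ : ℝ) * (1 / u) ^ A₀ * q ≤ A * ((X : ℝ) ^ t) ^ A₀ * X := by gcongr
      _ = A * (X : ℝ) ^ (t * A₀ + 1) := by rw [← pow_mul, mul_assoc, ← pow_succ]
      _ ≤ A * (X : ℝ) ^ A := by
          gcongr
          omega
      _ = A * ((2 : ℝ) ^ i) ^ A := by rw [hXc]
  have haA' : (A₀ : ℝ) * (1 / (u * δ)) ^ A₀ ≤ (4 : ℝ) ^ a := by
    refine le_trans ?_ haA
    have hA0A : (A₀ : ℝ) ≤ A := by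
      have : A₀ ≤ A := by omega
      exact_mod_cast this
    have h1 : 1 / (u * δ) ≤ ((2 : ℝ) ^ i / δ) ^ t := by
      rw [div_pow, ← hXc]
      calc 1 / (u * δ) = (1 / u) * (1 / δ) := by rw [one_div_mul_one_div]
        _ ≤ (X : ℝ) ^ t * (1 / δ) ^ t := by
            have : 1 / δ ≤ (1 / δ) ^ t := le_self_pow₀ hid (by omega)
            gcongr
        _ = _ := by rw [one_div, inv_pow]; rfl
    have h2 : 1 ≤ (2 : ℝ) ^ i / δ := by
      rw [le_div_iff₀ hδ, one_mul]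
      exact hδ1.trans (one_le_pow₀ (by norm_num))
    calc (A₀ : ℝ) * (1 / (u * δ)) ^ A₀ ≤ A * (((2 : ℝ) ^ i / δ) ^ t) ^ A₀ := by gcongr
      _ = A * ((2 : ℝ) ^ i / δ) ^ (t * A₀) := by rw [← pow_mul]
      _ ≤ _ := by
          gcongr
          omega
  set ρ : ℝ := (1 / 2) ^ r with hρ
  have hρ0 : 0 < ρ := by positivity
  have hρ2 : ρ ≤ 1 / 2 := by
    calc ρ ≤ (1 / 2) ^ 1 := pow_le_pow_of_le_one (by norm_num) (by norm_num) hr1
      _ = _ := by norm_num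
  have hρQ : (1 / ρ) ^ C₀ = (Q : ℝ) := by
    have h1 : 1 / ρ = 2 ^ r := by rw [hρ, one_div_pow, one_div_one_div]
    rw [h1, hQ, ← pow_mul]; push_cast; rfl
  set W := WW (blk a b) with hW
  have hW0 : 0 ≤ W := WW_nonneg _
  have hpair : ∀ p p' : ℕ, ‖∑ m ∈ Ico X (2 ^ (i + 1)),
      ee (S.eval ((m : ℝ) * p) - S.eval ((m : ℝ) * p'))‖
      ≤ ρ * X + X * ∑ q ∈ Icc 1 Q,
        if nd ((p : ℝ) ^ t * ((q : ℝ) * β) - (q : ℝ) * (p' : ℝ) ^ t * β) ≤ u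
          then (1 : ℝ) else 0 := by
    intro p p'
    set R : ℝ[X] := S.comp (Polynomial.C (p : ℝ) * (Polynomial.X + Polynomial.C ((X : ℝ) - 1))) -
      S.comp (Polynomial.C (p' : ℝ) * (Polynomial.X + Polynomial.C ((X : ℝ) - 1))) with hR
    obtain ⟨n1, c1⟩ := comp_dilate S t hSd p ((X : ℝ) - 1)
    obtain ⟨n2, c2⟩ := comp_dilate S t hSd p' ((X : ℝ) - 1)
    have e1 : ∑ m ∈ Ico X (2 ^ (i + 1)),
        ee (S.eval ((m : ℝ) * p) - S.eval ((m : ℝ) * p'))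
        = ∑ m ∈ Icc 1 X, ee (R.eval (m : ℝ)) := by
      symm
      have hXX : 2 ^ (i + 1) = X + X := by rw [pow_succ, hX]; ring
      have hXp : 1 ≤ X := Nat.one_le_two_pow
      rw [hXX]
      refine sum_nbij' (fun m => m + (X - 1)) (fun m => m - (X - 1)) ?_ ?_ ?_ ?_ ?_
      · intro m hm; rw [mem_Icc] at hm; rw [mem_Ico]; omega
      · intro m hm; rw [mem_Ico] at hm; rw [mem_Icc]; omega
      · intro m hm; simp
      · intro m hm; rw [mem_Ico] at hm; omega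
      · intro m hm
        have hc : ((m + (X - 1) : ℕ) : ℝ) = m + ((X : ℝ) - 1) := by
          rw [Nat.cast_add, Nat.cast_sub hXp]; simp
        rw [hc, hR]
        congr 1
        simp only [eval_sub, eval_comp, eval_mul, eval_C, eval_add, eval_X]
        rw [mul_comm (p : ℝ), mul_comm (p' : ℝ)]
    have hn : ‖∑ m ∈ Icc 1 X, ee (R.eval (m : ℝ))‖ ≤ X := by
      calc _ ≤ ∑ m ∈ Icc 1 X, ‖ee (R.eval (m : ℝ))‖ := norm_sum_le _ _
        _ = _ := by simp [norm_ee]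
    rw [e1]
    rcases lt_or_ge ‖∑ m ∈ Icc 1 X, ee (R.eval (m : ℝ))‖ (ρ * X) with h | h
    · refine h.le.trans (le_add_of_nonneg_right ?_)
      apply mul_nonneg hX0.le
      apply sum_nonneg; intro q _; split_ifs <;> norm_num
    · have hdeg : R.natDegree ≤ t := (natDegree_sub_le _ _).trans (max_le n1 n2)
      obtain ⟨q, hq1, hqQ, hnd⟩ := hinv ρ X R hρ0 hρ2 (by rw [hρQ]; exact_mod_cast hQX) hdeg h
      have hcoef : R.coeff t = (p : ℝ) ^ t * β - (p' : ℝ) ^ t * β := by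
        rw [hR, coeff_sub, c1, c2, hβe]
      rw [hρQ] at hqQ hnd
      rw [hcoef] at hnd
      have hqm : q ∈ Icc 1 Q := by rw [mem_Icc]; exact ⟨hq1, by exact_mod_cast hqQ⟩
      have h1 : (1 : ℝ) ≤ ∑ q ∈ Icc 1 Q,
          if nd ((p : ℝ) ^ t * ((q : ℝ) * β) - (q : ℝ) * (p' : ℝ) ^ t * β) ≤ u
            then (1 : ℝ) else 0 := by
        refine le_trans ?_ (single_le_sum (f := fun q : ℕ =>
          if nd ((p : ℝ) ^ t * ((q : ℝ) * β) - (q : ℝ) * (p' : ℝ) ^ t * β) ≤ u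
            then (1 : ℝ) else 0) (fun q _ => by split_ifs <;> norm_num) hqm)
        rw [if_pos]
        have e2 : (p : ℝ) ^ t * ((q : ℝ) * β) - (q : ℝ) * (p' : ℝ) ^ t * β
            = (q : ℝ) * ((p : ℝ) ^ t * β - (p' : ℝ) ^ t * β) := by ring
        rw [e2]; exact hnd
      calc _ ≤ (X : ℝ) := hn
        _ = X * 1 := by ring
        _ ≤ X * _ := mul_le_mul_of_nonneg_left h1 hX0.le
        _ ≤ _ := le_add_of_nonneg_left (by positivity)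
  refine (Nul.EqA.expand (blk a b) (Ico X (2 ^ (i + 1))) (fun p => 1 / (p : ℝ))
    (fun p => by positivity)
    (fun p m => S.eval ((m : ℝ) * p))).trans ?_
  have hinner : ∀ p' : ℕ, ∑ p ∈ blk a b, 1 / (p : ℝ) * ‖∑ m ∈ Ico X (2 ^ (i + 1)),
      ee (S.eval ((m : ℝ) * p) - S.eval ((m : ℝ) * p'))‖
      ≤ (1 + C) * (ρ * X) * W := by
    intro p'
    have hq : ∀ q ∈ Icc 1 Q, ∑ p ∈ blk a b, 1 / (p : ℝ) *
        (if nd ((p : ℝ) ^ t * ((q : ℝ) * β) - (q : ℝ) * (p' : ℝ) ^ t * β) ≤ u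
          then (1 : ℝ) else 0) ≤ C * u * W := by
      intro q hq
      have := hbad u hu0 hu1 δ hδ hδ1 _ (hsep q hq) a b ha haA' hab
        ((q : ℝ) * (p' : ℝ) ^ t * β)
      rw [sum_filter] at this
      simpa only [mul_ite, mul_one, mul_zero] using this
    calc _ ≤ ∑ p ∈ blk a b, 1 / (p : ℝ) * (ρ * X + X * ∑ q ∈ Icc 1 Q,
          if nd ((p : ℝ) ^ t * ((q : ℝ) * β) - (q : ℝ) * (p' : ℝ) ^ t * β) ≤ u
          then (1 : ℝ) else 0) := by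
          apply sum_le_sum; intro p _
          apply mul_le_mul_of_nonneg_left (hpair p p') (by positivity)
      _ = ρ * X * W + X * ∑ q ∈ Icc 1 Q, ∑ p ∈ blk a b, 1 / (p : ℝ) *
          (if nd ((p : ℝ) ^ t * ((q : ℝ) * β) - (q : ℝ) * (p' : ℝ) ^ t * β) ≤ u
          then (1 : ℝ) else 0) := by
          rw [sum_comm, mul_sum, hW, WW, mul_sum, ← sum_add_distrib]
          apply sum_congr rfl; intro p _
          rw [mul_add, ← mul_sum]; ring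
      _ ≤ ρ * X * W + X * ∑ q ∈ Icc 1 Q, C * u * W := by
          gcongr with q hq'; exact hq q hq'
      _ = ρ * X * W + X * (Q * (C * u * W)) := by
          rw [sum_const, nsmul_eq_mul]; simp
      _ ≤ ρ * X * W + X * (Q * (C * (Q / X) * W)) := by gcongr
      _ = ρ * X * W + C * (Q * Q) * W := by field_simp
      _ ≤ ρ * X * W + C * (ρ * X) * W := by
          have hQQ : (Q : ℝ) * Q ≤ ρ * X := by
            have h1 : 2 ^ r * (Q * Q) ≤ X := by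
              rw [hQ, hX, ← pow_add, ← pow_add]
              apply Nat.pow_le_pow_right (by norm_num)
              nlinarith
            have h2 : (2 : ℝ) ^ r * (Q * Q) ≤ X := by exact_mod_cast h1
            have h3 : ρ * 2 ^ r = 1 := by
              rw [hρ, ← mul_pow]; norm_num
            calc (Q : ℝ) * Q = ρ * (2 ^ r * (Q * Q)) := by rw [← mul_assoc, h3, one_mul]
              _ ≤ _ := by gcongr
          gcongr
      _ = _ := by ring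
  calc _ ≤ ∑ p' ∈ blk a b, 1 / (p' : ℝ) * ((1 + C) * (ρ * X) * W) := by
        apply sum_le_sum; intro p' _
        exact mul_le_mul_of_nonneg_left (hinner p') (by positivity)
    _ = W * ((1 + C) * (ρ * X) * W) := by rw [← sum_mul, hW, WW]
    _ = _ := by rw [hX]; push_cast; ring

/-- one dyadic scale, uniformly for all degrees `1 ≤ t ≤ T` -/
lemma scaleT (T : ℕ) : ∃ (D : ℕ) (C : ℝ) (A : ℕ), 1 ≤ D ∧ 0 < C ∧ 1 ≤ A ∧
    ∀ t : ℕ, 1 ≤ t → t ≤ T →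
    ∀ i : ℕ, D ≤ i → ∀ δ : ℝ, 0 < δ → δ ≤ 1 → ∀ S : ℝ[X], S.natDegree ≤ t →
    Sq (A * ((2 : ℝ) ^ i) ^ A) δ (S.coeff t) → ∀ a b : ℕ, 7 ≤ a →
    (A : ℝ) * ((2 : ℝ) ^ i / δ) ^ A ≤ (4 : ℝ) ^ a → a ≤ b →
      ∑ m ∈ Ico (2 ^ i : ℕ) (2 ^ (i + 1)),
        ‖∑ p ∈ blk a b, ((1 / (p : ℝ) : ℝ) : ℂ) * ee (S.eval ((m : ℝ) * p))‖ ^ 2
      ≤ C * 2 ^ i * (1 / 2) ^ (i / D) * WW (blk a b) ^ 2 := by
  induction T with
  | zero => exact ⟨1, 1, 1, le_rfl, one_pos, le_rfl, fun t h1 h2 => by omega⟩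
  | succ T ih =>
    obtain ⟨D, C, A, hD, hC, hA, h⟩ := ih
    obtain ⟨D', C', A', hD', hC', hA', h'⟩ := scaleq (T + 1) (by omega)
    have key : ∀ (D D' : ℕ) (C C' : ℝ) (A A' : ℕ), 1 ≤ D → 0 < C → 0 < C' → ∀ t : ℕ,
        (∀ i : ℕ, D ≤ i → ∀ δ : ℝ, 0 < δ → δ ≤ 1 → ∀ S : ℝ[X], S.natDegree ≤ t →
        Sq (A * ((2 : ℝ) ^ i) ^ A) δ (S.coeff t) → ∀ a b : ℕ, 7 ≤ a →
        (A : ℝ) * ((2 : ℝ) ^ i / δ) ^ A ≤ (4 : ℝ) ^ a → a ≤ b →
          ∑ m ∈ Ico (2 ^ i : ℕ) (2 ^ (i + 1)),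
            ‖∑ p ∈ blk a b, ((1 / (p : ℝ) : ℝ) : ℂ) * ee (S.eval ((m : ℝ) * p))‖ ^ 2
          ≤ C * 2 ^ i * (1 / 2) ^ (i / D) * WW (blk a b) ^ 2) →
        ∀ i : ℕ, D + D' ≤ i → ∀ δ : ℝ, 0 < δ → δ ≤ 1 → ∀ S : ℝ[X], S.natDegree ≤ t →
        Sq ((A + A' : ℕ) * ((2 : ℝ) ^ i) ^ (A + A')) δ (S.coeff t) → ∀ a b : ℕ, 7 ≤ a →
        ((A + A' : ℕ) : ℝ) * ((2 : ℝ) ^ i / δ) ^ (A + A') ≤ (4 : ℝ) ^ a → a ≤ b →
          ∑ m ∈ Ico (2 ^ i : ℕ) (2 ^ (i + 1)),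
            ‖∑ p ∈ blk a b, ((1 / (p : ℝ) : ℝ) : ℂ) * ee (S.eval ((m : ℝ) * p))‖ ^ 2
          ≤ (C + C') * 2 ^ i * (1 / 2) ^ (i / (D + D')) * WW (blk a b) ^ 2 := by
      intro D D' C C' A A' hD hC hC' t h i hi δ hδ hδ1 S hS hβ a b ha haA hab
      have hAA : (A : ℝ) ≤ ((A + A' : ℕ) : ℝ) := by exact_mod_cast Nat.le_add_right _ _
      have h2i : (1 : ℝ) ≤ (2 : ℝ) ^ i := one_le_pow₀ (by norm_num)
      have h2d : (1 : ℝ) ≤ (2 : ℝ) ^ i / δ := by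
        rw [le_div_iff₀ hδ, one_mul]
        exact hδ1.trans h2i
      refine (h i (by omega) δ hδ hδ1 S hS (hβ.mono ?_ le_rfl) a b ha (le_trans ?_ haA) hab).trans
        ?_
      · gcongr
        omega
      · gcongr
        omega
      · have h3 : (1 / 2 : ℝ) ^ (i / D) ≤ (1 / 2 : ℝ) ^ (i / (D + D')) := by
          apply pow_le_pow_of_le_one (by norm_num) (by norm_num)
          exact Nat.div_le_div_left (by omega) (by omega)
        have hWn := WW_nonneg (blk a b)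
        gcongr
        linarith
    refine ⟨D + D', C + C', A + A', by omega, by positivity, by omega, fun t ht1 ht2 => ?_⟩
    rcases Nat.lt_or_ge t (T + 1) with hlt | hge
    · exact key D D' C C' A A' hD hC hC' t (h t ht1 (by omega))
    · have : t = T + 1 := by omega
      subst this
      rw [add_comm D, add_comm C, add_comm A]
      exact key D' D C' C A' A hD' hC' hC (T + 1) h'

end Pool.Agent.Lib.MP_663568_nt.H6
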