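import Mathlib
import Pool.Agent.Lib.MP_663568_h6.BadQ

/-!
# Exponential sums over pairs of primes, with prime sets of polynomial size
-/

set_option autoImplicit false
open Finset Polynomial

namespace Pool.Agent.Lib.MP_663568_nt.H6

open Katai Nul EqA

lemma log_le_sum (a b : ℕ) (hab : a ≤ b) :
    Real.log ((b : ℝ) + 1) - Real.log ((a : ℝ) + 1) ≤ ∑ j ∈ Ico a b, 1 / ((j : ℝ) + 1) := by
  induction b, hab using Nat.le_induction with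
  | base => simp
  | succ b hb ih =>
    rw [sum_Ico_succ_top hb]
    have h0 : (0 : ℝ) < (b : ℝ) + 1 := by positivity
    have h1 : Real.log (((b + 1 : ℕ) : ℝ) + 1) - Real.log ((b : ℝ) + 1) ≤ 1 / ((b : ℝ) + 1) := by
      rw [← Real.log_div (by positivity) h0.ne']
      have h2 := Real.log_le_sub_one_of_pos (x := (((b + 1 : ℕ) : ℝ) + 1) / ((b : ℝ) + 1))
        (by positivity)
      refine h2.trans (le_of_eq ?_)
      push_cast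
      field_simp
      ring
    linarith

/-- an explicit block of primes with large sum of reciprocals -/
lemma WW_blk_mul (a E : ℕ) (W : ℝ) (ha : 7 ≤ a) (hE : 1 ≤ E) (hW : 8 * W ≤ Real.log E) :
    a ≤ E * (a + 1) ∧ W ≤ WW (blk a (E * (a + 1))) := by
  have hab : a ≤ E * (a + 1) := by nlinarith
  refine ⟨hab, ?_⟩
  set b := E * (a + 1) with hb
  have h3 : WW (blk a b) = ∑ j ∈ Ico a b, WW (blk j (j + 1)) := sum_blk (fun p => 1 / (p : ℝ)) hab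
  rw [h3]
  have h4 : ∑ j ∈ Ico a b, 1 / (8 * ((j : ℝ) + 1)) ≤ ∑ j ∈ Ico a b, WW (blk j (j + 1)) := by
    apply sum_le_sum
    intro j hj
    rw [mem_Ico] at hj
    exact cheb j (by omega)
  have h5 : ∑ j ∈ Ico a b, 1 / (8 * ((j : ℝ) + 1)) = (1 / 8) * ∑ j ∈ Ico a b, 1 / ((j : ℝ) + 1) := by
    rw [mul_sum]
    exact sum_congr rfl fun j _ => by field_simp
  have h6 := log_le_sum a b hab
  have hE0 : (0 : ℝ) < E := by exact_mod_cast hE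
  have ha0 : (0 : ℝ) < (a : ℝ) + 1 := by positivity
  have h7 : Real.log E ≤ Real.log ((b : ℝ) + 1) - Real.log ((a : ℝ) + 1) := by
    rw [← Real.log_div (by positivity) ha0.ne']
    apply Real.log_le_log hE0
    rw [le_div_iff₀ ha0, hb]
    push_cast
    linarith
  linarith

lemma tail_blocks (D c k : ℕ) (hD : 1 ≤ D) :
    ∑ i ∈ Ico (D * c) (D * (c + k)), (1 / 2 : ℝ) ^ (i / D) ≤
      2 * D * ((1 / 2 : ℝ) ^ c - (1 / 2 : ℝ) ^ (c + k)) := by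
  induction k with
  | zero => simp
  | succ k ih =>
    rw [← sum_Ico_consecutive _ (m := D * c) (n := D * (c + k)) (k := D * (c + (k + 1)))
      (Nat.mul_le_mul_left _ (by omega)) (Nat.mul_le_mul_left _ (by omega))]
    have h1 : ∑ i ∈ Ico (D * (c + k)) (D * (c + (k + 1))), (1 / 2 : ℝ) ^ (i / D) =
        D * (1 / 2 : ℝ) ^ (c + k) := by
      have h2 : ∀ i ∈ Ico (D * (c + k)) (D * (c + (k + 1))),
          (1 / 2 : ℝ) ^ (i / D) = (1 / 2 : ℝ) ^ (c + k) := by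
        intro i hi
        rw [mem_Ico] at hi
        congr 1
        apply Nat.div_eq_of_lt_le
        · linarith [hi.1, mul_comm D (c + k)]
        · have := hi.2
          calc i < D * (c + (k + 1)) := this
            _ = (c + k + 1) * D := by ring
      rw [sum_congr rfl h2, sum_const, Nat.card_Ico, nsmul_eq_mul]
      congr 1
      have : D * (c + (k + 1)) - D * (c + k) = D := by
        rw [← Nat.mul_sub]
        have : c + (k + 1) - (c + k) = 1 := by omega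
        rw [this, mul_one]
      rw [this]
    rw [h1]
    have h3 : (1 / 2 : ℝ) ^ (c + (k + 1)) = (1 / 2 : ℝ) ^ (c + k) * (1 / 2) := by
      rw [← pow_succ]; congr 1
    rw [h3]
    nlinarith [ih]

lemma tailq (D s n : ℕ) (hD : 1 ≤ D) :
    ∑ i ∈ Ico (D * (2 * s)) n, (1 / 2 : ℝ) ^ (i / D) ≤ 2 * D * (1 / 4 : ℝ) ^ s := by
  have h1 : ∑ i ∈ Ico (D * (2 * s)) n, (1 / 2 : ℝ) ^ (i / D) ≤
      ∑ i ∈ Ico (D * (2 * s)) (D * (2 * s + n)), (1 / 2 : ℝ) ^ (i / D) := by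
    apply sum_le_sum_of_subset_of_nonneg
    · apply Ico_subset_Ico_right
      nlinarith
    · intro _ _ _; positivity
  refine h1.trans ((tail_blocks D (2 * s) n hD).trans ?_)
  have h2 : (1 / 2 : ℝ) ^ (2 * s) = (1 / 4 : ℝ) ^ s := by rw [pow_mul]; norm_num
  rw [h2]
  have h3 : (0 : ℝ) ≤ (1 / 2 : ℝ) ^ (2 * s + n) := by positivity
  have h4 : (0 : ℝ) ≤ D := Nat.cast_nonneg _
  nlinarith [mul_nonneg h4 h3]

lemma main_auxq (D s b₀ : ℕ) (hD : 1 ≤ D) (C η : ℝ) (hC : 0 < C) (hη : 0 < η)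
    (hb₀ : D * s ≤ b₀) (hs : C * (2 * D * (1 / 4 : ℝ) ^ s) ≤ η ^ 2) (P : Finset ℕ)
    (hP : P ⊆ Ico (2 ^ (2 * (D * s)) : ℕ) (2 ^ (2 * b₀ + 1))) (W : ℝ) (hW : W = WW P) (hW1 : 1 ≤ W)
    (W' : ℝ) (hW0' : 0 ≤ W') (T : ℕ → ℂ)
    (hT : ∀ i ∈ Ico (2 * (D * s)) (2 * b₀ + 1), ∑ m ∈ Ico (2 ^ i : ℕ) (2 ^ (i + 1)), ‖T m‖ ^ 2
      ≤ C * 2 ^ i * (1 / 2) ^ (i / D) * W' ^ 2) :
    ‖∑ p ∈ P, ((1 / (p : ℝ) : ℝ) : ℂ) * T p‖ ≤ η * (W * W') := by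
  have hW0 : 0 ≤ W := by linarith
  have hW2 : 0 ≤ W' ^ 2 := sq_nonneg _
  have hCW : 0 ≤ C * W' ^ 2 := mul_nonneg hC.le hW2
  have h2 : ∑ p ∈ P, (1 / (p : ℝ)) * ‖T p‖ ^ 2 ≤ η ^ 2 * W' ^ 2 := by
    calc _ ≤ ∑ m ∈ Ico (2 ^ (2 * (D * s)) : ℕ) (2 ^ (2 * b₀ + 1)), (1 / (m : ℝ)) * ‖T m‖ ^ 2 := by
          apply sum_le_sum_of_subset_of_nonneg hP
          intro m _ _; positivity
      _ ≤ ∑ i ∈ Ico (2 * (D * s)) (2 * b₀ + 1), (1 / 2 : ℝ) ^ i *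
            ∑ m ∈ Ico (2 ^ i : ℕ) (2 ^ (i + 1)), ‖T m‖ ^ 2 :=
          dyadic (fun m => ‖T m‖ ^ 2) (fun m => by positivity) (by omega)
      _ ≤ ∑ i ∈ Ico (2 * (D * s)) (2 * b₀ + 1), (1 / 2 : ℝ) ^ i *
            (C * 2 ^ i * (1 / 2) ^ (i / D) * W' ^ 2) := by
          apply sum_le_sum; intro i hi
          exact mul_le_mul_of_nonneg_left (hT i hi) (by positivity)
      _ = (C * W' ^ 2) * ∑ i ∈ Ico (2 * (D * s)) (2 * b₀ + 1), (1 / 2 : ℝ) ^ (i / D) := by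
          rw [mul_sum]; apply sum_congr rfl; intro i _
          have : (1 / 2 : ℝ) ^ i * 2 ^ i = 1 := by rw [← mul_pow]; norm_num
          linear_combination (C * (1 / 2) ^ (i / D) * W' ^ 2) * this
      _ ≤ (C * W' ^ 2) * (2 * D * (1 / 4 : ℝ) ^ s) := by
          refine mul_le_mul_of_nonneg_left ?_ hCW
          have e : 2 * (D * s) = D * (2 * s) := by ring
          rw [e]
          exact tailq D s _ hD
      _ = (C * (2 * D * (1 / 4 : ℝ) ^ s)) * W' ^ 2 := by ring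
      _ ≤ η ^ 2 * W' ^ 2 := mul_le_mul_of_nonneg_right hs hW2
  have h3 := cs P T
  rw [← hW] at h3
  have h4 : ‖∑ p ∈ P, ((1 / (p : ℝ) : ℝ) : ℂ) * T p‖ ^ 2 ≤ (η * (W * W')) ^ 2 := by
    have h5 : 0 ≤ η ^ 2 * W' ^ 2 := mul_nonneg (sq_nonneg _) hW2
    calc _ ≤ _ := h3
      _ ≤ W * (η ^ 2 * W' ^ 2) := mul_le_mul_of_nonneg_left h2 hW0
      _ ≤ (W * W) * (η ^ 2 * W' ^ 2) := by
          refine mul_le_mul_of_nonneg_right ?_ h5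
          nlinarith
      _ = _ := by ring
  exact (pow_le_pow_iff_left₀ (norm_nonneg _) (by positivity) (by norm_num)).mp h4

lemma exists_four_pow (x : ℝ) (hx : 0 ≤ x) : ∃ s : ℕ, x ≤ (4 : ℝ) ^ s ∧ (4 : ℝ) ^ s ≤ 4 * (x + 1) := by
  classical
  have hex : ∃ n : ℕ, x ≤ (4 : ℝ) ^ n := by
    obtain ⟨n, hn⟩ := pow_unbounded_of_one_lt x (by norm_num : (1 : ℝ) < 4)
    exact ⟨n, hn.le⟩
  refine ⟨Nat.find hex, Nat.find_spec hex, ?_⟩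
  rcases Nat.eq_zero_or_pos (Nat.find hex) with h | h
  · rw [h]; simp; linarith
  · have h1 := Nat.find_min hex (m := Nat.find hex - 1) (by omega)
    push Not at h1
    have h2 : (4 : ℝ) ^ (Nat.find hex) = 4 * (4 : ℝ) ^ (Nat.find hex - 1) := by
      rw [← pow_succ']; congr 1; omega
    rw [h2]
    linarith

/-- exponential sums over two far apart sets of primes, for polynomial phases of degree at most
`T` -/
lemma mainq (T : ℕ) (P₀ : ℕ) (W₀ : ℝ) :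
    ∃ B : ℕ, 1 ≤ B ∧ ∀ η : ℝ, 0 < η → η ≤ 1 → ∀ δ : ℝ, 0 < δ → δ ≤ 1 →
    ∃ P P' : Finset ℕ, (∀ p ∈ P, p.Prime ∧ P₀ ≤ p ∧ (p : ℝ) ≤ B * (1 / (η * δ)) ^ B) ∧
      (∀ p ∈ P', p.Prime ∧ P₀ ≤ p ∧ (p : ℝ) ≤ B * (1 / (η * δ)) ^ B) ∧
      W₀ ≤ WW P ∧ W₀ ≤ WW P' ∧
      ∀ t : ℕ, 1 ≤ t → t ≤ T → ∀ S : ℝ[X], S.natDegree ≤ t →
        Sq (B * (1 / η) ^ B) δ (S.coeff t) →
        ‖∑ z ∈ P ×ˢ P', ((1 / ((z.1 : ℝ) * z.2) : ℝ) : ℂ) * ee (S.eval ((z.1 : ℝ) * z.2))‖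
        ≤ η * (WW P * WW P') := by
  obtain ⟨D, C, A, hD, hC, hA, hsc⟩ := scaleT T
  obtain ⟨E, hE⟩ : ∃ E : ℕ, E = ⌈Real.exp (8 * max W₀ 1)⌉₊ := ⟨_, rfl⟩
  have hEe : Real.exp (8 * max W₀ 1) ≤ E := by rw [hE]; exact Nat.le_ceil _
  have hE0 : (0 : ℝ) < E := (Real.exp_pos _).trans_le hEe
  have hE1 : 1 ≤ E := by exact_mod_cast hE0
  have hElog : 8 * max W₀ 1 ≤ Real.log E := by
    have := Real.log_le_log (Real.exp_pos _) hEe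
    rwa [Real.log_exp] at this
  obtain ⟨c₁, hc₁⟩ : ∃ c₁ : ℕ, c₁ = 4 ^ (8 + P₀) * ⌈2 * C * D + 1⌉₊ := ⟨_, rfl⟩
  obtain ⟨b, hb⟩ : ∃ b : ℕ, b = 4 ^ E * c₁ ^ (D * E) := ⟨_, rfl⟩
  obtain ⟨e₁, he₁⟩ : ∃ e₁ : ℕ, e₁ = 2 * D * E := ⟨_, rfl⟩
  obtain ⟨g, hg⟩ : ∃ g : ℕ, g = (4 ^ (9 + P₀) * (A * b ^ A + 1)) ^ E := ⟨_, rfl⟩
  obtain ⟨B, hB⟩ : ∃ B : ℕ, B = 1 + b + e₁ + (A * b ^ A + e₁ * A) + (g + (e₁ + 1) * A * E) :=
    ⟨_, rfl⟩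
  refine ⟨B, by omega, fun η hη hη1 δ hδ hδ1 => ?_⟩
  have hηδ : 0 < η * δ := mul_pos hη hδ
  obtain ⟨y, hy⟩ : ∃ y : ℝ, y = 1 / (η * δ) := ⟨_, rfl⟩
  obtain ⟨w, hw⟩ : ∃ w : ℝ, w = 1 / η := ⟨_, rfl⟩
  have hw1 : 1 ≤ w := by rw [hw, le_div_iff₀ hη]; linarith
  have hwy : w ≤ y := by
    rw [hw, hy]
    apply div_le_div_of_nonneg_left (by linarith) hηδ
    nlinarith
  have hy1 : 1 ≤ y := hw1.trans hwy
  have hiη : 1 / η ≤ w := le_of_eq hw.symm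
  have hiδ : 1 / δ ≤ y := by
    rw [hy, div_le_div_iff₀ hδ hηδ, one_mul]
    nlinarith
  rw [← hy, ← hw]
  -- the first block
  obtain ⟨s₀, hs₀, hs₀'⟩ := exists_four_pow (2 * C * D / η ^ 2) (by positivity)
  obtain ⟨s, hs⟩ : ∃ s : ℕ, s = s₀ + 7 + P₀ := ⟨_, rfl⟩
  have hsC : C * (2 * D * (1 / 4 : ℝ) ^ s) ≤ η ^ 2 := by
    have h1 : (1 / 4 : ℝ) ^ s ≤ (1 / 4 : ℝ) ^ s₀ :=
      pow_le_pow_of_le_one (by norm_num) (by norm_num) (by omega)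
    have h2 : (1 / 4 : ℝ) ^ s₀ * 4 ^ s₀ = 1 := by rw [← mul_pow]; norm_num
    rw [div_le_iff₀ (by positivity)] at hs₀
    calc C * (2 * D * (1 / 4 : ℝ) ^ s) ≤ C * (2 * D * (1 / 4 : ℝ) ^ s₀) := by gcongr
      _ = (1 / 4 : ℝ) ^ s₀ * (2 * C * D) := by ring
      _ ≤ (1 / 4 : ℝ) ^ s₀ * (4 ^ s₀ * η ^ 2) := by gcongr
      _ = _ := by rw [← mul_assoc, h2, one_mul]
  have h4s : (4 : ℝ) ^ s ≤ c₁ * w ^ 2 := by
    have h1 : (1 : ℝ) ≤ 1 / η := by rw [le_div_iff₀ hη]; linarith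
    have h2 : (2 * C * D + 1 : ℝ) ≤ ⌈2 * C * D + 1⌉₊ := Nat.le_ceil _
    have h3 : 2 * C * D / η ^ 2 + 1 ≤ (2 * C * D + 1) * w ^ 2 := by
      have h4 : (1 / η) ^ 2 ≤ w ^ 2 := by gcongr
      have h5 : 1 ≤ w ^ 2 := one_le_pow₀ hw1
      have h6 : 2 * C * D / η ^ 2 = 2 * C * D * (1 / η) ^ 2 := by rw [one_div, inv_pow]; rfl
      rw [h6]
      have h7 : 2 * C * D * (1 / η) ^ 2 ≤ 2 * C * D * w ^ 2 := by gcongr
      linarith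
    calc (4 : ℝ) ^ s = 4 ^ (7 + P₀) * 4 ^ s₀ := by rw [← pow_add, hs]; congr 1; omega
      _ ≤ 4 ^ (7 + P₀) * (4 * (2 * C * D / η ^ 2 + 1)) := by gcongr
      _ = 4 ^ (8 + P₀) * (2 * C * D / η ^ 2 + 1) := by
          rw [show 8 + P₀ = 7 + P₀ + 1 by omega, pow_succ]; ring
      _ ≤ 4 ^ (8 + P₀) * ((2 * C * D + 1) * w ^ 2) := by gcongr
      _ ≤ 4 ^ (8 + P₀) * ((⌈2 * C * D + 1⌉₊ : ℝ) * w ^ 2) := by gcongr
      _ = c₁ * w ^ 2 := by rw [hc₁]; push_cast; ring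
  obtain ⟨a₀, ha₀⟩ : ∃ a₀ : ℕ, a₀ = D * s := ⟨_, rfl⟩
  have hsa : s ≤ a₀ := by rw [ha₀]; exact Nat.le_mul_of_pos_left _ (by omega)
  have ha7 : 7 ≤ a₀ := by omega
  have haP : P₀ ≤ a₀ := by omega
  obtain ⟨b₀, hb₀⟩ : ∃ b₀ : ℕ, b₀ = E * (a₀ + 1) := ⟨_, rfl⟩
  obtain ⟨hab₀, hW₁⟩ := WW_blk_mul a₀ E (max W₀ 1) ha7 hE1 hElog
  rw [← hb₀] at hab₀ hW₁
  have h4b₀ : (4 : ℝ) ^ b₀ ≤ b * w ^ e₁ := by
    calc (4 : ℝ) ^ b₀ = (4 * ((4 : ℝ) ^ s) ^ D) ^ E := by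
          rw [hb₀, ha₀, ← pow_mul, ← pow_succ', ← pow_mul]
          congr 1; ring
      _ ≤ (4 * (c₁ * w ^ 2) ^ D) ^ E := by gcongr
      _ = b * w ^ e₁ := by
          rw [hb, he₁]; push_cast
          rw [mul_pow, mul_pow, mul_pow, ← pow_mul, ← pow_mul, ← pow_mul]
          rw [show 2 * (D * E) = 2 * D * E by ring]
          ring
  -- the second block
  obtain ⟨s₁, hs₁, hs₁'⟩ := exists_four_pow (A * ((4 : ℝ) ^ b₀ / δ) ^ A) (by positivity)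
  obtain ⟨a₁, ha₁⟩ : ∃ a₁ : ℕ, a₁ = s₁ + 7 + P₀ := ⟨_, rfl⟩
  have hx : (A : ℝ) * ((4 : ℝ) ^ b₀ / δ) ^ A ≤ (A * b ^ A : ℕ) * y ^ ((e₁ + 1) * A) := by
    have h1 : (4 : ℝ) ^ b₀ / δ ≤ b * y ^ (e₁ + 1) := by
      calc (4 : ℝ) ^ b₀ / δ = (4 : ℝ) ^ b₀ * (1 / δ) := by ring
        _ ≤ (b * w ^ e₁) * y := by gcongr
        _ ≤ (b * y ^ e₁) * y := by gcongr
        _ = b * y ^ (e₁ + 1) := by ring
    calc (A : ℝ) * ((4 : ℝ) ^ b₀ / δ) ^ A ≤ A * (b * y ^ (e₁ + 1)) ^ A := by gcongr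
      _ = _ := by push_cast; rw [mul_pow, ← pow_mul]; ring
  have h4a₁ : (4 : ℝ) ^ a₁ ≤ 4 ^ (8 + P₀) * ((A * b ^ A + 1 : ℕ) * y ^ ((e₁ + 1) * A)) := by
    have h1 : 1 ≤ y ^ ((e₁ + 1) * A) := one_le_pow₀ hy1
    calc (4 : ℝ) ^ a₁ = 4 ^ (7 + P₀) * 4 ^ s₁ := by rw [← pow_add, ha₁]; congr 1; omega
      _ ≤ 4 ^ (7 + P₀) * (4 * (A * ((4 : ℝ) ^ b₀ / δ) ^ A + 1)) := by gcongr
      _ = 4 ^ (8 + P₀) * (A * ((4 : ℝ) ^ b₀ / δ) ^ A + 1) := by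
          rw [show 8 + P₀ = 7 + P₀ + 1 by omega, pow_succ]; ring
      _ ≤ 4 ^ (8 + P₀) * ((A * b ^ A : ℕ) * y ^ ((e₁ + 1) * A) + y ^ ((e₁ + 1) * A)) := by gcongr
      _ = _ := by push_cast; ring
  obtain ⟨b₁, hb₁⟩ : ∃ b₁ : ℕ, b₁ = E * (a₁ + 1) := ⟨_, rfl⟩
  obtain ⟨hab₁, hW₂⟩ := WW_blk_mul a₁ E (max W₀ 1) (by omega) hE1 hElog
  rw [← hb₁] at hab₁ hW₂
  have h4b₁ : (4 : ℝ) ^ b₁ ≤ g * y ^ ((e₁ + 1) * A * E) := by
    calc (4 : ℝ) ^ b₁ = (4 * (4 : ℝ) ^ a₁) ^ E := by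
          rw [hb₁, ← pow_succ', ← pow_mul]; congr 1; ring
      _ ≤ (4 * (4 ^ (8 + P₀) * ((A * b ^ A + 1 : ℕ) * y ^ ((e₁ + 1) * A)))) ^ E := by gcongr
      _ = g * y ^ ((e₁ + 1) * A * E) := by
          rw [hg]; push_cast
          rw [show 9 + P₀ = 8 + P₀ + 1 by omega, pow_succ 4 (8 + P₀)]
          rw [pow_mul y ((e₁ + 1) * A) E, ← mul_pow]
          congr 1; ring
  -- final bounds
  have hpB : ∀ (c e : ℕ) (x z : ℝ), 1 ≤ z → c ≤ B → e ≤ B → x ≤ c * z ^ e → x ≤ B * z ^ B := by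
    intro c e x z hz hc he hx
    refine hx.trans ?_
    have h1 : (c : ℝ) ≤ B := by exact_mod_cast hc
    gcongr
  have hbig : ∀ a : ℕ, a < 4 ^ a := fun a => Nat.lt_pow_self (by norm_num)
  have hbB : b ≤ B ∧ e₁ ≤ B ∧ A * b ^ A ≤ B ∧ e₁ * A ≤ B ∧ g ≤ B ∧ (e₁ + 1) * A * E ≤ B := by
    rw [hB]
    refine ⟨?_, ?_, ?_, ?_, ?_, ?_⟩ <;> omega
  obtain ⟨B1, B2, B3, B4, B5, B6⟩ := hbB
  refine ⟨blk a₀ b₀, blk a₁ b₁, ?_, ?_, (le_max_left _ _).trans hW₁, (le_max_left _ _).trans hW₂,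
    ?_⟩
  · intro p hp
    rw [mem_blk] at hp
    refine ⟨hp.2, ?_, ?_⟩
    · have := hbig a₀
      omega
    · have h1 : (p : ℝ) ≤ 4 ^ b₀ := by exact_mod_cast hp.1.2
      refine hpB b e₁ _ y hy1 B1 B2 (h1.trans (h4b₀.trans ?_))
      gcongr
  · intro p hp
    rw [mem_blk] at hp
    refine ⟨hp.2, ?_, ?_⟩
    · have := hbig a₁
      omega
    · have h1 : (p : ℝ) ≤ 4 ^ b₁ := by exact_mod_cast hp.1.2
      exact hpB g _ _ y hy1 B5 B6 (h1.trans h4b₁)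
  intro t ht1 htT S hS hβ
  have e1 : ∑ z ∈ blk a₀ b₀ ×ˢ blk a₁ b₁, ((1 / ((z.1 : ℝ) * z.2) : ℝ) : ℂ) *
      ee (S.eval ((z.1 : ℝ) * z.2)) = ∑ p ∈ blk a₀ b₀, ((1 / (p : ℝ) : ℝ) : ℂ) *
        ∑ p' ∈ blk a₁ b₁, ((1 / (p' : ℝ) : ℝ) : ℂ) * ee (S.eval ((p : ℝ) * p')) := by
    rw [sum_product]
    apply sum_congr rfl; intro p _
    rw [mul_sum]
    apply sum_congr rfl; intro p' _
    have e2 : ((1 / ((p : ℝ) * p') : ℝ) : ℂ) = ((1 / (p : ℝ) : ℝ) : ℂ) * ((1 / (p' : ℝ) : ℝ) : ℂ) := by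
      rw [← Complex.ofReal_mul]
      congr 1
      field_simp
    rw [e2, mul_assoc]
  rw [e1]
  refine main_auxq D s b₀ hD C η hC hη (ha₀ ▸ hab₀) hsC (blk a₀ b₀) ?_ _ rfl
    ((le_max_right _ _).trans hW₁) _ (WW_nonneg _)
    (fun m : ℕ => ∑ p' ∈ blk a₁ b₁, ((1 / (p' : ℝ) : ℝ) : ℂ) * ee (S.eval ((m : ℝ) * p'))) ?_
  · intro p hp
    rw [mem_blk] at hp
    rw [← ha₀]
    have h3 : (4 : ℕ) ^ a₀ = 2 ^ (2 * a₀) := by rw [pow_mul]; norm_num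
    have h4 : (4 : ℕ) ^ b₀ = 2 ^ (2 * b₀) := by rw [pow_mul]; norm_num
    have h5 : 0 < 2 ^ (2 * b₀) := by positivity
    rw [mem_Ico, pow_succ]
    omega
  · intro i hi
    rw [mem_Ico, ← ha₀] at hi
    have hDi : D ≤ i := by
      have : D ≤ a₀ := by rw [ha₀]; exact Nat.le_mul_of_pos_right _ (by omega)
      omega
    have h2i : (2 : ℝ) ^ i ≤ (4 : ℝ) ^ b₀ := by
      have : (4 : ℝ) ^ b₀ = 2 ^ (2 * b₀) := by rw [pow_mul]; norm_num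
      rw [this]
      exact pow_le_pow_right₀ (by norm_num) (by omega)
    refine hsc t ht1 htT i hDi δ hδ hδ1 S hS (hβ.mono ?_ le_rfl) a₁ b₁ (by omega) ?_ hab₁
    · refine hpB (A * b ^ A) (e₁ * A) _ w hw1 B3 B4 ?_
      calc (A : ℝ) * ((2 : ℝ) ^ i) ^ A ≤ A * (b * w ^ e₁) ^ A := by
            gcongr
            exact h2i.trans h4b₀
        _ = _ := by
            push_cast
            rw [mul_pow, ← pow_mul]
            ring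
    · have h1 : (A : ℝ) * ((2 : ℝ) ^ i / δ) ^ A ≤ A * ((4 : ℝ) ^ b₀ / δ) ^ A := by gcongr
      refine h1.trans (hs₁.trans ?_)
      exact pow_le_pow_right₀ (by norm_num) (by omega)

end Pool.Agent.Lib.MP_663568_nt.H6
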