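import Mathlib
import Pool.Agent.Lib.MP_663568_h6.MainQ
import Pool.Agent.Lib.MP_663568_h6.FejerM

/-!
# Equidistribution of `((p p') ^ t_s θ_s)_s` with polynomial dependence on the parameters
-/

set_option autoImplicit false
open Finset Polynomial MeasureTheory

namespace Pool.Agent.Lib.MP_663568_nt.H6

open Katai Nul

variable {σ : Type} [Fintype σ] [DecidableEq σ]

/-- `θ` has no homogeneous relation modulo `1` with integral coefficients of size at most `Q`, up to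
the error `δ` -/
def Mnr {σ : Type} [Fintype σ] (t : σ → ℕ) (Q δ : ℝ) (θ : σ → ℝ) : Prop :=
  ∀ k : σ → ℤ, k ≠ 0 → (∀ s, |(k s : ℝ)| ≤ Q) → (∀ s s', k s ≠ 0 → k s' ≠ 0 → t s = t s') →
    ∀ m : ℤ, δ ≤ |∑ s, (k s : ℝ) * θ s - m|

lemma Mnr.mono {t : σ → ℕ} {Q Q' δ δ' : ℝ} {θ : σ → ℝ} (h : Mnr t Q δ θ) (hQ : Q' ≤ Q)
    (hδ : δ' ≤ δ) : Mnr t Q' δ' θ :=
  fun k h1 h2 h3 m => hδ.trans (h k h1 (fun s => (h2 s).trans hQ) h3 m)

/-- the polynomial of a linear combination of the coordinates -/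
lemma poly_of (t : σ → ℕ) (k : σ → ℤ) (hk : k ≠ 0) (θ : σ → ℝ) :
    ∃ s₀ : σ, k s₀ ≠ 0 ∧ ∃ S : ℝ[X], S.natDegree ≤ t s₀ ∧
      S.coeff (t s₀) = ∑ s, ((if t s = t s₀ then k s else 0 : ℤ) : ℝ) * θ s ∧
      ∀ x : ℝ, S.eval x = ∑ s, (k s : ℝ) * (x ^ t s * θ s) := by
  obtain ⟨s₁, hs₁⟩ := Function.ne_iff.mp hk
  obtain ⟨s₀, hs₀, hmax⟩ := exists_max_image (univ.filter fun s => k s ≠ 0) t
    ⟨s₁, by rw [mem_filter]; exact ⟨mem_univ _, hs₁⟩⟩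
  rw [mem_filter] at hs₀
  refine ⟨s₀, hs₀.2, ∑ s, C ((k s : ℝ) * θ s) * X ^ t s, ?_, ?_, ?_⟩
  · apply natDegree_sum_le_of_forall_le
    intro s _
    by_cases hks : k s = 0
    · rw [hks]; simp
    · exact (natDegree_C_mul_X_pow_le _ _).trans (hmax s (by
        rw [mem_filter]; exact ⟨mem_univ _, hks⟩))
  · rw [finsetSum_coeff]
    refine sum_congr rfl fun s _ => ?_
    rw [coeff_C_mul_X_pow]
    by_cases hts : t s = t s₀
    · rw [if_pos hts.symm, if_pos hts]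
    · rw [if_neg (fun h => hts h.symm), if_neg hts]; simp
  · intro x
    rw [eval_finsetSum]
    refine sum_congr rfl fun s _ => ?_
    rw [eval_mul, eval_C, eval_pow, eval_X]
    ring

lemma sq_of_mnr (t : σ → ℕ) (Q δ : ℝ) (θ : σ → ℝ) (h : Mnr t Q δ θ) (k : σ → ℤ) (K Q' : ℝ)
    (hK0 : 0 ≤ K) (hK : ∀ s, |(k s : ℝ)| ≤ K) (hQ : Q' * K ≤ Q) (s₀ : σ) (hs₀ : k s₀ ≠ 0) :
    Sq Q' δ (∑ s, ((if t s = t s₀ then k s else 0 : ℤ) : ℝ) * θ s) := by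
  intro q hq1 hqQ
  obtain ⟨m, hm⟩ := nd_exists ((q : ℝ) * ∑ s, ((if t s = t s₀ then k s else 0 : ℤ) : ℝ) * θ s)
  rw [hm]
  have h1 := h (fun s => (q : ℤ) * (if t s = t s₀ then k s else 0)) (by
    intro h0
    have := congrFun h0 s₀
    simp only [if_true, Pi.zero_apply, mul_eq_zero] at this
    rcases this with h | h
    · omega
    · exact hs₀ h) (by
    intro s
    push_cast
    rw [abs_mul, Nat.abs_cast]
    have h2 : |((if t s = t s₀ then k s else 0 : ℤ) : ℝ)| ≤ K := by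
      split_ifs
      · exact hK s
      · simpa using hK0
    push_cast at h2
    refine le_trans ?_ hQ
    have h0 : (0 : ℝ) ≤ q := Nat.cast_nonneg _
    exact mul_le_mul hqQ h2 (abs_nonneg _) (h0.trans hqQ)) (by
    intro s s' h1 h2
    have h3 : ∀ s : σ, (q : ℤ) * (if t s = t s₀ then k s else 0) ≠ 0 → t s = t s₀ := by
      intro s hs
      by_contra hne
      rw [if_neg hne, mul_zero] at hs
      exact hs rfl
    rw [h3 s h1, h3 s' h2]) m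
  refine h1.trans (le_of_eq ?_)
  congr 2
  rw [mul_sum]
  refine sum_congr rfl fun s _ => ?_
  push_cast
  ring

/-- **Equidistribution.** For every `η` there is `B` such that for all `R ≥ 1` and `0 < δ ≤ 1` there
are two sets of primes `p ≤ B (R / δ) ^ B`, with large sums of reciprocals, for which the points
`((p p') ^ t_s θ_s)_s` are equidistributed up to `η` on the scale `1 / R`, for all `θ` without
homogeneous relations of size at most `B R ^ B` up to `δ`. -/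
theorem equiq (t : σ → ℕ) (ht : ∀ s, 1 ≤ t s) (P₀ : ℕ) (W₀ η : ℝ) (hη : 0 < η) (hη1 : η ≤ 1) :
    ∃ B : ℕ, 1 ≤ B ∧ ∀ R : ℝ, 1 ≤ R → ∀ δ : ℝ, 0 < δ → δ ≤ 1 →
    ∃ P P' : Finset ℕ, (∀ p ∈ P, p.Prime ∧ P₀ ≤ p ∧ (p : ℝ) ≤ B * (R / δ) ^ B) ∧
      (∀ p ∈ P', p.Prime ∧ P₀ ≤ p ∧ (p : ℝ) ≤ B * (R / δ) ^ B) ∧
      W₀ ≤ WW P ∧ W₀ ≤ WW P' ∧
      ∀ θ : σ → ℝ, Mnr t (B * R ^ B) δ θ → ∀ φ : (σ → ℝ) → ℝ, Continuous φ → (∀ x, 0 ≤ φ x) →
        (∀ x, φ x ≤ 1) → (∀ x y, φ y ≤ φ x + R * ∑ s, nd (x s - y s)) →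
        ((∫ x in Set.Icc (0 : σ → ℝ) 1, φ x) - η) * (WW P * WW P') ≤
          ∑ z ∈ P ×ˢ P', 1 / ((z.1 : ℝ) * z.2) *
            φ (fun s => ((z.1 : ℝ) * z.2) ^ t s * θ s) := by
  obtain ⟨B₀, hB₀, hmain⟩ := mainq (∑ s, t s) P₀ W₀
  obtain ⟨r, hr⟩ : ∃ r : ℕ, r = Fintype.card σ := ⟨_, rfl⟩
  obtain ⟨c, hc⟩ : ∃ c : ℕ, c = ⌈(4 * (r + 1) / η) ^ 2⌉₊ + 1 := ⟨_, rfl⟩
  obtain ⟨d, hd⟩ : ∃ d : ℕ, d = ⌈2 * (c : ℝ) ^ r / η⌉₊ := ⟨_, rfl⟩
  obtain ⟨B, hB⟩ : ∃ B : ℕ, B = B₀ * d ^ B₀ * c + B₀ * d ^ B₀ + (2 * r * B₀ + 2) +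
    (2 * r + 1) * B₀ := ⟨_, rfl⟩
  refine ⟨B, by omega, fun R hR δ hδ hδ1 => ?_⟩
  have hR0 : 0 < R := by linarith
  have hr0 : (0 : ℝ) ≤ r := Nat.cast_nonneg _
  obtain ⟨K, hK⟩ : ∃ K : ℕ, K = ⌈(4 * (r + 1) * R / η) ^ 2⌉₊ := ⟨_, rfl⟩
  have hK0 : 0 < (4 * (r + 1) * R / η) ^ 2 := by positivity
  have hKge : (4 * (r + 1) * R / η) ^ 2 ≤ K := by rw [hK]; exact Nat.le_ceil _
  have hK1 : 1 ≤ K := by
    have : (0 : ℝ) < K := hK0.trans_le hKge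
    exact_mod_cast this
  have hKr : (1 : ℝ) ≤ K := by exact_mod_cast hK1
  have hKle : (K : ℝ) ≤ c * R ^ 2 := by
    have h1 : (K : ℝ) < (4 * (r + 1) * R / η) ^ 2 + 1 := by
      rw [hK]; exact Nat.ceil_lt_add_one hK0.le
    have h2 : ((4 * (r + 1) / η) ^ 2 : ℝ) ≤ ⌈(4 * ((r : ℝ) + 1) / η) ^ 2⌉₊ := Nat.le_ceil _
    have h3 : (4 * (r + 1) * R / η) ^ 2 = (4 * (r + 1) / η) ^ 2 * R ^ 2 := by ring
    have h4 : (1 : ℝ) ≤ R ^ 2 := one_le_pow₀ hR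
    rw [hc]; push_cast
    rw [h3] at h1
    nlinarith
  have hcr : (1 : ℝ) ≤ c := by
    rw [hc]; push_cast
    linarith [Nat.cast_nonneg (α := ℝ) ⌈(4 * ((r : ℝ) + 1) / η) ^ 2⌉₊]
  obtain ⟨η', hη'⟩ : ∃ η' : ℝ, η' = η / (2 * (K : ℝ) ^ r) := ⟨_, rfl⟩
  have hKr' : (1 : ℝ) ≤ (K : ℝ) ^ r := one_le_pow₀ hKr
  have hη'0 : 0 < η' := by rw [hη']; positivity
  have hη'1 : η' ≤ 1 := by
    rw [hη', div_le_one (by positivity)]
    linarith
  obtain ⟨P, P', hP, hP', hW, hW', hsum⟩ := hmain η' hη'0 hη'1 δ hδ hδ1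
  have hdle : 2 * (c : ℝ) ^ r / η ≤ d := by rw [hd]; exact Nat.le_ceil _
  have hiη : 1 / η' ≤ d * R ^ (2 * r) := by
    have e : 1 / η' = 2 * (K : ℝ) ^ r / η := by rw [hη']; field_simp
    rw [e]
    calc 2 * (K : ℝ) ^ r / η ≤ 2 * (c * R ^ 2) ^ r / η := by gcongr
      _ = (2 * (c : ℝ) ^ r / η) * R ^ (2 * r) := by rw [mul_pow, ← pow_mul]; ring
      _ ≤ d * R ^ (2 * r) := by gcongr
  have hpB : ∀ (c e : ℕ) (x z : ℝ), 1 ≤ z → c ≤ B → e ≤ B → x ≤ c * z ^ e → x ≤ B * z ^ B := by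
    intro c e x z hz hc he hx
    refine hx.trans ?_
    have h1 : (c : ℝ) ≤ B := by exact_mod_cast hc
    gcongr
  have hsize : (B₀ : ℝ) * (1 / (η' * δ)) ^ B₀ ≤ B * (R / δ) ^ B := by
    have hX : 1 ≤ R / δ := by rw [le_div_iff₀ hδ]; linarith
    refine hpB (B₀ * d ^ B₀) ((2 * r + 1) * B₀) _ _ hX (by omega) (by omega) ?_
    have h1 : 1 / (η' * δ) ≤ d * (R / δ) ^ (2 * r + 1) := by
      have h2 : 1 / (η' * δ) = (1 / η') * (1 / δ) := by rw [one_div_mul_one_div]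
      rw [h2]
      have h3 : R ^ (2 * r) ≤ (R / δ) ^ (2 * r) := by
        have : R ≤ R / δ := by
          rw [le_div_iff₀ hδ]; nlinarith
        gcongr
      have h4 : 1 / δ ≤ R / δ := by gcongr
      calc (1 / η') * (1 / δ) ≤ (d * R ^ (2 * r)) * (R / δ) := by gcongr
        _ ≤ (d * (R / δ) ^ (2 * r)) * (R / δ) := by gcongr
        _ = _ := by ring
    calc (B₀ : ℝ) * (1 / (η' * δ)) ^ B₀ ≤ B₀ * (d * (R / δ) ^ (2 * r + 1)) ^ B₀ := by gcongr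
      _ = _ := by push_cast; rw [mul_pow, ← pow_mul]; ring
  refine ⟨P, P', fun p hp => ⟨(hP p hp).1, (hP p hp).2.1, (hP p hp).2.2.trans hsize⟩,
    fun p hp => ⟨(hP' p hp).1, (hP' p hp).2.1, (hP' p hp).2.2.trans hsize⟩, hW, hW', ?_⟩
  intro θ hθ φ hφc hφ0 hφ1 hφL
  have hWn : 0 ≤ WW P := WW_nonneg P
  have hWn' : 0 ≤ WW P' := WW_nonneg P'
  have hWW : ∑ z ∈ P ×ˢ P', 1 / ((z.1 : ℝ) * z.2) = WW P * WW P' := by
    rw [sum_product, WW, WW, sum_mul_sum]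
    exact sum_congr rfl fun p _ => sum_congr rfl fun q _ => by rw [one_div_mul_one_div]
  have hrel : (B₀ : ℝ) * (1 / η') ^ B₀ * K ≤ B * R ^ B := by
    refine hpB (B₀ * d ^ B₀ * c) (2 * r * B₀ + 2) _ _ hR (by omega) (by omega) ?_
    calc (B₀ : ℝ) * (1 / η') ^ B₀ * K ≤ B₀ * (d * R ^ (2 * r)) ^ B₀ * (c * R ^ 2) := by gcongr
      _ = _ := by push_cast; rw [mul_pow, ← pow_mul]; ring
  have hE : ∀ k : σ → ℤ, k ≠ 0 → (∀ s, |k s| < K) →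
      ‖∑ z ∈ P ×ˢ P', ((1 / ((z.1 : ℝ) * z.2) : ℝ) : ℂ) *
        ee (∑ s, (k s : ℝ) * (((z.1 : ℝ) * z.2) ^ t s * θ s))‖ ≤
      η' * ∑ z ∈ P ×ˢ P', 1 / ((z.1 : ℝ) * z.2) := by
    intro k hk hkK
    obtain ⟨s₀, hs₀, S, hS1, hS2, hS3⟩ := poly_of t k hk θ
    have h1 := hsum (t s₀) (ht s₀) (single_le_sum (f := t) (fun _ _ => Nat.zero_le _) (mem_univ s₀))
      S hS1 (by
        rw [hS2]
        refine sq_of_mnr t (B * R ^ B) δ θ hθ k K _ (by positivity) (fun s => ?_) hrel s₀ hs₀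
        have := (hkK s).le
        exact_mod_cast this)
    rw [hWW]
    simp only [hS3] at h1
    exact h1
  have hτ : 0 < η / (4 * (r + 1) * R) := by positivity
  have key := fejer_avgM (P ×ˢ P') (fun z : ℕ × ℕ => 1 / ((z.1 : ℝ) * z.2))
    (fun z _ => by positivity) (fun z : ℕ × ℕ => fun s => ((z.1 : ℝ) * z.2) ^ t s * θ s) K hK1 η'
    hη'0.le hE φ hφc hφ0 R hR0.le hφL (η / (4 * (r + 1) * R)) hτ
  rw [hWW, ← hr] at key
  have hI1 : ∫ x in Set.Icc (0 : σ → ℝ) 1, φ x ≤ 1 := by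
    have h1 : ∫ x in Set.Icc (0 : σ → ℝ) 1, φ x ≤ ∫ x in Set.Icc (0 : σ → ℝ) 1, (1 : ℝ) := by
      apply setIntegral_mono_on (integrableOn_cube hφc) (integrableOn_cube continuous_const)
        measurableSet_Icc
      intro x _
      exact hφ1 x
    have h2 : ∫ x in Set.Icc (0 : σ → ℝ) 1, (1 : ℝ) = 1 := by
      have := integral_cube_prod (σ := σ) (fun _ _ => (1 : ℝ))
      simpa using this
    linarith
  have hI0 : 0 ≤ ∫ x in Set.Icc (0 : σ → ℝ) 1, φ x :=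
    integral_nonneg fun x => hφ0 x
  have h1 : (K : ℝ) ^ r * η' = η / 2 := by rw [hη']; field_simp
  have h2 : R * (r * (η / (4 * (r + 1) * R) + 1 / (4 * K * (η / (4 * (r + 1) * R))))) ≤ η / 2 := by
    have e : R * (r * (η / (4 * (r + 1) * R) + 1 / (4 * K * (η / (4 * (r + 1) * R))))) =
        η / 4 * (r / (r + 1)) + (r / (r + 1)) * (((r + 1) * R) ^ 2 / (K * η)) := by
      field_simp
    rw [e]
    have h3 : ((r + 1) * R) ^ 2 / (K * η) ≤ η / 16 := by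
      rw [div_le_iff₀ (by positivity)]
      have h4 : (4 * (r + 1) * R / η) ^ 2 * η ^ 2 = 16 * ((r + 1) * R) ^ 2 := by
        field_simp; ring
      nlinarith [mul_le_mul_of_nonneg_right hKge (sq_nonneg η)]
    have h5 : (r : ℝ) / (r + 1) ≤ 1 := by
      rw [div_le_one (by positivity)]; linarith
    have h6 : 0 ≤ (r : ℝ) / (r + 1) := by positivity
    have h7 : 0 ≤ ((r + 1) * R) ^ 2 / (K * η) := by positivity
    nlinarith
  rw [h1] at key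
  have hV : 0 ≤ WW P * WW P' := mul_nonneg hWn hWn'
  calc ((∫ x in Set.Icc (0 : σ → ℝ) 1, φ x) - η) * (WW P * WW P')
      ≤ (1 - η / 2) * (WW P * WW P') * (∫ x in Set.Icc (0 : σ → ℝ) 1, φ x) -
        η / 2 * (WW P * WW P') := by
        have : η / 2 * (WW P * WW P') * (∫ x in Set.Icc (0 : σ → ℝ) 1, φ x) ≤
            η / 2 * (WW P * WW P') * 1 :=
          mul_le_mul_of_nonneg_left hI1 (by positivity)
        linarith
    _ ≤ (1 - η / 2) * (WW P * WW P') * (∫ x in Set.Icc (0 : σ → ℝ) 1, φ x) -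
        R * (r * (η / (4 * (r + 1) * R) + 1 / (4 * K * (η / (4 * (r + 1) * R))))) *
          (WW P * WW P') := by
        have := mul_le_mul_of_nonneg_right h2 hV
        linarith
    _ ≤ _ := key

end Pool.Agent.Lib.MP_663568_nt.H6
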