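import Mathlib
import Pool.Agent.Lib.MP_663568_h6.EquiQ
import Pool.Agent.Lib.MP_663568_h6.BumpQ
import Pool.Agent.Lib.MP_663568_nt.Main

/-!
# The quantitative zero-one inequality for families of sequences closed under dilations
-/

set_option autoImplicit false
open Finset MeasureTheory

namespace Pool.Agent.Lib.MP_663568_nt.H6

open Katai Nul

variable {ι : Type} {σ : Type} [Fintype σ] [DecidableEq σ]

/-- The family is closed under dilations; the coordinate `θ s` is multiplied by `d ^ t s`. -/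
def DilM (F : ι → ℕ → ℂ) (θ : ι → σ → ℝ) (t : σ → ℕ) : Prop :=
  ∀ (i : ι) (d : ℕ), 0 < d → ∃ i' : ι, (∀ n, F i' n = F i (d * n)) ∧
    ∀ s, ∃ z : ℤ, θ i' s = (d : ℝ) ^ t s * θ i s + z

/-- the supremum over the members of the family in `S` -/
noncomputable def GS (F : ι → ℕ → ℂ) (a : ℕ → ℂ) (S : Set ι) (H n : ℕ) : ℝ :=
  GG (fun i : {i // i ∈ S} => F i.1) a H n

/-- members with frequencies in `𝒜` modulo `1` -/
def In (θ : ι → σ → ℝ) (𝒜 : Set (σ → ℝ)) : Set ι :=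
  {i | ∃ z : σ → ℤ, (fun s => θ i s + z s) ∈ 𝒜}

lemma one_windowq (F : ι → ℕ → ℂ) (θ : ι → σ → ℝ) (t : σ → ℕ) (a : ℕ → ℂ)
    (hF : ∀ i n, ‖F i n‖ ≤ 1) (ha : ∀ n, ‖a n‖ ≤ 1) (hmul : Mult a) (hdil : DilM F θ t)
    (𝒜 : Set (σ → ℝ)) (P P' : Finset ℕ) (hP : ∀ p ∈ P, p.Prime) (hP' : ∀ p ∈ P', p.Prime) (P₀ : ℕ)
    (hP₀ : ∀ p ∈ P, P₀ ≤ p) (hP₀' : ∀ p ∈ P', P₀ ≤ p) (η : ℝ) (hη : 0 < η) (hη8 : 8 / η ≤ P₀)
    (φ : (σ → ℝ) → ℝ) (hφ1 : ∀ x, φ x ≤ 1)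
    (hφs : ∀ x, φ x ≠ 0 → ∃ z : σ → ℤ, (fun s => x s + z s) ∈ 𝒜) (v : ℝ) (hv0 : 0 ≤ v)
    (hv1 : v ≤ 1) (S : Set ι)
    (hS : ∀ i ∈ S, (v - η) * (WW P * WW P') ≤
      ∑ z ∈ P ×ˢ P', 1 / ((z.1 : ℝ) * z.2) * φ (fun s => ((z.1 : ℝ) * z.2) ^ t s * θ i s))
    (hW : 16 / η ^ 3 ≤ WW P) (hW' : 16 / η ^ 3 ≤ WW P')
    (n H : ℕ) (hH : LongH P P' η H) (hHz : ∀ z ∈ P ×ˢ P', 0 < H / z.1 / z.2) :
    v * (WW P * WW P') * GS F a S H n ≤ H * ∑ z ∈ P ×ˢ P', 1 / ((z.1 : ℝ) * z.2) *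
      (GS F a (In θ 𝒜) (H / z.1 / z.2) (n / z.1 / z.2) / ((H / z.1 / z.2 : ℕ) : ℝ)) +
      4 * η * (WW P * WW P') * H := by
  classical
  have hw : ∀ z : ℕ × ℕ, 0 ≤ 1 / ((z.1 : ℝ) * z.2) := fun z => by positivity
  have hWP := WW_nonneg P
  have hWP' := WW_nonneg P'
  set W : ℝ := WW P * WW P' with hWd
  have hW0 : 0 ≤ W := mul_nonneg hWP hWP'
  have hH0 : (0 : ℝ) < H := by exact_mod_cast hH.1
  set g : ℕ × ℕ → ℝ := fun z =>
    GS F a (In θ 𝒜) (H / z.1 / z.2) (n / z.1 / z.2) / ((H / z.1 / z.2 : ℕ) : ℝ) with hg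
  have hg0 : ∀ z, 0 ≤ g z := fun z => div_nonneg (GG_nonneg _ _ _ _) (Nat.cast_nonneg _)
  have hR0 : 0 ≤ H * ∑ z ∈ P ×ˢ P', 1 / ((z.1 : ℝ) * z.2) * g z + 4 * η * W * H := by
    have : 0 ≤ ∑ z ∈ P ×ˢ P', 1 / ((z.1 : ℝ) * z.2) * g z :=
      sum_nonneg fun z _ => mul_nonneg (hw z) (hg0 z)
    positivity
  rw [GS, GG, Real.mul_iSup_of_nonneg (mul_nonneg hv0 hW0)]
  refine Real.iSup_le (fun i => ?_) hR0
  change v * W * ws (F i.1) a n H ≤ _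
  obtain ⟨i, hi⟩ := i
  have hws := ws_le (F i) a (hF i) ha n H
  obtain ⟨x, hx⟩ : ∃ x : ℝ, x = ws (F i) a n H / H := ⟨_, rfl⟩
  have hxw : ws (F i) a n H = x * H := by rw [hx]; field_simp
  have hx0 : 0 ≤ x := by rw [hx]; exact div_nonneg (ws_nonneg _ _ _ _) hH0.le
  have hx1 : x ≤ 1 := by rw [hx, div_le_one hH0]; exact hws
  have hsg : 0 ≤ ∑ z ∈ P ×ˢ P', 1 / ((z.1 : ℝ) * z.2) * g z :=
    sum_nonneg fun z _ => mul_nonneg (hw z) (hg0 z)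
  rcases lt_or_ge x (2 * η) with hlt | hge
  · rw [hxw]
    have h1 : v * W * (x * H) ≤ 1 * W * (2 * η * H) := by gcongr
    have h2 : 0 ≤ η * W * H := by positivity
    have h3 : 0 ≤ (H : ℝ) * ∑ z ∈ P ×ˢ P', 1 / ((z.1 : ℝ) * z.2) * g z := by positivity
    linarith
  set bad := badpp P P' (F i) a η x n H with hbad
  have hbadw := badpp_weight P P' hP hP' P₀ hP₀ hP₀' η x hη hge hη8 (F i) a (hF i) ha hmul n H hH
    hxw.ge
  rw [← hbad] at hbadw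
  have hpair : ∀ z ∈ P ×ˢ P', φ (fun s => ((z.1 : ℝ) * z.2) ^ t s * θ i s) * (x - 2 * η) ≤
      g z + (if z ∈ bad then 1 else 0) := by
    intro z hz
    have hz0 := hz
    rw [mem_product] at hz
    have hgz := hg0 z
    have hx2 : 0 ≤ x - 2 * η := by linarith
    have hle1 : φ (fun s => ((z.1 : ℝ) * z.2) ^ t s * θ i s) * (x - 2 * η) ≤ 1 * 1 := by
      calc _ ≤ 1 * (x - 2 * η) := mul_le_mul_of_nonneg_right (hφ1 _) hx2
        _ ≤ 1 * 1 := by linarith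
    by_cases hzb : z ∈ bad
    · rw [if_pos hzb]; linarith
    rw [if_neg hzb, add_zero]
    by_cases hφz : φ (fun s => ((z.1 : ℝ) * z.2) ^ t s * θ i s) = 0
    · rw [hφz, zero_mul]; exact hgz
    obtain ⟨y, hy⟩ := hφs _ hφz
    obtain ⟨i', hi'1, hi'2⟩ := hdil i (z.1 * z.2)
      (Nat.mul_pos (hP _ hz.1).pos (hP' _ hz.2).pos)
    choose m hm using hi'2
    have hmem : i' ∈ In θ 𝒜 := by
      refine ⟨fun s => y s - m s, ?_⟩
      have e : (fun s => θ i' s + ((y s - m s : ℤ) : ℝ)) =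
          fun s => ((z.1 : ℝ) * z.2) ^ t s * θ i s + y s := by
        funext s
        rw [hm s]; push_cast; ring
      rw [e]; exact hy
    have h4 : (x - 2 * η) * ((H / z.1 / z.2 : ℕ) : ℝ) ≤
        ws (fun m => F i (z.1 * z.2 * m)) a (n / z.1 / z.2) (H / z.1 / z.2) := by
      by_contra hcon
      apply hzb
      rw [hbad, badpp, mem_filter]
      exact ⟨hz0, hcon⟩
    have e2 : F i' = fun m => F i (z.1 * z.2 * m) := funext hi'1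
    rw [← e2] at h4
    have h5 : ws (F i') a (n / z.1 / z.2) (H / z.1 / z.2) ≤
        GS F a (In θ 𝒜) (H / z.1 / z.2) (n / z.1 / z.2) :=
      le_GG (fun i : {i // i ∈ In θ 𝒜} => F i.1) a (fun i n => hF i.1 n) ha _ _ ⟨i', hmem⟩
    have hL : (0 : ℝ) < ((H / z.1 / z.2 : ℕ) : ℝ) := by exact_mod_cast hHz z hz0
    have h6 : x - 2 * η ≤ g z := by
      rw [hg]; beta_reduce
      rw [le_div_iff₀ hL]
      exact h4.trans h5
    calc _ ≤ 1 * (x - 2 * η) := mul_le_mul_of_nonneg_right (hφ1 _) hx2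
      _ ≤ g z := by linarith
  have h1 : (v - η) * W * (x - 2 * η) ≤ (∑ z ∈ P ×ˢ P', 1 / ((z.1 : ℝ) * z.2) * g z) +
      8 / η ^ 2 * (WW P + WW P') := by
    have h6 : ∑ z ∈ P ×ˢ P', 1 / ((z.1 : ℝ) * z.2) * (if z ∈ bad then (1 : ℝ) else 0) ≤
        8 / η ^ 2 * (WW P + WW P') := by
      refine le_trans ?_ hbadw
      calc _ = ∑ z ∈ (P ×ˢ P').filter (fun z => z ∈ bad), 1 / ((z.1 : ℝ) * z.2) := by
            rw [sum_filter]
            exact sum_congr rfl fun z _ => by split_ifs <;> ring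
        _ ≤ _ := by
            apply sum_le_sum_of_subset_of_nonneg
            · intro z hz; exact (mem_filter.mp hz).2
            · intro z _ _; exact hw z
    calc (v - η) * W * (x - 2 * η) ≤ (∑ z ∈ P ×ˢ P', 1 / ((z.1 : ℝ) * z.2) *
          φ (fun s => ((z.1 : ℝ) * z.2) ^ t s * θ i s)) * (x - 2 * η) :=
          mul_le_mul_of_nonneg_right (hS i hi) (by linarith)
      _ = ∑ z ∈ P ×ˢ P', 1 / ((z.1 : ℝ) * z.2) *
          (φ (fun s => ((z.1 : ℝ) * z.2) ^ t s * θ i s) * (x - 2 * η)) := by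
          rw [sum_mul]; exact sum_congr rfl fun z _ => by ring
      _ ≤ ∑ z ∈ P ×ˢ P', 1 / ((z.1 : ℝ) * z.2) * (g z + (if z ∈ bad then 1 else 0)) :=
          sum_le_sum fun z hz => mul_le_mul_of_nonneg_left (hpair z hz) (hw z)
      _ = (∑ z ∈ P ×ˢ P', 1 / ((z.1 : ℝ) * z.2) * g z) +
          ∑ z ∈ P ×ˢ P', 1 / ((z.1 : ℝ) * z.2) * (if z ∈ bad then (1 : ℝ) else 0) := by
          rw [← sum_add_distrib]; exact sum_congr rfl fun z _ => by ring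
      _ ≤ _ := by linarith
  have h2 : 8 / η ^ 2 * (WW P + WW P') ≤ η * W := by
    have h3 : 16 / η ^ 3 * WW P' ≤ W := mul_le_mul_of_nonneg_right hW hWP'
    have h4 : WW P * (16 / η ^ 3) ≤ W := mul_le_mul_of_nonneg_left hW' hWP
    have e : η * (16 / η ^ 3) = 2 * (8 / η ^ 2) := by field_simp; ring
    have h5 := mul_le_mul_of_nonneg_left h3 hη.le
    have h6 := mul_le_mul_of_nonneg_left h4 hη.le
    have h7 : η * (16 / η ^ 3 * WW P') = 2 * (8 / η ^ 2) * WW P' := by rw [← e]; ring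
    have h8 : η * (WW P * (16 / η ^ 3)) = 2 * (8 / η ^ 2) * WW P := by rw [← e]; ring
    rw [h7] at h5
    rw [h8] at h6
    linarith
  have h3 : v * W * x ≤ (∑ z ∈ P ×ˢ P', 1 / ((z.1 : ℝ) * z.2) * g z) + 4 * η * W := by
    have h4 : η * W * (x - 2 * η) ≤ η * W * 1 := by
      apply mul_le_mul_of_nonneg_left _ (by positivity)
      linarith
    have h5 : v * W * (2 * η) ≤ 1 * W * (2 * η) := by gcongr
    nlinarith
  rw [hxw]
  calc v * W * (x * H) = (v * W * x) * H := by ring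
    _ ≤ ((∑ z ∈ P ×ˢ P', 1 / ((z.1 : ℝ) * z.2) * g z) + 4 * η * W) * H :=
        mul_le_mul_of_nonneg_right h3 hH0.le
    _ = _ := by ring

/-- the inner parallel body -/
def Inn (𝒜 : Set (σ → ℝ)) (R : ℝ) : Set (σ → ℝ) :=
  {x : σ → ℝ | x ∈ Set.Icc (0 : σ → ℝ) 1 ∧ ∀ y : σ → ℝ, (∀ s, |y s - x s| ≤ 1 / R) →
      ∃ z : σ → ℤ, (fun s => y s + z s) ∈ 𝒜}

theorem zero_oneq_small (t : σ → ℕ) (ht : ∀ s, 1 ≤ t s) (η : ℝ) (hη : 0 < η) (hη2 : η ≤ 1 / 2) :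
    ∃ c : ℝ, 0 < c ∧ ∃ C : ℕ, ∃ H₀ : ℕ,
      ∀ (ι : Type) (F : ι → ℕ → ℂ) (θ : ι → σ → ℝ) (a : ℕ → ℂ), (∀ i n, ‖F i n‖ ≤ 1) →
      (∀ n, ‖a n‖ ≤ 1) → Mult a → DilM F θ t → ∀ N H : ℕ, H₀ ≤ H → H ≤ N →
      ∀ R δ : ℝ, 1 ≤ R → 0 < δ → δ ≤ 1 → R / δ ≤ (H : ℝ) ^ c → ∀ (𝒜 : Set (σ → ℝ)) (κ : ℝ),
      (∀ L : ℕ, (H : ℝ) ^ (1 - η) ≤ L → L ≤ H →
        ∑ n ∈ Icc 1 N, (1 / (n : ℝ)) * GS F a (In θ 𝒜) L n ≤ κ * L * Real.log N) →
      (volume (Inn 𝒜 R)).toReal * ∑ n ∈ Icc 1 N, (1 / (n : ℝ)) *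
        GS F a {i | Mnr t (C * R ^ C) δ (θ i)} H n ≤
      (κ + η) * H * Real.log N := by
  classical
  obtain ⟨η₁, hη₁⟩ : ∃ η₁ : ℝ, η₁ = η / 16 := ⟨_, rfl⟩
  have hη₁0 : 0 < η₁ := by rw [hη₁]; positivity
  have hη₁1 : η₁ ≤ 1 / 32 := by rw [hη₁]; linarith
  obtain ⟨P₀, hP₀⟩ : ∃ P₀ : ℕ, P₀ = ⌈8 / η₁⌉₊ := ⟨_, rfl⟩
  have hP₀8 : 8 / η₁ ≤ P₀ := by rw [hP₀]; exact Nat.le_ceil _
  obtain ⟨B, hB1, heq⟩ := equiq t ht P₀ (16 / η₁ ^ 3) η₁ hη₁0 (by linarith)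
  have hBr : (1 : ℝ) ≤ B := by exact_mod_cast hB1
  obtain ⟨c, hc⟩ : ∃ c : ℝ, c = η₁ / (2 * B) := ⟨_, rfl⟩
  have hc0 : 0 < c := by rw [hc]; positivity
  have hcB : c * B = η₁ / 2 := by rw [hc]; field_simp
  -- conditions on `H`
  have hlim : ∀ e : ℝ, 0 < e → ∀ A : ℝ, ∀ᶠ H : ℕ in Filter.atTop, A ≤ (H : ℝ) ^ e := fun e he A =>
    ((tendsto_rpow_atTop he).comp tendsto_natCast_atTop_atTop).eventually_ge_atTop A
  have hlog : ∀ᶠ H : ℕ in Filter.atTop, 2 / η₁ ≤ Real.log H :=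
    (Real.tendsto_log_atTop.comp tendsto_natCast_atTop_atTop).eventually_ge_atTop _
  obtain ⟨H₀, hH₀⟩ := Filter.eventually_atTop.mp
    (((hlim (η₁ / 2) (by positivity) B).and (hlim η₁ hη₁0 (13 / η₁))).and
      (((hlim (η - 2 * η₁) (by rw [hη₁]; linarith) 2)).and (hlog.and
        (Filter.eventually_ge_atTop 2))))
  refine ⟨c, hc0, B, H₀, fun ι F θ a hF ha hmul hdil N H hH hHN R δ hR hδ0 hδ1 hRH 𝒜 κ hκ => ?_⟩
  obtain ⟨⟨hH1, hH2⟩, hH3, hH4, hH5⟩ := hH₀ H hH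
  have hHr : (2 : ℝ) ≤ H := by exact_mod_cast hH5
  have hH0 : (0 : ℝ) < H := by linarith
  have hHone : (1 : ℝ) ≤ H := by linarith
  have hNr : (H : ℝ) ≤ N := by exact_mod_cast hHN
  have hlogN : Real.log H ≤ Real.log N := Real.log_le_log hH0 hNr
  have hlogN0 : 0 < Real.log N := by
    have : 0 < 2 / η₁ := by positivity
    linarith
  obtain ⟨P, P', hP, hP', hW, hW', hE⟩ := heq R hR δ hδ0 hδ1
  -- size of the primes
  obtain ⟨Z, hZ⟩ : ∃ Z : ℝ, Z = (H : ℝ) ^ η₁ := ⟨_, rfl⟩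
  have hZ1 : 1 ≤ Z := by rw [hZ]; exact Real.one_le_rpow hHone hη₁0.le
  have hsize : (B : ℝ) * (R / δ) ^ B ≤ Z := by
    have h2 : (R / δ) ^ B ≤ (H : ℝ) ^ (η₁ / 2) := by
      calc (R / δ) ^ B ≤ ((H : ℝ) ^ c) ^ B := by gcongr
        _ = (H : ℝ) ^ (c * B) := by rw [← Real.rpow_natCast, ← Real.rpow_mul hH0.le]
        _ = _ := by rw [hcB]
    calc (B : ℝ) * (R / δ) ^ B ≤ (H : ℝ) ^ (η₁ / 2) * (H : ℝ) ^ (η₁ / 2) := by gcongr
      _ = Z := by rw [← Real.rpow_add hH0, hZ]; congr 1; ring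
  have hPp : ∀ p ∈ P, p.Prime := fun p hp => (hP p hp).1
  have hPp' : ∀ p ∈ P', p.Prime := fun p hp => (hP' p hp).1
  have hPZ : ∀ p ∈ P, (p : ℝ) ≤ Z := fun p hp => (hP p hp).2.2.trans hsize
  have hPZ' : ∀ p ∈ P', (p : ℝ) ≤ Z := fun p hp => (hP' p hp).2.2.trans hsize
  have hlong : LongH P P' η₁ H := by
    refine longH_of P P' hPp hPp' Z hZ1 hPZ hPZ' η₁ hη₁0 (by linarith) H ?_
    have h1 : Z ^ 3 = (H : ℝ) ^ (3 * η₁) := by
      rw [hZ, ← Real.rpow_natCast, ← Real.rpow_mul hH0.le]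
      congr 1; push_cast; ring
    calc 13 * Z ^ 3 / η₁ = (13 / η₁) * (H : ℝ) ^ (3 * η₁) := by rw [h1]; ring
      _ ≤ (H : ℝ) ^ η₁ * (H : ℝ) ^ (3 * η₁) := by gcongr
      _ = (H : ℝ) ^ (4 * η₁) := by rw [← Real.rpow_add hH0]; congr 1; ring
      _ ≤ (H : ℝ) ^ (1 : ℝ) := Real.rpow_le_rpow_of_exponent_le hHone (by linarith)
      _ = H := Real.rpow_one _
  have hz0 : ∀ z ∈ P ×ˢ P', 0 < z.1 * z.2 := fun z hz => by
    rw [mem_product] at hz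
    exact Nat.mul_pos (hPp _ hz.1).pos (hPp' _ hz.2).pos
  have hzZ : ∀ z ∈ P ×ˢ P', ((z.1 * z.2 : ℕ) : ℝ) ≤ (H : ℝ) ^ (2 * η₁) := by
    intro z hz
    rw [mem_product] at hz
    push_cast
    calc (z.1 : ℝ) * z.2 ≤ Z * Z := mul_le_mul (hPZ _ hz.1) (hPZ' _ hz.2) (by positivity)
          (by linarith)
      _ = _ := by rw [hZ, ← Real.rpow_add hH0]; congr 1; ring
  have hLz : ∀ z ∈ P ×ˢ P', (H : ℝ) ^ (1 - η) ≤ ((H / z.1 / z.2 : ℕ) : ℝ) := by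
    intro z hz
    rw [Nat.div_div_eq_div_mul]
    have h1 := div_ge_real H (z.1 * z.2) (hz0 z hz)
    have h2 : (H : ℝ) ^ (1 - 2 * η₁) ≤ (H : ℝ) / ((z.1 * z.2 : ℕ) : ℝ) := by
      have hzp : (0 : ℝ) < ((z.1 * z.2 : ℕ) : ℝ) := by exact_mod_cast hz0 z hz
      rw [le_div_iff₀ hzp]
      calc (H : ℝ) ^ (1 - 2 * η₁) * ((z.1 * z.2 : ℕ) : ℝ) ≤
            (H : ℝ) ^ (1 - 2 * η₁) * (H : ℝ) ^ (2 * η₁) := by gcongr; exact hzZ z hz
        _ = H := by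
            rw [← Real.rpow_add hH0]
            have : 1 - 2 * η₁ + 2 * η₁ = 1 := by ring
            rw [this, Real.rpow_one]
    have h3 : 1 ≤ (H : ℝ) ^ (1 - η) := Real.one_le_rpow hHone (by linarith)
    have h4 : (H : ℝ) ^ (1 - 2 * η₁) = (H : ℝ) ^ (1 - η) * (H : ℝ) ^ (η - 2 * η₁) := by
      rw [← Real.rpow_add hH0]; congr 1; ring
    nlinarith
  have hL0 : ∀ z ∈ P ×ˢ P', 0 < H / z.1 / z.2 := by
    intro z hz
    have h1 := hLz z hz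
    have h2 : 0 < (H : ℝ) ^ (1 - η) := by positivity
    have h3 : (0 : ℝ) < ((H / z.1 / z.2 : ℕ) : ℝ) := by linarith
    exact_mod_cast h3
  -- the bump function
  obtain ⟨φ, hφc, hφ0, hφ1, hφL, hφs, hφi⟩ := bump 𝒜 R hR
  have hInn : (volume (Inn 𝒜 R)).toReal ≤ ∫ x in Set.Icc (0 : σ → ℝ) 1, φ x := hφi
  set v : ℝ := (volume (Inn 𝒜 R)).toReal with hv
  have hv0 : 0 ≤ v := ENNReal.toReal_nonneg
  have hv1 : v ≤ 1 := by
    have h1 : volume (Inn 𝒜 R) ≤ volume (Set.Icc (0 : σ → ℝ) 1) :=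
      measure_mono fun x hx => hx.1
    have h2 : volume (Set.Icc (0 : σ → ℝ) 1) = 1 := by
      rw [Real.volume_Icc_pi]; simp
    rw [h2] at h1
    rw [hv]
    exact ENNReal.toReal_le_of_le_ofReal zero_le_one (by simpa using h1)
  set S : Set ι := {i | Mnr t (B * R ^ B) δ (θ i)} with hS
  set W : ℝ := WW P * WW P' with hWd
  have hWP : 0 < WW P := lt_of_lt_of_le (by positivity) hW
  have hWP' : 0 < WW P' := lt_of_lt_of_le (by positivity) hW'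
  have hW0 : 0 < W := mul_pos hWP hWP'
  have hw : ∀ z : ℕ × ℕ, 0 ≤ 1 / ((z.1 : ℝ) * z.2) := fun z => by positivity
  have hWW : ∑ z ∈ P ×ˢ P', 1 / ((z.1 : ℝ) * z.2) = W := by
    rw [sum_product, hWd, WW, WW, sum_mul_sum]
    exact sum_congr rfl fun p _ => sum_congr rfl fun q _ => by rw [one_div_mul_one_div]
  have hwin : ∀ n : ℕ, v * W * GS F a S H n ≤ H * ∑ z ∈ P ×ˢ P', 1 / ((z.1 : ℝ) * z.2) *
      (GS F a (In θ 𝒜) (H / z.1 / z.2) (n / z.1 / z.2) / ((H / z.1 / z.2 : ℕ) : ℝ)) +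
      4 * η₁ * W * H := by
    intro n
    refine one_windowq F θ t a hF ha hmul hdil 𝒜 P P' hPp hPp' P₀ (fun p hp => (hP p hp).2.1)
      (fun p hp => (hP' p hp).2.1) η₁ hη₁0 hP₀8 φ hφ1 hφs v hv0 hv1 S (fun i hi => ?_) hW hW' n H
      hlong hL0
    refine le_trans ?_ (hE (θ i) hi φ hφc hφ0 hφ1 hφL)
    exact mul_le_mul_of_nonneg_right (by linarith) hW0.le
  -- average
  have hz : ∀ z ∈ P ×ˢ P', ∑ n ∈ Icc 1 N, (1 / (n : ℝ)) *
      (GS F a (In θ 𝒜) (H / z.1 / z.2) (n / z.1 / z.2) / ((H / z.1 / z.2 : ℕ) : ℝ)) ≤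
      κ * Real.log N + (1 + 2 * η₁ * Real.log N) := by
    intro z hz
    obtain ⟨L, hL⟩ : ∃ L : ℕ, L = H / z.1 / z.2 := ⟨_, rfl⟩
    have hL1 := hLz z hz
    have hL2 := hL0 z hz
    rw [← hL] at hL1 hL2 ⊢
    have hLr : (0 : ℝ) < L := by exact_mod_cast hL2
    have hLH : L ≤ H := by
      rw [hL, Nat.div_div_eq_div_mul]; exact Nat.div_le_self _ _
    have h1 := log_upper (z.1 * z.2) (hz0 z hz) (fun m => GS F a (In θ 𝒜) L m / (L : ℝ)) 1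
      (fun m => div_nonneg (GG_nonneg _ _ _ _) hLr.le) (fun m => by
        rw [div_le_one hLr]
        exact GG_le _ a (fun i n => hF _ _) ha L m) N
    have h2 : ∑ m ∈ Icc 1 N, (1 / (m : ℝ)) * (GS F a (In θ 𝒜) L m / (L : ℝ)) ≤
        κ * Real.log N := by
      have h3 := hκ L hL1 hLH
      have e : ∑ m ∈ Icc 1 N, (1 / (m : ℝ)) * (GS F a (In θ 𝒜) L m / (L : ℝ)) =
          (∑ m ∈ Icc 1 N, (1 / (m : ℝ)) * GS F a (In θ 𝒜) L m) / L := by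
        rw [sum_div]; exact sum_congr rfl fun m _ => by ring
      rw [e, div_le_iff₀ hLr]
      linarith
    have h3 : Real.log ((z.1 * z.2 : ℕ) : ℝ) ≤ 2 * η₁ * Real.log N := by
      have hzp : (0 : ℝ) < ((z.1 * z.2 : ℕ) : ℝ) := by exact_mod_cast hz0 z hz
      have h4 := Real.log_le_log hzp (hzZ z hz)
      rw [Real.log_rpow hH0] at h4
      refine h4.trans ?_
      gcongr
    have e : ∀ n : ℕ, n / z.1 / z.2 = n / (z.1 * z.2) := fun n => Nat.div_div_eq_div_mul _ _ _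
    simp only [e]
    linarith
  have hsum : v * W * ∑ n ∈ Icc 1 N, (1 / (n : ℝ)) * GS F a S H n ≤
      H * (W * (κ * Real.log N + (1 + 2 * η₁ * Real.log N))) +
        4 * η₁ * W * H * (1 + Real.log N) := by
    calc v * W * ∑ n ∈ Icc 1 N, (1 / (n : ℝ)) * GS F a S H n
        = ∑ n ∈ Icc 1 N, (1 / (n : ℝ)) * (v * W * GS F a S H n) := by
          rw [mul_sum]; exact sum_congr rfl fun n _ => by ring
      _ ≤ ∑ n ∈ Icc 1 N, (1 / (n : ℝ)) * (H * ∑ z ∈ P ×ˢ P', 1 / ((z.1 : ℝ) * z.2) *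
            (GS F a (In θ 𝒜) (H / z.1 / z.2) (n / z.1 / z.2) / ((H / z.1 / z.2 : ℕ) : ℝ)) +
            4 * η₁ * W * H) :=
          sum_le_sum fun n _ => mul_le_mul_of_nonneg_left (hwin n) (by positivity)
      _ = H * ∑ z ∈ P ×ˢ P', 1 / ((z.1 : ℝ) * z.2) * ∑ n ∈ Icc 1 N, (1 / (n : ℝ)) *
            (GS F a (In θ 𝒜) (H / z.1 / z.2) (n / z.1 / z.2) / ((H / z.1 / z.2 : ℕ) : ℝ)) +
          4 * η₁ * W * H * ∑ n ∈ Icc 1 N, (1 / (n : ℝ)) := by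
          simp only [mul_add, sum_add_distrib, mul_sum]
          congr 1
          · rw [sum_comm]
            exact sum_congr rfl fun z _ => sum_congr rfl fun n _ => by ring
          · exact sum_congr rfl fun n _ => by ring
      _ ≤ H * ∑ z ∈ P ×ˢ P', 1 / ((z.1 : ℝ) * z.2) *
            (κ * Real.log N + (1 + 2 * η₁ * Real.log N)) +
          4 * η₁ * W * H * (1 + Real.log N) := by
          gcongr with z hz'
          · exact hz z hz'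
          · exact sum_inv_le_log N
      _ = _ := by rw [← sum_mul, hWW]
  have hfin : W * (v * ∑ n ∈ Icc 1 N, (1 / (n : ℝ)) * GS F a S H n) ≤
      W * ((κ + η) * H * Real.log N) := by
    refine le_trans (le_of_eq (by ring)) (hsum.trans ?_)
    have h1 : 2 ≤ η₁ * Real.log N := by
      rw [div_le_iff₀ hη₁0] at hH4
      nlinarith
    have h2 : (κ * Real.log N + (1 + 2 * η₁ * Real.log N)) + 4 * η₁ * (1 + Real.log N) ≤
        (κ + η) * Real.log N := by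
      have h3 : η = 16 * η₁ := by rw [hη₁]; ring
      rw [h3]
      nlinarith
    calc H * (W * (κ * Real.log N + (1 + 2 * η₁ * Real.log N))) +
          4 * η₁ * W * H * (1 + Real.log N) = (W * H) *
          ((κ * Real.log N + (1 + 2 * η₁ * Real.log N)) + 4 * η₁ * (1 + Real.log N)) := by ring
      _ ≤ (W * H) * ((κ + η) * Real.log N) := mul_le_mul_of_nonneg_left h2 (by positivity)
      _ = _ := by ring
  exact le_of_mul_le_mul_left hfin hW0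

/-- **The zero-one inequality.** The constants depend on `η` and the degrees only. -/
theorem zero_oneq (t : σ → ℕ) (ht : ∀ s, 1 ≤ t s) (η : ℝ) (hη : 0 < η) :
    ∃ c : ℝ, 0 < c ∧ ∃ C : ℕ, ∃ H₀ : ℕ,
      ∀ (ι : Type) (F : ι → ℕ → ℂ) (θ : ι → σ → ℝ) (a : ℕ → ℂ), (∀ i n, ‖F i n‖ ≤ 1) →
      (∀ n, ‖a n‖ ≤ 1) → Mult a → DilM F θ t → ∀ N H : ℕ, H₀ ≤ H → H ≤ N →
      ∀ R δ : ℝ, 1 ≤ R → 0 < δ → δ ≤ 1 → R / δ ≤ (H : ℝ) ^ c → ∀ (𝒜 : Set (σ → ℝ)) (κ : ℝ),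
      (∀ L : ℕ, (H : ℝ) ^ (1 - η) ≤ L → L ≤ H →
        ∑ n ∈ Icc 1 N, (1 / (n : ℝ)) * GS F a (In θ 𝒜) L n ≤ κ * L * Real.log N) →
      (volume (Inn 𝒜 R)).toReal * ∑ n ∈ Icc 1 N, (1 / (n : ℝ)) *
        GS F a {i | Mnr t (C * R ^ C) δ (θ i)} H n ≤
      (κ + η) * H * Real.log N := by
  obtain ⟨c, hc, C, H₀, h⟩ := zero_oneq_small t ht (min η (1 / 2))
    (by positivity) (min_le_right _ _)
  refine ⟨c, hc, C, max H₀ 1,
    fun ι F θ a hF ha hmul hdil N H hH hHN R δ hR hδ0 hδ1 hRH 𝒜 κ hκ => ?_⟩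
  have hH1 : (1 : ℝ) ≤ H := by exact_mod_cast (le_max_right H₀ 1).trans hH
  have hN1 : (1 : ℝ) ≤ N := hH1.trans (by exact_mod_cast hHN)
  have hlog : 0 ≤ Real.log N := Real.log_nonneg hN1
  refine (h ι F θ a hF ha hmul hdil N H ((le_max_left _ _).trans hH) hHN R δ hR hδ0 hδ1 hRH 𝒜 κ
    (fun L hL1 hL2 => ?_)).trans ?_
  · refine hκ L (le_trans ?_ hL1) hL2
    exact Real.rpow_le_rpow_of_exponent_le hH1 (by linarith [min_le_left η (1 / 2)])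
  · have := min_le_left η (1 / 2)
    gcongr

end Pool.Agent.Lib.MP_663568_nt.H6
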