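import Mathlib
import Pool.Agent.Lib.MP_663568_nul.Sys
import Pool.Agent.Lib.MP_663568_h6.BadQ

/-!
# Systems of separated members of a family closed under dilations, and the increment for one window
on average over primes
-/

set_option autoImplicit false
open Finset

namespace Pool.Agent.Lib.MP_663568_nt.H6

open Katai Nul

variable {ι : Type}

/-- The family is closed under dilations; the frequency is multiplied by `d ^ t`. -/
def Dil1 (F : ι → ℕ → ℂ) (ld : ι → ℝ) (t : ℕ) : Prop :=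
  ∀ (i : ι) (d : ℕ), 0 < d → ∃ i' : ι, (∀ n, F i' n = F i (d * n)) ∧
    ∃ z : ℤ, ld i' = (d : ℝ) ^ t * ld i + z

/-- Members with separated frequencies are nearly orthogonal on windows of length at least
`A / κ`. -/
def CorrQ (F : ι → ℕ → ℂ) (ld : ι → ℝ) (ε : ℝ) (C : ℕ) (A : ℝ) : Prop :=
  ∀ κ : ℝ, 0 < κ → κ ≤ 1 → ∀ L : ℕ, A / κ ≤ L → ∀ (i i' : ι) (j : ℕ),
    Sq C κ (ld i - ld i') →
    ‖∑ l ∈ Icc 1 L, F i (j + l) * (starRingEnd ℂ) (F i' (j + l))‖ ≤ ε * L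

/-- There are `m` members, separated from each other and from the rationals, which correlate with
`a` on the window `(n, n + H]`. -/
def Sys1 (F : ι → ℕ → ℂ) (ld : ι → ℝ) (a : ℕ → ℂ) (Λ Q δ ε : ℝ) (n H m : ℕ) : Prop :=
  ∃ e : Fin m → ι, (∀ r, ε * H ≤ ws (F (e r)) a n H ∧ Sq Q δ (ld (e r))) ∧
    ∀ r s, r ≠ s → Sq Λ δ (ld (e r) - ld (e s))

lemma sys1_zero (F : ι → ℕ → ℂ) (ld : ι → ℝ) (a : ℕ → ℂ) (Λ Q δ ε : ℝ) (n H : ℕ) :
    Sys1 F ld a Λ Q δ ε n H 0 :=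
  ⟨fun r => r.elim0, fun r => r.elim0, fun r => r.elim0⟩

open Classical in
/-- the size of the largest system, at most `M` -/
noncomputable def cnt1 (F : ι → ℕ → ℂ) (ld : ι → ℝ) (a : ℕ → ℂ) (M : ℕ) (Λ Q δ ε : ℝ)
    (n H : ℕ) : ℕ :=
  Nat.findGreatest (fun m => Sys1 F ld a Λ Q δ ε n H m) M

lemma cnt1_le (F : ι → ℕ → ℂ) (ld : ι → ℝ) (a : ℕ → ℂ) (M : ℕ) (Λ Q δ ε : ℝ) (n H : ℕ) :
    cnt1 F ld a M Λ Q δ ε n H ≤ M := by
  classical
  exact Nat.findGreatest_le M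

lemma cnt1_sys (F : ι → ℕ → ℂ) (ld : ι → ℝ) (a : ℕ → ℂ) (M : ℕ) (Λ Q δ ε : ℝ) (n H : ℕ) :
    Sys1 F ld a Λ Q δ ε n H (cnt1 F ld a M Λ Q δ ε n H) := by
  classical
  exact Nat.findGreatest_spec (P := fun m => Sys1 F ld a Λ Q δ ε n H m) (Nat.zero_le M)
    (sys1_zero F ld a Λ Q δ ε n H)

lemma le_cnt1 (F : ι → ℕ → ℂ) (ld : ι → ℝ) (a : ℕ → ℂ) (M : ℕ) (Λ Q δ ε : ℝ) (n H m : ℕ)
    (hm : m ≤ M) (h : Sys1 F ld a Λ Q δ ε n H m) : m ≤ cnt1 F ld a M Λ Q δ ε n H := by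
  classical
  exact Nat.le_findGreatest hm h

/-- **Packing bound.** -/
lemma sys1_card (F : ι → ℕ → ℂ) (ld : ι → ℝ) (a : ℕ → ℂ) (hF : ∀ i n, ‖F i n‖ ≤ 1)
    (ha : ∀ n, ‖a n‖ ≤ 1) (ε₀ : ℝ) (hε₀ : 0 < ε₀) (C : ℕ) (A : ℝ)
    (hcorr : CorrQ F ld (ε₀ ^ 2 / 2) C A) (Λ Q δ ε : ℝ) (hCΛ : (C : ℝ) ≤ Λ) (hδ : 0 < δ)
    (hδ1 : δ ≤ 1) (hε : ε₀ ≤ ε) (n H m : ℕ) (hH0 : 0 < H) (hH : A / δ ≤ H)
    (hs : Sys1 F ld a Λ Q δ ε n H m) : (m : ℝ) ≤ 2 / ε₀ ^ 2 := by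
  obtain ⟨e, he, hsep⟩ := hs
  have hHr : (0 : ℝ) < H := by exact_mod_cast hH0
  rcases Nat.eq_zero_or_pos m with hm0 | hm0
  · subst hm0; simp; positivity
  have hm0' : (0 : ℝ) < m := by exact_mod_cast hm0
  set g : ℕ → ℕ → ℂ := fun r l => if h : r < m then F (e ⟨r, h⟩) (n + l) else 0
    with hg
  have hg1 : ∀ r l, ‖g r l‖ ≤ 1 := by
    intro r l
    rw [hg]; beta_reduce
    split_ifs
    · exact hF _ _
    · simp
  have h1 := duality (range m) H (ε₀ ^ 2 / 2) (by positivity) (fun l => a (n + l)) (fun _ => ha _)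
    g hg1 (by
      intro r hr s hs' hrs
      rw [mem_range] at hr hs'
      have := hcorr δ hδ hδ1 H hH (e ⟨r, hr⟩) (e ⟨s, hs'⟩) n
        ((hsep ⟨r, hr⟩ ⟨s, hs'⟩ (by simpa using hrs)).mono hCΛ le_rfl)
      simpa only [hg, hr, hs', dif_pos] using this)
  have h2 : (m : ℝ) * (ε₀ * H) ≤ ∑ r ∈ range m, ‖∑ l ∈ Icc 1 H, g r l * a (n + l)‖ := by
    calc (m : ℝ) * (ε₀ * H) = ∑ r ∈ range m, ε₀ * (H : ℝ) := by simp
      _ ≤ _ := by
        apply sum_le_sum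
        intro r hr
        rw [mem_range] at hr
        have h3 := (he ⟨r, hr⟩).1
        have h4 : ε₀ * (H : ℝ) ≤ ε * H := mul_le_mul_of_nonneg_right hε hHr.le
        refine h4.trans (h3.trans (le_of_eq ?_))
        simp only [ws, hg, hr, dif_pos]
  rw [card_range] at h1
  have h3 : (m : ℝ) * ε₀ ≤ √((m : ℝ) + ε₀ ^ 2 / 2 * (m : ℝ) ^ 2) := by
    have h4 := h2.trans h1
    have h5 : (H : ℝ) * ((m : ℝ) * ε₀) ≤ H * √((m : ℝ) + ε₀ ^ 2 / 2 * (m : ℝ) ^ 2) := by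
      calc _ = (m : ℝ) * (ε₀ * H) := by ring
        _ ≤ _ := h4
    exact le_of_mul_le_mul_left h5 hHr
  have h4 : ((m : ℝ) * ε₀) ^ 2 ≤ (m : ℝ) + ε₀ ^ 2 / 2 * (m : ℝ) ^ 2 := by
    rw [← Real.le_sqrt (by positivity) (by positivity)]
    exact h3
  rw [le_div_iff₀ (by positivity)]
  have h5 : (m : ℝ) * (m * ε₀ ^ 2 / 2) ≤ m * 1 := by nlinarith
  have h6 := le_of_mul_le_mul_left h5 hm0'
  linarith

open Classical in
/-- indicator function of: a member in `S` correlates with `a` on the window -/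
noncomputable def kb1 (F : ι → ℕ → ℂ) (a : ℕ → ℂ) (S : Set ι) (ε : ℝ) (n H : ℕ) : ℝ :=
  if ∃ i ∈ S, ε * H ≤ ws (F i) a n H then 1 else 0

lemma kb1_nonneg (F : ι → ℕ → ℂ) (a : ℕ → ℂ) (S : Set ι) (ε : ℝ) (n H : ℕ) :
    0 ≤ kb1 F a S ε n H := by unfold kb1; split_ifs <;> norm_num

lemma kb1_le_one (F : ι → ℕ → ℂ) (a : ℕ → ℂ) (S : Set ι) (ε : ℝ) (n H : ℕ) :
    kb1 F a S ε n H ≤ 1 := by unfold kb1; split_ifs <;> norm_num

lemma Sq.sub_comm {Q δ x y : ℝ} (h : Sq Q δ (x - y)) : Sq Q δ (y - x) := by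
  intro q h1 h2
  have := h q h1 h2
  rw [← nd_neg] at this
  have e : -((q : ℝ) * (x - y)) = q * (y - x) := by ring
  rw [e] at this
  exact this

lemma Sq.add_int' {Q δ x : ℝ} (h : Sq Q δ x) (z : ℤ) : Sq Q δ (x + z) := by
  intro q h1 h2
  have e : (q : ℝ) * (x + z) = q * x + ((q * z : ℤ) : ℝ) := by push_cast; ring
  rw [e, nd_add_int]
  exact h q h1 h2

open Classical in
/-- **The increment for one window, on average over the primes.** -/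
theorem one_n1 (F : ι → ℕ → ℂ) (ld : ι → ℝ) (t : ℕ) (a : ℕ → ℂ) (hF : ∀ i n, ‖F i n‖ ≤ 1)
    (ha : ∀ n, ‖a n‖ ≤ 1) (hmul : Mult a) (hdil : Dil1 F ld t)
    (P : Finset ℕ) (hP : ∀ p ∈ P, p.Prime) (P₀ : ℕ) (hP₀ : ∀ p ∈ P, P₀ ≤ p)
    (M : ℕ) (Λ Λ' Q Q' δ η ε ε₁ : ℝ)
    (hη : 0 < η) (hηε : η ≤ ε) (hη8 : 8 / η ≤ P₀) (hε₁ : ε - η ≤ ε₁)
    (S : ℕ → Set ι) (hS : ∀ m, ∀ i ∈ S m, Sq Q' δ (ld i)) (γ₁ γ₂ : ℝ) (hγ₁ : 0 ≤ γ₁)
    (hγ₂ : 0 ≤ γ₂)
    (hpairs : ∀ x, Sq Λ δ x → ∑ p ∈ P, (1 / (p : ℝ)) *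
      (if Sq Λ' δ ((p : ℝ) ^ t * x) then (0 : ℝ) else 1) ≤ γ₁ * WW P)
    (hind : ∀ x, Sq Q δ x → ∑ p ∈ P, (1 / (p : ℝ)) *
      (if Sq Q' δ ((p : ℝ) ^ t * x) then (0 : ℝ) else 1) ≤ γ₁ * WW P)
    (n H : ℕ)
    (hnear : ∀ x, Sq Q δ x → ∑ p ∈ P, (1 / (p : ℝ)) *
      (if (∃ i ∈ S (n / p), ¬ Sq Λ' δ (ld i - (p : ℝ) ^ t * x)) then (1 : ℝ) else 0) ≤ γ₂ * WW P)
    (Z : ℝ) (hZ : ∀ p ∈ P, (p : ℝ) ≤ Z)
    (hH0 : 0 < H) (hH : (1 + 2 * (P.card : ℝ)) * Z ≤ H) (hH2 : 12 * Z / η ≤ H)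
    (hM : cnt1 F ld a M Λ Q δ ε n H + 1 ≤ M) :
    WW P * (cnt1 F ld a M Λ Q δ ε n H : ℝ)
      + ∑ p ∈ P, (1 / (p : ℝ)) * kb1 F a (S (n / p)) ε₁ (n / p) (H / p)
      ≤ ∑ p ∈ P, (1 / (p : ℝ)) * (cnt1 F ld a M Λ' Q' δ (ε - η) (n / p) (H / p) : ℝ)
        + (M * (γ₂ * WW P) + (M + 1) * (M * (8 / η ^ 2) + (M + M ^ 2) * (γ₁ * WW P))) := by
  set m := cnt1 F ld a M Λ Q δ ε n H with hm
  have hs : Sys1 F ld a Λ Q δ ε n H m := cnt1_sys F ld a M Λ Q δ ε n H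
  obtain ⟨e, he, hsep⟩ := hs
  have hmM : (m : ℝ) + 1 ≤ M := by exact_mod_cast hM
  have hm0 : (0 : ℝ) ≤ m := Nat.cast_nonneg _
  have hWP := WW_nonneg P
  have hw : ∀ p : ℕ, 0 ≤ 1 / (p : ℝ) := fun p => by positivity
  set b₁ : Fin m → ℕ → ℝ := fun r p => if p ∈ badp P (F (e r)) a η n H then 1 else 0 with hb₁
  set b₂ : Fin m → Fin m → ℕ → ℝ := fun r s p =>
    if r ≠ s then (if Sq Λ' δ ((p : ℝ) ^ t * (ld (e r) - ld (e s))) then (0 : ℝ) else 1) else 0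
    with hb₂
  set b₃ : Fin m → ℕ → ℝ := fun r p =>
    if Sq Q' δ ((p : ℝ) ^ t * ld (e r)) then (0 : ℝ) else 1 with hb₃
  set f : Fin m → ℕ → ℝ := fun r p =>
    if (∃ i ∈ S (n / p), ¬ Sq Λ' δ (ld i - (p : ℝ) ^ t * ld (e r))) then (1 : ℝ) else 0 with hf
  set bb : ℕ → ℝ := fun p => ∑ r, b₁ r p + ∑ r, ∑ s, b₂ r s p + ∑ r, b₃ r p with hbb
  have hb₁0 : ∀ r p, 0 ≤ b₁ r p := fun r p => by rw [hb₁]; beta_reduce; split_ifs <;> norm_num
  have hb₂0 : ∀ r s p, 0 ≤ b₂ r s p := fun r s p => by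
    rw [hb₂]; beta_reduce; split_ifs <;> norm_num
  have hb₃0 : ∀ r p, 0 ≤ b₃ r p := fun r p => by rw [hb₃]; beta_reduce; split_ifs <;> norm_num
  have hf0 : ∀ r p, 0 ≤ f r p := fun r p => by rw [hf]; beta_reduce; split_ifs <;> norm_num
  have hb1s : ∀ p, 0 ≤ ∑ r, b₁ r p := fun p => sum_nonneg fun r _ => hb₁0 r p
  have hb2s : ∀ p, 0 ≤ ∑ r, ∑ s, b₂ r s p := fun p =>
    sum_nonneg fun r _ => sum_nonneg fun s _ => hb₂0 r s p
  have hb3s : ∀ p, 0 ≤ ∑ r, b₃ r p := fun p => sum_nonneg fun r _ => hb₃0 r p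
  have hbb0 : ∀ p, 0 ≤ bb p := fun p => by
    have h1 := hb1s p
    have h2 := hb2s p
    have h3 := hb3s p
    rw [hbb]; beta_reduce; linarith
  -- pointwise inequality
  have hpt : ∀ p ∈ P, (m : ℝ) + kb1 F a (S (n / p)) ε₁ (n / p) (H / p) ≤
      (cnt1 F ld a M Λ' Q' δ (ε - η) (n / p) (H / p) : ℝ) + (∑ r, f r p + (M + 1) * bb p) := by
    intro p hp
    have hk1 := kb1_le_one F a (S (n / p)) ε₁ (n / p) (H / p)
    have hc0 : (0 : ℝ) ≤ (cnt1 F ld a M Λ' Q' δ (ε - η) (n / p) (H / p) : ℝ) := Nat.cast_nonneg _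
    have hf0' : 0 ≤ ∑ r, f r p := sum_nonneg fun r _ => hf0 r p
    by_cases hbz : 1 ≤ bb p
    · have : (M : ℝ) + 1 ≤ (M + 1) * bb p := by
        have : (0 : ℝ) ≤ (M : ℝ) + 1 := by positivity
        nlinarith
      linarith
    push Not at hbz
    have hg1 : ∀ r, p ∉ badp P (F (e r)) a η n H := by
      intro r hr
      have h1 : b₁ r p = 1 := by rw [hb₁]; beta_reduce; rw [if_pos hr]
      have h2 : b₁ r p ≤ ∑ r, b₁ r p := single_le_sum (f := fun r => b₁ r p)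
        (fun r _ => hb₁0 r p) (mem_univ r)
      have h3 := hb2s p
      have h4 := hb3s p
      rw [hbb] at hbz; beta_reduce at hbz
      linarith
    have hg2 : ∀ r s, r ≠ s → Sq Λ' δ ((p : ℝ) ^ t * (ld (e r) - ld (e s))) := by
      intro r s hrs
      by_contra hcon
      have h1 : b₂ r s p = 1 := by rw [hb₂]; beta_reduce; rw [if_pos hrs, if_neg hcon]
      have h2 : b₂ r s p ≤ ∑ s, b₂ r s p := single_le_sum (f := fun s => b₂ r s p)
        (fun s _ => hb₂0 r s p) (mem_univ s)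
      have h2' : ∑ s, b₂ r s p ≤ ∑ r, ∑ s, b₂ r s p :=
        single_le_sum (f := fun r => ∑ s, b₂ r s p)
          (fun r _ => sum_nonneg fun s _ => hb₂0 r s p) (mem_univ r)
      have h3 := hb1s p
      have h4 := hb3s p
      rw [hbb] at hbz; beta_reduce at hbz
      linarith
    have hg3 : ∀ r, Sq Q' δ ((p : ℝ) ^ t * ld (e r)) := by
      intro r
      by_contra hcon
      have h1 : b₃ r p = 1 := by rw [hb₃]; beta_reduce; rw [if_neg hcon]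
      have h2 : b₃ r p ≤ ∑ r, b₃ r p := single_le_sum (f := fun r => b₃ r p)
        (fun r _ => hb₃0 r p) (mem_univ r)
      have h3 := hb1s p
      have h4 := hb2s p
      rw [hbb] at hbz; beta_reduce at hbz
      linarith
    have hbp := hbb0 p
    -- the children
    choose e' he'1 he'2 using fun r => hdil (e r) p (hP p hp).pos
    choose z hz using he'2
    have hc1 : ∀ r, (ε - η) * ((H / p : ℕ) : ℝ) ≤ ws (F (e' r)) a (n / p) (H / p) ∧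
        Sq Q' δ (ld (e' r)) := by
      intro r
      refine ⟨?_, ?_⟩
      · have h1 := child_of_not_bad P hP (F (e r)) a η ε n H p hp (hg1 r) hηε (he r).1
        have e2 : F (e' r) = fun m => F (e r) (p * m) := funext (he'1 r)
        rw [e2]; exact h1
      · rw [hz r]
        exact (hg3 r).add_int' (z r)
    have hc2 : ∀ r s, r ≠ s → Sq Λ' δ (ld (e' r) - ld (e' s)) := by
      intro r s hrs
      have h1 := (hg2 r s hrs).add_int' (z r - z s)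
      have e3 : ld (e' r) - ld (e' s) =
          (p : ℝ) ^ t * (ld (e r) - ld (e s)) + ((z r - z s : ℤ) : ℝ) := by
        rw [hz r, hz s]; push_cast; ring
      rw [e3]; exact h1
    have hcnt1 : (m : ℝ) ≤ (cnt1 F ld a M Λ' Q' δ (ε - η) (n / p) (H / p) : ℝ) := by
      exact_mod_cast le_cnt1 F ld a M Λ' Q' δ (ε - η) (n / p) (H / p) m (by omega) ⟨e', hc1, hc2⟩
    have hMb : 0 ≤ ((M : ℝ) + 1) * bb p := by positivity
    by_cases hkb : ∃ i ∈ S (n / p), ε₁ * ((H / p : ℕ) : ℝ) ≤ ws (F i) a (n / p) (H / p)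
    swap
    · have : kb1 F a (S (n / p)) ε₁ (n / p) (H / p) = 0 := by unfold kb1; rw [if_neg hkb]
      linarith
    by_cases hfar : ∀ i ∈ S (n / p), ∀ r, Sq Λ' δ (ld i - (p : ℝ) ^ t * ld (e r))
    · obtain ⟨i, hi, hcor⟩ := hkb
      have hcnt2 : m + 1 ≤ cnt1 F ld a M Λ' Q' δ (ε - η) (n / p) (H / p) := by
        refine le_cnt1 F ld a M Λ' Q' δ (ε - η) (n / p) (H / p) (m + 1) hM
          ⟨Fin.cons i e', ?_, ?_⟩
        · intro r
          refine Fin.cases ?_ (fun r => ?_) r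
          · simp only [Fin.cons_zero]
            refine ⟨le_trans ?_ hcor, hS _ i hi⟩
            exact mul_le_mul_of_nonneg_right hε₁ (Nat.cast_nonneg _)
          · simp only [Fin.cons_succ]
            exact hc1 r
        · have hfar' : ∀ r, Sq Λ' δ (ld i - ld (e' r)) := by
            intro r
            have h1 := (hfar i hi r).add_int' (-z r)
            have e3 : ld i - ld (e' r) = ld i - (p : ℝ) ^ t * ld (e r) + ((-z r : ℤ) : ℝ) := by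
              rw [hz r]; push_cast; ring
            rw [e3]; exact h1
          intro r s
          refine Fin.cases ?_ (fun r => ?_) r
          · refine Fin.cases ?_ (fun s => ?_) s
            · intro h; exact absurd rfl h
            · intro _
              simp only [Fin.cons_zero, Fin.cons_succ]
              exact hfar' s
          · refine Fin.cases ?_ (fun s => ?_) s
            · intro _
              simp only [Fin.cons_zero, Fin.cons_succ]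
              exact (hfar' r).sub_comm
            · intro hrs
              simp only [Fin.cons_succ]
              exact hc2 r s (fun h => hrs (by rw [h]))
      have : (m : ℝ) + 1 ≤ (cnt1 F ld a M Λ' Q' δ (ε - η) (n / p) (H / p) : ℝ) := by
        exact_mod_cast hcnt2
      linarith
    · push Not at hfar
      obtain ⟨i, hi, r, hr⟩ := hfar
      have h1 : f r p = 1 := by
        rw [hf]; beta_reduce
        rw [if_pos ⟨i, hi, hr⟩]
      have h2 : f r p ≤ ∑ r, f r p :=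
        single_le_sum (f := fun r => f r p) (fun r _ => hf0 r p) (mem_univ r)
      linarith
  -- average over the primes
  have hsum : ∑ p ∈ P, (1 / (p : ℝ)) * ((m : ℝ) + kb1 F a (S (n / p)) ε₁ (n / p) (H / p)) ≤
      ∑ p ∈ P, (1 / (p : ℝ)) * ((cnt1 F ld a M Λ' Q' δ (ε - η) (n / p) (H / p) : ℝ) +
        (∑ r, f r p + (M + 1) * bb p)) :=
    sum_le_sum fun p hp => mul_le_mul_of_nonneg_left (hpt p hp) (hw p)
  have e1 : ∑ p ∈ P, (1 / (p : ℝ)) * ((m : ℝ) + kb1 F a (S (n / p)) ε₁ (n / p) (H / p)) =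
      WW P * m + ∑ p ∈ P, (1 / (p : ℝ)) * kb1 F a (S (n / p)) ε₁ (n / p) (H / p) := by
    rw [WW, sum_mul, ← sum_add_distrib]
    exact sum_congr rfl fun p _ => by ring
  have e2 : ∑ p ∈ P, (1 / (p : ℝ)) * ((cnt1 F ld a M Λ' Q' δ (ε - η) (n / p) (H / p) : ℝ) +
        (∑ r, f r p + (M + 1) * bb p)) =
      ∑ p ∈ P, (1 / (p : ℝ)) * (cnt1 F ld a M Λ' Q' δ (ε - η) (n / p) (H / p) : ℝ) +
      (∑ r, ∑ p ∈ P, (1 / (p : ℝ)) * f r p + (M + 1) * (∑ r, ∑ p ∈ P, (1 / (p : ℝ)) * b₁ r p +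
        ∑ r, ∑ s, ∑ p ∈ P, (1 / (p : ℝ)) * b₂ r s p + ∑ r, ∑ p ∈ P, (1 / (p : ℝ)) * b₃ r p)) := by
    have c1 : ∑ r, ∑ p ∈ P, (1 / (p : ℝ)) * f r p = ∑ p ∈ P, (1 / (p : ℝ)) * ∑ r, f r p := by
      rw [sum_comm]; exact sum_congr rfl fun p _ => (mul_sum _ _ _).symm
    have c2 : ∑ r, ∑ p ∈ P, (1 / (p : ℝ)) * b₁ r p = ∑ p ∈ P, (1 / (p : ℝ)) * ∑ r, b₁ r p := by
      rw [sum_comm]; exact sum_congr rfl fun p _ => (mul_sum _ _ _).symm
    have c3 : ∑ r, ∑ p ∈ P, (1 / (p : ℝ)) * b₃ r p = ∑ p ∈ P, (1 / (p : ℝ)) * ∑ r, b₃ r p := by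
      rw [sum_comm]; exact sum_congr rfl fun p _ => (mul_sum _ _ _).symm
    have c4 : ∑ r, ∑ s, ∑ p ∈ P, (1 / (p : ℝ)) * b₂ r s p =
        ∑ p ∈ P, (1 / (p : ℝ)) * ∑ r, ∑ s, b₂ r s p := by
      have : ∀ r : Fin m, ∑ s, ∑ p ∈ P, (1 / (p : ℝ)) * b₂ r s p =
          ∑ p ∈ P, (1 / (p : ℝ)) * ∑ s, b₂ r s p := by
        intro r
        rw [sum_comm]; exact sum_congr rfl fun p _ => (mul_sum _ _ _).symm
      simp only [this]
      rw [sum_comm]; exact sum_congr rfl fun p _ => (mul_sum _ _ _).symm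
    rw [c1, c2, c3, c4, ← sum_add_distrib, ← sum_add_distrib, mul_sum, ← sum_add_distrib,
      ← sum_add_distrib]
    refine sum_congr rfl fun p _ => ?_
    rw [hbb]; beta_reduce
    ring
  have hF1 : ∑ r, ∑ p ∈ P, (1 / (p : ℝ)) * f r p ≤ m * (γ₂ * WW P) := by
    calc _ ≤ ∑ r : Fin m, γ₂ * WW P := sum_le_sum fun r _ => hnear (ld (e r)) (he r).2
      _ = _ := by simp
  have hB1 : ∑ r, ∑ p ∈ P, (1 / (p : ℝ)) * b₁ r p ≤ m * (8 / η ^ 2) := by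
    calc _ ≤ ∑ r : Fin m, 8 / η ^ 2 := by
          refine sum_le_sum fun r _ => ?_
          have h1 := badp_weight P hP P₀ hP₀ η hη hη8 Z hZ (F (e r)) a (hF _) ha hmul n H hH0 hH hH2
          refine le_trans (le_of_eq ?_) h1
          have hsub : badp P (F (e r)) a η n H ⊆ P := filter_subset _ _
          rw [← sum_subset hsub (f := fun p : ℕ => (1 / (p : ℝ)) * b₁ r p) (fun (p : ℕ) _ hp => by
            simp only [hb₁, if_neg hp, mul_zero])]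
          refine sum_congr rfl fun p hp => ?_
          simp only [hb₁, if_pos hp, mul_one]
      _ = _ := by simp
  have hB2 : ∑ r, ∑ s, ∑ p ∈ P, (1 / (p : ℝ)) * b₂ r s p ≤ m * (m * (γ₁ * WW P)) := by
    calc _ ≤ ∑ r : Fin m, ∑ s : Fin m, γ₁ * WW P := by
          refine sum_le_sum fun r _ => sum_le_sum fun s _ => ?_
          by_cases hrs : r ≠ s
          · simp only [hb₂, if_pos hrs]
            exact hpairs _ (hsep r s hrs)
          · simp only [hb₂, if_neg hrs, mul_zero, sum_const_zero]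
            positivity
      _ = _ := by simp
  have hB3 : ∑ r, ∑ p ∈ P, (1 / (p : ℝ)) * b₃ r p ≤ m * (γ₁ * WW P) := by
    calc _ ≤ ∑ r : Fin m, γ₁ * WW P := sum_le_sum fun r _ => hind (ld (e r)) (he r).2
      _ = _ := by simp
  rw [e1, e2] at hsum
  have hmM' : (m : ℝ) ≤ M := by linarith
  have hγW : 0 ≤ γ₁ * WW P := by positivity
  have h8 : 0 ≤ 8 / η ^ 2 := by positivity
  have hf1 : (m : ℝ) * (8 / η ^ 2) ≤ M * (8 / η ^ 2) := mul_le_mul_of_nonneg_right hmM' h8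
  have hf2 : (m : ℝ) * (m * (γ₁ * WW P)) + m * (γ₁ * WW P) ≤ (M + M ^ 2) * (γ₁ * WW P) := by
    have h1 : (m : ℝ) * m + m ≤ M + M ^ 2 := by nlinarith
    calc (m : ℝ) * (m * (γ₁ * WW P)) + m * (γ₁ * WW P) = ((m : ℝ) * m + m) * (γ₁ * WW P) := by ring
      _ ≤ _ := mul_le_mul_of_nonneg_right h1 hγW
  have hf3 : ((M : ℝ) + 1) * (∑ r, ∑ p ∈ P, (1 / (p : ℝ)) * b₁ r p +
        ∑ r, ∑ s, ∑ p ∈ P, (1 / (p : ℝ)) * b₂ r s p + ∑ r, ∑ p ∈ P, (1 / (p : ℝ)) * b₃ r p) ≤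
      (M + 1) * (M * (8 / η ^ 2) + (M + M ^ 2) * (γ₁ * WW P)) := by
    apply mul_le_mul_of_nonneg_left _ (by positivity)
    linarith
  have hf4 : ∑ r, ∑ p ∈ P, (1 / (p : ℝ)) * f r p ≤ M * (γ₂ * WW P) :=
    hF1.trans (mul_le_mul_of_nonneg_right hmM' (by positivity))
  linarith

end Pool.Agent.Lib.MP_663568_nt.H6
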