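import Mathlib
import Pool.Agent.Lib.MP_663568_nul.Single
import Pool.Agent.Lib.MP_663568_h6.StepQ

/-!
# Windows which are not short, with explicit constants
-/

set_option autoImplicit false
open Finset

namespace Pool.Agent.Lib.MP_663568_nt.H6

open Katai Nul

/-- The criterion of Kátai for one function, with explicit constants. -/
lemma natural_oneq (ε : ℝ) (hε : 0 < ε) :
    ∃ P : Finset ℕ, (∀ p ∈ P, p.Prime) ∧ ∃ η : ℝ, 0 < η ∧ ∀ a : ℕ → ℂ, (∀ n, ‖a n‖ ≤ 1) →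
      Mult a → ∀ L : ℕ, 0 < L → ∀ f : ℕ → ℂ, (∀ n, ‖f n‖ ≤ 1) →
      (∀ p ∈ P, ∀ q ∈ P, p ≠ q → ∀ j,
        ‖∑ l ∈ Icc 1 L, f (p * (j + l)) * (starRingEnd ℂ) (f (q * (j + l)))‖ ≤ η * L) →
      ∀ H X : ℕ, 4 * (L : ℝ) * P.card / ε ≤ H → P.card + 1 ≤ H → H ≤ X →
        ∑ n ∈ range X, ws f a n H ≤ ε * H * X := by
  obtain ⟨P, hPsub, hW⟩ := exists_finset_WW {p : ℕ | p.Prime} not_summable_one_div_on_primes
    (128 / ε ^ 2 + 40 / ε + 1)
  have hP : ∀ p ∈ P, p.Prime := fun p hp => hPsub hp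
  set K : ℝ := (P.card : ℝ) with hK
  have hK0 : 0 ≤ K := by positivity
  set η : ℝ := 1 / (K + 1) ^ 2 with hη
  have hη0 : 0 < η := by positivity
  have hηK : √η * K ≤ 1 := by
    rw [hη, Real.sqrt_div zero_le_one, Real.sqrt_one, Real.sqrt_sq (by positivity),
      div_mul_eq_mul_div, one_mul, div_le_one (by positivity)]
    linarith
  refine ⟨P, hP, η, hη0, ?_⟩
  intro a ha hmul L hL0 f hf hL H X hHr hHc hHX
  have hmain := main_estimate (ι := Unit) P hP (fun _ => f) a (fun _ => hf) ha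
    (fun p hp m hm => hmul p (hP p hp) m hm) L hL0 η hη0.le
    (fun p hp q hq hpq _ _ j => hL p hp q hq hpq j) H X (by omega)
  have hGG : ∀ n, GG (fun _ : Unit => f) a H n = ws f a n H := by
    intro n
    rw [GG, ws, ciSup_const]
  simp only [hGG] at hmain
  set W := WW P with hWdef
  have hW1 : 1 ≤ W := by
    have : (0 : ℝ) < 128 / ε ^ 2 + 40 / ε := by positivity
    linarith
  have hWa : 128 / ε ^ 2 ≤ W := by
    have : (0 : ℝ) < 40 / ε := by positivity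
    linarith
  have hWb : 40 / ε ≤ W := by
    have : (0 : ℝ) < 128 / ε ^ 2 := by positivity
    linarith
  have hs : √(2 * W) ≤ ε / 8 * W := by
    rw [Real.sqrt_le_left (by positivity)]
    rw [div_le_iff₀ (by positivity)] at hWa
    have : 2 * W ≤ 2 * W * (W * ε ^ 2 / 128) := by
      have h1 : 1 ≤ W * ε ^ 2 / 128 := by linarith
      nlinarith
    nlinarith
  have h5 : 5 ≤ ε / 8 * W := by
    rw [div_le_iff₀ hε] at hWb; linarith
  have hHX' : ((X + H : ℕ) : ℝ) ≤ 2 * X := by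
    have : (H : ℝ) ≤ X := by exact_mod_cast hHX
    push_cast; linarith
  have hX0 : (0 : ℝ) ≤ X := by positivity
  have hH0 : (0 : ℝ) ≤ H := by positivity
  have h6 : 2 * L * K * X ≤ ε / 2 * W * H * X := by
    rw [div_le_iff₀ hε] at hHr
    have : 2 * L * K ≤ ε / 2 * W * H := by
      have h1 : 2 * (L : ℝ) * K ≤ ε / 2 * H := by linarith
      have h2 : ε / 2 * H ≤ ε / 2 * H * W := le_mul_of_one_le_right (by positivity) hW1
      linarith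
    exact mul_le_mul_of_nonneg_right this hX0
  have h7 : H * ((X + H : ℕ) : ℝ) * (√(2 * W) + 4 + √η * K)
      ≤ H * (2 * X) * (ε / 8 * W + ε / 8 * W) := by
    have h8 : √(2 * W) + 4 + √η * K ≤ ε / 8 * W + ε / 8 * W := by linarith
    gcongr
  have h9 : W * ∑ n ∈ range X, ws f a n H ≤ W * (ε * H * X) := by
    calc _ ≤ _ := hmain
      _ ≤ H * (2 * X) * (ε / 8 * W + ε / 8 * W) + ε / 2 * W * H * X := add_le_add h7 h6
      _ = _ := by ring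
  exact le_of_mul_le_mul_left h9 (by linarith)

/-- differences of dilates of a separated number are separated -/
lemma sq_diff (t : ℕ) (ht : 1 ≤ t) (C : ℕ) (D : ℝ) (δ x : ℝ) (p q : ℕ) (hpq : p ≠ q)
    (hp : (C : ℝ) * (p : ℝ) ^ t ≤ D) (hq : (C : ℝ) * (q : ℝ) ^ t ≤ D) (h : Sq D δ x) :
    Sq C δ ((p : ℝ) ^ t * x - (q : ℝ) ^ t * x) := by
  have key : ∀ p q : ℕ, p < q → (C : ℝ) * (q : ℝ) ^ t ≤ D → Sq C δ ((q : ℝ) ^ t * x - (p : ℝ) ^ t * x) := by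
    intro p q hpq hq
    have h1 : p ^ t < q ^ t := Nat.pow_lt_pow_left hpq (by omega)
    have h2 := h.mul (q ^ t - p ^ t) (by omega) (Q' := C) (by
      refine le_trans ?_ hq
      have h3 : ((q ^ t - p ^ t : ℕ) : ℝ) ≤ (q : ℝ) ^ t := by
        have : q ^ t - p ^ t ≤ q ^ t := Nat.sub_le _ _
        exact_mod_cast this
      exact mul_le_mul_of_nonneg_left h3 (Nat.cast_nonneg _))
    have e : ((q ^ t - p ^ t : ℕ) : ℝ) * x = (q : ℝ) ^ t * x - (p : ℝ) ^ t * x := by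
      rw [Nat.cast_sub h1.le]; push_cast; ring
    rwa [e] at h2
  rcases lt_or_gt_of_ne hpq with hlt | hlt
  · exact (key p q hlt hq).sub_comm
  · exact key q p hlt hp

/-- **Sums over windows `(n, n + H]` with `n ≤ H`**, uniformly in the members whose frequency is not
in the major arcs. -/
theorem single_smallq {ι : Type} (F : ι → ℕ → ℂ) (ld : ι → ℝ) (t : ℕ) (ht : 1 ≤ t)
    (hF : ∀ i n, ‖F i n‖ ≤ 1) (hdil : Dil1 F ld t)
    (hcorr : ∀ ε : ℝ, 0 < ε → ∃ C : ℕ, 1 ≤ C ∧ ∃ A : ℝ, 1 ≤ A ∧ CorrQ F ld ε C A)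
    (ε : ℝ) (hε : 0 < ε) :
    ∃ D : ℕ, 1 ≤ D ∧ ∀ a : ℕ → ℂ, (∀ n, ‖a n‖ ≤ 1) → Mult a → ∀ δ : ℝ, 0 < δ → δ ≤ 1 →
      ∀ i : ι, Sq D δ (ld i) → ∀ H n : ℕ, D / δ ≤ H → n ≤ H → ws (F i) a n H ≤ ε * H := by
  obtain ⟨P, hP, η, hη, hnat⟩ := natural_oneq (ε / 4) (by positivity)
  obtain ⟨C, hC, A, hA, hco⟩ := hcorr η hη
  obtain ⟨D₁, hD₁⟩ : ∃ D₁ : ℕ, D₁ = C * ∑ p ∈ P, p ^ t := ⟨_, rfl⟩
  obtain ⟨A₂, hA₂⟩ : ∃ A₂ : ℝ, A₂ = 4 * (2 * A) * P.card / (ε / 4) + P.card + 2 := ⟨_, rfl⟩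
  have hA₂0 : 2 ≤ A₂ := by rw [hA₂]; have : 0 ≤ 4 * (2 * A) * P.card / (ε / 4) + (P.card : ℝ) := by positivity
                           linarith
  obtain ⟨D₂, hD₂⟩ : ∃ D₂ : ℕ, D₂ = ⌈A₂ + 4 * A₂ / ε⌉₊ := ⟨_, rfl⟩
  refine ⟨1 + D₁ + D₂, by omega, fun a ha hmul δ hδ hδ1 i hi H n hH hn => ?_⟩
  have hpD : ∀ p ∈ P, (C : ℝ) * (p : ℝ) ^ t ≤ ((1 + D₁ + D₂ : ℕ) : ℝ) := by
    intro p hp
    have h1 : p ^ t ≤ ∑ p ∈ P, p ^ t := single_le_sum (f := fun p : ℕ => p ^ t)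
      (fun _ _ => Nat.zero_le _) hp
    have h2 : C * p ^ t ≤ 1 + D₁ + D₂ := by
      have := Nat.mul_le_mul_left C h1
      omega
    exact_mod_cast h2
  -- the length of the short windows
  obtain ⟨L, hL⟩ : ∃ L : ℕ, L = ⌈A / δ⌉₊ := ⟨_, rfl⟩
  have hAδ : 1 ≤ A / δ := by rw [le_div_iff₀ hδ]; linarith
  have hL1 : A / δ ≤ L := by rw [hL]; exact Nat.le_ceil _
  have hL2 : (L : ℝ) ≤ 2 * A / δ := by
    have := Nat.ceil_lt_add_one (a := A / δ) (by linarith)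
    rw [← hL] at this
    have e : 2 * A / δ = A / δ + A / δ := by ring
    linarith
  have hL0 : 0 < L := by
    have : (0 : ℝ) < L := by linarith
    exact_mod_cast this
  obtain ⟨H₀, hH₀⟩ : ∃ H₀ : ℕ, H₀ = ⌈4 * (L : ℝ) * P.card / (ε / 4)⌉₊ + (P.card + 1) := ⟨_, rfl⟩
  have hiδ : 1 ≤ 1 / δ := by rw [le_div_iff₀ hδ]; linarith
  have hH₀A : (H₀ : ℝ) ≤ A₂ / δ := by
    have h1 := Nat.ceil_lt_add_one (a := 4 * (L : ℝ) * P.card / (ε / 4)) (by positivity)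
    have h2 : 4 * (L : ℝ) * P.card / (ε / 4) ≤ 4 * (2 * A) * P.card / (ε / 4) * (1 / δ) := by
      have e : 4 * (2 * A) * P.card / (ε / 4) * (1 / δ) = 4 * (2 * A / δ) * P.card / (ε / 4) := by
        ring
      rw [e]
      gcongr
    have h3 : (P.card : ℝ) + 2 ≤ (P.card + 2) * (1 / δ) := le_mul_of_one_le_right (by positivity) hiδ
    have e : A₂ / δ = 4 * (2 * A) * P.card / (ε / 4) * (1 / δ) + (P.card + 2) * (1 / δ) := by
      rw [hA₂]; ring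
    rw [hH₀, e]
    push_cast
    linarith
  have hH₀1 : 0 < H₀ := by omega
  have hD₂r : (A₂ + 4 * A₂ / ε) ≤ ((1 + D₁ + D₂ : ℕ) : ℝ) := by
    have h1 := Nat.le_ceil (A₂ + 4 * A₂ / ε)
    rw [← hD₂] at h1
    push_cast
    have h2 : (0 : ℝ) ≤ D₁ := Nat.cast_nonneg _
    linarith
  have hHbig : (H₀ : ℝ) + 4 * H₀ / ε ≤ H := by
    refine le_trans ?_ hH
    calc (H₀ : ℝ) + 4 * H₀ / ε ≤ A₂ / δ + 4 * (A₂ / δ) / ε := by gcongr
      _ = (A₂ + 4 * A₂ / ε) / δ := by ring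
      _ ≤ _ := by gcongr
  have hHr : 4 * (H₀ : ℝ) / ε ≤ H := by
    have : (0 : ℝ) ≤ H₀ := Nat.cast_nonneg _
    linarith
  have hH₀H : H₀ ≤ H := by
    have h1 : (0 : ℝ) ≤ 4 * (H₀ : ℝ) / ε := by positivity
    have : (H₀ : ℝ) ≤ H := by linarith
    exact_mod_cast this
  have h1 := hnat a ha hmul L hL0 (F i) (hF i) (fun p hp q hq hpq j => by
    obtain ⟨i₁, hi₁, z₁, hz₁⟩ := hdil i p (hP p hp).pos
    obtain ⟨i₂, hi₂, z₂, hz₂⟩ := hdil i q (hP q hq).pos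
    have h2 := (sq_diff t ht C _ δ (ld i) p q hpq (hpD p hp) (hpD q hq) hi).add_int' (z₁ - z₂)
    have e : (p : ℝ) ^ t * ld i - (q : ℝ) ^ t * ld i + ((z₁ - z₂ : ℤ) : ℝ) = ld i₁ - ld i₂ := by
      rw [hz₁, hz₂]; push_cast; ring
    rw [e] at h2
    have h3 := hco δ hδ hδ1 L hL1 i₁ i₂ j h2
    simpa only [hi₁, hi₂] using h3) H₀ (n + H) (by
      rw [hH₀]; push_cast
      have h1 := Nat.le_ceil (4 * (L : ℝ) * P.card / (ε / 4))
      have h2 : (0 : ℝ) ≤ P.card := Nat.cast_nonneg _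
      linarith) (by omega) (by omega)
  have hx : ∀ m, ‖F i m * a m‖ ≤ 1 := fun m => by
    rw [norm_mul]; exact mul_le_one₀ (hF _ _) (norm_nonneg _) (ha _)
  have h2 := smooth (fun m => F i m * a m) hx n (n + H) H₀ (by omega) hH₀1
  have hH0r : (0 : ℝ) < H₀ := by exact_mod_cast hH₀1
  rw [div_le_iff₀ hε] at hHr
  have h3 : ∑ j ∈ Ico n (n + H), ‖∑ l ∈ Icc 1 H₀, F i (j + l) * a (j + l)‖
      ≤ ε / 4 * H₀ * ((n + H : ℕ) : ℝ) := by
    refine le_trans ?_ h1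
    apply sum_le_sum_of_subset_of_nonneg
    · intro j hj; rw [mem_Ico] at hj; rw [mem_range]; exact hj.2
    · intro j _ _; exact norm_nonneg _
  have h4 : ((n + H : ℕ) : ℝ) ≤ 2 * H := by
    have : (n : ℝ) ≤ H := by exact_mod_cast hn
    push_cast; linarith
  have h5 : ws (F i) a n H = ‖∑ m ∈ Ioc n (n + H), F i m * a m‖ := by
    rw [ws, icc_ioc (fun m => F i m * a m)]
  rw [h5]
  calc _ ≤ _ := h2
    _ ≤ (1 / (H₀ : ℝ)) * (ε / 4 * H₀ * (2 * H)) + 2 * H₀ := by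
        refine add_le_add ?_ le_rfl
        refine mul_le_mul_of_nonneg_left ?_ (by positivity)
        exact h3.trans (mul_le_mul_of_nonneg_left h4 (by positivity))
    _ = ε / 2 * H + 2 * H₀ := by field_simp; ring
    _ ≤ _ := by linarith

end Pool.Agent.Lib.MP_663568_nt.H6
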