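import Mathlib
import Pool.Agent.Lib.MP_663568_nul.SepDil
import Pool.Agent.Lib.MP_663568_h6.MainQ
import Pool.Agent.Lib.MP_663568_h6.BumpQ

/-!
# Logarithmic averages and dilations: the lower bound
-/

set_option autoImplicit false
open Finset

namespace Pool.Agent.Lib.MP_663568_nt.H6

open Katai Nul

lemma sum_inv_ge_log (K : ℕ) (hK : 1 ≤ K) :
    Real.log K ≤ ∑ m ∈ Ico 1 K, (1 / (m : ℝ)) := by
  have h1 := log_le_sum 0 (K - 1) (Nat.zero_le _)
  have e : ((K - 1 : ℕ) : ℝ) + 1 = K := by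
    have : K - 1 + 1 = K := by omega
    exact_mod_cast this
  rw [e] at h1
  simp only [CharP.cast_eq_zero, zero_add, Real.log_one, sub_zero] at h1
  refine h1.trans (le_of_eq ?_)
  rw [sum_Ico_eq_sum_range (fun m : ℕ => 1 / (m : ℝ)) 1 K, sum_Ico_eq_sum_range]
  simp only [Nat.sub_zero]
  refine sum_congr rfl fun j _ => ?_
  push_cast
  rw [zero_add, add_comm]

/-- Logarithmic averages are nearly invariant under dilations: lower bound. -/
theorem log_lower (d : ℕ) (hd : 0 < d) (g : ℕ → ℝ) (M : ℝ) (h0 : ∀ n, 0 ≤ g n)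
    (hM : ∀ n, g n ≤ M) (N : ℕ) (hN : d ≤ N) :
    ∑ m ∈ Icc 1 N, (1 / (m : ℝ)) * g m ≤
      ∑ n ∈ Icc 1 N, (1 / (n : ℝ)) * g (n / d) + (Real.log d + 3) * M := by
  have hM0 : 0 ≤ M := (h0 0).trans (hM 0)
  have hdr : (0 : ℝ) < d := by exact_mod_cast hd
  have hh0 : ∀ n : ℕ, 0 ≤ (1 / (n : ℝ)) * g (n / d) := fun n => mul_nonneg (by positivity) (h0 _)
  have hg0 : ∀ n : ℕ, 0 ≤ (1 / (n : ℝ)) * g n := fun n => mul_nonneg (by positivity) (h0 _)
  have hdiv : ∀ m r : ℕ, r ∈ range d → (d * m + r) / d = m := by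
    intro m r hr
    rw [mem_range] at hr
    rw [Nat.mul_add_div hd, Nat.div_eq_of_lt hr, add_zero]
  have hK1 : 1 ≤ N / d := (Nat.one_le_div_iff hd).mpr hN
  obtain ⟨k, hk⟩ : ∃ k, N / d = k + 1 := ⟨N / d - 1, by omega⟩
  have h1 : ∑ m ∈ Ico 1 (k + 1), (1 / ((m : ℝ) + 1)) * g m ≤
      ∑ n ∈ Icc 1 N, (1 / (n : ℝ)) * g (n / d) := by
    have h2 := blocks (fun n => (1 / (n : ℝ)) * g (n / d)) d k
    calc ∑ m ∈ Ico 1 (k + 1), (1 / ((m : ℝ) + 1)) * g m
        ≤ ∑ m ∈ Ico 1 (k + 1), ∑ r ∈ range d,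
            (1 / ((d * m + r : ℕ) : ℝ)) * g ((d * m + r) / d) := by
          refine sum_le_sum fun m hm => ?_
          rw [mem_Ico] at hm
          have hmr : (1 : ℝ) ≤ m := by exact_mod_cast hm.1
          calc (1 / ((m : ℝ) + 1)) * g m
              = ∑ r ∈ range d, (1 / (d * ((m : ℝ) + 1))) * g m := by
                rw [sum_const, card_range, nsmul_eq_mul]
                field_simp
            _ ≤ _ := by
                refine sum_le_sum fun r hr => ?_
                rw [hdiv m r hr]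
                refine mul_le_mul_of_nonneg_right ?_ (h0 m)
                rw [mem_range] at hr
                have hrr : (r : ℝ) ≤ d := by exact_mod_cast hr.le
                apply one_div_le_one_div_of_le
                · push_cast; positivity
                · push_cast; nlinarith
      _ = ∑ n ∈ Ico d (d * (k + 1)), (1 / (n : ℝ)) * g (n / d) := h2.symm
      _ ≤ _ := by
          apply sum_le_sum_of_subset_of_nonneg
          · intro n hn
            rw [mem_Ico] at hn
            rw [mem_Icc]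
            have := Nat.div_mul_le_self N d
            rw [hk] at this
            constructor
            · omega
            · linarith [mul_comm d (k + 1)]
          · intro n _ _; exact hh0 n
  -- from `1 / (m + 1)` to `1 / m`
  have h3 : ∑ m ∈ Ico 1 (k + 1), (1 / (m : ℝ)) * g m ≤
      ∑ m ∈ Ico 1 (k + 1), (1 / ((m : ℝ) + 1)) * g m + M := by
    have h4 : ∀ m ∈ Ico 1 (k + 1), (1 / (m : ℝ)) * g m ≤
        (1 / ((m : ℝ) + 1)) * g m + (1 / (m : ℝ) - 1 / ((m : ℝ) + 1)) * M := by
      intro m hm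
      rw [mem_Ico] at hm
      have hmr : (1 : ℝ) ≤ m := by exact_mod_cast hm.1
      have h5 : 0 ≤ 1 / (m : ℝ) - 1 / ((m : ℝ) + 1) := by
        rw [sub_nonneg]
        apply one_div_le_one_div_of_le <;> linarith
      have := mul_le_mul_of_nonneg_left (hM m) h5
      linarith
    have h6 : ∑ m ∈ Ico 1 (k + 1), (1 / (m : ℝ) - 1 / ((m : ℝ) + 1)) ≤ 1 := by
      have : ∀ K : ℕ, ∑ m ∈ Ico 1 (K + 1), (1 / (m : ℝ) - 1 / ((m : ℝ) + 1)) =
          1 - 1 / ((K : ℝ) + 1) := by
        intro K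
        induction K with
        | zero => simp
        | succ K ih =>
          rw [sum_Ico_succ_top (by omega), ih]
          push_cast
          ring
      rw [this]
      have : (0 : ℝ) ≤ 1 / ((k : ℝ) + 1) := by positivity
      linarith
    calc _ ≤ ∑ m ∈ Ico 1 (k + 1), ((1 / ((m : ℝ) + 1)) * g m +
          (1 / (m : ℝ) - 1 / ((m : ℝ) + 1)) * M) := sum_le_sum h4
      _ = ∑ m ∈ Ico 1 (k + 1), (1 / ((m : ℝ) + 1)) * g m +
          (∑ m ∈ Ico 1 (k + 1), (1 / (m : ℝ) - 1 / ((m : ℝ) + 1))) * M := by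
          rw [sum_add_distrib, sum_mul]
      _ ≤ _ := by nlinarith
  -- the remaining range
  have h7 : ∑ m ∈ Icc 1 N, (1 / (m : ℝ)) * g m ≤
      ∑ m ∈ Ico 1 (k + 1), (1 / (m : ℝ)) * g m + (Real.log d + 2) * M := by
    have hkN : k + 1 ≤ N + 1 := by
      have := Nat.div_le_self N d
      omega
    have e1 : ∀ h : ℕ → ℝ, ∑ m ∈ Icc 1 N, h m = ∑ m ∈ Ico 1 (k + 1), h m +
        ∑ m ∈ Ico (k + 1) (N + 1), h m := by
      intro h
      rw [sum_Ico_consecutive h (by omega) hkN]
      rfl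
    rw [e1]
    have h8 : ∑ m ∈ Ico (k + 1) (N + 1), (1 / (m : ℝ)) ≤ Real.log d + 2 := by
      have h9 := e1 (fun m => 1 / (m : ℝ))
      have h10 := sum_inv_le_log N
      have h11 := sum_inv_ge_log (k + 1) (by omega)
      have h12 : Real.log N ≤ Real.log ((2 * d : ℕ) : ℝ) + Real.log ((k + 1 : ℕ) : ℝ) := by
        rw [← Real.log_mul (by positivity) (by positivity)]
        have hNpos : 0 < N := by omega
        apply Real.log_le_log (by exact_mod_cast hNpos)
        have : N < d * (N / d + 1) := by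
          have := Nat.lt_div_mul_add hd (a := N)
          linarith [mul_comm d (N / d)]
        rw [hk] at this
        have h13 : N ≤ 2 * d * (k + 1) := by nlinarith
        exact_mod_cast h13
      have h14 : Real.log ((2 * d : ℕ) : ℝ) ≤ 1 + Real.log d := by
        push_cast
        rw [Real.log_mul (by norm_num) hdr.ne']
        linarith [Real.log_two_lt_d9]
      linarith
    have h15 : ∑ m ∈ Ico (k + 1) (N + 1), (1 / (m : ℝ)) * g m ≤ (Real.log d + 2) * M := by
      calc _ ≤ ∑ m ∈ Ico (k + 1) (N + 1), (1 / (m : ℝ)) * M :=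
            sum_le_sum fun m _ => mul_le_mul_of_nonneg_left (hM m) (by positivity)
        _ = (∑ m ∈ Ico (k + 1) (N + 1), (1 / (m : ℝ))) * M := by rw [sum_mul]
        _ ≤ _ := mul_le_mul_of_nonneg_right h8 hM0
    linarith
  linarith

end Pool.Agent.Lib.MP_663568_nt.H6
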