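import Mathlib
import Pool.Agent.Lib.MP_663568_h6.BadQ

/-!
# Primes for which the dilate of a separated number is not separated or falls in a small set
-/

set_option autoImplicit false
open Finset MeasureTheory

namespace Pool.Agent.Lib.MP_663568_nt.H6

open Katai Nul EqA

lemma Sq.add_int {Q δ x : ℝ} (h : Sq Q δ x) (z : ℤ) : Sq Q δ (x + z) := by
  intro q h1 h2
  have e : (q : ℝ) * (x + z) = q * x + ((q * z : ℤ) : ℝ) := by push_cast; ring
  rw [e, nd_add_int]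
  exact h q h1 h2

lemma Sq.neg {Q δ x : ℝ} (h : Sq Q δ x) : Sq Q δ (-x) := by
  intro q h1 h2
  rw [mul_neg, nd_neg]
  exact h q h1 h2

/-- **Persistence of the separation.** -/
lemma persistq (t : ℕ) (ht : 1 ≤ t) : ∃ B : ℕ, 1 ≤ B ∧ ∀ Λ : ℝ, 1 ≤ Λ → ∀ γ : ℝ, 0 < γ → γ ≤ 1 →
    ∀ δ : ℝ, 0 < δ → B * Λ * δ ≤ γ → ∀ x : ℝ, Sq (B * (Λ / γ) ^ B) δ x → ∀ a b : ℕ, 7 ≤ a →
    (B : ℝ) * (Λ / (γ * δ)) ^ B ≤ (4 : ℝ) ^ a → a ≤ b →
    ∀ f : ℕ → ℝ, (∀ p : ℕ, f p ≤ 1) → (∀ p : ℕ, Sq Λ δ ((p : ℝ) ^ t * x) → f p ≤ 0) →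
      ∑ p ∈ blk a b, (1 / (p : ℝ)) * f p ≤ γ * WW (blk a b) := by
  classical
  obtain ⟨C₀, hC₀, A₀, hA₀, hbad⟩ := badq t ht
  obtain ⟨C, hC⟩ : ∃ C : ℕ, C = ⌈C₀⌉₊ + 1 := ⟨_, rfl⟩
  have hC₀C : C₀ ≤ C := by
    rw [hC]; push_cast
    linarith [Nat.le_ceil C₀]
  have hC1 : (1 : ℝ) ≤ C := by rw [hC]; push_cast; linarith [Nat.cast_nonneg (α := ℝ) ⌈C₀⌉₊]
  obtain ⟨B, hB⟩ : ∃ B : ℕ, B = A₀ * C ^ A₀ + A₀ + 1 + C := ⟨_, rfl⟩
  refine ⟨B, by omega, fun Λ hΛ γ hγ hγ1 δ hδ hδγ x hx a b ha haB hab f hf1 hf0 => ?_⟩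
  have hΛ0 : 0 < Λ := by linarith
  obtain ⟨u, hu⟩ : ∃ u : ℝ, u = γ / (C * Λ) := ⟨_, rfl⟩
  have hu0 : 0 < u := by rw [hu]; positivity
  have hCΛ : 1 ≤ (C : ℝ) * Λ := by nlinarith
  have hu1 : u ≤ 1 := by
    rw [hu, div_le_one (by positivity)]
    linarith
  have hBr : (C : ℝ) ≤ B := by
    have : C ≤ B := by omega
    exact_mod_cast this
  have hδu : δ ≤ u := by
    rw [hu, le_div_iff₀ (by positivity)]
    calc δ * (C * Λ) = C * Λ * δ := by ring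
      _ ≤ B * Λ * δ := by gcongr
      _ ≤ γ := hδγ
  have hδ1 : δ ≤ 1 := hδu.trans hu1
  have hiu : 1 / u = C * (Λ / γ) := by rw [hu]; field_simp
  have hΛγ : 1 ≤ Λ / γ := by rw [le_div_iff₀ hγ]; linarith
  have hpB : ∀ (c e : ℕ) (x z : ℝ), 1 ≤ z → c ≤ B → e ≤ B → x ≤ c * z ^ e → x ≤ B * z ^ B := by
    intro c e x z hz hc he hx
    refine hx.trans ?_
    have h1 : (c : ℝ) ≤ B := by exact_mod_cast hc
    gcongr
  have hlev : (A₀ : ℝ) * (1 / u) ^ A₀ * Λ ≤ B * (Λ / γ) ^ B := by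
    refine hpB (A₀ * C ^ A₀) (A₀ + 1) _ _ hΛγ (by omega) (by omega) ?_
    have h1 : Λ ≤ Λ / γ := by rw [le_div_iff₀ hγ]; nlinarith
    calc (A₀ : ℝ) * (1 / u) ^ A₀ * Λ ≤ A₀ * (C * (Λ / γ)) ^ A₀ * (Λ / γ) := by
          rw [hiu]; gcongr
      _ = _ := by push_cast; rw [mul_pow]; ring
  have hsz : (A₀ : ℝ) * (1 / (u * δ)) ^ A₀ ≤ (4 : ℝ) ^ a := by
    refine le_trans ?_ haB
    have hΛγδ : 1 ≤ Λ / (γ * δ) := by
      rw [le_div_iff₀ (by positivity)]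
      nlinarith [mul_le_mul hγ1 hδ1 hδ.le zero_le_one]
    refine hpB (A₀ * C ^ A₀) A₀ _ _ hΛγδ (by omega) (by omega) ?_
    have e : 1 / (u * δ) = C * (Λ / (γ * δ)) := by rw [hu]; field_simp
    rw [e, mul_pow]
    push_cast
    exact le_of_eq (by ring)
  -- sum over `q ≤ Λ`
  have hpt : ∀ p ∈ blk a b, (1 / (p : ℝ)) * f p ≤ ∑ q ∈ Icc 1 ⌊Λ⌋₊,
      (if nd ((p : ℝ) ^ t * ((q : ℝ) * x) - 0) ≤ u then (1 / (p : ℝ)) else 0) := by
    intro p _
    have hp0 : (0 : ℝ) ≤ 1 / p := by positivity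
    by_cases hs : Sq Λ δ ((p : ℝ) ^ t * x)
    · refine le_trans (mul_nonpos_of_nonneg_of_nonpos hp0 (hf0 p hs)) ?_
      apply sum_nonneg; intro q _; split_ifs <;> positivity
    · rw [Sq] at hs
      push Not at hs
      obtain ⟨q, hq1, hq2, hq3⟩ := hs
      have hq : q ∈ Icc 1 ⌊Λ⌋₊ := by
        rw [mem_Icc]; exact ⟨hq1, Nat.le_floor hq2⟩
      have h1 : nd ((p : ℝ) ^ t * ((q : ℝ) * x) - 0) ≤ u := by
        have e : (p : ℝ) ^ t * ((q : ℝ) * x) - 0 = (q : ℝ) * ((p : ℝ) ^ t * x) := by ring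
        rw [e]; linarith
      refine le_trans ?_ (single_le_sum (f := fun q : ℕ =>
        if nd ((p : ℝ) ^ t * ((q : ℝ) * x) - 0) ≤ u then (1 / (p : ℝ)) else 0)
        (fun q _ => by split_ifs <;> positivity) hq)
      rw [if_pos h1]
      exact mul_le_of_le_one_right hp0 (hf1 p)
  refine (sum_le_sum hpt).trans ?_
  rw [sum_comm]
  have hq : ∀ q ∈ Icc 1 ⌊Λ⌋₊, ∑ p ∈ blk a b,
      (if nd ((p : ℝ) ^ t * ((q : ℝ) * x) - 0) ≤ u then (1 / (p : ℝ)) else 0) ≤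
        C₀ * u * WW (blk a b) := by
    intro q hq
    rw [mem_Icc] at hq
    have hqΛ : (q : ℝ) ≤ Λ := (Nat.le_floor_iff hΛ0.le).mp hq.2
    rw [← sum_filter]
    refine hbad u hu0 hu1 δ hδ hδ1 ((q : ℝ) * x) (hx.mul q hq.1 ?_) a b ha hsz hab 0
    refine le_trans ?_ hlev
    gcongr
  have hWn := WW_nonneg (blk a b)
  calc _ ≤ ∑ q ∈ Icc 1 ⌊Λ⌋₊, C₀ * u * WW (blk a b) := sum_le_sum hq
    _ = (⌊Λ⌋₊ : ℝ) * (C₀ * u * WW (blk a b)) := by
        rw [sum_const, Nat.card_Icc, Nat.add_sub_cancel, nsmul_eq_mul]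
    _ ≤ Λ * (C * u * WW (blk a b)) := by
        have := Nat.floor_le hΛ0.le
        gcongr
    _ = γ * WW (blk a b) := by rw [hu]; field_simp

/-- an arc of length `u` in the unit interval -/
lemma vol_arc (x u : ℝ) (hu : 0 < u) (hu2 : u ≤ 1 / 2) :
    ENNReal.ofReal u ≤ volume {y : ℝ | y ∈ Set.Icc (0 : ℝ) 1 ∧ nd (x - y) ≤ u} := by
  have hf := Int.fract_nonneg x
  have hf1 := (Int.fract_lt_one x).le
  have hx : x = Int.fract x + (⌊x⌋ : ℤ) := by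
    rw [Int.fract]; ring
  have hnd : ∀ y : ℝ, nd (x - y) ≤ |Int.fract x - y| := by
    intro y
    have h1 := nd_le (x - y) ⌊x⌋
    have e : x - y - (⌊x⌋ : ℤ) = Int.fract x - y := by rw [Int.fract]; ring
    rw [e] at h1
    exact h1
  rcases le_or_gt (Int.fract x) (1 / 2) with h | h
  · have hsub : Set.Icc (Int.fract x) (Int.fract x + u) ⊆
        {y : ℝ | y ∈ Set.Icc (0 : ℝ) 1 ∧ nd (x - y) ≤ u} := by
      intro y hy
      refine ⟨⟨by linarith [hy.1], by linarith [hy.2]⟩, (hnd y).trans ?_⟩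
      rw [abs_le]
      constructor <;> linarith [hy.1, hy.2]
    refine le_trans (le_of_eq ?_) (measure_mono hsub)
    rw [Real.volume_Icc]; congr 1; ring
  · have hsub : Set.Icc (Int.fract x - u) (Int.fract x) ⊆
        {y : ℝ | y ∈ Set.Icc (0 : ℝ) 1 ∧ nd (x - y) ≤ u} := by
      intro y hy
      refine ⟨⟨by linarith [hy.1], by linarith [hy.2]⟩, (hnd y).trans ?_⟩
      rw [abs_le]
      constructor <;> linarith [hy.1, hy.2]
    refine le_trans (le_of_eq ?_) (measure_mono hsub)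
    rw [Real.volume_Icc]; congr 1; ring

/-- a finite set of points, all arcs around which are in a set of small measure -/
lemma card_le_of_arcs {α : Type} (S : Finset α) (x : α → ℝ) (u : ℝ) (hu : 0 < u) (hu2 : u ≤ 1 / 2)
    (M : ℝ) (hM0 : 0 ≤ M)
    (hM : ∀ y : ℝ, (((S.filter fun p => nd (x p - y) ≤ u).card : ℕ) : ℝ) ≤ M * u) (v : ℝ)
    (hv0 : 0 ≤ v) (E : Set ℝ) (hE : ∀ p ∈ S, x p ∈ E)
    (hv : volume {y : ℝ | y ∈ Set.Icc (0 : ℝ) 1 ∧ ∃ x ∈ E, nd (x - y) ≤ u} ≤ ENNReal.ofReal v) :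
    (S.card : ℝ) ≤ M * v := by
  classical
  set V : Set ℝ := {y : ℝ | y ∈ Set.Icc (0 : ℝ) 1 ∧ ∃ x ∈ E, nd (x - y) ≤ u} with hV
  set V' : Set ℝ := toMeasurable volume V with hV'
  have hVm : MeasurableSet V' := measurableSet_toMeasurable _ _
  have hVV : V ⊆ V' := subset_toMeasurable _ _
  have hV'v : volume V' ≤ ENNReal.ofReal v := by rw [hV', measure_toMeasurable]; exact hv
  set I : α → Set ℝ := fun p => {y : ℝ | y ∈ Set.Icc (0 : ℝ) 1 ∧ nd (x p - y) ≤ u} with hI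
  have hIm : ∀ p, MeasurableSet (I p) := by
    intro p
    have h1 : IsClosed {y : ℝ | nd (x p - y) ≤ u} :=
      isClosed_le (continuous_nd.comp (continuous_const.sub continuous_id)) continuous_const
    exact (isClosed_Icc.inter h1).measurableSet
  have h1 : ∑ p ∈ S, ∫⁻ y in V', (I p).indicator (fun _ => (1 : ENNReal)) y ≤
      ∫⁻ y in V', ENNReal.ofReal (M * u) := by
    rw [← lintegral_finsetSum _ (fun p _ => measurable_const.indicator (hIm p))]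
    apply lintegral_mono
    intro y
    have h2 : ∑ p ∈ S, (I p).indicator (fun _ => (1 : ENNReal)) y ≤
        ((S.filter fun p => nd (x p - y) ≤ u).card : ENNReal) := by
      rw [card_filter, Nat.cast_sum]
      apply sum_le_sum
      intro p _
      by_cases hy : y ∈ I p
      · rw [Set.indicator_of_mem hy, if_pos hy.2]; simp
      · rw [Set.indicator_of_notMem hy]; exact bot_le
    refine h2.trans ?_
    rw [← ENNReal.ofReal_natCast]
    exact ENNReal.ofReal_le_ofReal (hM y)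
  have h2 : ∀ p ∈ S, ENNReal.ofReal u ≤
      ∫⁻ y in V', (I p).indicator (fun _ => (1 : ENNReal)) y := by
    intro p hp
    rw [lintegral_indicator_const (hIm p), one_mul, Measure.restrict_apply (hIm p)]
    have : I p ∩ V' = I p := by
      apply Set.inter_eq_left.mpr
      intro y hy
      exact hVV ⟨hy.1, x p, hE p hp, hy.2⟩
    rw [this]
    exact vol_arc (x p) u hu hu2
  have h3 : (S.card : ENNReal) * ENNReal.ofReal u ≤ ENNReal.ofReal (M * u) * ENNReal.ofReal v := by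
    calc (S.card : ENNReal) * ENNReal.ofReal u = ∑ p ∈ S, ENNReal.ofReal u := by
          rw [sum_const, nsmul_eq_mul]
      _ ≤ ∑ p ∈ S, ∫⁻ y in V', (I p).indicator (fun _ => (1 : ENNReal)) y := sum_le_sum h2
      _ ≤ ∫⁻ y in V', ENNReal.ofReal (M * u) := h1
      _ = ENNReal.ofReal (M * u) * volume V' := by
          rw [lintegral_const, Measure.restrict_apply_univ]
      _ ≤ _ := by gcongr
  rw [← ENNReal.ofReal_natCast, ← ENNReal.ofReal_mul (by positivity),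
    ← ENNReal.ofReal_mul (by positivity)] at h3
  have h4 : (S.card : ℝ) * u ≤ M * u * v := by
    rwa [ENNReal.ofReal_le_ofReal_iff (by positivity)] at h3
  have h5 : u * (S.card : ℝ) ≤ u * (M * v) := by nlinarith
  exact le_of_mul_le_mul_left h5 hu

/-- Primes in `(Y, 4Y]` for which `p ^ t β` falls in a set whose `u`-neighbourhood is small. -/
lemma frost_set (t : ℕ) (ht : 1 ≤ t) : ∃ C : ℝ, 0 < C ∧ ∃ A : ℕ, 1 ≤ A ∧
    ∀ u : ℝ, 0 < u → u ≤ 1 / 2 → ∀ δ : ℝ, 0 < δ → δ ≤ 1 → ∀ β : ℝ, Sq (A * (1 / u) ^ A) δ β →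
    ∀ Y : ℕ, (A : ℝ) * (1 / (u * δ)) ^ A ≤ Y → ∀ (E : Set ℝ) (v : ℝ), 0 ≤ v →
      volume {y : ℝ | y ∈ Set.Icc (0 : ℝ) 1 ∧ ∃ x ∈ E, nd (x - y) ≤ u} ≤ ENNReal.ofReal v →
      ∀ S : Finset ℕ, S ⊆ (Ioc Y (4 * Y)).filter Nat.Prime → (∀ p ∈ S, (p : ℝ) ^ t * β ∈ E) →
      (S.card : ℝ) ≤ C * v * (Y / Real.log Y) := by
  classical
  obtain ⟨C, hC, A, hA1, hfr⟩ := frostq t ht
  refine ⟨C, hC, A, hA1, fun u hu hu2 δ hδ hδ1 β hβ Y hY E v hv0 hv S hS hE => ?_⟩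
  have hiu : 1 ≤ 1 / (u * δ) := by
    rw [le_div_iff₀ (by positivity)]; nlinarith
  have hY1 : (1 : ℝ) ≤ Y := by
    refine le_trans ?_ hY
    have h1 : (1 : ℝ) ≤ A := by exact_mod_cast hA1
    have h2 : (1 : ℝ) ≤ (1 / (u * δ)) ^ A := one_le_pow₀ hiu
    nlinarith
  have hlog : 0 ≤ Real.log Y := Real.log_nonneg hY1
  have h1 := card_le_of_arcs S (fun p : ℕ => (p : ℝ) ^ t * β) u hu hu2 (C * (Y / Real.log Y))
    (by positivity) (fun y => by
      have h2 := hfr u hu (by linarith) δ hδ hδ1 β hβ Y hY y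
      have h3 : ((S.filter fun p : ℕ => nd ((p : ℝ) ^ t * β - y) ≤ u).card : ℝ) ≤
          (((Ioc Y (4 * Y)).filter fun p : ℕ =>
            p.Prime ∧ nd ((p : ℝ) ^ t * β - y) ≤ u).card : ℝ) := by
        have : (S.filter fun p : ℕ => nd ((p : ℝ) ^ t * β - y) ≤ u) ⊆
            (Ioc Y (4 * Y)).filter fun p : ℕ => p.Prime ∧ nd ((p : ℝ) ^ t * β - y) ≤ u := by
          intro p hp
          rw [mem_filter] at hp ⊢
          have := hS hp.1
          rw [mem_filter] at this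
          exact ⟨this.1, this.2, hp.2⟩
        exact_mod_cast card_le_card this
      refine h3.trans (h2.trans (le_of_eq ?_))
      ring) v hv0 E hE hv
  exact h1.trans (le_of_eq (by ring))

end Pool.Agent.Lib.MP_663568_nt.H6
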