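import Mathlib
import Pool.Agent.Lib.MP_663568_h6.PersistQ

/-!
# Primes for which the dilate falls in a small set depending on the size of the prime
-/

set_option autoImplicit false
open Finset MeasureTheory

namespace Pool.Agent.Lib.MP_663568_nt.H6

open Katai Nul EqA

lemma log_four_div (n Y p : ℕ) (hY : 0 < Y) (h1 : Y < p) (h2 : p ≤ 4 * Y) :
    Nat.log 4 (n / p) = Nat.log 4 (n / (4 * Y)) ∨ Nat.log 4 (n / p) = Nat.log 4 (n / (4 * Y)) + 1 := by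
  have hlow : n / (4 * Y) ≤ n / p := Nat.div_le_div_left h2 (by omega)
  have hup : n / p ≤ 4 * (n / (4 * Y)) + 3 := by
    have k1 : n / p ≤ n / Y := Nat.div_le_div_left h1.le hY
    have k2 : n / Y / 4 = n / (4 * Y) := by rw [Nat.div_div_eq_div_mul, mul_comm]
    omega
  have hmono := Nat.log_mono_right (b := 4) hlow
  have hle : Nat.log 4 (n / p) ≤ Nat.log 4 (n / (4 * Y)) + 1 := by
    have h3 : n / p < 4 ^ (Nat.log 4 (n / (4 * Y)) + 1 + 1) := by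
      have h4 := Nat.lt_pow_succ_log_self (b := 4) (by norm_num) (n / (4 * Y))
      rw [pow_succ]
      rw [Nat.succ_eq_add_one] at h4
      omega
    have := Nat.log_lt_of_lt_pow' (b := 4) (by omega) h3
    omega
  omega

/-- Primes for which the dilate falls in a small set, which may depend on the size of `n / p`. -/
lemma near_blocks (t : ℕ) (ht : 1 ≤ t) : ∃ B : ℕ, 1 ≤ B ∧ ∀ u : ℝ, 0 < u → u ≤ 1 / 2 →
    ∀ δ : ℝ, 0 < δ → δ ≤ 1 → ∀ β : ℝ, Sq (B * (1 / u) ^ B) δ β → ∀ a b : ℕ, 7 ≤ a →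
    (B : ℝ) * (1 / (u * δ)) ^ B ≤ (4 : ℝ) ^ a → a ≤ b → ∀ (E : ℕ → Set ℝ) (v : ℝ), 0 ≤ v →
      (∀ j, volume {y : ℝ | y ∈ Set.Icc (0 : ℝ) 1 ∧ ∃ x ∈ E j, nd (x - y) ≤ u} ≤
        ENNReal.ofReal v) →
      ∀ (n : ℕ) (f : ℕ → ℝ), (∀ p : ℕ, f p ≤ 1) →
        (∀ p : ℕ, (p : ℝ) ^ t * β ∉ E (Nat.log 4 (n / p)) → f p ≤ 0) →
        ∑ p ∈ blk a b, (1 / (p : ℝ)) * f p ≤ B * v * WW (blk a b) := by
  classical
  obtain ⟨C, hC, A, hA, hfr⟩ := frost_set t ht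
  obtain ⟨B, hB⟩ : ∃ B : ℕ, B = A + ⌈32 * C⌉₊ := ⟨_, rfl⟩
  have hBA : (A : ℝ) ≤ B := by
    have : A ≤ B := by omega
    exact_mod_cast this
  have hBC : 32 * C ≤ B := by
    have h1 := Nat.le_ceil (32 * C)
    have h2 : ((⌈32 * C⌉₊ : ℕ) : ℝ) ≤ B := by
      have : ⌈32 * C⌉₊ ≤ B := by omega
      exact_mod_cast this
    linarith
  refine ⟨B, by omega, fun u hu hu2 δ hδ hδ1 β hβ a b ha haB hab E v hv0 hv n f hf1 hf0 => ?_⟩
  have hiu : 1 ≤ 1 / u := by rw [le_div_iff₀ hu]; linarith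
  have hiuδ : 1 ≤ 1 / (u * δ) := by
    rw [le_div_iff₀ (by positivity)]; nlinarith
  have hβ' : Sq (A * (1 / u) ^ A) δ β := by
    refine hβ.mono ?_ le_rfl
    gcongr
    omega
  have haA : (A : ℝ) * (1 / (u * δ)) ^ A ≤ (4 : ℝ) ^ a := by
    refine le_trans ?_ haB
    gcongr
    omega
  have hW : WW (blk a b) = ∑ j ∈ Ico a b, WW (blk j (j + 1)) := sum_blk (fun p => 1 / (p : ℝ)) hab
  rw [sum_blk (fun p => (1 / (p : ℝ)) * f p) hab, hW, mul_sum]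
  apply sum_le_sum
  intro j hj
  rw [mem_Ico] at hj
  have hcheb := cheb j (by omega)
  have hj0 : (7 : ℝ) ≤ j := by
    have : 7 ≤ j := by omega
    exact_mod_cast this
  set l := Nat.log 4 (n / (4 * 4 ^ j)) with hl
  have hY : (A : ℝ) * (1 / (u * δ)) ^ A ≤ ((4 ^ j : ℕ) : ℝ) := by
    refine haA.trans ?_
    push_cast
    exact pow_le_pow_right₀ (by norm_num) hj.1
  have hl4 : 1 ≤ Real.log 4 := by
    rw [show (4 : ℝ) = 2 ^ 2 by norm_num, Real.log_pow]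
    have := Real.log_two_gt_d9
    norm_num; linarith
  have hlog : Real.log ((4 ^ j : ℕ) : ℝ) = j * Real.log 4 := by
    push_cast; rw [Real.log_pow]
  have hcard : ∀ l' : ℕ, (((blk j (j + 1)).filter fun p : ℕ => (p : ℝ) ^ t * β ∈ E l').card : ℝ)
      ≤ C * v * (4 ^ j / j) := by
    intro l'
    have h1 := hfr u hu hu2 δ hδ hδ1 β hβ' (4 ^ j) hY (E l') v hv0 (hv l')
      ((blk j (j + 1)).filter fun p : ℕ => (p : ℝ) ^ t * β ∈ E l') (by
        intro p hp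
        rw [mem_filter, mem_blk] at hp
        rw [mem_filter, mem_Ioc]
        refine ⟨⟨hp.1.1.1, ?_⟩, hp.1.2⟩
        have := hp.1.1.2
        rw [pow_succ] at this
        omega) (fun p hp => (mem_filter.mp hp).2)
    rw [hlog] at h1
    refine h1.trans ?_
    push_cast
    have h2 : (4 : ℝ) ^ j / (j * Real.log 4) ≤ 4 ^ j / j := by
      apply div_le_div_of_nonneg_left (by positivity) (by linarith)
      nlinarith
    have : 0 ≤ C * v := by positivity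
    exact mul_le_mul_of_nonneg_left h2 this
  have hpt : ∀ p ∈ blk j (j + 1), (1 / (p : ℝ)) * f p ≤
      (1 / 4 ^ j) * (if (p : ℝ) ^ t * β ∈ E l then 1 else 0) +
      (1 / 4 ^ j) * (if (p : ℝ) ^ t * β ∈ E (l + 1) then 1 else 0) := by
    intro p hp
    rw [mem_blk] at hp
    have hp0 : (0 : ℝ) ≤ 1 / p := by positivity
    have hp1 : (1 : ℝ) / p ≤ 1 / 4 ^ j := by
      apply one_div_le_one_div_of_le (by positivity)
      exact_mod_cast hp.1.1.le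
    have h4 : (0 : ℝ) ≤ 1 / 4 ^ j := by positivity
    have hlg := log_four_div n (4 ^ j) p (by positivity) hp.1.1 (by
      have := hp.1.2
      rw [pow_succ] at this
      omega)
    rw [← hl] at hlg
    by_cases hE : (p : ℝ) ^ t * β ∈ E (Nat.log 4 (n / p))
    · have h5 : (1 / (p : ℝ)) * f p ≤ 1 / 4 ^ j := by
        refine le_trans (mul_le_of_le_one_right hp0 (hf1 p)) hp1
      rcases hlg with h | h
      · rw [h] at hE
        rw [if_pos hE, mul_one]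
        have : 0 ≤ (1 / 4 ^ j : ℝ) * (if (p : ℝ) ^ t * β ∈ E (l + 1) then 1 else 0) := by
          split_ifs <;> simp
        linarith
      · rw [h] at hE
        rw [if_pos hE, mul_one]
        have : 0 ≤ (1 / 4 ^ j : ℝ) * (if (p : ℝ) ^ t * β ∈ E l then 1 else 0) := by
          split_ifs <;> simp
        linarith
    · have h5 := mul_nonpos_of_nonneg_of_nonpos hp0 (hf0 p hE)
      have h6 : 0 ≤ (1 / 4 ^ j : ℝ) * (if (p : ℝ) ^ t * β ∈ E l then 1 else 0) := by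
        split_ifs <;> simp
      have h7 : 0 ≤ (1 / 4 ^ j : ℝ) * (if (p : ℝ) ^ t * β ∈ E (l + 1) then 1 else 0) := by
        split_ifs <;> simp
      linarith
  have hone : ∀ l' : ℕ, ∑ p ∈ blk j (j + 1), (1 / 4 ^ j : ℝ) *
      (if (p : ℝ) ^ t * β ∈ E l' then 1 else 0) ≤ C * v / j := by
    intro l'
    rw [← mul_sum, ← sum_filter, sum_const, nsmul_eq_mul, mul_one]
    calc (1 / 4 ^ j : ℝ) * (((blk j (j + 1)).filter fun p : ℕ =>
          (p : ℝ) ^ t * β ∈ E l').card : ℝ) ≤ (1 / 4 ^ j) * (C * v * (4 ^ j / j)) := by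
          gcongr
          exact hcard l'
      _ = C * v / j := by field_simp
  calc _ ≤ _ := sum_le_sum hpt
    _ = ∑ p ∈ blk j (j + 1), (1 / 4 ^ j : ℝ) * (if (p : ℝ) ^ t * β ∈ E l then 1 else 0) +
        ∑ p ∈ blk j (j + 1), (1 / 4 ^ j : ℝ) * (if (p : ℝ) ^ t * β ∈ E (l + 1) then 1 else 0) :=
        sum_add_distrib
    _ ≤ C * v / j + C * v / j := add_le_add (hone l) (hone (l + 1))
    _ ≤ 32 * C * v * (1 / (8 * ((j : ℝ) + 1))) := by
        have h0 : 0 ≤ C * v := by positivity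
        have h1 : C * v / j + C * v / j = C * v * (2 / j) := by ring
        have h2 : 32 * C * v * (1 / (8 * ((j : ℝ) + 1))) = C * v * (4 / ((j : ℝ) + 1)) := by
          field_simp; ring
        rw [h1, h2]
        apply mul_le_mul_of_nonneg_left _ h0
        rw [div_le_div_iff₀ (by linarith) (by linarith)]
        linarith
    _ ≤ B * v * WW (blk j (j + 1)) := by
        have h3 : 0 ≤ 1 / (8 * ((j : ℝ) + 1)) := by positivity
        gcongr

/-- translates of a periodic set -/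
lemma vol_translate (T : Set ℝ) (hT : ∀ x, x ∈ T ↔ x + 1 ∈ T) (c : ℝ) (hc0 : 0 ≤ c) (hc1 : c < 1) :
    volume {y : ℝ | y ∈ Set.Icc (0 : ℝ) 1 ∧ y + c ∈ T} ≤ volume (Set.Icc (0 : ℝ) 1 ∩ T) := by
  have h1 : volume {y : ℝ | y ∈ Set.Icc (0 : ℝ) 1 ∧ y + c ∈ T} =
      volume (Set.Icc c (1 + c) ∩ T) := by
    have e : {y : ℝ | y ∈ Set.Icc (0 : ℝ) 1 ∧ y + c ∈ T} =
        (fun y => y + c) ⁻¹' (Set.Icc c (1 + c) ∩ T) := by
      ext y
      constructor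
      · rintro ⟨⟨h1, h2⟩, h3⟩
        exact ⟨⟨by simpa using h1, by simpa using h2⟩, h3⟩
      · rintro ⟨⟨h1, h2⟩, h3⟩
        exact ⟨⟨by simpa using h1, by simpa using h2⟩, h3⟩
    rw [e, measure_preimage_add_right]
  have h2 : volume (Set.Icc (1 : ℝ) (1 + c) ∩ T) = volume (Set.Icc 0 c ∩ T) := by
    have e : Set.Icc 0 c ∩ T = (fun y => y + 1) ⁻¹' (Set.Icc (1 : ℝ) (1 + c) ∩ T) := by
      ext y
      constructor
      · rintro ⟨⟨h1, h2⟩, h3⟩
        refine ⟨⟨?_, ?_⟩, (hT y).mp h3⟩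
        · show 1 ≤ y + 1
          linarith
        · show y + 1 ≤ 1 + c
          linarith
      · rintro ⟨⟨h1, h2⟩, h3⟩
        have h1' : 1 ≤ y + 1 := h1
        have h2' : y + 1 ≤ 1 + c := h2
        exact ⟨⟨by linarith, by linarith⟩, (hT y).mpr h3⟩
    rw [e, measure_preimage_add_right]
  have h3 := measure_inter_add_sdiff (μ := volume) (Set.Icc (0 : ℝ) 1 ∩ T)
    (measurableSet_Icc (a := (0 : ℝ)) (b := c))
  have h4 : Set.Icc 0 c ∩ T ⊆ Set.Icc (0 : ℝ) 1 ∩ T ∩ Set.Icc 0 c := by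
    rintro y ⟨⟨h1, h2⟩, h3⟩
    exact ⟨⟨⟨h1, by linarith⟩, h3⟩, h1, h2⟩
  have h5 : Set.Ioc c 1 ∩ T ⊆ (Set.Icc (0 : ℝ) 1 ∩ T) \ Set.Icc 0 c := by
    rintro y ⟨⟨h1, h2⟩, h3⟩
    refine ⟨⟨⟨by linarith, h2⟩, h3⟩, fun h => ?_⟩
    have := h.2
    linarith
  have h6 : Set.Icc c (1 + c) ∩ T ⊆ (Set.Icc (1 : ℝ) (1 + c) ∩ T) ∪ ((Set.Ioc c 1 ∩ T) ∪ {c}) := by
    rintro y ⟨⟨h1, h2⟩, h3⟩
    rcases eq_or_lt_of_le h1 with h | h
    · right; right; exact h.symm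
    · rcases le_or_gt y 1 with h' | h'
      · right; left; exact ⟨⟨h, h'⟩, h3⟩
      · left; exact ⟨⟨h'.le, h2⟩, h3⟩
  rw [h1]
  calc volume (Set.Icc c (1 + c) ∩ T) ≤
        volume (Set.Icc (1 : ℝ) (1 + c) ∩ T) + (volume (Set.Ioc c 1 ∩ T) + volume ({c} : Set ℝ)) := by
        refine (measure_mono h6).trans ((measure_union_le _ _).trans ?_)
        gcongr
        exact measure_union_le _ _
    _ = volume (Set.Icc 0 c ∩ T) + volume (Set.Ioc c 1 ∩ T) := by rw [h2]; simp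
    _ ≤ volume (Set.Icc (0 : ℝ) 1 ∩ T ∩ Set.Icc 0 c) +
        volume ((Set.Icc (0 : ℝ) 1 ∩ T) \ Set.Icc 0 c) :=
        add_le_add (measure_mono h4) (measure_mono h5)
    _ = _ := h3

/-- the set of the points which are not separated from a small set is small -/
lemma vol_near (𝒜 : Set ℝ) (Λ δ u v : ℝ) (hΛ : 0 ≤ Λ) (hv0 : 0 ≤ v) (hδu : δ ≤ u)
    (hv : volume {y : ℝ | y ∈ Set.Icc (0 : ℝ) 1 ∧ ∃ α ∈ 𝒜, nd (α - y) ≤ 2 * u} ≤
      ENNReal.ofReal v) :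
    volume {y : ℝ | y ∈ Set.Icc (0 : ℝ) 1 ∧ ∃ x ∈ {x : ℝ | ∃ α ∈ 𝒜, ¬ Sq Λ δ (α - x)},
      nd (x - y) ≤ u} ≤ ENNReal.ofReal (Λ ^ 2 * v) := by
  classical
  set T : Set ℝ := {y : ℝ | ∃ α ∈ 𝒜, nd (α - y) ≤ 2 * u} with hT
  have hper : ∀ x, x ∈ T ↔ x + 1 ∈ T := by
    intro x
    have e : ∀ α : ℝ, nd (α - (x + 1)) = nd (α - x) := by
      intro α
      have := nd_sub_int (α - x) 1
      push_cast at this
      rw [← this]; congr 1; ring
    simp only [hT, Set.mem_ofPred_eq, e]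
  have hsub : {y : ℝ | y ∈ Set.Icc (0 : ℝ) 1 ∧ ∃ x ∈ {x : ℝ | ∃ α ∈ 𝒜, ¬ Sq Λ δ (α - x)},
      nd (x - y) ≤ u} ⊆ ⋃ q ∈ Icc 1 ⌊Λ⌋₊, ⋃ m ∈ range q,
        {y : ℝ | y ∈ Set.Icc (0 : ℝ) 1 ∧ y + (m : ℝ) / q ∈ T} := by
    rintro y ⟨hy, x, ⟨α, hα, hns⟩, hxy⟩
    rw [Sq] at hns
    push Not at hns
    obtain ⟨q, hq1, hq2, hq3⟩ := hns
    obtain ⟨z, hz⟩ := nd_exists ((q : ℝ) * (α - x))
    rw [hz] at hq3
    have hq0 : (0 : ℤ) < q := by exact_mod_cast hq1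
    have hqr : (1 : ℝ) ≤ q := by exact_mod_cast hq1
    have hm0 := Int.emod_nonneg z hq0.ne'
    have hm1 := Int.emod_lt_of_pos z hq0
    have hdm := Int.emod_add_mul_ediv z q
    obtain ⟨m, hm⟩ := Int.eq_ofNat_of_zero_le hm0
    rw [hm] at hm1 hdm
    simp only [Set.mem_iUnion]
    refine ⟨q, by rw [mem_Icc]; exact ⟨hq1, Nat.le_floor hq2⟩, m, by
      rw [mem_range]; exact_mod_cast hm1, hy, α, hα, ?_⟩
    have hzr : (z : ℝ) = m + q * ((z / (q : ℤ) : ℤ) : ℝ) := by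
      have : ((m : ℤ) : ℝ) + ((q : ℤ) : ℝ) * ((z / (q : ℤ) : ℤ) : ℝ) = (z : ℝ) := by
        exact_mod_cast hdm
      push_cast at this
      linarith
    have e1 : α - (y + (m : ℝ) / q) = (α - x - z / q) + (x - y) + ((z / (q : ℤ) : ℤ) : ℝ) := by
      rw [hzr]; field_simp; ring
    rw [e1, nd_add_int]
    refine (nd_add_le _ _).trans ?_
    have h1 : nd (α - x - z / q) ≤ δ := by
      refine (nd_le_abs _).trans ?_
      have e2 : α - x - z / q = ((q : ℝ) * (α - x) - z) / q := by field_simp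
      rw [e2, abs_div, abs_of_pos (by linarith : (0 : ℝ) < q), div_le_iff₀ (by linarith)]
      have h0 : 0 ≤ |(q : ℝ) * (α - x) - z| := abs_nonneg _
      have hδ : 0 ≤ δ := h0.trans hq3.le
      nlinarith
    linarith
  have hfl : ((⌊Λ⌋₊ : ℕ) : ℝ) ≤ Λ := Nat.floor_le hΛ
  have hTv : volume (Set.Icc (0 : ℝ) 1 ∩ T) ≤ ENNReal.ofReal v := hv
  calc _ ≤ volume (⋃ q ∈ Icc 1 ⌊Λ⌋₊, ⋃ m ∈ range q,
        {y : ℝ | y ∈ Set.Icc (0 : ℝ) 1 ∧ y + (m : ℝ) / q ∈ T}) := measure_mono hsub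
    _ ≤ ∑ q ∈ Icc 1 ⌊Λ⌋₊, volume (⋃ m ∈ range q,
        {y : ℝ | y ∈ Set.Icc (0 : ℝ) 1 ∧ y + (m : ℝ) / q ∈ T}) := measure_biUnion_finset_le _ _
    _ ≤ ∑ q ∈ Icc 1 ⌊Λ⌋₊, ∑ m ∈ range q, ENNReal.ofReal v := by
        refine sum_le_sum fun q hq => ?_
        refine (measure_biUnion_finset_le _ _).trans (sum_le_sum fun m hm => ?_)
        rw [mem_range] at hm
        rw [mem_Icc] at hq
        have hq0 : (0 : ℝ) < q := by exact_mod_cast hq.1
        refine (vol_translate T hper ((m : ℝ) / q) (by positivity) ?_).trans hTv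
        rw [div_lt_one hq0]
        exact_mod_cast hm
    _ ≤ ∑ q ∈ Icc 1 ⌊Λ⌋₊, ENNReal.ofReal (Λ * v) := by
        refine sum_le_sum fun q hq => ?_
        rw [mem_Icc] at hq
        rw [sum_const, card_range, nsmul_eq_mul, ← ENNReal.ofReal_natCast,
          ← ENNReal.ofReal_mul (Nat.cast_nonneg _)]
        apply ENNReal.ofReal_le_ofReal
        have : (q : ℝ) ≤ Λ := le_trans (by exact_mod_cast hq.2) hfl
        gcongr
    _ ≤ _ := by
        rw [sum_const, Nat.card_Icc, Nat.add_sub_cancel, nsmul_eq_mul, ← ENNReal.ofReal_natCast,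
          ← ENNReal.ofReal_mul (Nat.cast_nonneg _)]
        apply ENNReal.ofReal_le_ofReal
        have h1 : 0 ≤ Λ * v := by positivity
        nlinarith

end Pool.Agent.Lib.MP_663568_nt.H6
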