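import Mathlib
import Pool.Agent.Lib.MP_663568_h6.StepQ
import Pool.Agent.Lib.MP_663568_h6.NearQ
import Pool.Agent.Lib.MP_663568_h6.LowT

/-!
# The increment for logarithmic averages
-/

set_option autoImplicit false
open Finset

namespace Pool.Agent.Lib.MP_663568_nt.H6

open Katai Nul

variable {ι : Type}

/-- logarithmic averages of the size of the largest system -/
noncomputable def Xs (F : ι → ℕ → ℂ) (ld : ι → ℝ) (a : ℕ → ℂ) (M : ℕ) (Λ Q δ ε : ℝ)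
    (N H : ℕ) : ℝ :=
  ∑ n ∈ Icc 1 N, (1 / (n : ℝ)) * (cnt1 F ld a M Λ Q δ ε n H : ℝ)

/-- logarithmic averages of the indicator function of a large correlation -/
noncomputable def Ys (F : ι → ℕ → ℂ) (a : ℕ → ℂ) (S : ℕ → Set ι) (ε : ℝ) (N H : ℕ) : ℝ :=
  ∑ n ∈ Icc 1 N, (1 / (n : ℝ)) * kb1 F a (S n) ε n H

open Classical in
theorem step_sum (F : ι → ℕ → ℂ) (ld : ι → ℝ) (t : ℕ) (a : ℕ → ℂ) (hF : ∀ i n, ‖F i n‖ ≤ 1)
    (ha : ∀ n, ‖a n‖ ≤ 1) (hmul : Mult a) (hdil : Dil1 F ld t)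
    (P : Finset ℕ) (hP : ∀ p ∈ P, p.Prime) (P₀ : ℕ) (hP₀ : ∀ p ∈ P, P₀ ≤ p)
    (M : ℕ) (Λ Λ' Q Q' δ η ε ε₁ : ℝ)
    (hη : 0 < η) (hηε : η ≤ ε) (hη8 : 8 / η ≤ P₀) (hε₁ : ε - η ≤ ε₁)
    (S : ℕ → Set ι) (hS : ∀ m, ∀ i ∈ S m, Sq Q' δ (ld i)) (γ₁ γ₂ : ℝ) (hγ₁ : 0 ≤ γ₁)
    (hγ₂ : 0 ≤ γ₂)
    (hpairs : ∀ x, Sq Λ δ x → ∑ p ∈ P, (1 / (p : ℝ)) *
      (if Sq Λ' δ ((p : ℝ) ^ t * x) then (0 : ℝ) else 1) ≤ γ₁ * WW P)
    (hind : ∀ x, Sq Q δ x → ∑ p ∈ P, (1 / (p : ℝ)) *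
      (if Sq Q' δ ((p : ℝ) ^ t * x) then (0 : ℝ) else 1) ≤ γ₁ * WW P)
    (L : ℕ)
    (hnear : ∀ n x, Sq Q δ x → ∑ p ∈ P, (1 / (p : ℝ)) *
      (if (∃ i ∈ S (n / p), ¬ Sq Λ' δ (ld i - (p : ℝ) ^ t * x)) then (1 : ℝ) else 0) ≤ γ₂ * WW P)
    (Z : ℝ) (hZ : ∀ p ∈ P, (p : ℝ) ≤ Z)
    (hH0 : 0 < L) (hH : (1 + 2 * (P.card : ℝ)) * Z ≤ L) (hH2 : 12 * Z / η ≤ L)
    (hM : ∀ n, cnt1 F ld a M Λ Q δ ε n L + 1 ≤ M) (N : ℕ) (hN : Z ≤ N) (hW : 0 < WW P) :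
    ∃ p ∈ P, Xs F ld a M Λ Q δ ε N L + Ys F a S ε₁ N (L / p) ≤
      Xs F ld a M Λ' Q' δ (ε - η) N (L / p) +
        ((1 + Real.log N) * (M * γ₂ + (M + 1) * (M * (8 / η ^ 2) / WW P + (M + M ^ 2) * γ₁)) +
          (M + 1) * (Real.log Z + 3)) := by
  by_contra hcon
  push Not at hcon
  set W := WW P with hWdef
  have hpne : P.Nonempty := by
    rw [nonempty_iff_ne_empty]
    rintro rfl
    simp [WW] at hWdef
    linarith
  obtain ⟨p₀, hp₀⟩ := hpne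
  have hZ1 : 1 ≤ Z := by
    have h1 : (1 : ℝ) ≤ p₀ := by exact_mod_cast (hP _ hp₀).one_lt.le
    exact h1.trans (hZ p₀ hp₀)
  set err : ℝ := M * γ₂ + (M + 1) * (M * (8 / η ^ 2) / W + (M + M ^ 2) * γ₁) with herr
  have herr0 : 0 ≤ err := by positivity
  -- sum of the pointwise inequality
  have h1 : ∀ n ∈ Icc 1 N, (1 / (n : ℝ)) * (W * (cnt1 F ld a M Λ Q δ ε n L : ℝ)
      + ∑ p ∈ P, (1 / (p : ℝ)) * kb1 F a (S (n / p)) ε₁ (n / p) (L / p)) ≤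
      (1 / (n : ℝ)) * (∑ p ∈ P, (1 / (p : ℝ)) *
        (cnt1 F ld a M Λ' Q' δ (ε - η) (n / p) (L / p) : ℝ) + W * err) := by
    intro n _
    refine mul_le_mul_of_nonneg_left ?_ (by positivity)
    have h2 := one_n1 F ld t a hF ha hmul hdil P hP P₀ hP₀ M Λ Λ' Q Q' δ η ε ε₁ hη hηε hη8 hε₁
      S hS γ₁ γ₂ hγ₁ hγ₂ hpairs hind n L (hnear n) Z hZ hH0 hH hH2 (hM n)
    rw [← hWdef] at h2
    refine h2.trans (le_of_eq ?_)
    rw [herr]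
    field_simp
  have h2 := sum_le_sum h1
  have e1 : ∑ n ∈ Icc 1 N, (1 / (n : ℝ)) * (W * (cnt1 F ld a M Λ Q δ ε n L : ℝ)
      + ∑ p ∈ P, (1 / (p : ℝ)) * kb1 F a (S (n / p)) ε₁ (n / p) (L / p)) =
      W * Xs F ld a M Λ Q δ ε N L + ∑ p ∈ P, (1 / (p : ℝ)) *
        ∑ n ∈ Icc 1 N, (1 / (n : ℝ)) * kb1 F a (S (n / p)) ε₁ (n / p) (L / p) := by
    have c1 : ∑ p ∈ P, (1 / (p : ℝ)) *
        ∑ n ∈ Icc 1 N, (1 / (n : ℝ)) * kb1 F a (S (n / p)) ε₁ (n / p) (L / p) =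
        ∑ n ∈ Icc 1 N, (1 / (n : ℝ)) *
          ∑ p ∈ P, (1 / (p : ℝ)) * kb1 F a (S (n / p)) ε₁ (n / p) (L / p) := by
      simp only [mul_sum]
      rw [sum_comm]
      exact sum_congr rfl fun n _ => sum_congr rfl fun p _ => by ring
    rw [c1, Xs, mul_sum, ← sum_add_distrib]
    exact sum_congr rfl fun n _ => by ring
  have e2 : ∑ n ∈ Icc 1 N, (1 / (n : ℝ)) * (∑ p ∈ P, (1 / (p : ℝ)) *
        (cnt1 F ld a M Λ' Q' δ (ε - η) (n / p) (L / p) : ℝ) + W * err) =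
      ∑ p ∈ P, (1 / (p : ℝ)) * ∑ n ∈ Icc 1 N, (1 / (n : ℝ)) *
        (cnt1 F ld a M Λ' Q' δ (ε - η) (n / p) (L / p) : ℝ) +
      (∑ n ∈ Icc 1 N, (1 / (n : ℝ))) * (W * err) := by
    have c1 : ∑ p ∈ P, (1 / (p : ℝ)) * ∑ n ∈ Icc 1 N, (1 / (n : ℝ)) *
        (cnt1 F ld a M Λ' Q' δ (ε - η) (n / p) (L / p) : ℝ) =
        ∑ n ∈ Icc 1 N, (1 / (n : ℝ)) * ∑ p ∈ P, (1 / (p : ℝ)) *
        (cnt1 F ld a M Λ' Q' δ (ε - η) (n / p) (L / p) : ℝ) := by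
      simp only [mul_sum]
      rw [sum_comm]
      exact sum_congr rfl fun n _ => sum_congr rfl fun p _ => by ring
    rw [c1, sum_mul, ← sum_add_distrib]
    exact sum_congr rfl fun n _ => by ring
  rw [e1, e2] at h2
  -- transfer
  have hpN : ∀ p ∈ P, p ≤ N := fun p hp => by
    have := (hZ p hp).trans hN
    exact_mod_cast this
  have hlogp : ∀ p ∈ P, Real.log p ≤ Real.log Z := fun p hp =>
    Real.log_le_log (by exact_mod_cast (hP p hp).pos) (hZ p hp)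
  have hlogp0 : ∀ p ∈ P, 0 ≤ Real.log p := fun p hp =>
    Real.log_nonneg (by exact_mod_cast (hP p hp).one_lt.le)
  have h3 : ∀ p ∈ P, (1 / (p : ℝ)) * (Xs F ld a M Λ' Q' δ (ε - η) N (L / p) +
        ((1 + Real.log N) * err + (M + 1) * (Real.log Z + 3))) <
      (1 / (p : ℝ)) * (Xs F ld a M Λ Q δ ε N L + Ys F a S ε₁ N (L / p)) := fun p hp =>
    mul_lt_mul_of_pos_left (hcon p hp)
      (by have := (hP p hp).pos; positivity)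
  have h4 := sum_lt_sum_of_nonempty ⟨p₀, hp₀⟩ h3
  have h5 : ∑ p ∈ P, (1 / (p : ℝ)) * (Xs F ld a M Λ' Q' δ (ε - η) N (L / p) +
        ((1 + Real.log N) * err + (M + 1) * (Real.log Z + 3))) =
      ∑ p ∈ P, (1 / (p : ℝ)) * Xs F ld a M Λ' Q' δ (ε - η) N (L / p) +
        W * ((1 + Real.log N) * err + (M + 1) * (Real.log Z + 3)) := by
    rw [hWdef, WW, sum_mul, ← sum_add_distrib]
    exact sum_congr rfl fun p _ => by ring
  have h6 : ∑ p ∈ P, (1 / (p : ℝ)) * (Xs F ld a M Λ Q δ ε N L + Ys F a S ε₁ N (L / p)) =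
      W * Xs F ld a M Λ Q δ ε N L + ∑ p ∈ P, (1 / (p : ℝ)) * Ys F a S ε₁ N (L / p) := by
    rw [hWdef, WW, sum_mul, ← sum_add_distrib]
    exact sum_congr rfl fun p _ => by ring
  rw [h5, h6] at h4
  have h7 : ∑ p ∈ P, (1 / (p : ℝ)) * Ys F a S ε₁ N (L / p) ≤
      ∑ p ∈ P, (1 / (p : ℝ)) *
        ∑ n ∈ Icc 1 N, (1 / (n : ℝ)) * kb1 F a (S (n / p)) ε₁ (n / p) (L / p) +
      W * (Real.log Z + 3) := by
    rw [hWdef, WW, sum_mul, ← sum_add_distrib]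
    refine sum_le_sum fun p hp => ?_
    have h8 := log_lower p (hP p hp).pos (fun n => kb1 F a (S n) ε₁ n (L / p)) 1
      (fun n => kb1_nonneg _ _ _ _ _ _) (fun n => kb1_le_one _ _ _ _ _ _) N (hpN p hp)
    have h9 : Ys F a S ε₁ N (L / p) ≤
        ∑ n ∈ Icc 1 N, (1 / (n : ℝ)) * kb1 F a (S (n / p)) ε₁ (n / p) (L / p) +
          (Real.log Z + 3) := by
      have := hlogp p hp
      rw [Ys]
      linarith
    calc (1 / (p : ℝ)) * Ys F a S ε₁ N (L / p) ≤ _ := mul_le_mul_of_nonneg_left h9 (by positivity)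
      _ = _ := by ring
  have h10 : ∑ p ∈ P, (1 / (p : ℝ)) * ∑ n ∈ Icc 1 N, (1 / (n : ℝ)) *
        (cnt1 F ld a M Λ' Q' δ (ε - η) (n / p) (L / p) : ℝ) ≤
      ∑ p ∈ P, (1 / (p : ℝ)) * Xs F ld a M Λ' Q' δ (ε - η) N (L / p) +
      W * (M * (Real.log Z + 3)) := by
    rw [hWdef, WW, sum_mul, ← sum_add_distrib]
    refine sum_le_sum fun p hp => ?_
    have h8 := log_upper p (hP p hp).pos
      (fun n => (cnt1 F ld a M Λ' Q' δ (ε - η) n (L / p) : ℝ)) M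
      (fun n => Nat.cast_nonneg _) (fun n => by exact_mod_cast cnt1_le _ _ _ _ _ _ _ _ _ _) N
    have h9 : ∑ n ∈ Icc 1 N, (1 / (n : ℝ)) *
        (cnt1 F ld a M Λ' Q' δ (ε - η) (n / p) (L / p) : ℝ) ≤
        Xs F ld a M Λ' Q' δ (ε - η) N (L / p) + M * (Real.log Z + 3) := by
      have h11 := hlogp p hp
      have h12 : (1 + Real.log p) * (M : ℝ) ≤ M * (Real.log Z + 3) := by
        rw [mul_comm]
        exact mul_le_mul_of_nonneg_left (by linarith) (Nat.cast_nonneg _)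
      rw [Xs]
      linarith
    calc _ ≤ _ := mul_le_mul_of_nonneg_left h9 (by positivity)
      _ = _ := by ring
  have h13 : (∑ n ∈ Icc 1 N, (1 / (n : ℝ))) * (W * err) ≤ (1 + Real.log N) * (W * err) :=
    mul_le_mul_of_nonneg_right (sum_inv_le_log N) (by positivity)
  have h14 : W * ((1 + Real.log N) * err + (M + 1) * (Real.log Z + 3)) =
      (1 + Real.log N) * (W * err) + (W * (M * (Real.log Z + 3)) + W * (Real.log Z + 3)) := by ring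
  linarith

end Pool.Agent.Lib.MP_663568_nt.H6
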