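import Mathlib
import Pool.Agent.Lib.MP_663568_h6.SingQ
import Pool.Agent.Lib.MP_663568_h6.SumQ
import Pool.Agent.Lib.MP_663568_h6.ZeroQ

/-!
# From one window length to all longer ones
-/

set_option autoImplicit false
open Finset

namespace Pool.Agent.Lib.MP_663568_nt.H6

open Katai Nul

variable {ι : Type}

lemma ws_blocks (F a : ℕ → ℂ) (n L k : ℕ) :
    ws F a n (k * L) ≤ ∑ j ∈ range k, ws F a (n + j * L) L := by
  induction k with
  | zero => simp [ws]
  | succ k ih =>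
    rw [sum_range_succ]
    have h1 : ws F a n ((k + 1) * L) ≤ ws F a n (k * L) + ws F a (n + k * L) L := by
      unfold ws
      rw [icc_ioc (fun m => F m * a m), icc_ioc (fun m => F m * a m),
        icc_ioc (fun m => F m * a m),
        ← sum_Ioc_consecutive (fun m => F m * a m) (m := n) (n := n + k * L)
          (k := n + (k + 1) * L) (by omega) (by nlinarith),
        show n + (k + 1) * L = n + k * L + L by ring]
      exact norm_add_le _ _
    linarith

lemma ws_split (F a : ℕ → ℂ) (hF : ∀ n, ‖F n‖ ≤ 1) (ha : ∀ n, ‖a n‖ ≤ 1) (n H L : ℕ)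
    (hL : 0 < L) : ws F a n H ≤ ∑ j ∈ range (H / L), ws F a (n + j * L) L + L := by
  have h0 := ws_blocks F a n L (H / L)
  have h1 : ws F a n H ≤ ws F a n (H / L * L) + L := by
    unfold ws
    have hle : H / L * L ≤ H := Nat.div_mul_le_self H L
    rw [icc_ioc (fun m => F m * a m), icc_ioc (fun m => F m * a m),
      ← sum_Ioc_consecutive (fun m => F m * a m) (m := n) (n := n + H / L * L)
        (k := n + H) (by omega) (by omega)]
    refine (norm_add_le _ _).trans (add_le_add le_rfl ?_)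
    refine (norm_sum_le _ _).trans ?_
    calc ∑ m ∈ Ioc (n + H / L * L) (n + H), ‖F m * a m‖
        ≤ ∑ m ∈ Ioc (n + H / L * L) (n + H), (1 : ℝ) := by
          refine sum_le_sum fun m _ => ?_
          rw [norm_mul]
          exact mul_le_one₀ (hF m) (norm_nonneg _) (ha m)
      _ = ((n + H - (n + H / L * L) : ℕ) : ℝ) := by simp
      _ ≤ L := by
          have h2 : H < H / L * L + L := Nat.lt_div_mul_add hL
          have : n + H - (n + H / L * L) ≤ L := by omega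
          exact_mod_cast this
  linarith

lemma GS_nonneg (F : ι → ℕ → ℂ) (a : ℕ → ℂ) (S : Set ι) (H n : ℕ) : 0 ≤ GS F a S H n :=
  GG_nonneg _ _ _ _

lemma GS_le (F : ι → ℕ → ℂ) (a : ℕ → ℂ) (hF : ∀ i n, ‖F i n‖ ≤ 1) (ha : ∀ n, ‖a n‖ ≤ 1)
    (S : Set ι) (H n : ℕ) : GS F a S H n ≤ H :=
  GG_le (fun i : {i // i ∈ S} => F i.1) a (fun i => hF i.1) ha H n

lemma ws_le_GS (F : ι → ℕ → ℂ) (a : ℕ → ℂ) (hF : ∀ i n, ‖F i n‖ ≤ 1) (ha : ∀ n, ‖a n‖ ≤ 1)
    (S : Set ι) (H n : ℕ) (i : ι) (hi : i ∈ S) : ws (F i) a n H ≤ GS F a S H n :=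
  le_GG (fun i : {i // i ∈ S} => F i.1) a (fun i => hF i.1) ha H n ⟨i, hi⟩

lemma GS_up (F : ι → ℕ → ℂ) (a : ℕ → ℂ) (hF : ∀ i n, ‖F i n‖ ≤ 1) (ha : ∀ n, ‖a n‖ ≤ 1)
    (S₀ : Set ι) (S : ℕ → Set ι) (n H L : ℕ) (hL : 0 < L)
    (hS : ∀ j, j < H / L → S₀ ⊆ S (n + j * L)) :
    GS F a S₀ H n ≤ ∑ j ∈ range (H / L), GS F a (S (n + j * L)) L (n + j * L) + L := by
  rw [GS, GG]
  apply Real.iSup_le
  · rintro ⟨i, hi⟩
    refine (ws_split (F i) a (hF i) ha n H L hL).trans (add_le_add ?_ le_rfl)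
    refine sum_le_sum fun j hj => ?_
    rw [mem_range] at hj
    exact ws_le_GS F a hF ha _ _ _ i (hS j hj hi)
  · have : 0 ≤ ∑ j ∈ range (H / L), GS F a (S (n + j * L)) L (n + j * L) :=
      sum_nonneg fun j _ => GS_nonneg _ _ _ _ _
    positivity

lemma shift_sum (f : ℕ → ℝ) (hf : ∀ n, 0 ≤ f n) (A N c T : ℕ) (hT : N + c ≤ T) (hA : 1 ≤ A) :
    ∑ n ∈ Icc A N, f (n + c) ≤ ∑ m ∈ Icc 1 T, f m := by
  have e : ∑ n ∈ Icc A N, f (n + c) = ∑ m ∈ (Icc A N).image (fun n => n + c), f m := by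
    rw [sum_image]
    intro x _ y _ h
    simpa using h
  rw [e]
  apply sum_le_sum_of_subset_of_nonneg
  · intro m hm
    rw [mem_image] at hm
    obtain ⟨n, hn, rfl⟩ := hm
    rw [mem_Icc] at hn ⊢
    omega
  · intro m _ _; exact hf m

/-- the average for windows of length `L` -/
noncomputable def Es (F : ι → ℕ → ℂ) (a : ℕ → ℂ) (S : ℕ → Set ι) (N L : ℕ) : ℝ :=
  ∑ m ∈ Icc 1 N, (1 / (m : ℝ)) * GS F a (S m) L m

/-- **From windows of length `L` to windows of length `H`.** -/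
theorem up_sum (F : ι → ℕ → ℂ) (a : ℕ → ℂ) (hF : ∀ i n, ‖F i n‖ ≤ 1) (ha : ∀ n, ‖a n‖ ≤ 1)
    (S₀ S : ℕ → Set ι) (H L N : ℕ) (hL : 0 < L) (hLH : L ≤ H) (hHN : H ≤ N)
    (hS : ∀ n m, H ≤ n → n ≤ m → m ≤ 4 * n → S₀ n ⊆ S m) :
    ∑ n ∈ Icc H N, (1 / (n : ℝ)) * GS F a (S₀ n) H n ≤
      (H / L : ℝ) * (2 * (Es F a S N L + L)) + L * (1 + Real.log N) := by
  have hH0 : 0 < H := by omega
  have hLr : (0 : ℝ) < L := by exact_mod_cast hL
  have hN0 : (0 : ℝ) < N := by
    have : 0 < N := by omega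
    exact_mod_cast this
  obtain ⟨g, hg⟩ : ∃ g : ℕ → ℝ, g = fun m : ℕ => (1 / (m : ℝ)) * GS F a (S m) L m := ⟨_, rfl⟩
  have hg0 : ∀ m, 0 ≤ g m := fun m => by
    rw [hg]; exact mul_nonneg (by positivity) (GS_nonneg _ _ _ _ _)
  have h1 : ∀ n ∈ Icc H N, (1 / (n : ℝ)) * GS F a (S₀ n) H n ≤
      ∑ j ∈ range (H / L), 2 * g (n + j * L) + (1 / (n : ℝ)) * L := by
    intro n hn
    rw [mem_Icc] at hn
    have hn0 : (0 : ℝ) < n := by
      have : 0 < n := by omega
      exact_mod_cast this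
    have hjL : ∀ j, j < H / L → j * L ≤ H := by
      intro j hj
      have h2 : H / L * L ≤ H := Nat.div_mul_le_self H L
      have h3 : j * L ≤ H / L * L := Nat.mul_le_mul_right L hj.le
      omega
    have h2 := GS_up F a hF ha (S₀ n) S n H L hL (fun j hj => hS n (n + j * L) hn.1 (by omega) (by
      have := hjL j hj
      omega))
    have h3 : (1 / (n : ℝ)) * GS F a (S₀ n) H n ≤ (1 / (n : ℝ)) *
        (∑ j ∈ range (H / L), GS F a (S (n + j * L)) L (n + j * L) + L) :=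
      mul_le_mul_of_nonneg_left h2 (by positivity)
    refine h3.trans ?_
    rw [mul_add, mul_sum]
    refine add_le_add (sum_le_sum fun j hj => ?_) le_rfl
    rw [mem_range] at hj
    rw [hg]; beta_reduce
    have h4 : 1 / (n : ℝ) ≤ 2 * (1 / ((n + j * L : ℕ) : ℝ)) := by
      have h5 : ((n + j * L : ℕ) : ℝ) ≤ 2 * n := by
        have : n + j * L ≤ 2 * n := by
          have := hjL j hj
          omega
        exact_mod_cast this
      have h6 : (0 : ℝ) < ((n + j * L : ℕ) : ℝ) := by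
        have : 0 < n + j * L := by omega
        exact_mod_cast this
      rw [mul_one_div, div_le_div_iff₀ hn0 h6]
      linarith
    calc (1 / (n : ℝ)) * GS F a (S (n + j * L)) L (n + j * L) ≤
        (2 * (1 / ((n + j * L : ℕ) : ℝ))) * GS F a (S (n + j * L)) L (n + j * L) :=
          mul_le_mul_of_nonneg_right h4 (GS_nonneg _ _ _ _ _)
      _ = _ := by ring
  have h2 : ∑ m ∈ Icc 1 (N + H), g m ≤ ∑ m ∈ Icc 1 N, g m + L := by
    have e : ∑ m ∈ Icc 1 (N + H), g m = ∑ m ∈ Icc 1 N, g m + ∑ m ∈ Ioc N (N + H), g m := by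
      have h := sum_Ioc_consecutive g (m := 0) (n := N) (k := N + H) (by omega) (by omega)
      have e1 : ∀ T : ℕ, Icc 1 T = Ioc 0 T := by
        intro T; ext x; rw [mem_Icc, mem_Ioc]; omega
      rw [e1, e1, h]
    rw [e]
    refine add_le_add le_rfl ?_
    calc ∑ m ∈ Ioc N (N + H), g m ≤ ∑ m ∈ Ioc N (N + H), (1 / (N : ℝ)) * L := by
          refine sum_le_sum fun m hm => ?_
          rw [mem_Ioc] at hm
          rw [hg]; beta_reduce
          refine mul_le_mul ?_ (GS_le F a hF ha _ _ _) (GS_nonneg _ _ _ _ _) (by positivity)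
          apply one_div_le_one_div_of_le hN0
          exact_mod_cast hm.1.le
      _ = (H / N) * L := by
          rw [sum_const, Nat.card_Ioc, nsmul_eq_mul, Nat.add_sub_cancel_left]; ring
      _ ≤ 1 * L := by
          apply mul_le_mul_of_nonneg_right _ hLr.le
          rw [div_le_one hN0]
          exact_mod_cast hHN
      _ = L := one_mul _
  have h3 : ∑ n ∈ Icc H N, ∑ j ∈ range (H / L), 2 * g (n + j * L) ≤
      (H / L : ℝ) * (2 * (∑ m ∈ Icc 1 N, g m + L)) := by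
    rw [sum_comm]
    calc ∑ j ∈ range (H / L), ∑ n ∈ Icc H N, 2 * g (n + j * L)
        ≤ ∑ j ∈ range (H / L), 2 * (∑ m ∈ Icc 1 N, g m + L) := by
          refine sum_le_sum fun j hj => ?_
          rw [mem_range] at hj
          rw [← mul_sum]
          have h4 : j * L ≤ H := by
            have h2 : H / L * L ≤ H := Nat.div_mul_le_self H L
            have h3 : j * L ≤ H / L * L := Nat.mul_le_mul_right L hj.le
            omega
          have h5 := shift_sum g hg0 H N (j * L) (N + H) (by omega) (by omega)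
          linarith
      _ = ((H / L : ℕ) : ℝ) * (2 * (∑ m ∈ Icc 1 N, g m + L)) := by
          rw [sum_const, card_range, nsmul_eq_mul]
      _ ≤ _ := by
          have h6 : 0 ≤ ∑ m ∈ Icc 1 N, g m := sum_nonneg fun m _ => hg0 m
          have h7 : ((H / L : ℕ) : ℝ) ≤ (H : ℝ) / L := Nat.cast_div_le
          gcongr
  have h4 : ∑ n ∈ Icc H N, (1 / (n : ℝ)) * L ≤ L * (1 + Real.log N) := by
    rw [← sum_mul, mul_comm]
    apply mul_le_mul_of_nonneg_left _ hLr.le
    refine le_trans ?_ (sum_inv_le_log N)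
    apply sum_le_sum_of_subset_of_nonneg
    · intro n hn; rw [mem_Icc] at hn ⊢; omega
    · intro n _ _; positivity
  calc _ ≤ ∑ n ∈ Icc H N, (∑ j ∈ range (H / L), 2 * g (n + j * L) + (1 / (n : ℝ)) * L) :=
        sum_le_sum h1
    _ = ∑ n ∈ Icc H N, ∑ j ∈ range (H / L), 2 * g (n + j * L) +
        ∑ n ∈ Icc H N, (1 / (n : ℝ)) * L := sum_add_distrib
    _ ≤ _ := by
        have e5 : Es F a S N L = ∑ m ∈ Icc 1 N, g m := by rw [Es, hg]
        rw [e5]
        exact add_le_add h3 h4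

/-- few windows with a large correlation: small averages -/
lemma avg_of_Ys (F : ι → ℕ → ℂ) (a : ℕ → ℂ) (hF : ∀ i n, ‖F i n‖ ≤ 1) (ha : ∀ n, ‖a n‖ ≤ 1)
    (S : ℕ → Set ι) (ε₁ : ℝ) (hε₁ : 0 ≤ ε₁) (N L : ℕ) :
    Es F a S N L ≤ L * (ε₁ * (1 + Real.log N) + Ys F a S ε₁ N L) := by
  have hL : (0 : ℝ) ≤ L := Nat.cast_nonneg _
  have h1 : ∀ m, GS F a (S m) L m ≤ ε₁ * L + L * kb1 F a (S m) ε₁ m L := by
    intro m
    by_cases h : ∃ i ∈ S m, ε₁ * L ≤ ws (F i) a m L
    · have e : kb1 F a (S m) ε₁ m L = 1 := by unfold kb1; rw [if_pos h]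
      rw [e]
      have h2 := GS_le F a hF ha (S m) L m
      have : 0 ≤ ε₁ * L := by positivity
      linarith
    · have e : kb1 F a (S m) ε₁ m L = 0 := by unfold kb1; rw [if_neg h]
      rw [e]
      push Not at h
      rw [GS, GG]
      apply Real.iSup_le
      · rintro ⟨i, hi⟩
        have := (h i hi).le
        rw [ws] at this
        linarith
      · have : 0 ≤ ε₁ * L := by positivity
        linarith
  calc _ ≤ ∑ m ∈ Icc 1 N, (1 / (m : ℝ)) * (ε₁ * L + L * kb1 F a (S m) ε₁ m L) :=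
        sum_le_sum fun m _ => mul_le_mul_of_nonneg_left (h1 m) (by positivity)
    _ = L * (ε₁ * ∑ m ∈ Icc 1 N, (1 / (m : ℝ)) + Ys F a S ε₁ N L) := by
        rw [Ys, mul_sum, mul_add, mul_sum, mul_sum, ← sum_add_distrib]
        exact sum_congr rfl fun m _ => by ring
    _ ≤ _ := by
        refine mul_le_mul_of_nonneg_left ?_ hL
        refine add_le_add (mul_le_mul_of_nonneg_left (sum_inv_le_log N) hε₁) le_rfl

end Pool.Agent.Lib.MP_663568_nt.H6
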