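import Mathlib

/-!
# Functions of polynomial growth, and the levels of the increment argument
-/

set_option autoImplicit false
open Finset

namespace Pool.Agent.Lib.MP_663568_nt.H6

/-- nonnegative and of polynomial growth on `[1, ∞)` -/
def PB (g : ℝ → ℝ) : Prop := ∃ K : ℕ, ∀ y : ℝ, 1 ≤ y → 0 ≤ g y ∧ g y ≤ K * y ^ K

lemma PB.const (c : ℝ) (hc : 0 ≤ c) : PB (fun _ => c) := by
  refine ⟨⌈c⌉₊, fun y hy => ⟨hc, ?_⟩⟩
  have h1 := Nat.le_ceil c
  have h2 : 1 ≤ y ^ ⌈c⌉₊ := one_le_pow₀ hy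
  have h3 : (0 : ℝ) ≤ ⌈c⌉₊ := Nat.cast_nonneg _
  nlinarith

lemma PB.idd : PB (fun y => y) := ⟨1, fun y hy => ⟨by linarith, by simp⟩⟩

lemma PB.add {g h : ℝ → ℝ} (hg : PB g) (hh : PB h) : PB (fun y => g y + h y) := by
  obtain ⟨K, hK⟩ := hg
  obtain ⟨L, hL⟩ := hh
  refine ⟨K + L, fun y hy => ?_⟩
  obtain ⟨h1, h2⟩ := hK y hy
  obtain ⟨h3, h4⟩ := hL y hy
  refine ⟨by linarith, ?_⟩
  have h5 : y ^ K ≤ y ^ (K + L) := pow_le_pow_right₀ hy (by omega)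
  have h6 : y ^ L ≤ y ^ (K + L) := pow_le_pow_right₀ hy (by omega)
  calc g y + h y ≤ K * y ^ (K + L) + L * y ^ (K + L) := by
        refine add_le_add (h2.trans ?_) (h4.trans ?_) <;> gcongr
    _ = _ := by push_cast; ring

lemma PB.mul {g h : ℝ → ℝ} (hg : PB g) (hh : PB h) : PB (fun y => g y * h y) := by
  obtain ⟨K, hK⟩ := hg
  obtain ⟨L, hL⟩ := hh
  refine ⟨K * L + (K + L), fun y hy => ?_⟩
  obtain ⟨h1, h2⟩ := hK y hy
  obtain ⟨h3, h4⟩ := hL y hy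
  have hy0 : 0 ≤ y := by linarith
  refine ⟨mul_nonneg h1 h3, ?_⟩
  calc g y * h y ≤ (K * y ^ K) * (L * y ^ L) := by gcongr
    _ = (K * L) * y ^ (K + L) := by rw [pow_add]; ring
    _ ≤ (K * L + (K + L)) * y ^ (K * L + (K + L)) := by
        have h5 : y ^ (K + L) ≤ y ^ (K * L + (K + L)) := pow_le_pow_right₀ hy (by omega)
        have h6 : (0 : ℝ) ≤ K * L := by positivity
        have h7 : (0 : ℝ) ≤ (K : ℝ) + L := by positivity
        have h8 : (0 : ℝ) ≤ y ^ (K * L + (K + L)) := by positivity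
        calc (K * L : ℝ) * y ^ (K + L) ≤ (K * L) * y ^ (K * L + (K + L)) := by gcongr
          _ ≤ _ := by nlinarith
    _ = _ := by push_cast; ring

lemma PB.pow {g : ℝ → ℝ} (hg : PB g) (n : ℕ) : PB (fun y => g y ^ n) := by
  induction n with
  | zero => simpa using PB.const 1 (by norm_num)
  | succ n ih =>
    have := ih.mul hg
    simpa only [pow_succ] using this

/-- the levels -/
noncomputable def lev (B : ℕ) (γ x : ℝ) : ℕ → ℝ
  | 0 => x
  | j + 1 => B * (lev B γ x j / γ) ^ B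

lemma lev_ge (B : ℕ) (hB : 1 ≤ B) (γ x : ℝ) (hγ : 0 < γ) (hγ1 : γ ≤ 1) (hx : 1 ≤ x) (j : ℕ) :
    1 ≤ lev B γ x j ∧ lev B γ x j ≤ lev B γ x (j + 1) := by
  have key : ∀ y : ℝ, 1 ≤ y → y ≤ B * (y / γ) ^ B := by
    intro y hy
    have h1 : y ≤ y / γ := by rw [le_div_iff₀ hγ]; nlinarith
    have h2 : y / γ ≤ (y / γ) ^ B := le_self_pow₀ (hy.trans h1) (by omega)
    have h3 : (1 : ℝ) ≤ B := by exact_mod_cast hB
    have h4 : 0 ≤ (y / γ) ^ B := by linarith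
    nlinarith
  induction j with
  | zero => exact ⟨hx, key x hx⟩
  | succ j ih =>
    have h1 : 1 ≤ lev B γ x (j + 1) := ih.1.trans ih.2
    exact ⟨h1, key _ h1⟩

lemma lev_mono (B : ℕ) (hB : 1 ≤ B) (γ x : ℝ) (hγ : 0 < γ) (hγ1 : γ ≤ 1) (hx : 1 ≤ x) {i j : ℕ}
    (hij : i ≤ j) : lev B γ x i ≤ lev B γ x j :=
  monotone_nat_of_le_succ (fun j => (lev_ge B hB γ x hγ hγ1 hx j).2) hij

lemma PB.lev (B : ℕ) (γ : ℝ) (hγ : 0 < γ) {g : ℝ → ℝ} (hg : PB g) (j : ℕ) :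
    PB (fun y => lev B γ (g y) j) := by
  induction j with
  | zero => exact hg
  | succ j ih =>
    have h1 := (PB.const B (Nat.cast_nonneg _)).mul
      ((ih.mul (PB.const (1 / γ) (by positivity))).pow B)
    have e : (fun y => H6.lev B γ (g y) (j + 1)) =
        fun y => (B : ℝ) * (H6.lev B γ (g y) j * (1 / γ)) ^ B := by
      funext y
      rw [H6.lev, mul_one_div]
    rw [e]
    exact h1

end Pool.Agent.Lib.MP_663568_nt.H6
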