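import Mathlib
import Pool.Agent.Lib.MP_663568_h6.SumQ
import Pool.Agent.Lib.MP_663568_h6.PolyB

/-!
# A window length at which few windows correlate with a member with frequency in the small sets
-/

set_option autoImplicit false
open Finset MeasureTheory

namespace Pool.Agent.Lib.MP_663568_nt.H6

open Katai Nul EqA

variable {ι : Type}

/-- the members whose frequency is not in the major arcs and modulo `ℤ` in the set belonging to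
`n` or the preceding one -/
def SS (ld : ι → ℝ) (𝒜 : ℕ → Set ℝ) (Q δ : ℝ) (n : ℕ) : Set ι :=
  {i | Sq Q δ (ld i) ∧ ∃ α : ℝ, (α ∈ 𝒜 (Nat.log 4 n) ∨ α ∈ 𝒜 (Nat.log 4 n - 1)) ∧
    ∃ z : ℤ, ld i = α + z}

lemma card_blk_le (a b : ℕ) : ((blk a b).card : ℝ) ≤ (4 : ℝ) ^ b := by
  have h1 : blk a b ⊆ Ioc 0 (4 ^ b) := by
    intro p hp
    rw [mem_blk] at hp
    rw [mem_Ioc]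
    exact ⟨hp.2.pos, hp.1.2⟩
  have h2 := card_le_card h1
  rw [Nat.card_Ioc] at h2
  have : (blk a b).card ≤ 4 ^ b := by omega
  exact_mod_cast this

/-- the near condition of the increment -/
lemma near_ok (ld : ι → ℝ) (t : ℕ) (B₂ : ℕ)
    (hB₂ : ∀ u : ℝ, 0 < u → u ≤ 1 / 2 →
    ∀ δ : ℝ, 0 < δ → δ ≤ 1 → ∀ β : ℝ, Sq (B₂ * (1 / u) ^ B₂) δ β → ∀ a b : ℕ, 7 ≤ a →
    (B₂ : ℝ) * (1 / (u * δ)) ^ B₂ ≤ (4 : ℝ) ^ a → a ≤ b → ∀ (E : ℕ → Set ℝ) (v : ℝ), 0 ≤ v →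
      (∀ j, volume {y : ℝ | y ∈ Set.Icc (0 : ℝ) 1 ∧ ∃ x ∈ E j, nd (x - y) ≤ u} ≤
        ENNReal.ofReal v) →
      ∀ (n : ℕ) (f : ℕ → ℝ), (∀ p : ℕ, f p ≤ 1) →
        (∀ p : ℕ, (p : ℝ) ^ t * β ∉ E (Nat.log 4 (n / p)) → f p ≤ 0) →
        ∑ p ∈ blk a b, (1 / (p : ℝ)) * f p ≤ B₂ * v * WW (blk a b))
    (u δ : ℝ) (hu : 0 < u) (hu2 : u ≤ 1 / 2) (hδ : 0 < δ) (hδ1 : δ ≤ 1) (hδu : δ ≤ u)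
    (𝒜 : ℕ → Set ℝ) (v : ℝ) (hv : 0 ≤ v)
    (h𝒜 : ∀ j, volume {y : ℝ | y ∈ Set.Icc (0 : ℝ) 1 ∧ ∃ α ∈ 𝒜 j, nd (α - y) ≤ 2 * u} ≤
        ENNReal.ofReal v) (Λ Q : ℝ) (hΛ : 0 ≤ Λ) (a b : ℕ) (ha : 7 ≤ a) (hab : a ≤ b)
    (hsz : (B₂ : ℝ) * (1 / (u * δ)) ^ B₂ ≤ (4 : ℝ) ^ a) (x : ℝ)
    (hx : Sq (B₂ * (1 / u) ^ B₂) δ x) (n : ℕ) (f : ℕ → ℝ) (hf1 : ∀ p, f p ≤ 1)
    (hf0 : ∀ p : ℕ, (¬ ∃ i ∈ SS ld 𝒜 Q δ (n / p), ¬ Sq Λ δ (ld i - (p : ℝ) ^ t * x)) → f p ≤ 0) :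
    ∑ p ∈ blk a b, (1 / (p : ℝ)) * f p ≤ B₂ * (Λ ^ 2 * (2 * v)) * WW (blk a b) := by
  set U : ℕ → Set ℝ := fun l => {α | α ∈ 𝒜 l ∨ α ∈ 𝒜 (l - 1)} with hU
  have hUv : ∀ l, volume {y : ℝ | y ∈ Set.Icc (0 : ℝ) 1 ∧ ∃ α ∈ U l, nd (α - y) ≤ 2 * u} ≤
      ENNReal.ofReal (2 * v) := by
    intro l
    have hsub : {y : ℝ | y ∈ Set.Icc (0 : ℝ) 1 ∧ ∃ α ∈ U l, nd (α - y) ≤ 2 * u} ⊆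
        {y : ℝ | y ∈ Set.Icc (0 : ℝ) 1 ∧ ∃ α ∈ 𝒜 l, nd (α - y) ≤ 2 * u} ∪
        {y : ℝ | y ∈ Set.Icc (0 : ℝ) 1 ∧ ∃ α ∈ 𝒜 (l - 1), nd (α - y) ≤ 2 * u} := by
      rintro y ⟨hy, α, hα, hn⟩
      rcases hα with hα | hα
      · left; exact ⟨hy, α, hα, hn⟩
      · right; exact ⟨hy, α, hα, hn⟩
    calc _ ≤ _ := measure_mono hsub
      _ ≤ _ := measure_union_le _ _
      _ ≤ ENNReal.ofReal v + ENNReal.ofReal v := add_le_add (h𝒜 l) (h𝒜 (l - 1))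
      _ = _ := by rw [← ENNReal.ofReal_add hv hv]; congr 1; ring
  refine hB₂ u hu hu2 δ hδ hδ1 x hx a b ha hsz hab (fun l => {x : ℝ | ∃ α ∈ U l, ¬ Sq Λ δ (α - x)})
    (Λ ^ 2 * (2 * v)) (by positivity)
    (fun l => vol_near (U l) Λ δ u (2 * v) hΛ (by positivity) hδu (hUv l)) n f hf1 ?_
  intro p hp
  apply hf0
  rintro ⟨i, ⟨_, α, hα, z, hz⟩, hns⟩
  apply hp
  refine ⟨α, hα, fun hs => hns ?_⟩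
  have := hs.add_int' z
  have e : ld i - (p : ℝ) ^ t * x = α - (p : ℝ) ^ t * x + z := by rw [hz]; ring
  rw [e]
  exact this

open Classical in
/-- **One step of the chain.** -/
theorem step_lev (F : ι → ℕ → ℂ) (ld : ι → ℝ) (t : ℕ) (hF : ∀ i n, ‖F i n‖ ≤ 1)
    (hdil : Dil1 F ld t) (B₁ : ℕ)
    (hB₁ : ∀ Λ : ℝ, 1 ≤ Λ → ∀ γ : ℝ, 0 < γ → γ ≤ 1 →
    ∀ δ : ℝ, 0 < δ → B₁ * Λ * δ ≤ γ → ∀ x : ℝ, Sq (B₁ * (Λ / γ) ^ B₁) δ x → ∀ a b : ℕ, 7 ≤ a →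
    (B₁ : ℝ) * (Λ / (γ * δ)) ^ B₁ ≤ (4 : ℝ) ^ a → a ≤ b →
    ∀ f : ℕ → ℝ, (∀ p : ℕ, f p ≤ 1) → (∀ p : ℕ, Sq Λ δ ((p : ℝ) ^ t * x) → f p ≤ 0) →
      ∑ p ∈ blk a b, (1 / (p : ℝ)) * f p ≤ γ * WW (blk a b))
    (B₂ : ℕ)
    (hB₂ : ∀ u : ℝ, 0 < u → u ≤ 1 / 2 →
    ∀ δ : ℝ, 0 < δ → δ ≤ 1 → ∀ β : ℝ, Sq (B₂ * (1 / u) ^ B₂) δ β → ∀ a b : ℕ, 7 ≤ a →
    (B₂ : ℝ) * (1 / (u * δ)) ^ B₂ ≤ (4 : ℝ) ^ a → a ≤ b → ∀ (E : ℕ → Set ℝ) (v : ℝ), 0 ≤ v →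
      (∀ j, volume {y : ℝ | y ∈ Set.Icc (0 : ℝ) 1 ∧ ∃ x ∈ E j, nd (x - y) ≤ u} ≤
        ENNReal.ofReal v) →
      ∀ (n : ℕ) (f : ℕ → ℝ), (∀ p : ℕ, f p ≤ 1) →
        (∀ p : ℕ, (p : ℝ) ^ t * β ∉ E (Nat.log 4 (n / p)) → f p ≤ 0) →
        ∑ p ∈ blk a b, (1 / (p : ℝ)) * f p ≤ B₂ * v * WW (blk a b))
    (al : ℕ → ℂ) (hal : ∀ n, ‖al n‖ ≤ 1) (hmul : Mult al)
    (u δ : ℝ) (hu : 0 < u) (hu2 : u ≤ 1 / 2) (hδ : 0 < δ) (hδ1 : δ ≤ 1) (hδu : δ ≤ u)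
    (𝒜 : ℕ → Set ℝ) (v : ℝ) (hv : 0 ≤ v)
    (h𝒜 : ∀ j, volume {y : ℝ | y ∈ Set.Icc (0 : ℝ) 1 ∧ ∃ α ∈ 𝒜 j, nd (α - y) ≤ 2 * u} ≤
        ENNReal.ofReal v)
    (γ₁ γ₂ : ℝ) (hγ₁ : 0 < γ₁) (hγ₁1 : γ₁ ≤ 1) (hγ₂ : 0 ≤ γ₂)
    (Λ Q Λ' Q' Q₀ : ℝ) (hΛ' : 1 ≤ Λ') (hQ' : 1 ≤ Q') (hQ₀ : Q' ≤ Q₀)
    (hΛΛ : Λ = B₁ * (Λ' / γ₁) ^ B₁) (hQQ : Q = B₁ * (Q' / γ₁) ^ B₁)
    (h1 : B₁ * Λ' * δ ≤ γ₁) (h2 : B₁ * Q' * δ ≤ γ₁)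
    (hv2 : B₂ * (Λ' ^ 2 * (2 * v)) ≤ γ₂) (hQB : B₂ * (1 / u) ^ B₂ ≤ Q)
    (a b : ℕ) (ha7 : 7 ≤ a) (hab : a ≤ b)
    (s1 : (B₁ : ℝ) * (Λ' / (γ₁ * δ)) ^ B₁ ≤ (4 : ℝ) ^ a)
    (s2 : (B₁ : ℝ) * (Q' / (γ₁ * δ)) ^ B₁ ≤ (4 : ℝ) ^ a)
    (s3 : (B₂ : ℝ) * (1 / (u * δ)) ^ B₂ ≤ (4 : ℝ) ^ a)
    (M : ℕ) (η ε ε₁ : ℝ) (hη : 0 < η) (hηε : η ≤ ε) (hη8 : 8 / η ≤ (4 : ℝ) ^ a)
    (hε₁ : ε - η ≤ ε₁) (L : ℕ) (hL0 : 0 < L) (hL1 : 3 * ((4 : ℝ) ^ b) ^ 2 ≤ L)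
    (hL2 : 12 * (4 : ℝ) ^ b / η ≤ L)
    (hM : ∀ n, cnt1 F ld al M Λ Q δ ε n L + 1 ≤ M)
    (N : ℕ) (hN : (4 : ℝ) ^ b ≤ N) (hW : 0 < WW (blk a b)) :
    ∃ p ∈ blk a b, Xs F ld al M Λ Q δ ε N L + Ys F al (SS ld 𝒜 Q₀ δ) ε₁ N (L / p) ≤
      Xs F ld al M Λ' Q' δ (ε - η) N (L / p) +
        ((1 + Real.log N) * (M * γ₂ + (M + 1) * (M * (8 / η ^ 2) / WW (blk a b) +
          (M + M ^ 2) * γ₁)) + (M + 1) * (Real.log ((4 : ℝ) ^ b) + 3)) := by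
  have hWn := hW.le
  have h4b : (1 : ℝ) ≤ (4 : ℝ) ^ b := one_le_pow₀ (by norm_num)
  refine step_sum F ld t al hF hal hmul hdil (blk a b) (fun p hp => (mem_blk.mp hp).2) (4 ^ a)
    (fun p hp => (mem_blk.mp hp).1.1.le) M Λ Λ' Q Q' δ η ε ε₁ hη hηε (by push_cast; exact hη8) hε₁
    (SS ld 𝒜 Q₀ δ) (fun m i hi => hi.1.mono hQ₀ le_rfl) γ₁ γ₂ hγ₁.le hγ₂ ?_ ?_ L ?_
    ((4 : ℝ) ^ b) (fun p hp => by exact_mod_cast (mem_blk.mp hp).1.2) hL0 ?_ hL2 hM N hN hW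
  · intro x hx
    rw [hΛΛ] at hx
    refine hB₁ Λ' hΛ' γ₁ hγ₁ hγ₁1 δ hδ h1 x hx a b ha7 s1 hab _ (fun p => ?_) (fun p hp => ?_)
    · split_ifs <;> norm_num
    · rw [if_pos hp]
  · intro x hx
    rw [hQQ] at hx
    refine hB₁ Q' hQ' γ₁ hγ₁ hγ₁1 δ hδ h2 x hx a b ha7 s2 hab _ (fun p => ?_) (fun p hp => ?_)
    · split_ifs <;> norm_num
    · rw [if_pos hp]
  · intro n x hx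
    refine (near_ok ld t B₂ hB₂ u δ hu hu2 hδ hδ1 hδu 𝒜 v hv h𝒜 Λ' Q₀ (by linarith) a b ha7 hab s3 x
      (hx.mono hQB le_rfl) n _ (fun p => ?_) (fun p hp => ?_)).trans
      (mul_le_mul_of_nonneg_right hv2 hWn)
    · split_ifs <;> norm_num
    · rw [if_neg hp]
  · have hc := card_blk_le a b
    calc (1 + 2 * ((blk a b).card : ℝ)) * 4 ^ b ≤ (4 ^ b + 2 * 4 ^ b) * 4 ^ b := by gcongr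
      _ = 3 * ((4 : ℝ) ^ b) ^ 2 := by ring
      _ ≤ L := hL1

end Pool.Agent.Lib.MP_663568_nt.H6
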