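import Mathlib
import Pool.Agent.Lib.MP_663568_h6.IncrQ

/-!
# The chain of increments, for given constants
-/

set_option autoImplicit false
open Finset MeasureTheory

namespace Pool.Agent.Lib.MP_663568_nt.H6

open Katai Nul EqA

variable {ι : Type}

lemma le_three_sq (Z : ℝ) (h : 1 ≤ Z) : Z ≤ 3 * Z ^ 2 := by nlinarith

lemma le_two_mul_div (L p : ℕ) (hp : 0 < p) (h : 1 ≤ L / p) : L ≤ 2 * p * (L / p) := by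
  have h1 : L < p * (L / p + 1) := by
    have := Nat.lt_div_mul_add hp (a := L)
    linarith [mul_comm p (L / p)]
  nlinarith

/-- **The chain of increments, for given constants.** -/
theorem chain_aux (F : ι → ℕ → ℂ) (ld : ι → ℝ) (t : ℕ) (hF : ∀ i n, ‖F i n‖ ≤ 1)
    (hdil : Dil1 F ld t) (B₁ : ℕ)
    (hB₁ : ∀ Λ : ℝ, 1 ≤ Λ → ∀ γ : ℝ, 0 < γ → γ ≤ 1 →
    ∀ δ : ℝ, 0 < δ → B₁ * Λ * δ ≤ γ → ∀ x : ℝ, Sq (B₁ * (Λ / γ) ^ B₁) δ x → ∀ a b : ℕ, 7 ≤ a →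
    (B₁ : ℝ) * (Λ / (γ * δ)) ^ B₁ ≤ (4 : ℝ) ^ a → a ≤ b →
    ∀ f : ℕ → ℝ, (∀ p : ℕ, f p ≤ 1) → (∀ p : ℕ, Sq Λ δ ((p : ℝ) ^ t * x) → f p ≤ 0) →
      ∑ p ∈ blk a b, (1 / (p : ℝ)) * f p ≤ γ * WW (blk a b))
    (B₂ : ℕ)
    (hB₂ : ∀ u : ℝ, 0 < u → u ≤ 1 / 2 →
    ∀ δ : ℝ, 0 < δ → δ ≤ 1 → ∀ β : ℝ, Sq (B₂ * (1 / u) ^ B₂) δ β → ∀ a b : ℕ, 7 ≤ a →
    (B₂ : ℝ) * (1 / (u * δ)) ^ B₂ ≤ (4 : ℝ) ^ a → a ≤ b → ∀ (E : ℕ → Set ℝ) (v : ℝ), 0 ≤ v →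
      (∀ j, volume {y : ℝ | y ∈ Set.Icc (0 : ℝ) 1 ∧ ∃ x ∈ E j, nd (x - y) ≤ u} ≤
        ENNReal.ofReal v) →
      ∀ (n : ℕ) (f : ℕ → ℝ), (∀ p : ℕ, f p ≤ 1) →
        (∀ p : ℕ, (p : ℝ) ^ t * β ∉ E (Nat.log 4 (n / p)) → f p ≤ 0) →
        ∑ p ∈ blk a b, (1 / (p : ℝ)) * f p ≤ B₂ * v * WW (blk a b))
    (al : ℕ → ℂ) (hal : ∀ n, ‖al n‖ ≤ 1) (hmul : Mult al)
    (u δ : ℝ) (hu : 0 < u) (hu2 : u ≤ 1 / 2) (hδ : 0 < δ) (hδ1 : δ ≤ 1) (hδu : δ ≤ u)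
    (𝒜 : ℕ → Set ℝ) (v : ℝ) (hv : 0 ≤ v)
    (h𝒜 : ∀ j, volume {y : ℝ | y ∈ Set.Icc (0 : ℝ) 1 ∧ ∃ α ∈ 𝒜 j, nd (α - y) ≤ 2 * u} ≤
        ENNReal.ofReal v)
    (γ₁ γ₂ : ℝ) (hγ₁ : 0 < γ₁) (hγ₁1 : γ₁ ≤ 1) (hγ₂ : 0 ≤ γ₂)
    (Λ Q : ℕ → ℝ) (Λ₀ Q₀ Q₁ : ℝ) (hQQ : Q₀ ≤ Q₁) (J : ℕ)
    (hΛ : ∀ k, 1 ≤ Λ k ∧ Λ k ≤ Λ₀) (hQ : ∀ k, 1 ≤ Q k ∧ Q k ≤ Q₀ ∧ B₂ * (1 / u) ^ B₂ ≤ Q k)
    (hΛs : ∀ k, k < J → Λ k = B₁ * (Λ (k + 1) / γ₁) ^ B₁)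
    (hQs : ∀ k, k < J → Q k = B₁ * (Q (k + 1) / γ₁) ^ B₁)
    (hlow : ∀ x : ℝ, x ≤ Λ₀ + Q₀ → B₁ * x * δ ≤ γ₁)
    (hv2 : B₂ * (Λ₀ ^ 2 * (2 * v)) ≤ γ₂)
    (a b : ℕ) (ha7 : 7 ≤ a) (hab : a ≤ b)
    (hsx : ∀ x : ℝ, 0 ≤ x → x ≤ Λ₀ + Q₀ → (B₁ : ℝ) * (x / (γ₁ * δ)) ^ B₁ ≤ (4 : ℝ) ^ a)
    (hs3 : (B₂ : ℝ) * (1 / (u * δ)) ^ B₂ ≤ (4 : ℝ) ^ a)
    (M : ℕ) (η ε₁ d₀ : ℝ) (hη : 0 < η) (hJη : J * η ≤ ε₁) (hη8 : 8 / η ≤ (4 : ℝ) ^ a)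
    (Z X₀ : ℝ) (hZ : Z = (4 : ℝ) ^ b) (hX1 : 3 * Z ^ 2 ≤ X₀) (hX2 : 12 * Z / η ≤ X₀)
    (hX3 : 1 ≤ X₀)
    (hcnt : ∀ k, k < J → ∀ L n : ℕ, X₀ ≤ L →
      cnt1 F ld al M (Λ k) (Q k) δ (ε₁ - k * η) n L + 1 ≤ M)
    (H N : ℕ) (hXH : (2 * Z) ^ J * X₀ ≤ H) (hZN : Z ≤ N) (hW : 0 < WW (blk a b))
    (herr : (1 + Real.log N) * (M * γ₂ + (M + 1) * (M * (8 / η ^ 2) / WW (blk a b) +
          (M + M ^ 2) * γ₁)) + (M + 1) * (Real.log Z + 3) ≤ d₀ / 2 * Real.log N)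
    (hY : ∀ L : ℕ, 0 < L → L ≤ H → (H : ℝ) ≤ (2 * Z) ^ J * L →
      d₀ * Real.log N ≤ Ys F al (SS ld 𝒜 Q₁ δ) ε₁ N L) :
    ∀ k : ℕ, k ≤ J → ∃ L : ℕ, L ≤ H ∧ (H : ℝ) ≤ (2 * Z) ^ k * L ∧
      k * (d₀ / 2 * Real.log N) ≤ Xs F ld al M (Λ k) (Q k) δ (ε₁ - k * η) N L := by
  classical
  have hZ1 : 1 ≤ Z := by rw [hZ]; exact one_le_pow₀ (by norm_num)
  intro k
  induction k with
  | zero =>
    intro _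
    refine ⟨H, le_rfl, by simp, ?_⟩
    have : 0 ≤ Xs F ld al M (Λ 0) (Q 0) δ (ε₁ - ((0 : ℕ) : ℝ) * η) N H :=
      sum_nonneg fun n _ => by positivity
    simpa using this
  | succ k ih =>
    intro hk
    obtain ⟨L, hL1, hL2, hL3⟩ := ih (by omega)
    have hkJ : k < J := by omega
    -- the window is long
    have hXL : X₀ ≤ L := by
      have h1 : (2 * Z) ^ k ≤ (2 * Z) ^ J := pow_le_pow_right₀ (by linarith) hkJ.le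
      have h2 : (0 : ℝ) < (2 * Z) ^ k := by positivity
      have h3 : (2 * Z) ^ k * X₀ ≤ (2 * Z) ^ k * L := by
        refine le_trans ?_ hL2
        refine le_trans ?_ hXH
        exact mul_le_mul_of_nonneg_right h1 (by linarith)
      exact le_of_mul_le_mul_left h3 h2
    have hL0 : 0 < L := by
      have : (0 : ℝ) < L := by linarith
      exact_mod_cast this
    have hkη : ((k : ℝ) + 1) * η ≤ ε₁ := by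
      refine le_trans ?_ hJη
      have : (k : ℝ) + 1 ≤ J := by exact_mod_cast hk
      exact mul_le_mul_of_nonneg_right this hη.le
    have hv3 : B₂ * (Λ (k + 1) ^ 2 * (2 * v)) ≤ γ₂ := by
      refine le_trans ?_ hv2
      have h1 := (hΛ (k + 1)).1
      have h2 := (hΛ (k + 1)).2
      gcongr
    have hΛl := (hΛ (k + 1)).2
    have hQl := (hQ (k + 1)).2.1
    have hΛl1 := (hΛ (k + 1)).1
    have hQl1 := (hQ (k + 1)).1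
    have hst := step_lev F ld t hF hdil B₁ hB₁ B₂ hB₂ al hal hmul u δ hu hu2 hδ hδ1 hδu 𝒜 v hv h𝒜
      γ₁ γ₂ hγ₁ hγ₁1 hγ₂ (Λ k) (Q k) (Λ (k + 1)) (Q (k + 1)) Q₁ hΛl1 hQl1
      (hQl.trans hQQ) (hΛs k hkJ) (hQs k hkJ) (hlow _ (by linarith)) (hlow _ (by linarith))
      hv3 (hQ k).2.2 a b ha7 hab (hsx _ (by linarith) (by linarith))
      (hsx _ (by linarith) (by linarith)) hs3 M η (ε₁ - k * η) ε₁ hη (by linarith) hη8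
      (by
        have : 0 ≤ (k : ℝ) * η := by positivity
        linarith) L hL0 (by rw [← hZ]; exact hX1.trans hXL) (by rw [← hZ]; exact hX2.trans hXL)
      (fun n => hcnt k hkJ L n hXL) N (by rw [← hZ]; exact hZN) hW
    obtain ⟨p, hp, hst⟩ := hst
    rw [mem_blk] at hp
    have hp0 : 0 < p := hp.2.pos
    have hpZ : (p : ℝ) ≤ Z := by rw [hZ]; exact_mod_cast hp.1.2
    have hZL : Z ≤ L := by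
      exact (le_three_sq Z hZ1).trans (hX1.trans hXL)
    have hpL : p ≤ L := by exact_mod_cast hpZ.trans hZL
    have hq1 : 1 ≤ L / p := (Nat.one_le_div_iff hp0).mpr hpL
    have hLp : (L : ℝ) ≤ 2 * Z * ((L / p : ℕ) : ℝ) := by
      have h2 := le_two_mul_div L p hp0 hq1
      calc (L : ℝ) ≤ 2 * p * ((L / p : ℕ) : ℝ) := by exact_mod_cast h2
        _ ≤ _ := by gcongr
    have hL2' : (H : ℝ) ≤ (2 * Z) ^ (k + 1) * ((L / p : ℕ) : ℝ) := by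
      calc (H : ℝ) ≤ (2 * Z) ^ k * L := hL2
        _ ≤ (2 * Z) ^ k * (2 * Z * ((L / p : ℕ) : ℝ)) := by gcongr
        _ = _ := by rw [pow_succ]; ring
    have hLH : L / p ≤ H := (Nat.div_le_self _ _).trans hL1
    have hYL := hY (L / p) hq1 hLH (by
      refine hL2'.trans ?_
      have h1 : (2 * Z) ^ (k + 1) ≤ (2 * Z) ^ J := pow_le_pow_right₀ (by linarith) hk
      gcongr)
    refine ⟨L / p, hLH, hL2', ?_⟩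
    have e : ε₁ - k * η - η = ε₁ - ((k + 1 : ℕ) : ℝ) * η := by push_cast; ring
    rw [e, ← hZ] at hst
    have e2 : ((k + 1 : ℕ) : ℝ) * (d₀ / 2 * Real.log N) =
        k * (d₀ / 2 * Real.log N) + d₀ / 2 * Real.log N := by push_cast; ring
    rw [e2]
    linarith

end Pool.Agent.Lib.MP_663568_nt.H6
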