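import Mathlib
import Pool.Agent.Lib.MP_663568_h6.MainQ
import Pool.Agent.Lib.MP_663568_h6.PolyB

/-!
# The constants of the chain of increments
-/

set_option autoImplicit false
open Finset MeasureTheory

namespace Pool.Agent.Lib.MP_663568_nt.H6

open Katai Nul EqA

lemma err_one (M : ℕ) (d₀ γ₂ : ℝ) (hd : 0 < d₀) (h : γ₂ = d₀ / (16 * (M + 1))) :
    (M : ℝ) * γ₂ ≤ d₀ / 16 := by
  have hM : (0 : ℝ) ≤ M := Nat.cast_nonneg _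
  rw [h, ← mul_div_assoc, div_le_div_iff₀ (by positivity) (by norm_num)]
  nlinarith

lemma err_two (M : ℕ) (d₀ η W₀ W : ℝ) (hd : 0 < d₀) (hη : 0 < η)
    (h : W₀ = 128 * ((M : ℝ) + 1) ^ 2 / (η ^ 2 * d₀)) (hW : W₀ ≤ W) :
    ((M : ℝ) + 1) * (M * (8 / η ^ 2) / W) ≤ d₀ / 16 := by
  have hM : (0 : ℝ) ≤ M := Nat.cast_nonneg _
  have hW₀ : 0 < W₀ := by rw [h]; positivity
  calc ((M : ℝ) + 1) * (M * (8 / η ^ 2) / W) ≤ ((M : ℝ) + 1) * (M * (8 / η ^ 2) / W₀) := by gcongr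
    _ = (M / (M + 1)) * (d₀ / 16) := by rw [h]; field_simp; ring
    _ ≤ 1 * (d₀ / 16) := by
        apply mul_le_mul_of_nonneg_right _ (by positivity)
        rw [div_le_one (by positivity)]
        linarith
    _ = _ := one_mul _

lemma err_three (M : ℕ) (d₀ γ₁ : ℝ) (hd : 0 < d₀) (h : γ₁ ≤ d₀ / (16 * ((M : ℝ) + 1) ^ 3)) :
    ((M : ℝ) + 1) * ((M + M ^ 2) * γ₁) ≤ d₀ / 16 := by
  have hM : (0 : ℝ) ≤ M := Nat.cast_nonneg _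
  calc ((M : ℝ) + 1) * ((M + M ^ 2) * γ₁) = (M * ((M : ℝ) + 1) ^ 2) * γ₁ := by ring
    _ ≤ (M * ((M : ℝ) + 1) ^ 2) * (d₀ / (16 * ((M : ℝ) + 1) ^ 3)) := by gcongr
    _ = (M / (M + 1)) * (d₀ / 16) := by field_simp
    _ ≤ 1 * (d₀ / 16) := by
        apply mul_le_mul_of_nonneg_right _ (by positivity)
        rw [div_le_one (by positivity)]
        linarith
    _ = _ := one_mul _

lemma err_all (M : ℕ) (d₀ γ₁ γ₂ e : ℝ) (E₂ : ℕ) (l z : ℝ) (hd : 0 < d₀)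
    (h1 : (M : ℝ) * γ₂ ≤ d₀ / 16) (h2 : ((M : ℝ) + 1) * e ≤ d₀ / 16)
    (h3 : ((M : ℝ) + 1) * ((M + M ^ 2) * γ₁) ≤ d₀ / 16) (hl : 1 ≤ l)
    (hE : 8 * ((M : ℝ) + 1) / d₀ ≤ E₂) (hz : (E₂ : ℝ) * (z + 3) ≤ l) (hz0 : 0 ≤ z) :
    (1 + l) * (M * γ₂ + (M + 1) * (e + (M + M ^ 2) * γ₁)) + (M + 1) * (z + 3) ≤ d₀ / 2 * l := by
  have h4 : (M : ℝ) * γ₂ + (M + 1) * (e + (M + M ^ 2) * γ₁) ≤ 3 * d₀ / 16 := by
    rw [mul_add]; linarith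
  have h5 : (1 + l) * (M * γ₂ + (M + 1) * (e + (M + M ^ 2) * γ₁)) ≤ (2 * l) * (3 * d₀ / 16) := by
    calc _ ≤ (1 + l) * (3 * d₀ / 16) := mul_le_mul_of_nonneg_left h4 (by linarith)
      _ ≤ _ := mul_le_mul_of_nonneg_right (by linarith) (by positivity)
  have h6 : ((M : ℝ) + 1) * (z + 3) ≤ d₀ / 8 * l := by
    rw [div_le_iff₀ hd] at hE
    have h7 : 8 * (((M : ℝ) + 1) * (z + 3)) ≤ d₀ * l := by
      calc 8 * (((M : ℝ) + 1) * (z + 3)) = (8 * ((M : ℝ) + 1)) * (z + 3) := by ring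
        _ ≤ (E₂ * d₀) * (z + 3) := mul_le_mul_of_nonneg_right hE (by linarith)
        _ = d₀ * (E₂ * (z + 3)) := by ring
        _ ≤ _ := mul_le_mul_of_nonneg_left hz hd.le
    linarith
  have h8 : 0 ≤ d₀ * l := by positivity
  linarith

lemma x_one (Z η A y : ℝ) (hZ : 0 ≤ Z) (hη : 0 < η) (hA : 0 ≤ A) (hy : 0 ≤ y) :
    3 * Z ^ 2 ≤ 3 * Z ^ 2 + 12 / η * Z + A * y + 1 := by
  have h1 : 0 ≤ 12 / η * Z := by positivity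
  have h2 : 0 ≤ A * y := by positivity
  linarith

lemma x_two (Z η A y : ℝ) (hA : 0 ≤ A) (hy : 0 ≤ y) :
    12 * Z / η ≤ 3 * Z ^ 2 + 12 / η * Z + A * y + 1 := by
  have h1 : 0 ≤ Z ^ 2 := by positivity
  have h2 : 0 ≤ A * y := by positivity
  have e : 12 * Z / η = 12 / η * Z := by ring
  linarith

lemma x_three (Z η A y δ : ℝ) (hZ : 0 ≤ Z) (hη : 0 < η) (hA : 0 ≤ A)
    (hy : 1 / δ ≤ y) : A / δ ≤ 3 * Z ^ 2 + 12 / η * Z + A * y + 1 := by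
  have h1 : 0 ≤ Z ^ 2 := by positivity
  have h2 : 0 ≤ 12 / η * Z := by positivity
  have e : A / δ = A * (1 / δ) := by ring
  have h3 : A * (1 / δ) ≤ A * y := mul_le_mul_of_nonneg_left hy hA
  linarith

lemma final_contra (M J : ℕ) (d₀ l X : ℝ) (hl : 3 ≤ l)
    (hJ : 2 * ((M : ℝ) + 1) ≤ J * (d₀ / 2)) (h1 : X ≤ (1 + l) * M)
    (h2 : J * (d₀ / 2 * l) ≤ X) : False := by
  have h3 : 2 * ((M : ℝ) + 1) * l ≤ J * (d₀ / 2) * l := mul_le_mul_of_nonneg_right hJ (by linarith)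
  nlinarith

/-- the size of the block of primes -/
noncomputable def xbF (B₁ B₂ Km : ℕ) (γ₁ y : ℝ) : ℝ :=
  B₁ * ((Km * y ^ Km) * y * (1 / γ₁)) ^ B₁ + B₂ * y ^ B₂

/-- the size of the largest prime -/
noncomputable def ZbF (s₁ E : ℕ) (x : ℝ) : ℝ := ((4 : ℝ) ^ (9 + s₁) * (x + 1)) ^ E

/-- the length of the shortest window -/
noncomputable def XbF (Z η A y : ℝ) : ℝ := 3 * Z ^ 2 + 12 / η * Z + A * y + 1

lemma pb_all (B₁ B₂ : ℕ) (hB₁ : 1 ≤ B₁) (γ₁ Λ₀ η A : ℝ) (hγ₁ : 0 < γ₁) (hγ₁1 : γ₁ ≤ 1)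
    (hΛ₀ : 0 ≤ Λ₀) (hη : 0 < η)
    (hA : 0 ≤ A) (J s₁ E E₂ : ℕ) : ∃ Km K : ℕ, 1 ≤ K ∧
      (∀ w : ℝ, 1 ≤ w → Λ₀ + lev B₁ γ₁ (B₂ * w ^ B₂) J ≤ Km * w ^ Km ∧
        (B₁ / γ₁ : ℝ) * (Km * w ^ Km) ≤ K * w ^ K ∧ (Km : ℝ) * w ^ Km ≤ K * w ^ K) ∧
      ∀ y : ℝ, 1 ≤ y →
        (2 * ZbF s₁ E (xbF B₁ B₂ Km γ₁ y)) ^ J * XbF (ZbF s₁ E (xbF B₁ B₂ Km γ₁ y)) η A y ≤
          K * y ^ K ∧
        (27 * ZbF s₁ E (xbF B₁ B₂ Km γ₁ y)) ^ E₂ ≤ K * y ^ K := by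
  have pbm : PB (fun w => Λ₀ + lev B₁ γ₁ (B₂ * w ^ B₂) J) :=
    (PB.const Λ₀ hΛ₀).add
      (PB.lev B₁ γ₁ hγ₁ ((PB.const B₂ (Nat.cast_nonneg _)).mul (PB.idd.pow B₂)) J)
  obtain ⟨Km, hKm⟩ := pbm
  have pbx : PB (fun y => xbF B₁ B₂ Km γ₁ y) := by
    unfold xbF
    exact ((PB.const B₁ (Nat.cast_nonneg _)).mul ((((((PB.const Km (Nat.cast_nonneg _)).mul
      (PB.idd.pow Km))).mul PB.idd).mul (PB.const (1 / γ₁) (by positivity))).pow B₁)).add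
      ((PB.const B₂ (Nat.cast_nonneg _)).mul (PB.idd.pow B₂))
  have pbZ : PB (fun y => ZbF s₁ E (xbF B₁ B₂ Km γ₁ y)) := by
    unfold ZbF
    exact ((PB.const _ (by positivity)).mul (pbx.add (PB.const 1 (by norm_num)))).pow E
  have pb1 : PB (fun y => (B₁ / γ₁ : ℝ) * (Km * y ^ Km)) :=
    (PB.const _ (by positivity)).mul ((PB.const Km (Nat.cast_nonneg _)).mul (PB.idd.pow Km))
  have pb2 : PB (fun y => (2 * ZbF s₁ E (xbF B₁ B₂ Km γ₁ y)) ^ J *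
      XbF (ZbF s₁ E (xbF B₁ B₂ Km γ₁ y)) η A y) := by
    unfold XbF
    exact (((PB.const 2 (by norm_num)).mul pbZ).pow J).mul (((((PB.const 3 (by norm_num)).mul
      (pbZ.pow 2)).add ((PB.const (12 / η) (by positivity)).mul pbZ)).add
      ((PB.const A hA).mul PB.idd)).add (PB.const 1 (by norm_num)))
  have pb3 : PB (fun y => (27 * ZbF s₁ E (xbF B₁ B₂ Km γ₁ y)) ^ E₂) :=
    ((PB.const 27 (by norm_num)).mul pbZ).pow E₂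
  obtain ⟨k1, hk1⟩ := pb1
  obtain ⟨k2, hk2⟩ := pb2
  obtain ⟨k3, hk3⟩ := pb3
  have hKe : ∀ (k : ℕ), k ≤ 1 + k1 + k2 + k3 → ∀ x y : ℝ, 1 ≤ y → x ≤ k * y ^ k →
      x ≤ ((1 + k1 + k2 + k3 : ℕ) : ℝ) * y ^ (1 + k1 + k2 + k3) := by
    intro k hk x y hy hx
    refine hx.trans ?_
    have h1 : (k : ℝ) ≤ ((1 + k1 + k2 + k3 : ℕ) : ℝ) := by exact_mod_cast hk
    gcongr
  refine ⟨Km, 1 + k1 + k2 + k3, by omega, fun w hw => ⟨(hKm w hw).2,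
    hKe k1 (by omega) _ _ hw (hk1 w hw).2, ?_⟩,
    fun y hy => ⟨hKe k2 (by omega) _ _ hy (hk2 y hy).2, hKe k3 (by omega) _ _ hy (hk3 y hy).2⟩⟩
  refine le_trans ?_ (hKe k1 (by omega) _ _ hw (hk1 w hw).2)
  have hB₁r : (1 : ℝ) ≤ B₁ := by exact_mod_cast hB₁
  have h1 : 1 ≤ B₁ / γ₁ := by rw [le_div_iff₀ hγ₁]; linarith
  exact le_mul_of_one_le_left (by positivity) h1

lemma block_of (x : ℝ) (hx : 0 ≤ x) (s₁ E : ℕ) (hE : 1 ≤ E) (W₀ : ℝ)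
    (hElog : 8 * W₀ ≤ Real.log E) : ∃ a b : ℕ, s₁ + 7 ≤ a ∧ a ≤ b ∧ W₀ ≤ WW (blk a b) ∧
      x ≤ (4 : ℝ) ^ a ∧ (4 : ℝ) ^ b ≤ ZbF s₁ E x := by
  obtain ⟨s, hs, hs'⟩ := exists_four_pow x hx
  obtain ⟨a, ha⟩ : ∃ a : ℕ, a = s + 7 + s₁ := ⟨_, rfl⟩
  obtain ⟨b, hb⟩ : ∃ b : ℕ, b = E * (a + 1) := ⟨_, rfl⟩
  obtain ⟨hab, hWP⟩ := WW_blk_mul a E W₀ (by omega) hE hElog
  rw [← hb] at hab hWP
  refine ⟨a, b, by omega, hab, hWP, hs.trans ?_, ?_⟩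
  · apply pow_le_pow_right₀ (by norm_num); omega
  · rw [ZbF]
    have e : (4 : ℝ) ^ b = (4 ^ (8 + s₁) * 4 ^ s) ^ E := by
      rw [hb, ha, ← pow_add, ← pow_mul]; congr 1; ring
    rw [e]
    have h1 : (4 : ℝ) ^ (8 + s₁) * 4 ^ s ≤ 4 ^ (9 + s₁) * (x + 1) := by
      calc (4 : ℝ) ^ (8 + s₁) * 4 ^ s ≤ 4 ^ (8 + s₁) * (4 * (x + 1)) := by gcongr
        _ = _ := by rw [show 9 + s₁ = 8 + s₁ + 1 by omega, pow_succ]; ring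
    gcongr

lemma log_of (E₂ : ℕ) (hE₂ : 1 ≤ E₂) (Z N : ℝ) (hZ : 1 ≤ Z) (h : (27 * Z) ^ E₂ ≤ N) :
    Z ≤ N ∧ 3 ≤ Real.log N ∧ (E₂ : ℝ) * (Real.log Z + 3) ≤ Real.log N := by
  have hE₂r : (1 : ℝ) ≤ E₂ := by exact_mod_cast hE₂
  have hlogZ : 0 ≤ Real.log Z := Real.log_nonneg hZ
  have h1 : Real.log ((27 * Z) ^ E₂) ≤ Real.log N := Real.log_le_log (by positivity) h
  rw [Real.log_pow, Real.log_mul (by norm_num) (by linarith)] at h1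
  have h2 : 3 ≤ Real.log 27 := by
    rw [Real.le_log_iff_exp_le (by norm_num)]
    have h3 := Real.exp_one_lt_d9
    have e : Real.exp 3 = Real.exp 1 ^ 3 := by rw [← Real.exp_nat_mul]; norm_num
    rw [e]
    calc Real.exp 1 ^ 3 ≤ (3 : ℝ) ^ 3 := by
          apply pow_le_pow_left₀ (Real.exp_pos 1).le
          linarith
      _ = 27 := by norm_num
  have h3 : (E₂ : ℝ) * (Real.log Z + 3) ≤ Real.log N := by
    refine le_trans ?_ h1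
    apply mul_le_mul_of_nonneg_left _ (by linarith)
    linarith
  refine ⟨?_, ?_, h3⟩
  · refine le_trans ?_ h
    calc Z ≤ 27 * Z := by linarith
      _ ≤ (27 * Z) ^ E₂ := le_self_pow₀ (by linarith) (by omega)
  · refine le_trans ?_ h3
    calc (3 : ℝ) ≤ Real.log Z + 3 := by linarith
      _ ≤ E₂ * (Real.log Z + 3) := le_mul_of_one_le_left (by linarith) hE₂r

lemma xbF_nonneg (B₁ B₂ Km : ℕ) (γ₁ y : ℝ) (hγ₁ : 0 < γ₁) (hy : 0 ≤ y) :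
    0 ≤ xbF B₁ B₂ Km γ₁ y := by unfold xbF; positivity

lemma xb_one (B₁ B₂ Km : ℕ) (γ₁ y δ x : ℝ) (hγ₁ : 0 < γ₁) (hδ : 0 < δ) (hy : 0 ≤ y)
    (hδy : 1 / δ ≤ y) (hx0 : 0 ≤ x) (hx : x ≤ Km * y ^ Km) :
    (B₁ : ℝ) * (x / (γ₁ * δ)) ^ B₁ ≤ xbF B₁ B₂ Km γ₁ y := by
  rw [xbF]
  have h1 : x / (γ₁ * δ) ≤ Km * y ^ Km * y * (1 / γ₁) := by
    have e : x / (γ₁ * δ) = x * (1 / δ) * (1 / γ₁) := by field_simp
    rw [e]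
    gcongr
  have h3 : 0 ≤ (B₂ : ℝ) * y ^ B₂ := by positivity
  have h4 : 0 ≤ x / (γ₁ * δ) := by positivity
  have h5 : (B₁ : ℝ) * (x / (γ₁ * δ)) ^ B₁ ≤ B₁ * (Km * y ^ Km * y * (1 / γ₁)) ^ B₁ := by gcongr
  linarith

lemma xb_two (B₁ B₂ Km : ℕ) (γ₁ y : ℝ) (hγ₁ : 0 < γ₁) (hy : 0 ≤ y) :
    (B₂ : ℝ) * y ^ B₂ ≤ xbF B₁ B₂ Km γ₁ y := by
  rw [xbF]
  have h3 : 0 ≤ (B₁ : ℝ) * (Km * y ^ Km * y * (1 / γ₁)) ^ B₁ := by positivity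
  linarith

/-- relations between the parameters -/
lemma params (K : ℕ) (hK : 1 ≤ K) (u δ : ℝ) (hu : 0 < u) (hu2 : u ≤ 1 / 2) (hδ : 0 < δ)
    (hKδ : K * (1 / u) ^ K * δ ≤ 1) : δ ≤ u ∧ δ ≤ 1 ∧ 1 ≤ 1 / u ∧ 1 / u ≤ 1 / (u * δ) ∧
      1 / δ ≤ 1 / (u * δ) ∧ 1 ≤ 1 / (u * δ) := by
  have hw1 : 1 ≤ 1 / u := by rw [le_div_iff₀ hu]; linarith
  have hKr : (1 : ℝ) ≤ K := by exact_mod_cast hK
  have hwK : 1 / u ≤ K * (1 / u) ^ K := by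
    have h1 : 1 / u ≤ (1 / u) ^ K := le_self_pow₀ hw1 (by omega)
    exact h1.trans (le_mul_of_one_le_left (by positivity) hKr)
  have hwδ : 1 / u * δ ≤ 1 := le_trans (mul_le_mul_of_nonneg_right hwK hδ.le) hKδ
  have hδu : δ ≤ u := by
    rw [one_div_mul_eq_div, div_le_one hu] at hwδ
    exact hwδ
  have hδ1 : δ ≤ 1 := by linarith
  have huδ : 0 < u * δ := mul_pos hu hδ
  have hwy : 1 / u ≤ 1 / (u * δ) := by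
    apply div_le_div_of_nonneg_left (by norm_num) huδ
    exact mul_le_of_le_one_right hu.le hδ1
  refine ⟨hδu, hδ1, hw1, hwy, ?_, hw1.trans hwy⟩
  apply div_le_div_of_nonneg_left (by norm_num) huδ
  exact mul_le_of_le_one_left hδ.le (by linarith)

end Pool.Agent.Lib.MP_663568_nt.H6
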