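import Mathlib
import Pool.Agent.Lib.MP_663568_h6.ChainA
import Pool.Agent.Lib.MP_663568_h6.ConstQ

/-!
# The chain of increments
-/

set_option autoImplicit false
open Finset MeasureTheory

namespace Pool.Agent.Lib.MP_663568_nt.H6

open Katai Nul EqA

variable {ι : Type}

/-- **The chain of increments.** For some window length few windows correlate with a member with
frequency in the small sets. -/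
theorem incr (F : ι → ℕ → ℂ) (ld : ι → ℝ) (t : ℕ) (ht : 1 ≤ t)
    (hF : ∀ i n, ‖F i n‖ ≤ 1) (hdil : Dil1 F ld t)
    (hcorr : ∀ ε : ℝ, 0 < ε → ∃ C : ℕ, 1 ≤ C ∧ ∃ A : ℝ, 1 ≤ A ∧ CorrQ F ld ε C A)
    (ε₁ d₀ : ℝ) (hε₁ : 0 < ε₁) (hd₀ : 0 < d₀) :
    ∃ v : ℝ, 0 < v ∧ ∃ K : ℕ, 1 ≤ K ∧ ∀ al : ℕ → ℂ, (∀ n, ‖al n‖ ≤ 1) → Mult al →
      ∀ u δ : ℝ, 0 < u → u ≤ 1 / 2 → 0 < δ → K * (1 / u) ^ K * δ ≤ 1 →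
      ∀ H N : ℕ, (K : ℝ) * (1 / (u * δ)) ^ K ≤ H → H ≤ N → ∀ 𝒜 : ℕ → Set ℝ,
      (∀ j, volume {y : ℝ | y ∈ Set.Icc (0 : ℝ) 1 ∧ ∃ α ∈ 𝒜 j, nd (α - y) ≤ 2 * u} ≤
        ENNReal.ofReal v) →
      ∃ L : ℕ, 0 < L ∧ L ≤ H ∧ (H : ℝ) ≤ K * (1 / (u * δ)) ^ K * L ∧
        Ys F al (SS ld 𝒜 (K * (1 / u) ^ K) δ) ε₁ N L ≤ d₀ * Real.log N := by
  classical
  obtain ⟨B₁, hB₁1, hB₁⟩ := persistq t ht
  obtain ⟨B₂, hB₂1, hB₂⟩ := near_blocks t ht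
  obtain ⟨ε₀, hε₀⟩ : ∃ x : ℝ, x = ε₁ / 2 := ⟨_, rfl⟩
  have hε₀0 : 0 < ε₀ := by rw [hε₀]; positivity
  obtain ⟨C, hC1, A, hA1, hco⟩ := hcorr (ε₀ ^ 2 / 2) (by positivity)
  obtain ⟨M, hM⟩ : ∃ M : ℕ, M = ⌈2 / ε₀ ^ 2⌉₊ + 1 := ⟨_, rfl⟩
  have hM2 : 2 / ε₀ ^ 2 + 1 ≤ M := by
    rw [hM]; push_cast
    linarith [Nat.le_ceil (2 / ε₀ ^ 2)]
  clear hM
  have hM0 : (0 : ℝ) ≤ M := Nat.cast_nonneg _
  obtain ⟨J, hJ⟩ : ∃ J : ℕ, J = ⌈4 * ((M : ℝ) + 1) / d₀⌉₊ + 1 := ⟨_, rfl⟩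
  have hJ1 : (1 : ℝ) ≤ J := by
    rw [hJ]; push_cast; linarith [Nat.cast_nonneg (α := ℝ) ⌈4 * ((M : ℝ) + 1) / d₀⌉₊]
  have hJd : 2 * ((M : ℝ) + 1) ≤ J * (d₀ / 2) := by
    have h1 : 4 * ((M : ℝ) + 1) / d₀ ≤ J := by
      rw [hJ]; push_cast
      linarith [Nat.le_ceil (4 * ((M : ℝ) + 1) / d₀)]
    rw [div_le_iff₀ hd₀] at h1
    linarith
  clear hJ
  obtain ⟨η, hη⟩ : ∃ x : ℝ, x = ε₀ / J := ⟨_, rfl⟩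
  have hη0 : 0 < η := by rw [hη]; positivity
  have hJη : J * η = ε₀ := by rw [hη]; field_simp
  clear hη
  obtain ⟨γ₂, hγ₂⟩ : ∃ x : ℝ, x = d₀ / (16 * (M + 1)) := ⟨_, rfl⟩
  have hγ₂0 : 0 < γ₂ := by rw [hγ₂]; positivity
  obtain ⟨γ₁, hγ₁0, hγ₁1, hγ₁2⟩ : ∃ γ₁ : ℝ, 0 < γ₁ ∧ γ₁ ≤ 1 ∧
      γ₁ ≤ d₀ / (16 * ((M : ℝ) + 1) ^ 3) :=
    ⟨min 1 (d₀ / (16 * ((M : ℝ) + 1) ^ 3)), lt_min one_pos (by positivity), min_le_left _ _,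
      min_le_right _ _⟩
  obtain ⟨W₀, hW₀⟩ : ∃ x : ℝ, x = 128 * ((M : ℝ) + 1) ^ 2 / (η ^ 2 * d₀) := ⟨_, rfl⟩
  have hW₀0 : 0 < W₀ := by rw [hW₀]; positivity
  obtain ⟨E, hE1, hElog⟩ : ∃ E : ℕ, 1 ≤ E ∧ 8 * W₀ ≤ Real.log E := by
    have hEe : Real.exp (8 * W₀) ≤ ⌈Real.exp (8 * W₀)⌉₊ := Nat.le_ceil _
    refine ⟨⌈Real.exp (8 * W₀)⌉₊, ?_, ?_⟩
    · have : (0 : ℝ) < ⌈Real.exp (8 * W₀)⌉₊ := (Real.exp_pos _).trans_le hEe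
      exact_mod_cast this
    · have := Real.log_le_log (Real.exp_pos _) hEe
      rwa [Real.log_exp] at this
  obtain ⟨s₁, hs₁4⟩ : ∃ s₁ : ℕ, 8 / η ≤ (4 : ℝ) ^ s₁ := by
    refine ⟨⌈8 / η⌉₊, ?_⟩
    have h1 := Nat.le_ceil (8 / η)
    have h2 : ⌈8 / η⌉₊ < 4 ^ ⌈8 / η⌉₊ := Nat.lt_pow_self (by norm_num)
    have h3 : (⌈8 / η⌉₊ : ℝ) ≤ (4 : ℝ) ^ ⌈8 / η⌉₊ := by exact_mod_cast h2.le
    linarith
  obtain ⟨E₂, hE₂1, hE₂d⟩ : ∃ E₂ : ℕ, 1 ≤ E₂ ∧ 8 * ((M : ℝ) + 1) / d₀ ≤ E₂ := by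
    refine ⟨⌈8 * ((M : ℝ) + 1) / d₀⌉₊ + 1, by omega, ?_⟩
    push_cast
    linarith [Nat.le_ceil (8 * ((M : ℝ) + 1) / d₀)]
  have hCr : (1 : ℝ) ≤ C := by exact_mod_cast hC1
  obtain ⟨Λ₀, hΛ₀⟩ : ∃ x : ℝ, x = lev B₁ γ₁ C J := ⟨_, rfl⟩
  have hΛ₀1 : 1 ≤ Λ₀ := by rw [hΛ₀]; exact (lev_ge B₁ hB₁1 γ₁ C hγ₁0 hγ₁1 hCr J).1
  have hB₂r : (1 : ℝ) ≤ B₂ := by exact_mod_cast hB₂1
  obtain ⟨Km, K, hK1, hKw, hKy⟩ := pb_all B₁ B₂ hB₁1 γ₁ Λ₀ η A hγ₁0 hγ₁1 (by linarith) hη0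
    (by linarith) J s₁ E E₂
  refine ⟨γ₂ / (2 * B₂ * Λ₀ ^ 2), by positivity, K, hK1, ?_⟩
  intro al hal hmul u δ hu hu2 hδ hKδ H N hH hHN 𝒜 h𝒜
  obtain ⟨hδu, hδ1, hw1, hwy, hiδ, hy1⟩ := params K hK1 u δ hu hu2 hδ hKδ
  obtain ⟨y, hy⟩ : ∃ x : ℝ, x = 1 / (u * δ) := ⟨_, rfl⟩
  rw [← hy] at hwy hiδ hy1 hH ⊢
  obtain ⟨w, hw⟩ : ∃ x : ℝ, x = 1 / u := ⟨_, rfl⟩
  rw [← hw] at hw1 hwy hKδ ⊢
  obtain ⟨hm, hbig, hbig'⟩ := hKw w hw1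
  obtain ⟨hXH, h27⟩ := hKy y hy1
  clear hKw hKy hcorr
  have hB₁0 : (0 : ℝ) ≤ B₁ := Nat.cast_nonneg _
  -- the levels
  obtain ⟨q, hq⟩ : ∃ x : ℝ, x = B₂ * w ^ B₂ := ⟨_, rfl⟩
  have hq1 : 1 ≤ q := by
    rw [hq]
    exact one_le_mul_of_one_le_of_one_le hB₂r (one_le_pow₀ hw1)
  obtain ⟨Q₀, hQ₀⟩ : ∃ x : ℝ, x = lev B₁ γ₁ q J := ⟨_, rfl⟩
  rw [← hq, ← hQ₀] at hm
  have hmy : (Km : ℝ) * w ^ Km ≤ Km * y ^ Km := by gcongr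
  have hmδ : B₁ * (Km * w ^ Km) * δ ≤ γ₁ := by
    have h1 : (B₁ / γ₁ : ℝ) * (Km * w ^ Km) * δ ≤ 1 :=
      le_trans (mul_le_mul_of_nonneg_right hbig hδ.le) hKδ
    have e : (B₁ / γ₁ : ℝ) * (Km * w ^ Km) * δ = B₁ * (Km * w ^ Km) * δ / γ₁ := by ring
    rwa [e, div_le_one hγ₁0] at h1
  have hlow : ∀ x : ℝ, x ≤ Λ₀ + Q₀ → B₁ * x * δ ≤ γ₁ := by
    intro x hx
    refine le_trans ?_ hmδ
    exact mul_le_mul_of_nonneg_right (mul_le_mul_of_nonneg_left (hx.trans hm) hB₁0) hδ.le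
  -- the block of primes
  have hy0 : 0 ≤ y := by linarith
  obtain ⟨a, b, has, hab, hWP, hxa, hZZ⟩ := block_of (xbF B₁ B₂ Km γ₁ y)
    (xbF_nonneg B₁ B₂ Km γ₁ y hγ₁0 hy0) s₁ E hE1 W₀ hElog
  have hsx : ∀ x : ℝ, 0 ≤ x → x ≤ Λ₀ + Q₀ → (B₁ : ℝ) * (x / (γ₁ * δ)) ^ B₁ ≤ (4 : ℝ) ^ a :=
    fun x hx0 hx => (xb_one B₁ B₂ Km γ₁ y δ x hγ₁0 hδ hy0 hiδ hx0
      (hx.trans (hm.trans hmy))).trans hxa
  have hs3 : (B₂ : ℝ) * (1 / (u * δ)) ^ B₂ ≤ (4 : ℝ) ^ a := by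
    rw [← hy]
    exact (xb_two B₁ B₂ Km γ₁ y hγ₁0 hy0).trans hxa
  have hη8 : 8 / η ≤ (4 : ℝ) ^ a := by
    refine hs₁4.trans ?_
    apply pow_le_pow_right₀ (by norm_num); omega
  obtain ⟨Z, hZ⟩ : ∃ x : ℝ, x = (4 : ℝ) ^ b := ⟨_, rfl⟩
  have hZ1 : 1 ≤ Z := by rw [hZ]; exact one_le_pow₀ (by norm_num)
  obtain ⟨Zb, hZb⟩ : ∃ x : ℝ, x = ZbF s₁ E (xbF B₁ B₂ Km γ₁ y) := ⟨_, rfl⟩
  rw [← hZb] at hXH h27 hZZ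
  rw [← hZ] at hZZ
  -- lengths of the windows
  have hZ0 : 0 ≤ Z := by linarith
  have hZb0 : 0 ≤ Zb := by linarith
  have hA0 : 0 ≤ A := by linarith
  have hX₀1 : ∀ z : ℝ, 0 ≤ z → 1 ≤ XbF z η A y := by
    intro z hz
    rw [XbF]
    have h1 : 0 ≤ 3 * z ^ 2 + 12 / η * z + A * y := by positivity
    linarith
  have hXH' : (2 * Z) ^ J * XbF Z η A y ≤ K * y ^ K := by
    refine le_trans ?_ hXH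
    have h1 : XbF Z η A y ≤ XbF Zb η A y := by
      rw [XbF, XbF]
      gcongr
    have h2 := hX₀1 Z hZ0
    have h3 : 0 ≤ 2 * Zb := by linarith
    gcongr
  have hJK : (2 * Z) ^ J ≤ K * y ^ K :=
    (le_mul_of_one_le_right (pow_nonneg (by linarith) _) (hX₀1 Z hZ0)).trans hXH'
  have hHNr : (H : ℝ) ≤ N := by exact_mod_cast hHN
  have h27' : (27 * Z) ^ E₂ ≤ N := by
    refine le_trans ?_ (h27.trans (hH.trans hHNr))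
    gcongr
  obtain ⟨hZN, hlogN3, hlogN⟩ := log_of E₂ hE₂1 Z N hZ1 h27'
  have hWpos : 0 < WW (blk a b) := hW₀0.trans_le hWP
  have herr : (1 + Real.log N) * (M * γ₂ + (M + 1) * (M * (8 / η ^ 2) / WW (blk a b) +
          (M + M ^ 2) * γ₁)) + (M + 1) * (Real.log Z + 3) ≤ d₀ / 2 * Real.log N :=
    err_all M d₀ γ₁ γ₂ _ E₂ (Real.log N) (Real.log Z) hd₀ (err_one M d₀ γ₂ hd₀ hγ₂)
      (err_two M d₀ η W₀ _ hd₀ hη0 hW₀ hWP) (err_three M d₀ γ₁ hd₀ hγ₁2) (by linarith) hE₂d hlogN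
      (Real.log_nonneg hZ1)
  by_contra hcon
  push Not at hcon
  have hch := chain_aux F ld t hF hdil B₁ hB₁ B₂ hB₂ al hal hmul u δ hu hu2 hδ hδ1 hδu 𝒜
    (γ₂ / (2 * B₂ * Λ₀ ^ 2)) (by positivity) h𝒜 γ₁ γ₂ hγ₁0 hγ₁1 hγ₂0.le
    (fun k => lev B₁ γ₁ C (J - k)) (fun k => lev B₁ γ₁ q (J - k)) Λ₀ Q₀ (K * w ^ K)
    (by linarith) J
    (fun k => ⟨(lev_ge B₁ hB₁1 γ₁ C hγ₁0 hγ₁1 hCr _).1, by
      rw [hΛ₀]; exact lev_mono B₁ hB₁1 γ₁ C hγ₁0 hγ₁1 hCr (by omega)⟩)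
    (fun k => ⟨(lev_ge B₁ hB₁1 γ₁ q hγ₁0 hγ₁1 hq1 _).1, by
      rw [hQ₀]; exact lev_mono B₁ hB₁1 γ₁ q hγ₁0 hγ₁1 hq1 (by omega), by
      rw [← hw, ← hq]
      exact lev_mono B₁ hB₁1 γ₁ q hγ₁0 hγ₁1 hq1 (Nat.zero_le (J - k))⟩)
    (fun k hk => by
      rw [show J - k = (J - (k + 1)) + 1 by omega, lev])
    (fun k hk => by
      rw [show J - k = (J - (k + 1)) + 1 by omega, lev]) hlow
    (le_of_eq (by field_simp)) a b (by omega) hab hsx hs3 M η ε₁ d₀ hη0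
    (by rw [hJη, hε₀]; linarith) hη8 Z (XbF Z η A y) hZ
    (by rw [XbF]; exact x_one Z η A y hZ0 hη0 hA0 hy0)
    (by rw [XbF]; exact x_two Z η A y hA0 hy0) (hX₀1 Z hZ0)
    (fun k hk L n hL => by
      have h1 : A / δ ≤ L := by
        refine le_trans ?_ hL
        rw [XbF]
        exact x_three Z η A y δ hZ0 hη0 hA0 hiδ
      have hkη : ε₀ ≤ ε₁ - k * η := by
        have h2 : (k : ℝ) * η ≤ J * η := by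
          have : (k : ℝ) ≤ J := by exact_mod_cast hk.le
          exact mul_le_mul_of_nonneg_right this hη0.le
        rw [hJη] at h2
        linarith
      have hLpos : 0 < L := by
        have : (0 : ℝ) < L := by linarith [hX₀1 Z hZ0]
        exact_mod_cast this
      have h2 := sys1_card F ld al hF hal ε₀ hε₀0 C A hco (lev B₁ γ₁ C (J - k))
        (lev B₁ γ₁ q (J - k)) δ (ε₁ - k * η)
        (lev_mono B₁ hB₁1 γ₁ C hγ₁0 hγ₁1 hCr (Nat.zero_le (J - k))) hδ hδ1 hkη n L _ hLpos h1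
        (cnt1_sys F ld al M (lev B₁ γ₁ C (J - k)) (lev B₁ γ₁ q (J - k)) δ (ε₁ - k * η) n L)
      have h3 : ((cnt1 F ld al M (lev B₁ γ₁ C (J - k)) (lev B₁ γ₁ q (J - k)) δ
        (ε₁ - k * η) n L : ℕ) : ℝ) + 1 ≤ M := by linarith
      exact_mod_cast h3) H N (hXH'.trans hH) hZN hWpos herr
    (fun L hL0 hLH hL2 => by
      refine (hcon L hL0 hLH (hL2.trans ?_)).le
      exact mul_le_mul_of_nonneg_right hJK (Nat.cast_nonneg _)) J le_rfl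
  obtain ⟨L, hL1, hL2, hL3⟩ := hch
  refine final_contra M J d₀ (Real.log N) _ hlogN3 hJd ?_ hL3
  calc _ ≤ ∑ n ∈ Icc 1 N, (1 / (n : ℝ)) * M := by
        refine sum_le_sum fun n _ => mul_le_mul_of_nonneg_left ?_ (by positivity)
        exact_mod_cast cnt1_le _ _ _ _ _ _ _ _ _ _
    _ = (∑ n ∈ Icc 1 N, (1 / (n : ℝ))) * M := by rw [sum_mul]
    _ ≤ _ := mul_le_mul_of_nonneg_right (sum_inv_le_log N) hM0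

end Pool.Agent.Lib.MP_663568_nt.H6
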