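import Mathlib
import Pool.Agent.Lib.MP_663568_h6.UpQ
import Pool.Agent.Lib.MP_663568_h6.ChainQ

/-!
# Small sets of frequencies which depend on everything
-/

set_option autoImplicit false
open Finset MeasureTheory

namespace Pool.Agent.Lib.MP_663568_nt.H6

open Katai Nul EqA

variable {ι : Type}

/-- the members whose frequency is not in the major arcs and modulo `ℤ` in the set belonging to
`n` -/
def S0 (ld : ι → ℝ) (𝒜 : ℕ → Set ℝ) (Q δ : ℝ) (n : ℕ) : Set ι :=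
  {i | Sq Q δ (ld i) ∧ ∃ α ∈ 𝒜 (Nat.log 4 n), ∃ z : ℤ, ld i = α + z}

lemma S0_subset (ld : ι → ℝ) (𝒜 : ℕ → Set ℝ) (Q Q' δ δ' : ℝ) (hQ : Q' ≤ Q) (hδ : δ' ≤ δ)
    (n m : ℕ) (hn : 1 ≤ n) (h1 : n ≤ m) (h2 : m ≤ 4 * n) : S0 ld 𝒜 Q δ n ⊆ SS ld 𝒜 Q' δ' m := by
  rintro i ⟨hs, α, hα, z, hz⟩
  refine ⟨hs.mono hQ hδ, α, ?_, z, hz⟩
  have l1 : Nat.log 4 n ≤ Nat.log 4 m := Nat.log_mono_right h1
  have l2 : Nat.log 4 m ≤ Nat.log 4 n + 1 := by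
    have h3 : Nat.log 4 m ≤ Nat.log 4 (n * 4) := Nat.log_mono_right (by omega)
    rwa [Nat.log_mul_base (by norm_num) (by omega)] at h3
  have : Nat.log 4 m = Nat.log 4 n ∨ Nat.log 4 m - 1 = Nat.log 4 n := by omega
  rcases this with h | h
  · left; rw [h]; exact hα
  · right; rw [h]; exact hα

/-- the final numerical step -/
lemma fin_num (ε H L E lg : ℝ) (hε : 0 < ε) (hH : 0 ≤ H) (hL : 0 < L) (hLH : L ≤ ε / 8 * H)
    (hlg : 1 ≤ lg) (hlg2 : 32 / ε ≤ lg)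
    (hE : E ≤ L * (ε / 32 * (1 + lg) + ε / 32 * lg)) :
    ε / 8 * H * (1 + lg) + ((H / L) * (2 * (E + L)) + L * (1 + lg)) ≤ ε * H * lg := by
  have h1 : (H / L) * (2 * (E + L)) ≤ 2 * H * (3 * ε / 32 * lg + 1) := by
    have h2 : E + L ≤ L * (3 * ε / 32 * lg + 1) := by
      have : ε / 32 * (1 + lg) + ε / 32 * lg ≤ 3 * ε / 32 * lg := by nlinarith
      have := mul_le_mul_of_nonneg_left this hL.le
      linarith
    have h3 : 0 ≤ H / L := by positivity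
    calc (H / L) * (2 * (E + L)) ≤ (H / L) * (2 * (L * (3 * ε / 32 * lg + 1))) := by gcongr
      _ = _ := by field_simp
  have h2 : 2 * H ≤ ε / 16 * H * lg := by
    rw [div_le_iff₀ hε] at hlg2
    nlinarith
  have h3 : L * (1 + lg) ≤ ε / 4 * H * lg := by
    have h4 : 1 + lg ≤ 2 * lg := by linarith
    calc L * (1 + lg) ≤ (ε / 8 * H) * (2 * lg) := by gcongr
      _ = _ := by ring
  have h4 : ε / 8 * H * (1 + lg) ≤ ε / 4 * H * lg := by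
    have h5 : 0 ≤ ε / 8 * H := by positivity
    nlinarith
  have h5 : 0 ≤ ε * H * lg := by positivity
  nlinarith

/-- **Small sets of frequencies which depend on everything.** -/
theorem small_sets (F : ι → ℕ → ℂ) (ld : ι → ℝ) (t : ℕ) (ht : 1 ≤ t)
    (hF : ∀ i n, ‖F i n‖ ≤ 1) (hdil : Dil1 F ld t)
    (hcorr : ∀ ε : ℝ, 0 < ε → ∃ C : ℕ, 1 ≤ C ∧ ∃ A : ℝ, 1 ≤ A ∧ CorrQ F ld ε C A)
    (ε : ℝ) (hε : 0 < ε) :
    ∃ v : ℝ, 0 < v ∧ ∃ K : ℕ, 1 ≤ K ∧ ∀ al : ℕ → ℂ, (∀ n, ‖al n‖ ≤ 1) → Mult al →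
      ∀ u δ : ℝ, 0 < u → u ≤ 1 / 2 → 0 < δ → δ ≤ 1 →
      ∀ H N : ℕ, (K : ℝ) * (1 / (u * δ)) ^ K ≤ H → H ≤ N → ∀ 𝒜 : ℕ → Set ℝ,
      (∀ j, volume {y : ℝ | y ∈ Set.Icc (0 : ℝ) 1 ∧ ∃ α ∈ 𝒜 j, nd (α - y) ≤ 2 * u} ≤
        ENNReal.ofReal v) →
      ∑ n ∈ Icc 1 N, (1 / (n : ℝ)) * GS F al (S0 ld 𝒜 (K * (1 / u) ^ K) δ n) H n ≤
        ε * H * Real.log N := by
  -- it is enough to treat small `ε`
  obtain ⟨ε', hε'⟩ : ∃ ε' : ℝ, ε' = min 1 ε := ⟨_, rfl⟩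
  have hε'0 : 0 < ε' := by rw [hε']; exact lt_min one_pos hε
  have hε'1 : ε' ≤ 1 := by rw [hε']; exact min_le_left _ _
  have hε'2 : ε' ≤ ε := by rw [hε']; exact min_le_right _ _
  obtain ⟨v, hv, K₁, hK₁, hinc⟩ := incr F ld t ht hF hdil hcorr (ε' / 32) (ε' / 32) (by positivity)
    (by positivity)
  obtain ⟨D, hD, hsing⟩ := single_smallq F ld t ht hF hdil hcorr (ε' / 8) (by positivity)
  have hK₁r : (1 : ℝ) ≤ K₁ := by exact_mod_cast hK₁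
  -- the constant
  have pbs : PB (fun y => (8 / ε') * (K₁ * (K₁ * y ^ (K₁ + 1)) ^ K₁ + 1)) :=
    (PB.const _ (by positivity)).mul (((PB.const K₁ (by linarith)).mul
      (((PB.const K₁ (by linarith)).mul (PB.idd.pow (K₁ + 1))).pow K₁)).add
      (PB.const 1 (by norm_num)))
  obtain ⟨k, hk⟩ := pbs
  obtain ⟨T, hT⟩ : ∃ T : ℕ, T = ⌈Real.exp (32 / ε')⌉₊ := ⟨_, rfl⟩
  refine ⟨v, hv, k + K₁ + D + T, by omega, ?_⟩
  intro al hal hmul u δ hu hu2 hδ hδ1 H N hH hHN 𝒜 h𝒜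
  obtain ⟨K, hK⟩ : ∃ K : ℕ, K = k + K₁ + D + T := ⟨_, rfl⟩
  rw [← hK] at hH ⊢
  obtain ⟨w, hw⟩ : ∃ x : ℝ, x = 1 / u := ⟨_, rfl⟩
  obtain ⟨y, hy⟩ : ∃ x : ℝ, x = 1 / (u * δ) := ⟨_, rfl⟩
  rw [← hy] at hH
  rw [← hw]
  have hw1 : 1 ≤ w := by rw [hw, le_div_iff₀ hu]; linarith
  have huδ : 0 < u * δ := mul_pos hu hδ
  have hywδ : y = w * (1 / δ) := by rw [hy, hw]; field_simp
  have hiδ1 : 1 ≤ 1 / δ := by rw [le_div_iff₀ hδ]; linarith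
  have hwy : w ≤ y := by rw [hywδ]; exact le_mul_of_one_le_right (by linarith) hiδ1
  have hiδy : 1 / δ ≤ y := by rw [hywδ]; exact le_mul_of_one_le_left (by linarith) hw1
  have hy1 : 1 ≤ y := hw1.trans hwy
  have hKk : ∀ (c : ℕ) (z x : ℝ), 1 ≤ z → c ≤ K → x ≤ c * z ^ c → x ≤ K * z ^ K := by
    intro c z x hz hc hx
    refine hx.trans ?_
    have h1 : (c : ℝ) ≤ K := by exact_mod_cast hc
    gcongr
  -- the smaller separation
  obtain ⟨δ', hδ'⟩ : ∃ x : ℝ, x = δ / (K₁ * w ^ K₁) := ⟨_, rfl⟩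
  have hwK₁ : 0 < K₁ * w ^ K₁ := by positivity
  have hwK₁1 : 1 ≤ K₁ * w ^ K₁ := one_le_mul_of_one_le_of_one_le hK₁r (one_le_pow₀ hw1)
  have hδ'0 : 0 < δ' := by rw [hδ']; positivity
  have hδ'δ : δ' ≤ δ := by rw [hδ', div_le_iff₀ hwK₁]; exact le_mul_of_one_le_right hδ.le hwK₁1
  have hKδ' : K₁ * (1 / u) ^ K₁ * δ' ≤ 1 := by
    rw [← hw, hδ', mul_div_cancel₀ _ hwK₁.ne']; exact hδ1
  have hy' : 1 / (u * δ') ≤ K₁ * y ^ (K₁ + 1) := by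
    have e : 1 / (u * δ') = K₁ * (w ^ K₁ * y) := by
      rw [hδ', hywδ, hw]; field_simp
    rw [e, pow_succ]
    gcongr
  -- the smaller length
  obtain ⟨H', hH'⟩ : ∃ H' : ℕ, H' = ⌊ε' / 8 * H⌋₊ := ⟨_, rfl⟩
  have hHr0 : (0 : ℝ) ≤ H := Nat.cast_nonneg _
  have hH'le : (H' : ℝ) ≤ ε' / 8 * H := by rw [hH']; exact Nat.floor_le (by positivity)
  have hH'H : H' ≤ H := by
    have : (H' : ℝ) ≤ H := by nlinarith
    exact_mod_cast this
  have hbig := hKk k y _ hy1 (by omega) (hk y hy1).2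
  have hH'big : (K₁ : ℝ) * (1 / (u * δ')) ^ K₁ ≤ H' := by
    have h1 : ε' / 8 * H - 1 ≤ H' := by
      have := Nat.lt_floor_add_one (ε' / 8 * (H : ℝ))
      rw [← hH'] at this
      linarith
    refine le_trans ?_ h1
    have h2 : (8 / ε') * (K₁ * (K₁ * y ^ (K₁ + 1)) ^ K₁ + 1) ≤ H := hbig.trans hH
    have h3 : K₁ * (K₁ * y ^ (K₁ + 1)) ^ K₁ + 1 ≤ ε' / 8 * H := by
      rw [div_mul_eq_mul_div, div_le_iff₀ hε'0] at h2
      rw [div_mul_eq_mul_div, le_div_iff₀ (by norm_num)]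
      linarith
    have h4 : (K₁ : ℝ) * (1 / (u * δ')) ^ K₁ ≤ K₁ * (K₁ * y ^ (K₁ + 1)) ^ K₁ := by gcongr
    linarith
  obtain ⟨L, hL0, hLH', -, hYs⟩ := hinc al hal hmul u δ' hu hu2 hδ'0 hKδ' H' N hH'big
    (hH'H.trans hHN) 𝒜 h𝒜
  rw [← hw] at hYs
  have hL0r : (0 : ℝ) < L := by exact_mod_cast hL0
  have hLle : (L : ℝ) ≤ ε' / 8 * H := le_trans (by exact_mod_cast hLH') hH'le
  have hLH : L ≤ H := hLH'.trans hH'H
  have hH0 : 0 < H := by omega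
  -- the logarithm
  have hTN : Real.exp (32 / ε') ≤ N := by
    have h1 : Real.exp (32 / ε') ≤ T := by rw [hT]; exact Nat.le_ceil _
    have h2 : (T : ℝ) ≤ T * y ^ T := le_mul_of_one_le_right (Nat.cast_nonneg _) (one_le_pow₀ hy1)
    have h3 := hKk T y T hy1 (by omega) h2
    have h4 : (H : ℝ) ≤ N := by exact_mod_cast hHN
    linarith
  have hlg : 32 / ε' ≤ Real.log N := by
    have := Real.log_le_log (Real.exp_pos _) hTN
    rwa [Real.log_exp] at this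
  have hlg1 : 1 ≤ Real.log N := by
    refine le_trans ?_ hlg
    rw [le_div_iff₀ hε'0]; linarith
  -- the long range
  have hQK : (K₁ : ℝ) * w ^ K₁ ≤ K * w ^ K := hKk K₁ w _ hw1 (by omega) le_rfl
  have hup := up_sum F al hF hal (S0 ld 𝒜 (K * w ^ K) δ) (SS ld 𝒜 (K₁ * w ^ K₁) δ') H L N hL0 hLH
    hHN (fun n m h1 h2 h3 => S0_subset ld 𝒜 _ _ _ _ hQK hδ'δ n m (by omega) h2 h3)
  have hE := avg_of_Ys F al hF hal (SS ld 𝒜 (K₁ * w ^ K₁) δ') (ε' / 32) (by positivity) N L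
  have hE' : Es F al (SS ld 𝒜 (K₁ * w ^ K₁) δ') N L ≤
      L * (ε' / 32 * (1 + Real.log N) + ε' / 32 * Real.log N) := by
    refine hE.trans ?_
    apply mul_le_mul_of_nonneg_left _ hL0r.le
    linarith
  -- the short range
  have hDK : (D : ℝ) ≤ K * w ^ K :=
    hKk D w _ hw1 (by omega) (le_mul_of_one_le_right (Nat.cast_nonneg _) (one_le_pow₀ hw1))
  have hDH : (D : ℝ) / δ ≤ H := by
    refine le_trans ?_ hH
    refine hKk D y _ hy1 (by omega) ?_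
    have h1 : y ≤ y ^ D := le_self_pow₀ hy1 (by omega)
    calc (D : ℝ) / δ = D * (1 / δ) := by ring
      _ ≤ D * y ^ D := by gcongr; exact hiδy.trans h1
  have hshort : ∑ n ∈ Ico 1 H, (1 / (n : ℝ)) * GS F al (S0 ld 𝒜 (K * w ^ K) δ n) H n ≤
      ε' / 8 * H * (1 + Real.log N) := by
    have h1 : ∀ n ∈ Ico 1 H, (1 / (n : ℝ)) * GS F al (S0 ld 𝒜 (K * w ^ K) δ n) H n ≤
        (1 / (n : ℝ)) * (ε' / 8 * H) := by
      intro n hn
      rw [mem_Ico] at hn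
      refine mul_le_mul_of_nonneg_left ?_ (by positivity)
      rw [GS, GG]
      apply Real.iSup_le
      · rintro ⟨i, hi⟩
        have := hsing al hal hmul δ hδ hδ1 i (hi.1.mono hDK le_rfl) H n hDH hn.2.le
        rw [ws] at this
        exact this
      · positivity
    calc _ ≤ ∑ n ∈ Ico 1 H, (1 / (n : ℝ)) * (ε' / 8 * H) := sum_le_sum h1
      _ = ε' / 8 * H * ∑ n ∈ Ico 1 H, (1 / (n : ℝ)) := by rw [← sum_mul, mul_comm]
      _ ≤ ε' / 8 * H * (1 + Real.log N) := by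
          apply mul_le_mul_of_nonneg_left _ (by positivity)
          refine le_trans ?_ (sum_inv_le_log N)
          apply sum_le_sum_of_subset_of_nonneg
          · intro n hn; rw [mem_Ico] at hn; rw [mem_Icc]; omega
          · intro n _ _; positivity
  have e : ∑ n ∈ Icc 1 N, (1 / (n : ℝ)) * GS F al (S0 ld 𝒜 (K * w ^ K) δ n) H n =
      ∑ n ∈ Ico 1 H, (1 / (n : ℝ)) * GS F al (S0 ld 𝒜 (K * w ^ K) δ n) H n +
      ∑ n ∈ Icc H N, (1 / (n : ℝ)) * GS F al (S0 ld 𝒜 (K * w ^ K) δ n) H n := by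
    have h1 : ∀ A : ℕ, Icc A N = Ico A (N + 1) := by
      intro A; ext x; rw [mem_Icc, mem_Ico]; omega
    rw [h1, h1, sum_Ico_consecutive _ (by omega) (by omega)]
  rw [e]
  have hfin := fin_num ε' H L _ (Real.log N) hε'0 hHr0 hL0r hLle hlg1 hlg hE'
  calc _ ≤ _ := add_le_add hshort hup
    _ ≤ _ := hfin
    _ ≤ ε * H * Real.log N := by gcongr

end Pool.Agent.Lib.MP_663568_nt.H6
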