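import Mathlib
import Pool.Agent.Lib.MP_663568_nul.BoxSep

/-!
# Polynomial phases are small on boxes whose size is linear in the inverse of the separation
-/

set_option autoImplicit false
open Finset Polynomial

namespace Pool.Agent.Lib.MP_663568_nt.H6

open Katai Tw Nul

open BoxSepAux in
/-- The bound `C` for the denominators depends only on `η` (and on the degree), the size of the
boxes is at most `A / κ`. -/
theorem box_sepQ (n : ℕ) : ∀ η : ℝ, 0 < η → η ≤ 1 → ∃ C : ℕ, 1 ≤ C ∧ ∃ A : ℝ, 1 ≤ A ∧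
    ∀ κ : ℝ, 0 < κ → κ ≤ 1 →
    ∃ K : ℕ → ℕ, (∀ i, 0 < K i) ∧ (∀ i, (K i : ℝ) ≤ A / κ) ∧ ∀ P : ℝ[X], P.natDegree ≤ n + 1 →
      Sep C κ (P.coeff (n + 1)) → BoxSmall (n + 1) K η (fun m => ee (P.eval (m : ℝ))) := by
  induction n with
  | zero =>
    intro η hη hη1
    have hA1 : 1 ≤ 1 / (2 * η) + 2 := by
      have : 0 < 1 / (2 * η) := by positivity
      linarith
    refine ⟨1, le_rfl, 1 / (2 * η) + 2, hA1, fun κ hκ hκ1 => ?_⟩
    refine ⟨fun _ => ⌈1 / (2 * κ * η)⌉₊ + 1, fun _ => Nat.succ_pos _, fun _ => ?_, ?_⟩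
    · have h1 := (Nat.ceil_lt_add_one (show 0 ≤ 1 / (2 * κ * η) by positivity)).le
      push_cast
      rw [le_div_iff₀ hκ]
      have e : 1 / (2 * κ * η) * κ = 1 / (2 * η) := by field_simp
      nlinarith
    intro P hPd hsep
    refine boxSmall_one _ η hη.le _ fun l => ?_
    have h0 := hsep 1 (mem_Icc.mpr ⟨le_rfl, le_rfl⟩)
    simp only [Nat.cast_one, one_mul, zero_add] at h0
    have h1 : ∀ x : ℝ, P.eval x = P.coeff 1 * x + P.coeff 0 := by
      intro x
      rw [eval_eq_sum_range' (n := 2) (by omega)]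
      simp [sum_range_succ]; ring
    set L := ⌈1 / (2 * κ * η)⌉₊ + 1 with hL
    have h2 := geom_bound (P.coeff 1) (P.coeff 1 * l + P.coeff 0) L
    have h3 := nd_le_norm_one_sub_ee (P.coeff 1)
    have e : ∑ u ∈ Icc 1 L, ee (P.eval ((l + u : ℕ) : ℝ)) =
        ∑ u ∈ Icc 1 L, ee (P.coeff 1 * u + (P.coeff 1 * l + P.coeff 0)) := by
      refine sum_congr rfl fun u _ => ?_
      rw [h1]; congr 1; push_cast; ring
    rw [e]
    set s := ‖∑ u ∈ Icc 1 L, ee (P.coeff 1 * u + (P.coeff 1 * l + P.coeff 0))‖ with hs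
    have hs0 : 0 ≤ s := norm_nonneg _
    have h4 : 4 * κ * s ≤ 2 :=
      (mul_le_mul_of_nonneg_right (by linarith : 4 * κ ≤ ‖1 - ee (P.coeff 1)‖) hs0).trans h2
    have h5 : 1 / (2 * κ * η) ≤ (L : ℝ) := by
      refine (Nat.le_ceil _).trans ?_
      rw [hL]; push_cast; linarith
    rw [div_le_iff₀ (by positivity)] at h5
    have h6 : κ * s ≤ κ * (η * L) := by nlinarith
    exact le_of_mul_le_mul_left h6 hκ
  | succ n ih =>
    intro η hη hη1
    obtain ⟨C', hC'1, A₀, hA₀, hC'⟩ := ih (η ^ 2 / 4) (by positivity) (by nlinarith)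
    have hC'0 : (0 : ℝ) < C' := by exact_mod_cast hC'1
    set κv : ℝ := η ^ 2 / (16 * C') with hκv
    have hκv0 : 0 < κv := by positivity
    set κ' : ℝ := κv / 64 with hκ'
    have hκ'0 : 0 < κ' := by positivity
    have hκ'1 : κ' ≤ 1 := by
      have h1 : κv ≤ 1 := by
        rw [hκv, div_le_one (by positivity)]
        have : (1 : ℝ) ≤ C' := by exact_mod_cast hC'1
        nlinarith
      rw [hκ']; linarith
    set N : ℕ := ⌈6 / κv⌉₊ with hN
    have hN1 : 1 ≤ N := Nat.one_le_iff_ne_zero.mpr (Nat.ceil_pos.mpr (by positivity)).ne'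
    set A₁ : ℝ := A₀ / κ' + (4 / η ^ 2 + 4 / κv + κ' / κv + 3) with hA₁
    have hA₁1 : 1 ≤ A₁ := by
      have : 0 < A₀ / κ' := by positivity
      have : 0 < 4 / η ^ 2 + 4 / κv + κ' / κv := by positivity
      rw [hA₁]; linarith
    refine ⟨N * C' * (n + 2), ?_, A₁, hA₁1, fun κ hκ hκ1 => ?_⟩
    · exact Nat.one_le_iff_ne_zero.mpr (by positivity)
    obtain ⟨K₀, hK₀, hKA, hbox⟩ := hC' κ' hκ'0 hκ'1
    obtain ⟨R, hR, hRle⟩ : ∃ R : ℕ, max (4 / η ^ 2) (max (4 / κv) (κ' / (κv * κ) + 1)) ≤ R ∧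
        (R : ℝ) ≤ A₁ / κ := by
      refine ⟨⌈max (4 / η ^ 2) (max (4 / κv) (κ' / (κv * κ) + 1))⌉₊, Nat.le_ceil _, ?_⟩
      have h0 : 0 ≤ max (4 / η ^ 2) (max (4 / κv) (κ' / (κv * κ) + 1)) :=
        le_trans (by positivity) (le_max_left _ _)
      refine (Nat.ceil_lt_add_one h0).le.trans ?_
      have h1 : max (4 / η ^ 2) (max (4 / κv) (κ' / (κv * κ) + 1)) ≤
          4 / η ^ 2 + (4 / κv + (κ' / (κv * κ) + 1)) := by
        have p1 : 0 < 4 / η ^ 2 := by positivity
        have p2 : 0 < 4 / κv := by positivity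
        have p3 : 0 < κ' / (κv * κ) := by positivity
        apply max_le
        · linarith
        · apply max_le <;> linarith
      rw [le_div_iff₀ hκ]
      have e : κ' / (κv * κ) * κ = κ' / κv := by field_simp
      have p1 : 0 < 4 / η ^ 2 := by positivity
      have p2 : 0 < 4 / κv := by positivity
      have p4 : 0 < A₀ / κ' := by positivity
      have h2 : (4 / η ^ 2 + (4 / κv + (κ' / (κv * κ) + 1)) + 1) * κ ≤ A₁ := by
        have h3 : (4 / η ^ 2 + (4 / κv + (κ' / (κv * κ) + 1)) + 1) * κ =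
            4 / η ^ 2 * κ + 4 / κv * κ + κ' / κv + 2 * κ := by rw [← e]; ring
        rw [h3, hA₁]
        have h4 : 4 / η ^ 2 * κ ≤ 4 / η ^ 2 := mul_le_of_le_one_right p1.le hκ1
        have h5 : 4 / κv * κ ≤ 4 / κv := mul_le_of_le_one_right p2.le hκ1
        linarith
      nlinarith
    have hRa : 4 / η ^ 2 ≤ (R : ℝ) := (le_max_left _ _).trans hR
    have hRb : 4 / κv ≤ (R : ℝ) := (le_max_left _ _).trans ((le_max_right _ _).trans hR)
    have hRc : κ' / (κv * κ) < (R : ℝ) := by
      have := (le_max_right _ _).trans ((le_max_right _ _).trans hR)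
      linarith
    have hRr : (0 : ℝ) < R := lt_of_lt_of_le (by positivity) hRa
    have hR0 : 0 < R := by exact_mod_cast hRr
    refine ⟨Function.update K₀ (n + 1) R, ?_, ?_, ?_⟩
    · intro i
      by_cases hi : i = n + 1
      · rw [hi, Function.update_self]; exact hR0
      · rw [Function.update_of_ne hi]; exact hK₀ i
    · intro i
      by_cases hi : i = n + 1
      · rw [hi, Function.update_self]; exact hRle
      · rw [Function.update_of_ne hi]
        refine (hKA i).trans ?_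
        have p1 : 0 < 4 / η ^ 2 + 4 / κv + κ' / κv := by positivity
        have h1 : A₀ / κ' ≤ A₁ := by rw [hA₁]; linarith
        refine h1.trans ?_
        rw [le_div_iff₀ hκ]
        nlinarith
    intro P hPd hsep
    set γ : ℝ := P.coeff (n + 1 + 1) with hγ
    set g : ℝ := ((n : ℝ) + 2) * γ with hg
    have hcount : ∀ q ∈ Icc 1 C',
        (#((Icc 1 R).filter (fun h : ℕ => nd ((h : ℝ) * ((q : ℝ) * g)) ≤ κ')) : ℝ) ≤ κv * R := by
      intro q hq
      by_contra hcon
      push Not at hcon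
      obtain ⟨q₁, hq₁, hq₁', hnd⟩ := vino ((q : ℝ) * g) κv κ' R
        ((Icc 1 R).filter (fun h : ℕ => nd ((h : ℝ) * ((q : ℝ) * g)) ≤ κ')) (filter_subset _ _) hκv0
        (by rw [div_le_iff₀ hκv0] at hRb; linarith) hκ'0.le le_rfl hcon.le
        (fun h hh => (mem_filter.mp hh).2)
      rw [mem_Icc] at hq
      have hN' : q₁ ≤ N := by
        have : (q₁ : ℝ) ≤ N := hq₁'.trans (Nat.le_ceil _)
        exact_mod_cast this
      have hmem : q₁ * q * (n + 2) ∈ Icc 1 (N * C' * (n + 2)) := by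
        rw [mem_Icc]
        refine ⟨Nat.one_le_iff_ne_zero.mpr ?_, ?_⟩
        · have : q ≠ 0 := by omega
          have : q₁ ≠ 0 := by omega
          positivity
        · exact Nat.mul_le_mul (Nat.mul_le_mul hN' hq.2) le_rfl
      have h1 := hsep _ hmem
      have e : ((q₁ * q * (n + 2) : ℕ) : ℝ) * γ = (q₁ : ℝ) * ((q : ℝ) * g) := by
        rw [hg]; push_cast; ring
      rw [e] at h1
      have h2 : κ' / (κv * R) < κ := by
        rw [div_lt_iff₀ (by positivity)] at hRc ⊢
        linarith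
      linarith
    have hKn : (Function.update K₀ (n + 1) R) (n + 1) = R := Function.update_self _ _ _
    classical
    refine boxSmall_succ_bad (n + 1) _ η (η ^ 2 / 4) (1 / (R : ℝ) + η ^ 2 / 8) hη.le _
      (fun m => (norm_ee _).le) ?_ (by positivity)
      (fun u v => u = v ∨ ∃ q ∈ Icc 1 C', nd ((q : ℝ) * (((u : ℝ) - v) * g)) < κ') ?_ ?_
    · have : 1 / (R : ℝ) ≤ η ^ 2 / 4 := by
        rw [div_le_iff₀ (by positivity)] at hRa
        rw [div_le_iff₀ hRr]
        nlinarith
      nlinarith [sq_nonneg η]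
    · rw [hKn]
      refine le_trans (le_of_eq ?_) ((card_bad R C' κ' (κv * R) g hcount).trans (le_of_eq ?_))
      · congr
      rw [hκv]
      field_simp
      ring
    · rw [hKn]
      intro u hu v hv huv
      push Not at huv
      obtain ⟨huv, hq⟩ := huv
      have e : (fun m : ℕ => ee (P.eval ((m + u : ℕ) : ℝ)) *
          (starRingEnd ℂ) (ee (P.eval ((m + v : ℕ) : ℝ)))) =
          fun m : ℕ => ee ((P.comp (X + C (u : ℝ)) - P.comp (X + C (v : ℝ))).eval (m : ℝ)) := by
        funext m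
        rw [← ee_sub]; congr 1
        simp
      rw [e]
      refine boxSmall_mono_K _ K₀ _ _ _ (fun i hi => ?_) (hbox _ ?_ ?_)
      · rw [Function.update_of_ne (by omega)]
      · rw [natDegree_le_iff_coeff_eq_zero]
        intro N hN
        rw [coeff_sub]
        rcases Nat.lt_or_ge (n + 1 + 1) N with h | h
        · rw [coeff_eq_zero_of_natDegree_lt, coeff_eq_zero_of_natDegree_lt, sub_zero]
          · exact (natDegree_shift P _ hPd _).trans_lt h
          · exact (natDegree_shift P _ hPd _).trans_lt h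
        · have : N = n + 1 + 1 := by omega
          rw [this, coeff_shift_top P _ hPd, coeff_shift_top P _ hPd, sub_self]
      · rw [coeff_sub, coeff_shift_next P (n + 1) hPd, coeff_shift_next P (n + 1) hPd]
        intro q hq'
        refine (hq q hq').trans (le_of_eq ?_)
        congr 1
        rw [hg, hγ]; push_cast; ring

end Pool.Agent.Lib.MP_663568_nt.H6
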