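import Mathlib
import Pool.Agent.Lib.MP_663568_h6.BoxSepQ
import Pool.Agent.Lib.MP_663568_nt_h86.Twist

/-!
# Correlations of dilated nilsequences twisted by polynomial phases, on windows whose length is
linear in the inverse of the separation
-/

set_option autoImplicit false
open Finset Polynomial

namespace Pool.Agent.Lib.MP_663568_nt.H6

open Katai Tw Nul

theorem corr_famQ {G : Type} [Group G] [TopologicalSpace G] [IsTopologicalGroup G]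
    (t : ℕ) (ht : 0 < t) (A : ℕ → Subgroup G) (hanti : Antitone A)
    (hcomm : ∀ i j, ⁅A i, A j⁆ ≤ A (i + j)) (h1 : A 1 = ⊤) (htA : A t = ⊥)
    (Γ : Subgroup G) (hΓ : IsClosed (Γ : Set G)) (hC : Coc A Γ)
    (f : G ⧸ Γ → ℂ) (hf : Continuous f) (hf1 : ∀ x, ‖f x‖ ≤ 1) (ε : ℝ) (hε : 0 < ε) :
    ∃ C : ℕ, 1 ≤ C ∧ ∃ B : ℝ, 1 ≤ B ∧ ∀ κ : ℝ, 0 < κ → κ ≤ 1 → ∀ L : ℕ, B / κ ≤ L →
      ∀ Q Q' : ℝ[X],
      Q.natDegree ≤ t → Q'.natDegree ≤ t → ∀ g x g' x' : G, ∀ p q j : ℕ,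
      Sep C κ ((p : ℝ) ^ t * Q.coeff t - (q : ℝ) ^ t * Q'.coeff t) →
      ‖∑ l ∈ Icc 1 L, (ee (Q.eval ((p * (j + l) : ℕ) : ℝ)) *
          f ((g ^ (p * (j + l)) * x : G) : G ⧸ Γ)) *
        (starRingEnd ℂ) (ee (Q'.eval ((q * (j + l) : ℕ) : ℝ)) *
          f ((g' ^ (q * (j + l)) * x' : G) : G ⧸ Γ))‖ ≤ ε * L := by
  obtain ⟨d, rfl⟩ : ∃ d, t = d + 1 := ⟨t - 1, by omega⟩
  set ε₁ : ℝ := min 1 (ε / 12) with hε₁
  have hε₁0 : 0 < ε₁ := lt_min one_pos (by positivity)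
  have hε₁1 : ε₁ ≤ 1 := min_le_left _ _
  have hε₁2 : ε₁ ≤ ε / 12 := min_le_right _ _
  obtain ⟨M, hM1, hM⟩ := dual_nil A hanti hcomm Γ hC h1 hΓ (d + 1) htA f hf ε₁ hε₁0
  have hM0 : 0 < M := by linarith
  set ε₂ : ℝ := min 1 (ε / (4 * (M * M))) with hε₂
  have hε₂0 : 0 < ε₂ := lt_min one_pos (by positivity)
  obtain ⟨C₀, hC₀1, B₀, hB₀, hC₀⟩ := box_sepQ d ε₂ hε₂0 (min_le_left _ _)
  refine ⟨C₀, hC₀1, 4 * ((d + 1 : ℕ) * B₀) / ε + 1, by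
    have : 0 < 4 * (((d + 1 : ℕ) : ℝ) * B₀) / ε := by positivity
    linarith, fun κ hκ hκ1 L hL Q Q' hQ hQ' g x g' x' p q j hsep => ?_⟩
  obtain ⟨K', hK'0, hKB, hbox⟩ := hC₀ κ hκ hκ1
  set S0 : ℝ := ∑ i ∈ range (d + 1), (K' i : ℝ) with hS0
  have hS00 : 0 ≤ S0 := sum_nonneg fun _ _ => Nat.cast_nonneg _
  have hS01 : S0 ≤ (d + 1 : ℕ) * (B₀ / κ) := by
    calc S0 ≤ ∑ i ∈ range (d + 1), B₀ / κ := sum_le_sum fun i _ => hKB i
      _ = _ := by rw [sum_const, card_range, nsmul_eq_mul]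
  have hLr : 4 * S0 / ε ≤ (L : ℝ) := by
    refine le_trans ?_ hL
    rw [div_le_iff₀ hε]
    have e : (4 * (((d + 1 : ℕ) : ℝ) * B₀) / ε + 1) / κ * ε =
        4 * (((d + 1 : ℕ) : ℝ) * (B₀ / κ)) + ε / κ := by field_simp
    rw [e]
    have : 0 < ε / κ := by positivity
    linarith
  have hLS : 2 * S0 ≤ ε / 2 * L := by
    rw [div_le_iff₀ hε] at hLr
    linarith
  obtain ⟨n1, c1⟩ := comp_dilate Q (d + 1) hQ p j
  obtain ⟨n2, c2⟩ := comp_dilate Q' (d + 1) hQ' q j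
  set R : ℝ[X] := Q.comp (C (p : ℝ) * (X + C (j : ℝ))) - Q'.comp (C (q : ℝ) * (X + C (j : ℝ)))
    with hR
  have hRd : R.natDegree ≤ d + 1 := (natDegree_sub_le _ _).trans (max_le n1 n2)
  have hRc : R.coeff (d + 1) = (p : ℝ) ^ (d + 1) * Q.coeff (d + 1) -
      (q : ℝ) ^ (d + 1) * Q'.coeff (d + 1) := by
    rw [hR, coeff_sub, c1, c2]
  have hRs : Sep C₀ κ (R.coeff (d + 1)) := by rw [hRc]; exact hsep
  have k1 := hM 1 (g ^ p) (g ^ (p * j) * x)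
  have k2 := (hM 1 (g' ^ q) (g' ^ (q * j) * x')).conj
  have k3 := k1.mul k2 (fun m => hf1 _) (fun m => by rw [RCLike.norm_conj]; exact hf1 _) hε₁0.le
  have k4 := dual_small (d + 1) K' hK'0 ε₂ (M * M) _ hε₂0.le
      (fun m => ee (R.eval (m : ℝ))) _ (fun m => (norm_ee _).le) (fun m => by
        rw [norm_mul, RCLike.norm_conj]
        exact mul_le_one₀ (hf1 _) (norm_nonneg _) (hf1 _)) (hbox R hRd hRs) k3 L
  simp only [one_mul] at k4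
  have k5 : M * M * ε₂ ≤ ε / 4 := by
    calc M * M * ε₂ ≤ M * M * (ε / (4 * (M * M))) :=
          mul_le_mul_of_nonneg_left (min_le_right _ _) (by positivity)
      _ = ε / 4 := by field_simp
  have k6 : ε₁ + ε₁ * (1 + ε₁) ≤ ε / 4 := by nlinarith
  have hL0 : (0 : ℝ) ≤ L := Nat.cast_nonneg _
  have h2 : ∀ l ∈ Icc 1 L, (ee (Q.eval ((p * (j + l) : ℕ) : ℝ)) *
          f ((g ^ (p * (j + l)) * x : G) : G ⧸ Γ)) *
        (starRingEnd ℂ) (ee (Q'.eval ((q * (j + l) : ℕ) : ℝ)) *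
          f ((g' ^ (q * (j + l)) * x' : G) : G ⧸ Γ)) =
      ee (R.eval (l : ℝ)) * (f (((g ^ p) ^ l * (g ^ (p * j) * x) : G) : G ⧸ Γ) *
        (starRingEnd ℂ) (f (((g' ^ q) ^ l * (g' ^ (q * j) * x') : G) : G ⧸ Γ))) := by
    intro l _
    rw [map_mul]
    have e1 : g ^ (p * (j + l)) * x = (g ^ p) ^ l * (g ^ (p * j) * x) := by
      rw [← mul_assoc, ← pow_mul, ← pow_add]; congr 2; ring
    have e2 : g' ^ (q * (j + l)) * x' = (g' ^ q) ^ l * (g' ^ (q * j) * x') := by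
      rw [← mul_assoc, ← pow_mul, ← pow_add]; congr 2; ring
    rw [e1, e2]
    have e3 : R.eval (l : ℝ) = Q.eval ((p * (j + l) : ℕ) : ℝ) - Q'.eval ((q * (j + l) : ℕ) : ℝ) := by
      rw [hR]; simp [add_comm]
    have e4 : ee (R.eval (l : ℝ)) = ee (Q.eval ((p * (j + l) : ℕ) : ℝ)) *
        (starRingEnd ℂ) (ee (Q'.eval ((q * (j + l) : ℕ) : ℝ))) := by rw [e3, ee_sub]
    rw [e4]
    ring
  rw [sum_congr rfl h2]
  refine k4.trans ?_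
  calc (L : ℝ) * (M * M * ε₂ + (ε₁ + ε₁ * (1 + ε₁))) + 2 * ∑ i ∈ range (d + 1), (K' i : ℝ)
      ≤ (L : ℝ) * (ε / 4 + ε / 4) + ε / 2 * L := by
        refine add_le_add (mul_le_mul_of_nonneg_left (by linarith) hL0) hLS
    _ = _ := by ring

end Pool.Agent.Lib.MP_663568_nt.H6
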